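import Pool.Agent.Lib.MP_dd84fd_nt.GX.Defs

/-!
# GX-Den (0.7 h): best denominators and heights

`qd_spec`: Dirichlet (`Real.exists_nat_abs_mul_sub_round_le` or `Real.exists_int_int_abs_mul_sub_le` with
`n = Nat.sqrt X`: some `1 ≤ q ≤ Nat.sqrt X` with `|q α - a| ≤ 1/(Nat.sqrt X + 1)`), so the set in `qd` is not
empty, `qd` is its least element (`Nat.sInf_mem`, `Nat.sInf_le`). gcd: if `g ≥ 2` divides `a = round (q α)`
and `q`, then `q/g` is in the set: `|(q/g) α - a/g| = nrm (q α)/g ≤ 1/(Nat.sqrt X + 1)`, contradiction.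
`ht_spec`: `X/(Nat.sqrt X + 1) ≤ Real.sqrt X` since `Real.sqrt X < Nat.sqrt X + 1` (`Real.lt_sqrt`...,
`Nat.lt_succ_sqrt`), and `Nat.sqrt X ≤ Real.sqrt X` (`Real.nat_sqrt_le_real_sqrt`).
`ht_large`: with `q = qd`, `a = round (q α)`: `q (1 + X |α - a/q|) = q + X nrm (q α) ≤ 2 ht`; if `2 ht ≤ H`
this is `Ht H X α` (definition in `En/Defs.lean`).
`near_frac`: `q = qd X α`, `q α = a + η`, `|η| ≤ 1/(Nat.sqrt X + 1) < 1/√X`, `d α = b + δ`, `|δ| < 1/(4 √X)`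
(`b = round (d α)`): `|d a - q b| = |q δ - d η| < √X/(4√X) + (√X/4)/√X = 1/2`, so `d a = q b`;
`gcd(a,q) = 1` gives `q ∣ d`; `d = q t`, `b = a t`, `δ = t η`, so `nrm (d α) = |δ| = t nrm (q α)` and
`max (q t) (X t |η|) = t max q (X |η|)`.
-/

set_option autoImplicit false

namespace Pool.MP_dd84fd_nt.GX

open Finset Pool.MP_67663b_nt.Odd Pool.MP_dd84fd_nt.En Pool.MP_dd84fd_nt.E2 Pool.MP_dd84fd_nt.LS

open Pool.MP_dd84fd_nt.L2G (nrm)

private theorem den_mem (X : ℕ) (hX : 1 ≤ X) (α : ℝ) :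
    ∃ k : ℕ, k ∈ {q : ℕ | 1 ≤ q ∧ nrm (q * α) ≤ 1 / ((Nat.sqrt X : ℝ) + 1)} ∧ k ≤ Nat.sqrt X := by
  have hs : 0 < Nat.sqrt X := Nat.sqrt_pos.2 hX
  obtain ⟨k, hk, hkn, h⟩ := Real.exists_nat_abs_mul_sub_round_le α hs
  exact ⟨k, ⟨hk, h⟩, hkn⟩

private theorem den_inf (X : ℕ) (hX : 1 ≤ X) (α : ℝ) :
    1 ≤ qd X α ∧ nrm ((qd X α : ℝ) * α) ≤ 1 / ((Nat.sqrt X : ℝ) + 1) := by
  obtain ⟨k, hk, -⟩ := den_mem X hX α
  exact Nat.sInf_mem ⟨k, hk⟩

private theorem den_le (X : ℕ) (α : ℝ) {k : ℕ} (hk : 1 ≤ k)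
    (h : nrm ((k : ℝ) * α) ≤ 1 / ((Nat.sqrt X : ℝ) + 1)) : qd X α ≤ k :=
  Nat.sInf_le (show k ∈ {q : ℕ | 1 ≤ q ∧ nrm (q * α) ≤ 1 / ((Nat.sqrt X : ℝ) + 1)} from ⟨hk, h⟩)

theorem qd_spec (X : ℕ) (hX : 1 ≤ X) (α : ℝ) : 1 ≤ qd X α ∧ qd X α ≤ Nat.sqrt X ∧
    nrm ((qd X α : ℝ) * α) ≤ 1 / ((Nat.sqrt X : ℝ) + 1) ∧
    Int.gcd (round ((qd X α : ℝ) * α)) (qd X α : ℤ) = 1 := by
  obtain ⟨h1, h2⟩ := den_inf X hX α
  refine ⟨h1, ?_, h2, ?_⟩
  · obtain ⟨k, ⟨hk1, hk2⟩, hk⟩ := den_mem X hX α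
    exact (den_le X α hk1 hk2).trans hk
  · set q := qd X α with hq
    set a : ℤ := round ((q : ℝ) * α) with ha
    by_contra hg
    have hq0 : (q : ℤ) ≠ 0 := by
      have : (1 : ℤ) ≤ q := by exact_mod_cast h1
      omega
    have hgpos : 0 < Int.gcd a q := Int.gcd_pos_of_ne_zero_right _ hq0
    obtain ⟨a', ha'⟩ : (Int.gcd a q : ℤ) ∣ a := Int.gcd_dvd_left ..
    obtain ⟨q', hq'⟩ : (Int.gcd a q : ℤ) ∣ q := Int.gcd_dvd_right ..
    set g := Int.gcd a q with hgdef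
    have hg2 : 2 ≤ g := by omega
    have hq1 : (1 : ℤ) ≤ q := by exact_mod_cast h1
    have hgz : (2 : ℤ) ≤ g := by exact_mod_cast hg2
    have hq'pos : 0 < q' := by
      by_contra hc
      have hc' : q' ≤ 0 := not_lt.1 hc
      nlinarith
    obtain ⟨r, rfl⟩ : ∃ r : ℕ, q' = r := ⟨q'.toNat, by omega⟩
    have hr1 : 1 ≤ r := by omega
    have hqr : q = g * r := by exact_mod_cast hq'
    have hlt : r < q := by
      rw [hqr]
      nlinarith
    have hgR : (2 : ℝ) ≤ g := by exact_mod_cast hg2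
    have hg0 : (0 : ℝ) < g := by linarith
    have hn : nrm ((r : ℝ) * α) ≤ nrm ((q : ℝ) * α) := by
      have e1 : nrm ((r : ℝ) * α) ≤ |(r : ℝ) * α - a'| := round_le _ _
      have e2 : nrm ((q : ℝ) * α) = g * |(r : ℝ) * α - a'| := by
        unfold nrm
        rw [← ha, ha', hqr]
        push_cast
        have : (g : ℝ) * r * α - g * a' = g * (r * α - a') := by ring
        rw [this, abs_mul, abs_of_pos hg0]
      have e3 : |(r : ℝ) * α - a'| ≤ g * |(r : ℝ) * α - a'| :=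
        le_mul_of_one_le_left (abs_nonneg _) (by linarith)
      rw [e2]
      exact e1.trans e3
    have := den_le X α hr1 (hn.trans h2)
    omega

private theorem den_sqrt (X : ℕ) : Real.sqrt X < (Nat.sqrt X : ℝ) + 1 := by
  rw [Real.sqrt_lt' (by positivity)]
  have h := Nat.lt_succ_sqrt X
  have h2 : X < (Nat.sqrt X + 1) * (Nat.sqrt X + 1) := h
  have h3 : (X : ℝ) < ((Nat.sqrt X + 1) * (Nat.sqrt X + 1) : ℕ) := by exact_mod_cast h2
  push_cast at h3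
  rw [sq]
  exact h3

private theorem den_nrm_nonneg (x : ℝ) : 0 ≤ nrm x := abs_nonneg _

theorem ht_spec (X : ℕ) (hX : 1 ≤ X) (α : ℝ) : 1 ≤ ht X α ∧ ht X α ≤ Real.sqrt X ∧
    (qd X α : ℝ) ≤ ht X α ∧ (X : ℝ) * nrm ((qd X α : ℝ) * α) ≤ ht X α := by
  obtain ⟨h1, h2, h3, -⟩ := qd_spec X hX α
  have hX0 : (0 : ℝ) < X := by exact_mod_cast hX
  have hs := den_sqrt X
  refine ⟨?_, ?_, le_max_left _ _, le_max_right _ _⟩
  · exact (by exact_mod_cast h1 : (1 : ℝ) ≤ qd X α).trans (le_max_left _ _)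
  · unfold ht
    refine max_le ?_ ?_
    · exact (by exact_mod_cast h2 : (qd X α : ℝ) ≤ Nat.sqrt X).trans Real.nat_sqrt_le_real_sqrt
    · have h4 : (X : ℝ) * nrm ((qd X α : ℝ) * α) ≤ X * (1 / ((Nat.sqrt X : ℝ) + 1)) :=
        mul_le_mul_of_nonneg_left h3 hX0.le
      refine h4.trans ?_
      rw [mul_one_div, div_le_iff₀ (by positivity)]
      have h5 : (X : ℝ) = Real.sqrt X * Real.sqrt X := (Real.mul_self_sqrt hX0.le).symm
      calc (X : ℝ) = Real.sqrt X * Real.sqrt X := h5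
        _ ≤ Real.sqrt X * ((Nat.sqrt X : ℝ) + 1) :=
          mul_le_mul_of_nonneg_left hs.le (Real.sqrt_nonneg _)

theorem ht_large (X : ℕ) (hX : 1 ≤ X) (α H : ℝ) (h : ¬ Ht H X α) : H / 2 < ht X α := by
  by_contra hc
  have hc' : ht X α ≤ H / 2 := not_lt.1 hc
  refine h ?_
  obtain ⟨h1, h2, h3, h4⟩ := qd_spec X hX α
  obtain ⟨-, -, h5, h6⟩ := ht_spec X hX α
  have hq0 : (0 : ℝ) < qd X α := by exact_mod_cast h1
  refine ⟨qd X α, round ((qd X α : ℝ) * α), h1, h4, ?_⟩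
  have e1 : (qd X α : ℝ) * (1 + X * |α - (round ((qd X α : ℝ) * α) : ℝ) / (qd X α : ℝ)|) =
      qd X α + X * nrm ((qd X α : ℝ) * α) := by
    have e2 : (qd X α : ℝ) * |α - (round ((qd X α : ℝ) * α) : ℝ) / (qd X α : ℝ)| =
        nrm ((qd X α : ℝ) * α) := by
      unfold nrm
      rw [← abs_of_pos hq0, ← abs_mul, abs_of_pos hq0]
      congr 1
      field_simp
    rw [← e2]
    ring
  rw [e1]
  linarith

theorem near_frac (X : ℕ) (hX : 1 ≤ X) (α : ℝ) (d : ℕ) (hd : 1 ≤ d)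
    (h1 : (d : ℝ) < Real.sqrt X / 4) (h2 : nrm ((d : ℝ) * α) < 1 / (4 * Real.sqrt X)) :
    qd X α ∣ d ∧ max (d : ℝ) ((X : ℝ) * nrm ((d : ℝ) * α)) = ((d : ℝ) / (qd X α : ℝ)) * ht X α := by
  obtain ⟨k1, k2, k3, k4⟩ := qd_spec X hX α
  have hX0 : (0 : ℝ) < X := by exact_mod_cast hX
  have hs0 : 0 < Real.sqrt X := Real.sqrt_pos.2 hX0
  have hs := den_sqrt X
  set q := qd X α with hq
  set a : ℤ := round ((q : ℝ) * α) with ha
  set b : ℤ := round ((d : ℝ) * α) with hb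
  have hq0 : (0 : ℝ) < q := by exact_mod_cast k1
  have hd0 : (0 : ℝ) < d := by exact_mod_cast hd
  have hqs : (q : ℝ) ≤ Real.sqrt X :=
    (by exact_mod_cast k2 : (q : ℝ) ≤ Nat.sqrt X).trans Real.nat_sqrt_le_real_sqrt
  have hη : |(q : ℝ) * α - a| < 1 / Real.sqrt X := by
    have e1 : |(q : ℝ) * α - a| ≤ 1 / ((Nat.sqrt X : ℝ) + 1) := k3
    exact e1.trans_lt (one_div_lt_one_div_of_lt hs0 hs)
  have hδ : |(d : ℝ) * α - b| < 1 / (4 * Real.sqrt X) := h2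
  have hz : (d : ℤ) * a - q * b = 0 := by
    have e1 : (((d : ℤ) * a - q * b : ℤ) : ℝ) = q * ((d : ℝ) * α - b) - d * ((q : ℝ) * α - a) := by
      push_cast
      ring
    have e2 : |(((d : ℤ) * a - q * b : ℤ) : ℝ)| < 1 := by
      rw [e1]
      have f1 : |(q : ℝ) * ((d : ℝ) * α - b)| ≤ 1 / 4 := by
        rw [abs_mul, abs_of_pos hq0]
        calc (q : ℝ) * |(d : ℝ) * α - b| ≤ Real.sqrt X * (1 / (4 * Real.sqrt X)) :=
              mul_le_mul hqs hδ.le (abs_nonneg _) hs0.le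
          _ = 1 / 4 := by field_simp
      have f2 : |(d : ℝ) * ((q : ℝ) * α - a)| ≤ 1 / 4 := by
        rw [abs_mul, abs_of_pos hd0]
        calc (d : ℝ) * |(q : ℝ) * α - a| ≤ (Real.sqrt X / 4) * (1 / Real.sqrt X) :=
              mul_le_mul h1.le hη.le (abs_nonneg _) (by positivity)
          _ = 1 / 4 := by field_simp
      have f3 := abs_sub ((q : ℝ) * ((d : ℝ) * α - b)) ((d : ℝ) * ((q : ℝ) * α - a))
      linarith
    have e3 : |((d : ℤ) * a - q * b)| < 1 := by exact_mod_cast e2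
    exact Int.abs_lt_one_iff.1 e3
  have hcop : IsCoprime (q : ℤ) a := by
    rw [Int.isCoprime_iff_gcd_eq_one, Int.gcd_comm]
    exact k4
  have hdvd : (q : ℤ) ∣ d := by
    have e1 : (q : ℤ) ∣ d * a := ⟨b, by linarith⟩
    exact hcop.dvd_of_dvd_mul_right e1
  have hdvd' : q ∣ d := by exact_mod_cast hdvd
  refine ⟨hdvd', ?_⟩
  obtain ⟨t, ht'⟩ := hdvd'
  have ht0 : 0 < t := by
    rcases Nat.eq_zero_or_pos t with h | h
    · subst h
      omega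
    · exact h
  have htR : (0 : ℝ) < t := by exact_mod_cast ht0
  have hdR : (d : ℝ) = q * t := by exact_mod_cast ht'
  have hbt : (b : ℝ) = a * t := by
    have e1 : (((d : ℤ) * a - q * b : ℤ) : ℝ) = 0 := by rw [hz]; norm_num
    push_cast at e1
    rw [hdR] at e1
    have e2 : (q : ℝ) * (t * a - b) = 0 := by linarith
    rcases mul_eq_zero.1 e2 with h | h
    · exact absurd h hq0.ne'
    · linarith
  have hnn : nrm ((d : ℝ) * α) = t * nrm ((q : ℝ) * α) := by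
    have e1 : nrm ((d : ℝ) * α) = |(d : ℝ) * α - b| := rfl
    have e2 : nrm ((q : ℝ) * α) = |(q : ℝ) * α - a| := rfl
    rw [e1, e2, hdR, hbt]
    have e3 : (q : ℝ) * t * α - a * t = t * ((q : ℝ) * α - a) := by ring
    rw [e3, abs_mul, abs_of_pos htR]
  have hht : ht X α = max (q : ℝ) (X * nrm ((q : ℝ) * α)) := rfl
  have hdq : (d : ℝ) / q = t := by
    rw [hdR]
    field_simp
  rw [hdq, hht, hnn, mul_max_of_nonneg _ _ htR.le, hdR]
  congr 1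
  · ring
  · ring

end Pool.MP_dd84fd_nt.GX
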