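import Pool.Agent.Lib.MP_dd84fd_nt.GX.Den
import Pool.Agent.Lib.MP_dd84fd_nt.En.Recip2
import Pool.Agent.Lib.MP_dd84fd_nt.L2G.MinSum

/-!
# GX-Den2 (0.7 h): type I kernel

`den2`. `q = qd X α`, `η = nrm (q α)`, `h = ht X α = max q (X η)`.
Case `X η ≤ q` (so `h = q`): `r = q`, `a = round (q α)`: `|α - a/q| = η/q ≤ 1/X ≤ 1/q²` (`q² ≤ X`);
`q ≤ √X ≤ X/h`, `X/q = X/h`.
Case `q < X η` (so `h = X η`, `η > 0`): `H = X/h = 1/η ≥ √X ≥ 1`, `n = ⌊2 H⌋ ≥ 1`; Dirichlet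
(`Real.exists_rat_abs_sub_le_and_den_le`, as in `E2.MP_dirichlet`): reduced `a/r`, `1 ≤ r ≤ n ≤ 2H`,
`|α - a/r| ≤ 1/((n+1) r) ≤ 1/r²`, and `|r α - a| ≤ 1/(n+1) < 1/(2H) = η/2`. With `c = round (q α)`:
if `a q = c r` then (both reduced) `r = q`, `a = c`, `|r α - a| = η`, contradiction. So
`1 ≤ |a q - c r| = |q (a - r α) + r (q α - c)| ≤ q/(2H) + r η = q/(2H) + r/H`; `q ≤ √X ≤ H`, so
`r ≥ H/2` and `X/r ≤ 2X/H = 2h ≤ 2√X ≤ 2X/h`.
`typeI_ker`: `L2G.mn M x = En.mn M x` (unfold, `mul_comm`), then `En.sum_mn'` with this `a/r`: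
`≤ C (X/r + R + r) log (2 r X) ≤ C (8 X/h + R) · log(8X²) ≤ ...`; `log (2 r X) ≤ 4 log X` for `X ≥ 8`
(`r ≤ 4X`).
-/

set_option autoImplicit false

namespace Pool.MP_dd84fd_nt.GX

open Finset Pool.MP_67663b_nt.Odd Pool.MP_dd84fd_nt.En Pool.MP_dd84fd_nt.E2 Pool.MP_dd84fd_nt.LS

open Pool.MP_dd84fd_nt.L2G (nrm)

theorem den2_same (X : ℕ) (hX : 1 ≤ X) (α : ℝ)
    (hc : (X : ℝ) * nrm ((qd X α : ℝ) * α) ≤ (qd X α : ℝ)) : ∃ (r : ℕ) (a : ℤ), 0 < r ∧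
    Int.gcd a r = 1 ∧
    |α - (a : ℝ) / r| ≤ 1 / (r : ℝ) ^ 2 ∧ (r : ℝ) ≤ 4 * (X : ℝ) / ht X α ∧
    (X : ℝ) / r ≤ 4 * (X : ℝ) / ht X α := by
  obtain ⟨h1, h2, h3, h4⟩ := qd_spec X hX α
  have hh : ht X α = (qd X α : ℝ) := max_eq_left hc
  rw [hh]
  set q := qd X α with hq
  have hq0 : (0 : ℝ) < q := by exact_mod_cast h1
  have hX0 : (0 : ℝ) < X := by exact_mod_cast hX
  have hqX : (q : ℝ) ^ 2 ≤ X := by
    have h5 : q ^ 2 ≤ X := by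
      have := Nat.sqrt_le' X
      exact (Nat.pow_le_pow_left h2 2).trans this
    exact_mod_cast h5
  refine ⟨q, round ((q : ℝ) * α), h1, h4, ?_, ?_, ?_⟩
  · have h6 : α - ((round ((q : ℝ) * α) : ℤ) : ℝ) / q =
        ((q : ℝ) * α - ((round ((q : ℝ) * α) : ℤ) : ℝ)) / q := by
      field_simp
    rw [h6, abs_div, abs_of_pos hq0, div_le_div_iff₀ hq0 (by positivity)]
    have h7 : |(q : ℝ) * α - ((round ((q : ℝ) * α) : ℤ) : ℝ)| = nrm ((q : ℝ) * α) := rfl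
    rw [h7]
    have hn : 0 ≤ nrm ((q : ℝ) * α) := abs_nonneg _
    nlinarith
  · rw [le_div_iff₀ hq0]
    nlinarith
  · rw [div_le_div_iff_of_pos_right hq0]
    linarith

theorem den2_other (X : ℕ) (hX : 1 ≤ X) (α : ℝ)
    (hc : (qd X α : ℝ) < (X : ℝ) * nrm ((qd X α : ℝ) * α)) : ∃ (r : ℕ) (a : ℤ), 0 < r ∧
    Int.gcd a r = 1 ∧
    |α - (a : ℝ) / r| ≤ 1 / (r : ℝ) ^ 2 ∧ (r : ℝ) ≤ 4 * (X : ℝ) / ht X α ∧
    (X : ℝ) / r ≤ 4 * (X : ℝ) / ht X α := by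
  obtain ⟨h1, h2, h3, h4⟩ := qd_spec X hX α
  obtain ⟨g1, g2, g3, g4⟩ := ht_spec X hX α
  have hh : ht X α = (X : ℝ) * nrm ((qd X α : ℝ) * α) := max_eq_right hc.le
  rw [hh] at g1 g2 ⊢
  set q := qd X α with hq
  set η := nrm ((q : ℝ) * α) with hη
  have hq0 : (0 : ℝ) < q := by exact_mod_cast h1
  have hX0 : (0 : ℝ) < X := by exact_mod_cast hX
  have hη0 : 0 < η := by
    by_contra hcon
    push Not at hcon
    nlinarith
  have hsq : Real.sqrt X < (Nat.sqrt X : ℝ) + 1 := by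
    rw [Real.sqrt_lt' (by positivity)]
    have := Nat.lt_succ_sqrt' X
    exact_mod_cast this
  -- `H = 1 / η`
  have hH : (Nat.sqrt X : ℝ) + 1 ≤ 1 / η := by
    rw [le_div_iff₀ hη0]
    rw [le_div_iff₀ (by positivity)] at h3
    linarith
  set H : ℝ := 1 / η with hHdef
  have hHη : H * η = 1 := by rw [hHdef]; field_simp
  have hH0 : 0 < H := by positivity
  have hqH : (q : ℝ) ≤ H := by
    have : (q : ℝ) ≤ (Nat.sqrt X : ℝ) := by exact_mod_cast h2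
    linarith
  have hn0 : 0 < ⌊2 * H⌋₊ := by
    rw [Nat.floor_pos]
    have : (0 : ℝ) ≤ (Nat.sqrt X : ℝ) := by positivity
    linarith
  obtain ⟨ρ, hρ1, hρ2⟩ := Real.exists_rat_abs_sub_le_and_den_le α hn0
  set n := ⌊2 * H⌋₊ with hn
  have hnH : (n : ℝ) ≤ 2 * H := Nat.floor_le (by positivity)
  have hnH' : 2 * H < (n : ℝ) + 1 := Nat.lt_floor_add_one _
  have hr0 : (0 : ℝ) < (ρ.den : ℝ) := by exact_mod_cast ρ.den_pos
  have hrn : (ρ.den : ℝ) ≤ n := by exact_mod_cast hρ2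
  have hρeq : (ρ : ℝ) = (ρ.num : ℝ) / (ρ.den : ℝ) := Rat.cast_def ρ
  rw [hρeq] at hρ1
  have hgcd : Int.gcd ρ.num (ρ.den : ℤ) = 1 := by
    rw [Int.gcd, Int.natAbs_natCast]
    exact ρ.reduced
  have hE : |(ρ.den : ℝ) * α - (ρ.num : ℝ)| ≤ 1 / ((n : ℝ) + 1) := by
    have h5 : (ρ.den : ℝ) * α - (ρ.num : ℝ) = (ρ.den : ℝ) * (α - (ρ.num : ℝ) / (ρ.den : ℝ)) := by
      field_simp
    rw [h5, abs_mul, abs_of_pos hr0]
    calc (ρ.den : ℝ) * |α - (ρ.num : ℝ) / (ρ.den : ℝ)|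
        ≤ (ρ.den : ℝ) * (1 / (((n : ℝ) + 1) * (ρ.den : ℝ))) :=
          mul_le_mul_of_nonneg_left hρ1 hr0.le
      _ = 1 / ((n : ℝ) + 1) := by field_simp
  have hE2 : |(ρ.den : ℝ) * α - (ρ.num : ℝ)| < η / 2 := by
    refine lt_of_le_of_lt hE ?_
    rw [div_lt_div_iff₀ (by positivity) (by norm_num)]
    nlinarith
  set c : ℤ := round ((q : ℝ) * α) with hcdef
  have hηc : |(q : ℝ) * α - (c : ℝ)| = η := rfl
  have hrH : H / 2 ≤ (ρ.den : ℝ) := by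
    by_cases hac : ρ.num * (q : ℤ) = c * (ρ.den : ℤ)
    · exfalso
      have hdvd : (q : ℤ) ∣ (ρ.den : ℤ) := by
        have h6 : (q : ℤ) ∣ c * (ρ.den : ℤ) := ⟨ρ.num, by rw [← hac]; ring⟩
        exact (Int.isCoprime_iff_gcd_eq_one.2 h4).symm.dvd_of_dvd_mul_left h6
      have hle : (q : ℝ) ≤ (ρ.den : ℝ) := by
        have h7 : q ∣ ρ.den := by exact_mod_cast hdvd
        exact_mod_cast Nat.le_of_dvd ρ.den_pos h7
      have h8 : (ρ.num : ℝ) * q = c * (ρ.den : ℝ) := by exact_mod_cast hac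
      have h9 : (q : ℝ) * |(ρ.den : ℝ) * α - (ρ.num : ℝ)| = (ρ.den : ℝ) * η := by
        have e1 : (q : ℝ) * |(ρ.den : ℝ) * α - (ρ.num : ℝ)| =
            |(q : ℝ) * ((ρ.den : ℝ) * α - (ρ.num : ℝ))| := by rw [abs_mul, abs_of_pos hq0]
        have e2 : (ρ.den : ℝ) * η = |(ρ.den : ℝ) * ((q : ℝ) * α - c)| := by
          rw [abs_mul, abs_of_pos hr0, hηc]
        rw [e1, e2]
        congr 1
        linear_combination -h8
      nlinarith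
    · have h10 : (1 : ℝ) ≤ |(ρ.num : ℝ) * q - c * (ρ.den : ℝ)| := by
        have h11 : 1 ≤ |ρ.num * (q : ℤ) - c * (ρ.den : ℤ)| :=
          Int.one_le_abs (sub_ne_zero.2 hac)
        exact_mod_cast h11
      have h12 : (ρ.num : ℝ) * q - c * (ρ.den : ℝ) =
          -((q : ℝ) * ((ρ.den : ℝ) * α - (ρ.num : ℝ))) + (ρ.den : ℝ) * ((q : ℝ) * α - c) := by
        ring
      rw [h12] at h10
      have h13 := abs_add_le (-((q : ℝ) * ((ρ.den : ℝ) * α - (ρ.num : ℝ))))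
        ((ρ.den : ℝ) * ((q : ℝ) * α - c))
      rw [abs_neg, abs_mul, abs_mul, abs_of_pos hq0, abs_of_pos hr0, hηc] at h13
      have h14 : (q : ℝ) * |(ρ.den : ℝ) * α - (ρ.num : ℝ)| ≤ 1 / 2 := by
        calc (q : ℝ) * |(ρ.den : ℝ) * α - (ρ.num : ℝ)| ≤ H * (η / 2) :=
              mul_le_mul hqH hE2.le (abs_nonneg _) hH0.le
          _ = 1 / 2 := by linarith
      have h15 : 1 / 2 ≤ (ρ.den : ℝ) * η := by linarith
      calc H / 2 = H * (1 / 2) := by ring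
        _ ≤ H * ((ρ.den : ℝ) * η) := mul_le_mul_of_nonneg_left h15 hH0.le
        _ = (ρ.den : ℝ) * (H * η) := by ring
        _ = (ρ.den : ℝ) := by rw [hHη, mul_one]
  have hXη : 4 * (X : ℝ) / ((X : ℝ) * η) = 4 * H := by
    rw [hHdef]
    field_simp
  rw [hXη]
  refine ⟨ρ.den, ρ.num, ρ.den_pos, hgcd, hρ1.trans ?_, by linarith, ?_⟩
  · rw [div_le_div_iff₀ (by positivity) (by positivity)]
    nlinarith
  · have h16 : (X : ℝ) * η ≤ H := by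
      have h17 : (X : ℝ) * η * ((X : ℝ) * η) ≤ X := by
        have h18 : 0 ≤ (X : ℝ) * η := by positivity
        calc (X : ℝ) * η * ((X : ℝ) * η) ≤ Real.sqrt X * Real.sqrt X :=
              mul_le_mul g2 g2 h18 (Real.sqrt_nonneg _)
          _ = X := Real.mul_self_sqrt hX0.le
      have h19 : (X : ℝ) * (η * ((X : ℝ) * η)) ≤ X * 1 := by linarith
      have h20 : η * ((X : ℝ) * η) ≤ 1 := le_of_mul_le_mul_left h19 hX0
      have h21 : η * ((X : ℝ) * η) ≤ η * H := by linarith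
      exact le_of_mul_le_mul_left h21 hη0
    rw [div_le_iff₀ hr0]
    have h22 : (X : ℝ) = H * ((X : ℝ) * η) := by
      calc (X : ℝ) = (X : ℝ) * (H * η) := by rw [hHη, mul_one]
        _ = H * ((X : ℝ) * η) := by ring
    have h23 : (X : ℝ) ≤ H * H := by
      calc (X : ℝ) = H * ((X : ℝ) * η) := h22
        _ ≤ H * H := mul_le_mul_of_nonneg_left h16 hH0.le
    nlinarith

theorem den2 (X : ℕ) (hX : 1 ≤ X) (α : ℝ) : ∃ (r : ℕ) (a : ℤ), 0 < r ∧ Int.gcd a r = 1 ∧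
    |α - (a : ℝ) / r| ≤ 1 / (r : ℝ) ^ 2 ∧ (r : ℝ) ≤ 4 * (X : ℝ) / ht X α ∧
    (X : ℝ) / r ≤ 4 * (X : ℝ) / ht X α := by
  rcases le_or_gt ((X : ℝ) * nrm ((qd X α : ℝ) * α)) (qd X α : ℝ) with h | h
  · exact den2_same X hX α h
  · exact den2_other X hX α h

theorem den2_mn (M x : ℝ) : L2G.mn M x = En.mn M x := by
  unfold L2G.mn En.mn L2G.nrm
  rw [show 2 * |x - (round x : ℝ)| * M = 2 * M * |x - (round x : ℝ)| by ring]

theorem typeI_ker : ∃ C : ℝ, 0 < C ∧ ∃ X0 : ℕ, ∀ X : ℕ, X0 ≤ X → ∀ (α : ℝ) (R : ℕ), R ≤ X →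
    ∑ r ∈ Icc 1 R, L2G.mn ((X : ℝ) / r) ((r : ℝ) * α) ≤
      C * ((X : ℝ) / ht X α + R) * Real.log X := by
  obtain ⟨C, hC, hsum⟩ := sum_mn'
  refine ⟨32 * C, by positivity, 3, ?_⟩
  intro X hX α R hR
  obtain ⟨r, a, hr, hg, hα, h1, h2⟩ := den2 X (by omega) α
  obtain ⟨g1, -, -, -⟩ := ht_spec X (by omega) α
  have hX3 : (3 : ℝ) ≤ X := by exact_mod_cast hX
  have hr0 : (0 : ℝ) < r := by exact_mod_cast hr
  have hh0 : 0 < ht X α := by linarith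
  have hmain := hsum α r a hr hg hα X R (by exact_mod_cast hR) (by linarith)
  have heq : ∑ d ∈ Icc 1 R, L2G.mn ((X : ℝ) / d) ((d : ℝ) * α) =
      ∑ d ∈ Icc 1 R, En.mn ((X : ℝ) / d) ((d : ℝ) * α) :=
    sum_congr rfl fun d _ => den2_mn _ _
  rw [heq]
  refine hmain.trans ?_
  have hlogX : 0 ≤ Real.log X := Real.log_nonneg (by linarith)
  have hXh : (X : ℝ) / ht X α ≤ X := div_le_self (by linarith) g1
  have h4 : 4 * (X : ℝ) / ht X α = 4 * ((X : ℝ) / ht X α) := by ring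
  rw [h4] at h1 h2
  have hlog : Real.log (2 * r * X) ≤ 4 * Real.log X := by
    rw [show (4 : ℝ) * Real.log X = Real.log ((X : ℝ) ^ 4) by rw [Real.log_pow]; norm_num]
    refine Real.log_le_log (by positivity) ?_
    have h5 : 2 * (r : ℝ) * X ≤ 8 * (X : ℝ) ^ 2 := by nlinarith
    have h6 : 8 * (X : ℝ) ^ 2 ≤ (X : ℝ) ^ 4 := by
      have : (9 : ℝ) ≤ (X : ℝ) ^ 2 := by nlinarith
      nlinarith
    linarith
  have hRn : (0 : ℝ) ≤ R := by positivity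
  have hS : (X : ℝ) / r + R + r ≤ 8 * ((X : ℝ) / ht X α + R) := by linarith
  have hS0 : 0 ≤ (X : ℝ) / r + R + r := by positivity
  calc C * ((X : ℝ) / r + R + r) * Real.log (2 * r * X)
      ≤ C * ((X : ℝ) / r + R + r) * (4 * Real.log X) :=
        mul_le_mul_of_nonneg_left hlog (by positivity)
    _ ≤ C * (8 * ((X : ℝ) / ht X α + R)) * (4 * Real.log X) := by
        refine mul_le_mul_of_nonneg_right (mul_le_mul_of_nonneg_left hS hC.le) (by positivity)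
    _ = 32 * C * ((X : ℝ) / ht X α + R) * Real.log X := by ring

end Pool.MP_dd84fd_nt.GX
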