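import Pool.Agent.Lib.MP_dd84fd_nt.GX.Defs
import Pool.Agent.Lib.MP_dd84fd_nt.LS.Four
import Pool.Agent.Lib.MP_dd84fd_nt.L2G.MinSum

/-!
# GX-TIexp (0.6 h): type I sums of `F`

Proof. `Σ_{k ≤ y} F(r k) = (1/G) Σ_j x_j Σ_{k ≤ y} χ(r k j)`, `χ(r k j) = ee (k (r al_j))` (`LS.chi_ee`), and
`‖Σ_{k ∈ Icc 1 y} ee (k t)‖ ≤ mn (X/r) t` for `y ≤ X/r` (`L2G.geo_sum` with `Ioc 0 y`). With the weight `log k`: Abel summation
(`log k = log y - Σ_{k ≤ m < y} (log (m+1) - log m)`): `‖Σ_{k ≤ y} log k ee(k t)‖ ≤ 2 log y · max_{y' ≤ y} ‖Σ_{k ≤ y'} ee (k t)‖ ≤ 2 log X · mn (X/r) t`.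
-/

set_option autoImplicit false

namespace Pool.MP_dd84fd_nt.GX

open Finset Pool.MP_67663b_nt.Odd Pool.MP_dd84fd_nt.En Pool.MP_dd84fd_nt.E2 Pool.MP_dd84fd_nt.LS

open Pool.MP_dd84fd_nt.L2G (nrm)

private theorem ti_expand (G : ℕ) [NeZero G] (x : ZMod G → ℂ) (R : ℕ) (c w : ℕ → ℂ)
    (hc : ∀ r, ‖c r‖ ≤ 1) (y : ℕ → ℕ) (C : ℝ) (B : ℕ → ZMod G → ℝ)
    (hw : ∀ r ∈ Icc 1 R, ∀ j : ZMod G,
      ‖∑ k ∈ Icc 1 (y r), w k * ee ((k : ℝ) * ((r : ℝ) * al G j))‖ ≤ C * B r j) :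
    ‖∑ r ∈ Icc 1 R, c r * ∑ k ∈ Icc 1 (y r), w k * FF G x (r * k)‖ ≤
      C * ((1 / (G : ℝ)) * ∑ j : ZMod G, ‖x j‖ * ∑ r ∈ Icc 1 R, B r j) := by
  have e1 : ∑ r ∈ Icc 1 R, c r * ∑ k ∈ Icc 1 (y r), w k * FF G x (r * k) =
      (1 / (G : ℂ)) * ∑ j : ZMod G, x j * ∑ r ∈ Icc 1 R, c r *
        ∑ k ∈ Icc 1 (y r), w k * ee ((k : ℝ) * ((r : ℝ) * al G j)) := by
    have h1 : ∀ r k : ℕ, FF G x (r * k) = (1 / (G : ℂ)) * ∑ j : ZMod G, x j *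
        ee ((k : ℝ) * ((r : ℝ) * al G j)) := by
      intro r k
      unfold FF
      congr 1
      refine Finset.sum_congr rfl fun j _ => ?_
      rw [chi_ee]
      congr 2
      unfold al
      push_cast
      ring
    calc ∑ r ∈ Icc 1 R, c r * ∑ k ∈ Icc 1 (y r), w k * FF G x (r * k)
        = ∑ r ∈ Icc 1 R, ∑ k ∈ Icc 1 (y r), ∑ j : ZMod G, (1 / (G : ℂ)) * (x j * (c r *
            (w k * ee ((k : ℝ) * ((r : ℝ) * al G j))))) := by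
          refine Finset.sum_congr rfl fun r _ => ?_
          rw [Finset.mul_sum]
          refine Finset.sum_congr rfl fun k _ => ?_
          rw [h1, Finset.mul_sum, Finset.mul_sum, Finset.mul_sum]
          refine Finset.sum_congr rfl fun j _ => ?_
          ring
      _ = ∑ j : ZMod G, ∑ r ∈ Icc 1 R, ∑ k ∈ Icc 1 (y r), (1 / (G : ℂ)) * (x j * (c r *
            (w k * ee ((k : ℝ) * ((r : ℝ) * al G j))))) := by
          refine (Finset.sum_congr rfl fun r _ => Finset.sum_comm).trans ?_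
          exact Finset.sum_comm
      _ = _ := by
          rw [Finset.mul_sum]
          refine Finset.sum_congr rfl fun j _ => ?_
          rw [Finset.mul_sum, Finset.mul_sum]
          refine Finset.sum_congr rfl fun r _ => ?_
          rw [Finset.mul_sum, Finset.mul_sum, Finset.mul_sum]
  rw [e1, norm_mul]
  have e2 : ‖(1 / (G : ℂ))‖ = 1 / (G : ℝ) := by simp
  rw [e2]
  have hG : (0 : ℝ) ≤ 1 / (G : ℝ) := by positivity
  have e3 : C * ((1 / (G : ℝ)) * ∑ j : ZMod G, ‖x j‖ * ∑ r ∈ Icc 1 R, B r j) =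
      (1 / (G : ℝ)) * ∑ j : ZMod G, ‖x j‖ * ∑ r ∈ Icc 1 R, C * B r j := by
    rw [mul_left_comm, Finset.mul_sum]
    congr 1
    refine Finset.sum_congr rfl fun j _ => ?_
    rw [← Finset.mul_sum]
    ring
  rw [e3]
  refine mul_le_mul_of_nonneg_left ?_ hG
  refine (norm_sum_le _ _).trans (Finset.sum_le_sum fun j _ => ?_)
  rw [norm_mul]
  refine mul_le_mul_of_nonneg_left ?_ (norm_nonneg _)
  refine (norm_sum_le _ _).trans (Finset.sum_le_sum fun r hr => ?_)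
  rw [norm_mul]
  calc ‖c r‖ * ‖∑ k ∈ Icc 1 (y r), w k * ee ((k : ℝ) * ((r : ℝ) * al G j))‖
      ≤ 1 * ‖∑ k ∈ Icc 1 (y r), w k * ee ((k : ℝ) * ((r : ℝ) * al G j))‖ :=
        mul_le_mul_of_nonneg_right (hc r) (norm_nonneg _)
    _ ≤ C * B r j := by rw [one_mul]; exact hw r hr j

private theorem ti_geo (m : ℕ) (M t : ℝ) (hM : (m : ℝ) ≤ M) :
    ‖∑ k ∈ Icc 1 m, ee ((k : ℝ) * t)‖ ≤ L2G.mn M t := by
  have h := L2G.geo_sum 0 m M t (by simpa using hM) ((Nat.cast_nonneg m).trans hM)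
  have e : Ioc 0 m = Icc 1 m := by
    ext k
    simp only [Finset.mem_Ioc, Finset.mem_Icc]
    omega
  rwa [e] at h

private theorem ti_abel (a : ℕ → ℂ) (B : ℝ) (m : ℕ)
    (h : ∀ l ≤ m, ‖∑ k ∈ Icc 1 l, a k‖ ≤ B) :
    ‖∑ k ∈ Icc 1 m, ((Real.log k : ℝ) : ℂ) * a k‖ ≤ 2 * Real.log m * B := by
  have key : ∀ l ≤ m, ‖∑ k ∈ Icc 1 l, ((Real.log k : ℝ) : ℂ) * a k -
      ((Real.log l : ℝ) : ℂ) * ∑ k ∈ Icc 1 l, a k‖ ≤ Real.log l * B := by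
    intro l
    induction l with
    | zero => intro _; simp
    | succ l ih =>
      intro hl
      have h1 := ih (by omega)
      have hlog : Real.log (l : ℝ) ≤ Real.log ((l + 1 : ℕ) : ℝ) := by
        rcases Nat.eq_zero_or_pos l with rfl | hp
        · simp
        · exact Real.log_le_log (by exact_mod_cast hp) (by push_cast; linarith)
      have h2 := h l (by omega)
      have e1 : ∑ k ∈ Icc 1 (l + 1), ((Real.log k : ℝ) : ℂ) * a k -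
          ((Real.log ((l + 1 : ℕ) : ℝ) : ℝ) : ℂ) * ∑ k ∈ Icc 1 (l + 1), a k =
          (∑ k ∈ Icc 1 l, ((Real.log k : ℝ) : ℂ) * a k -
            ((Real.log l : ℝ) : ℂ) * ∑ k ∈ Icc 1 l, a k) -
          ((Real.log ((l + 1 : ℕ) : ℝ) - Real.log l : ℝ) : ℂ) * ∑ k ∈ Icc 1 l, a k := by
        rw [Finset.sum_Icc_succ_top (by omega), Finset.sum_Icc_succ_top (by omega)]
        push_cast
        ring
      rw [e1]
      refine (norm_sub_le _ _).trans ?_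
      rw [norm_mul, Complex.norm_real, Real.norm_eq_abs, abs_of_nonneg (by linarith)]
      have h3 : (Real.log ((l + 1 : ℕ) : ℝ) - Real.log l) * ‖∑ k ∈ Icc 1 l, a k‖ ≤
          (Real.log ((l + 1 : ℕ) : ℝ) - Real.log l) * B :=
        mul_le_mul_of_nonneg_left h2 (by linarith)
      linarith
  have h1 := key m le_rfl
  have h2 := h m le_rfl
  have h3 : 0 ≤ Real.log (m : ℝ) := Real.log_natCast_nonneg m
  have e : ∑ k ∈ Icc 1 m, ((Real.log k : ℝ) : ℂ) * a k =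
      (∑ k ∈ Icc 1 m, ((Real.log k : ℝ) : ℂ) * a k -
        ((Real.log m : ℝ) : ℂ) * ∑ k ∈ Icc 1 m, a k) +
      ((Real.log m : ℝ) : ℂ) * ∑ k ∈ Icc 1 m, a k := by ring
  rw [e]
  refine (norm_add_le _ _).trans ?_
  rw [norm_mul, Complex.norm_real, Real.norm_eq_abs, abs_of_nonneg h3]
  have h4 : Real.log (m : ℝ) * ‖∑ k ∈ Icc 1 m, a k‖ ≤ Real.log (m : ℝ) * B :=
    mul_le_mul_of_nonneg_left h2 h3
  linarith

private theorem ti_cast {X R : ℕ} {y : ℕ → ℕ} (hy : ∀ r ∈ Icc 1 R, r * y r ≤ X) {r : ℕ}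
    (hr : r ∈ Icc 1 R) {l : ℕ} (hl : l ≤ y r) : (l : ℝ) ≤ (X : ℝ) / r := by
  have h1 := hy r hr
  have hr1 : 1 ≤ r := (Finset.mem_Icc.1 hr).1
  have hr0 : (0 : ℝ) < r := by exact_mod_cast hr1
  rw [le_div_iff₀ hr0]
  have h2 : l * r ≤ X := by nlinarith
  exact_mod_cast h2

theorem typeI_exp (X G : ℕ) [NeZero G] (hX : 1 ≤ X) (x : ZMod G → ℂ) (R : ℕ) (c : ℕ → ℂ)
    (hc : ∀ r, ‖c r‖ ≤ 1) (y : ℕ → ℕ) (hy : ∀ r ∈ Icc 1 R, r * y r ≤ X) :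
    ‖∑ r ∈ Icc 1 R, c r * ∑ k ∈ Icc 1 (y r), FF G x (r * k)‖ ≤
      (1 / (G : ℝ)) * ∑ j : ZMod G, ‖x j‖ *
        ∑ r ∈ Icc 1 R, L2G.mn ((X : ℝ) / r) ((r : ℝ) * al G j) := by
  have h := ti_expand G x R c (fun _ => 1) hc y 1
    (fun r j => L2G.mn ((X : ℝ) / r) ((r : ℝ) * al G j)) (fun r hr j => by
      simp only [one_mul]
      exact ti_geo _ _ _ (ti_cast hy hr le_rfl))
  simpa only [one_mul] using h

theorem typeI_log (X G : ℕ) [NeZero G] (hX : 1 ≤ X) (x : ZMod G → ℂ) (R : ℕ) (c : ℕ → ℂ)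
    (hc : ∀ r, ‖c r‖ ≤ 1) (y : ℕ → ℕ) (hy : ∀ r ∈ Icc 1 R, r * y r ≤ X) :
    ‖∑ r ∈ Icc 1 R, c r * ∑ k ∈ Icc 1 (y r), ((Real.log k : ℝ) : ℂ) * FF G x (r * k)‖ ≤
      2 * Real.log X * ((1 / (G : ℝ)) * ∑ j : ZMod G, ‖x j‖ *
        ∑ r ∈ Icc 1 R, L2G.mn ((X : ℝ) / r) ((r : ℝ) * al G j)) := by
  refine ti_expand G x R c (fun k => ((Real.log k : ℝ) : ℂ)) hc y (2 * Real.log X)
    (fun r j => L2G.mn ((X : ℝ) / r) ((r : ℝ) * al G j)) (fun r hr j => ?_)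
  have h1 := ti_abel (fun k => ee ((k : ℝ) * ((r : ℝ) * al G j)))
    (L2G.mn ((X : ℝ) / r) ((r : ℝ) * al G j)) (y r)
    (fun l hl => ti_geo _ _ _ (ti_cast hy hr hl))
  refine h1.trans ?_
  have h0 : 0 ≤ L2G.mn ((X : ℝ) / r) ((r : ℝ) * al G j) :=
    (norm_nonneg _).trans (ti_geo (y r) _ _ (ti_cast hy hr le_rfl))
  refine mul_le_mul_of_nonneg_right ?_ h0
  have h2 : Real.log (y r : ℝ) ≤ Real.log (X : ℝ) := by
    rcases Nat.eq_zero_or_pos (y r) with h | hp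
    · rw [h]
      simp only [Nat.cast_zero, Real.log_zero]
      exact Real.log_natCast_nonneg X
    · refine Real.log_le_log (by exact_mod_cast hp) ?_
      have h3 := hy r hr
      have hr1 : 1 ≤ r := (Finset.mem_Icc.1 hr).1
      have h4 : y r ≤ X := by nlinarith
      exact_mod_cast h4
  linarith

end Pool.MP_dd84fd_nt.GX
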