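import Pool.Agent.Lib.MP_dd84fd_nt.GX.Defs
import Pool.Agent.Lib.MP_dd84fd_nt.DivBound

/-!
# GX-DivPow (0.2 h): divisor bound

Proof. `k = ⌈1/η⌉₊`, `DivBound` (`div_bound k : τ(m)^k ≤ C m`), so `τ(m) ≤ C^(1/k) m^(1/k) ≤ C m^η` (`m ≥ 1`, `1/k ≤ η`).
(Look up the namespace of `div_bound` in `Lib/MP_dd84fd_nt/DivBound.lean`.)
-/

set_option autoImplicit false

namespace Pool.MP_dd84fd_nt.GX

open Finset Pool.MP_67663b_nt.Odd Pool.MP_dd84fd_nt.En Pool.MP_dd84fd_nt.E2 Pool.MP_dd84fd_nt.LS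

open Pool.MP_dd84fd_nt.L2G (nrm)

theorem div_pow (η : ℝ) (hη : 0 < η) : ∃ C : ℝ, 1 ≤ C ∧ ∀ q : ℕ, 1 ≤ q →
    (q.divisors.card : ℝ) ≤ C * (q : ℝ) ^ η := by
  obtain ⟨C, hC1, hC⟩ := Pool.Agent.Lib.MP_dd84fd_nt.DivBound.div_bound (⌈1 / η⌉₊)
  have hCr : (1 : ℝ) ≤ C := by exact_mod_cast hC1
  refine ⟨C, hCr, fun q hq => ?_⟩
  have hq1 : (1 : ℝ) ≤ q := by exact_mod_cast hq
  have hk : 1 / η ≤ (⌈1 / η⌉₊ : ℝ) := Nat.le_ceil _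
  have hk0 : (0 : ℝ) < (⌈1 / η⌉₊ : ℝ) := lt_of_lt_of_le (by positivity) hk
  have hk1 : 1 ≤ ⌈1 / η⌉₊ := Nat.ceil_pos.2 (by positivity)
  set k := ⌈1 / η⌉₊ with hkd
  have hkr : (1 : ℝ) ≤ k := by exact_mod_cast hk1
  have hinv : (k : ℝ)⁻¹ ≤ η := by
    rw [inv_le_comm₀ hk0 hη]
    simpa [one_div] using hk
  have hinv1 : (k : ℝ)⁻¹ ≤ 1 := inv_le_one_of_one_le₀ hkr
  have h1 : ((q.divisors.card : ℝ)) ^ k ≤ (C : ℝ) * q := by exact_mod_cast hC q (by omega)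
  have h2 : (q.divisors.card : ℝ) ≤ ((C : ℝ) * q) ^ ((k : ℝ)⁻¹) := by
    have h3 := Real.rpow_le_rpow (by positivity) h1 (inv_nonneg.2 hk0.le)
    rwa [← Real.rpow_natCast, ← Real.rpow_mul (Nat.cast_nonneg _), mul_inv_cancel₀ hk0.ne',
      Real.rpow_one] at h3
  refine h2.trans ?_
  rw [Real.mul_rpow (by positivity) (by positivity)]
  refine mul_le_mul ?_ (Real.rpow_le_rpow_of_exponent_le hq1 hinv) (by positivity) (by positivity)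
  calc (C : ℝ) ^ ((k : ℝ)⁻¹) ≤ (C : ℝ) ^ (1 : ℝ) := Real.rpow_le_rpow_of_exponent_le hCr hinv1
    _ = C := Real.rpow_one _

end Pool.MP_dd84fd_nt.GX
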