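import Pool.Agent.Lib.MP_dd84fd_nt.GX.Defs

/-!
# GX-GcdSum (0.5 h): a GCD sum

Proof. `1/lcm(q,q') = gcd(q,q')/(q q') ≤ gcd(q,q')/Q²`; `a a' ≤ (a² + a'²)/2` and symmetry: the left side is
`≤ (1/Q²) Σ_q a(q)² Σ_{q' ∈ [Q,2Q)} gcd(q,q')`. `Σ_{q' ∈ [Q,2Q)} gcd(q,q') ≤ Σ_{g ∣ q} g #{q' ∈ [1, 2Q) : g ∣ q'} ≤ Σ_{g ∣ q} g (2Q/g)
= 2 Q τ(q)` (`Nat.card_multiples` or `Nat.Ioc_filter_dvd_card_eq_div`).
-/

set_option autoImplicit false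

namespace Pool.MP_dd84fd_nt.GX

open Finset Pool.MP_67663b_nt.Odd Pool.MP_dd84fd_nt.En Pool.MP_dd84fd_nt.E2 Pool.MP_dd84fd_nt.LS

open Pool.MP_dd84fd_nt.L2G (nrm)

private theorem gcdSum_aux (Q : ℕ) (q : ℕ) (hq : 0 < q) :
    ∑ q' ∈ Ico Q (2 * Q), Nat.gcd q q' ≤ 2 * Q * q.divisors.card := by
  have h1 : ∀ q' ∈ Ico Q (2 * Q), Nat.gcd q q' ≤ ∑ g ∈ q.divisors, if g ∣ q' then g else 0 := by
    intro q' _
    have h2 : Nat.gcd q q' ∈ q.divisors := Nat.mem_divisors.2 ⟨Nat.gcd_dvd_left q q', hq.ne'⟩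
    have h3 : (if Nat.gcd q q' ∣ q' then Nat.gcd q q' else 0) = Nat.gcd q q' :=
      if_pos (Nat.gcd_dvd_right q q')
    calc Nat.gcd q q' = (if Nat.gcd q q' ∣ q' then Nat.gcd q q' else 0) := h3.symm
      _ ≤ ∑ g ∈ q.divisors, if g ∣ q' then g else 0 :=
          Finset.single_le_sum (f := fun g => if g ∣ q' then g else 0) (fun g _ => Nat.zero_le _) h2
  refine (Finset.sum_le_sum h1).trans ?_
  rw [Finset.sum_comm]
  calc ∑ g ∈ q.divisors, ∑ q' ∈ Ico Q (2 * Q), (if g ∣ q' then g else 0)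
      ≤ ∑ _g ∈ q.divisors, 2 * Q := by
        refine Finset.sum_le_sum fun g hg => ?_
        have hg0 : 0 < g := Nat.pos_of_mem_divisors hg
        rw [← Finset.sum_filter, Finset.sum_const, smul_eq_mul]
        have h4 : ((Ico Q (2 * Q)).filter fun q' => g ∣ q').card ≤ 2 * Q / g := by
          rw [← Nat.Ioc_filter_dvd_card_eq_div (2 * Q) g]
          apply Finset.card_le_card
          intro x hx
          rw [Finset.mem_filter, Finset.mem_Ico] at hx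
          rw [Finset.mem_filter, Finset.mem_Ioc]
          refine ⟨⟨?_, hx.1.2.le⟩, hx.2⟩
          omega
        calc ((Ico Q (2 * Q)).filter fun q' => g ∣ q').card * g ≤ 2 * Q / g * g :=
              Nat.mul_le_mul_right g h4
          _ ≤ 2 * Q := Nat.div_mul_le_self _ _
    _ = 2 * Q * q.divisors.card := by rw [Finset.sum_const, smul_eq_mul, mul_comm]

theorem gcd_sum (Q : ℕ) (hQ : 1 ≤ Q) (a : ℕ → ℝ) (ha : ∀ q, 0 ≤ a q) :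
    ∑ q ∈ Ico Q (2 * Q), ∑ q' ∈ Ico Q (2 * Q), a q * a q' / (Nat.lcm q q' : ℝ) ≤
      (2 / (Q : ℝ)) * ∑ q ∈ Ico Q (2 * Q), (q.divisors.card : ℝ) * a q ^ 2 := by
  have hQ0 : (0 : ℝ) < Q := by exact_mod_cast hQ
  have h1 : ∀ q ∈ Ico Q (2 * Q), ∀ q' ∈ Ico Q (2 * Q), a q * a q' / (Nat.lcm q q' : ℝ) ≤
      (a q ^ 2 * (Nat.gcd q q' : ℝ) + a q' ^ 2 * (Nat.gcd q' q : ℝ)) / (2 * (Q : ℝ) ^ 2) := by
    intro q hq q' hq'
    rw [Finset.mem_Ico] at hq hq'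
    have hq0 : (Q : ℝ) ≤ q := by exact_mod_cast hq.1
    have hq0' : (Q : ℝ) ≤ q' := by exact_mod_cast hq'.1
    have hg : (0 : ℝ) < (Nat.gcd q q' : ℝ) := by
      exact_mod_cast Nat.gcd_pos_of_pos_left q' (by omega)
    have hl : (Nat.gcd q q' : ℝ) * (Nat.lcm q q' : ℝ) = q * q' := by
      exact_mod_cast Nat.gcd_mul_lcm q q'
    have hl0 : (0 : ℝ) < (Nat.lcm q q' : ℝ) := by
      exact_mod_cast Nat.lcm_pos (by omega) (by omega)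
    rw [Nat.gcd_comm q' q, div_le_div_iff₀ hl0 (by positivity)]
    have h2 : 2 * (a q * a q') ≤ a q ^ 2 + a q' ^ 2 := by nlinarith [sq_nonneg (a q - a q')]
    have h3 : (Q : ℝ) ^ 2 ≤ (Nat.gcd q q' : ℝ) * (Nat.lcm q q' : ℝ) := by
      rw [hl, sq]
      exact mul_le_mul hq0 hq0' hQ0.le (hQ0.le.trans hq0)
    have h4 : 0 ≤ a q ^ 2 + a q' ^ 2 := by positivity
    calc a q * a q' * (2 * (Q : ℝ) ^ 2) = (2 * (a q * a q')) * (Q : ℝ) ^ 2 := by ring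
      _ ≤ (a q ^ 2 + a q' ^ 2) * (Q : ℝ) ^ 2 := mul_le_mul_of_nonneg_right h2 (by positivity)
      _ ≤ (a q ^ 2 + a q' ^ 2) * ((Nat.gcd q q' : ℝ) * (Nat.lcm q q' : ℝ)) :=
          mul_le_mul_of_nonneg_left h3 h4
      _ = (a q ^ 2 * (Nat.gcd q q' : ℝ) + a q' ^ 2 * (Nat.gcd q q' : ℝ)) * (Nat.lcm q q' : ℝ) := by ring
  refine (Finset.sum_le_sum fun q hq => Finset.sum_le_sum fun q' hq' => h1 q hq q' hq').trans ?_
  have h2 : ∑ q ∈ Ico Q (2 * Q), ∑ q' ∈ Ico Q (2 * Q),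
      (a q ^ 2 * (Nat.gcd q q' : ℝ) + a q' ^ 2 * (Nat.gcd q' q : ℝ)) / (2 * (Q : ℝ) ^ 2) =
      (1 / (Q : ℝ) ^ 2) * ∑ q ∈ Ico Q (2 * Q), a q ^ 2 * ∑ q' ∈ Ico Q (2 * Q), (Nat.gcd q q' : ℝ) := by
    have h3 : ∑ q ∈ Ico Q (2 * Q), ∑ q' ∈ Ico Q (2 * Q), a q' ^ 2 * (Nat.gcd q' q : ℝ) =
        ∑ q ∈ Ico Q (2 * Q), ∑ q' ∈ Ico Q (2 * Q), a q ^ 2 * (Nat.gcd q q' : ℝ) := Finset.sum_comm
    simp only [← Finset.sum_div, Finset.sum_add_distrib, h3, Finset.mul_sum]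
    rw [← mul_two, Finset.sum_mul, Finset.sum_div]
    refine Finset.sum_congr rfl fun q _ => ?_
    rw [Finset.sum_mul, Finset.sum_div]
    refine Finset.sum_congr rfl fun q' _ => ?_
    field_simp
  rw [h2]
  have h4 : ∀ q ∈ Ico Q (2 * Q), a q ^ 2 * ∑ q' ∈ Ico Q (2 * Q), (Nat.gcd q q' : ℝ) ≤
      2 * Q * ((q.divisors.card : ℝ) * a q ^ 2) := by
    intro q hq
    rw [Finset.mem_Ico] at hq
    have h5 : (∑ q' ∈ Ico Q (2 * Q), (Nat.gcd q q' : ℝ)) ≤ 2 * Q * (q.divisors.card : ℝ) := by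
      exact_mod_cast gcdSum_aux Q q (by omega)
    calc a q ^ 2 * ∑ q' ∈ Ico Q (2 * Q), (Nat.gcd q q' : ℝ)
        ≤ a q ^ 2 * (2 * Q * (q.divisors.card : ℝ)) := mul_le_mul_of_nonneg_left h5 (sq_nonneg _)
      _ = _ := by ring
  calc (1 / (Q : ℝ) ^ 2) * ∑ q ∈ Ico Q (2 * Q), a q ^ 2 * ∑ q' ∈ Ico Q (2 * Q), (Nat.gcd q q' : ℝ)
      ≤ (1 / (Q : ℝ) ^ 2) * ∑ q ∈ Ico Q (2 * Q), 2 * Q * ((q.divisors.card : ℝ) * a q ^ 2) :=
        mul_le_mul_of_nonneg_left (Finset.sum_le_sum h4) (by positivity)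
    _ = (2 / (Q : ℝ)) * ∑ q ∈ Ico Q (2 * Q), (q.divisors.card : ℝ) * a q ^ 2 := by
        rw [← Finset.mul_sum, ← mul_assoc]
        congr 1
        field_simp

end Pool.MP_dd84fd_nt.GX
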