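import Pool.Agent.Lib.MP_dd84fd_nt.GX.Fej
import Pool.Agent.Lib.MP_dd84fd_nt.LS.Four

/-!
# GX-KMass (0.7 h): mass of `K` near the fractions with denominator `q`

Proof. On the set of summation `1 ≤ (4/T²) ‖Σ_{i<T} ee (i q al_j)‖²` (`fejer` with `θ = q al_j`), so the
left side is `≤ (4/T²) (1/G) Σ_{all j} ‖K_j‖² ‖Σ_{i<T} χ(i q j)‖²` (`LS.chi_ee` turns `ee` into `χ`).
Expand both squares (`K_j conj K_j = Σ_{n,n'} e(n) conj e(n') χ((n'-n) j)`, and
`‖Σ_i χ(i q j)‖² = Σ_{i,i'} χ((i-i') q j)`), exchange sums, use `LS.sum_chi`: the result is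
`(4/T²) Σ_{n,n',i,i'} e(n) conj e(n') 1[n' + i q ≡ n + i' q mod G]`, of absolute value at most
`(4/T²) #{(n,n',i,i') ∈ E² × [0,T)² : n' + i q ≡ n + i' q mod G}`. Both numbers are
`≤ X + (T-1) q < 2X < G` (`hqT`), so congruence is equality (`LS.cast_eq_small`). For fixed `(n', ...)`:
given `n` and `i'` (`#E · T` choices), `n' = (n + i' q) - i q`; with `i = T - 1 - i''` this is
`n' = c + i'' q`, `c = n + i' q - (T-1) q`, `0 ≤ i'' < T`: `n' ∈ inAP E c q T`, and `i` is determined by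
`n'` (`q ≥ 1`): at most `m` solutions. Total `≤ (4/T²) · T · #E · m`.
-/

set_option autoImplicit false

namespace Pool.MP_dd84fd_nt.GX

open Finset Pool.MP_67663b_nt.Odd Pool.MP_dd84fd_nt.En Pool.MP_dd84fd_nt.E2 Pool.MP_dd84fd_nt.LS

open Pool.MP_dd84fd_nt.L2G (nrm)

private theorem gen_parsk (G : ℕ) [NeZero G] {ι : Type*} (I : Finset ι) (c : ι → ℂ)
    (a : ι → ZMod G) :
    ((∑ j : ZMod G, ‖∑ i ∈ I, c i * ZMod.stdAddChar (a i * j)‖ ^ 2 : ℝ) : ℂ) =
      (G : ℂ) * ∑ i ∈ I, ∑ k ∈ I, if a i = a k then c i * (starRingEnd ℂ) (c k) else 0 := by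
  have h1 : ∀ j : ZMod G, ((‖∑ i ∈ I, c i * (ZMod.stdAddChar (a i * j) : ℂ)‖ ^ 2 : ℝ) : ℂ) =
      ∑ i ∈ I, ∑ k ∈ I, c i * (starRingEnd ℂ) (c k) * ZMod.stdAddChar ((a i - a k) * j) := by
    intro j
    rw [← Complex.normSq_eq_norm_sq, ← Complex.mul_conj, map_sum, Finset.sum_mul_sum]
    refine Finset.sum_congr rfl fun i _ => Finset.sum_congr rfl fun k _ => ?_
    have h2 : (a i - a k) * j = a i * j + -(a k * j) := by ring
    rw [RingHom.map_mul, conj_chi, h2, AddChar.map_add_eq_mul]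
    ring
  rw [Complex.ofReal_sum, Finset.sum_congr rfl fun j _ => h1 j, Finset.sum_comm, Finset.mul_sum]
  refine Finset.sum_congr rfl fun i _ => ?_
  rw [Finset.sum_comm, Finset.mul_sum]
  refine Finset.sum_congr rfl fun k _ => ?_
  rw [← Finset.mul_sum, sum_chi]
  by_cases h : a i = a k
  · rw [if_pos h, if_pos (sub_eq_zero.2 h)]
    ring
  · rw [if_neg h, if_neg (fun h' => h (sub_eq_zero.1 h'))]
    ring

private theorem gen_le (G : ℕ) [NeZero G] {ι : Type*} (I : Finset ι) (c : ι → ℂ)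
    (a : ι → ZMod G) (hc : ∀ i, ‖c i‖ ≤ 1) :
    ∑ j : ZMod G, ‖∑ i ∈ I, c i * (ZMod.stdAddChar (a i * j) : ℂ)‖ ^ 2 ≤
      (G : ℝ) * ∑ i ∈ I, ((I.filter fun k => a i = a k).card : ℝ) := by
  have h1 := gen_parsk G I c a
  have h0 : 0 ≤ ∑ j : ZMod G, ‖∑ i ∈ I, c i * (ZMod.stdAddChar (a i * j) : ℂ)‖ ^ 2 :=
    Finset.sum_nonneg fun _ _ => by positivity
  have h2 : ∑ j : ZMod G, ‖∑ i ∈ I, c i * (ZMod.stdAddChar (a i * j) : ℂ)‖ ^ 2 =
      ‖(G : ℂ) * ∑ i ∈ I, ∑ k ∈ I, if a i = a k then c i * (starRingEnd ℂ) (c k) else 0‖ := by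
    rw [← h1, Complex.norm_real, Real.norm_of_nonneg h0]
  rw [h2, norm_mul, Complex.norm_natCast]
  refine mul_le_mul_of_nonneg_left ?_ (by positivity)
  refine (norm_sum_le _ _).trans (Finset.sum_le_sum fun i _ => ?_)
  refine (norm_sum_le _ _).trans ?_
  rw [Finset.card_filter]
  push_cast
  refine Finset.sum_le_sum fun k _ => ?_
  split_ifs
  · rw [norm_mul, RCLike.norm_conj]
    exact mul_le_one₀ (hc i) (norm_nonneg _) (hc k)
  · simp

theorem kmass (X G : ℕ) [NeZero G] (hG : 3 * X ≤ G) (E : Finset ℕ) (hE : E ⊆ Icc 1 X)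
    (e : ℕ → ℂ) (he : ∀ n, ‖e n‖ ≤ 1) (q T : ℕ) (hq : 1 ≤ q) (hT : 1 ≤ T) (hqT : q * T ≤ X)
    (m : ℝ) (hm : ∀ c : ℤ, ((inAP E c q T).card : ℝ) ≤ m) :
    (1 / (G : ℝ)) * ∑ j ∈ (univ : Finset (ZMod G)).filter
      (fun j => nrm ((q : ℝ) * al G j) ≤ 1 / (8 * (T : ℝ))), ‖KE G E e j‖ ^ 2 ≤
      4 / (T : ℝ) * E.card * m := by
  have hG0 : (0 : ℝ) < G := by exact_mod_cast Nat.pos_of_ne_zero (NeZero.ne G)
  have hT0 : (0 : ℝ) < T := by exact_mod_cast hT
  -- the number of solutions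
  have hcnt : ∀ p ∈ E ×ˢ range T, (((E ×ˢ range T).filter fun k : ℕ × ℕ =>
      ((p.2 : ZMod G) * (q : ZMod G) - (p.1 : ZMod G)) =
        ((k.2 : ZMod G) * (q : ZMod G) - (k.1 : ZMod G))).card : ℝ) ≤ m := by
    intro p hp
    refine le_trans ?_ (hm ((p.1 : ℤ) - p.2 * q))
    rw [Nat.cast_le]
    rw [Finset.mem_product, Finset.mem_range] at hp
    have hp1 := Finset.mem_Icc.1 (hE hp.1)
    have hp2 : p.2 * q ≤ (T - 1) * q := Nat.mul_le_mul_right q (by omega)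
    have hTq : (T - 1) * q + q ≤ X := by
      have h1 : (T - 1) * q + q = T * q := by
        obtain ⟨T', rfl⟩ : ∃ T', T = T' + 1 := ⟨T - 1, by omega⟩
        simp
        ring
      rw [h1, mul_comm]
      exact hqT
    have key : ∀ k ∈ (E ×ˢ range T).filter (fun k : ℕ × ℕ =>
        ((p.2 : ZMod G) * (q : ZMod G) - (p.1 : ZMod G)) =
        ((k.2 : ZMod G) * (q : ZMod G) - (k.1 : ZMod G))),
        k.1 ∈ E ∧ k.2 < T ∧ p.2 * q + k.1 = k.2 * q + p.1 := by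
      intro k hk
      rw [Finset.mem_filter, Finset.mem_product, Finset.mem_range] at hk
      obtain ⟨⟨hk1, hk2⟩, hk3⟩ := hk
      refine ⟨hk1, hk2, ?_⟩
      have hk1' := Finset.mem_Icc.1 (hE hk1)
      have hk2' : k.2 * q ≤ (T - 1) * q := Nat.mul_le_mul_right q (by omega)
      have h1 : ((p.2 * q + k.1 : ℕ) : ZMod G) = ((k.2 * q + p.1 : ℕ) : ZMod G) := by
        push_cast
        rw [sub_eq_sub_iff_add_eq_add] at hk3
        exact hk3
      exact cast_eq_small (by omega) (by omega) h1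
    refine Finset.card_le_card_of_injOn (fun k : ℕ × ℕ => k.1) ?_ ?_
    · intro k hk
      obtain ⟨h1, h2, h3⟩ := key k hk
      unfold inAP
      rw [Finset.mem_coe, Finset.mem_filter]
      refine ⟨h1, k.2, h2, ?_⟩
      have h4 : ((p.2 * q + k.1 : ℕ) : ℤ) = ((k.2 * q + p.1 : ℕ) : ℤ) := by rw [h3]
      push_cast at h4
      linarith
    · intro k hk k' hk' h
      obtain ⟨h1, h2, h3⟩ := key k hk
      obtain ⟨h1', h2', h3'⟩ := key k' hk'
      have h4 : k.1 = k'.1 := h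
      have h5 : k.2 * q = k'.2 * q := by
        rw [h4] at h3
        omega
      have h6 : k.2 = k'.2 := Nat.eq_of_mul_eq_mul_right (by omega) h5
      exact Prod.ext h4 h6
  -- the product
  have hprod : ∀ j : ZMod G, ‖KE G E e j‖ ^ 2 *
      ‖∑ i ∈ range T, (ZMod.stdAddChar ((i : ZMod G) * (q : ZMod G) * j) : ℂ)‖ ^ 2 =
      ‖∑ k ∈ E ×ˢ range T, e k.1 *
        (ZMod.stdAddChar (((k.2 : ZMod G) * (q : ZMod G) - (k.1 : ZMod G)) * j) : ℂ)‖ ^ 2 := by
    intro j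
    rw [← mul_pow, ← norm_mul]
    congr 2
    unfold KE
    rw [Finset.sum_mul_sum, Finset.sum_product]
    refine Finset.sum_congr rfl fun n _ => Finset.sum_congr rfl fun i _ => ?_
    have h1 : ((i : ZMod G) * (q : ZMod G) - (n : ZMod G)) * j =
        -((n : ZMod G) * j) + (i : ZMod G) * (q : ZMod G) * j := by ring
    rw [h1, AddChar.map_add_eq_mul]
    ring
  have hall : ∑ j : ZMod G, ‖KE G E e j‖ ^ 2 *
      ‖∑ i ∈ range T, (ZMod.stdAddChar ((i : ZMod G) * (q : ZMod G) * j) : ℂ)‖ ^ 2 ≤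
      (G : ℝ) * (E.card * T * m) := by
    rw [Finset.sum_congr rfl fun j _ => hprod j]
    refine (gen_le G (E ×ˢ range T) (fun k => e k.1) (fun k => (k.2 : ZMod G) * (q : ZMod G) - (k.1 : ZMod G))
      (fun k => he k.1)).trans ?_
    refine mul_le_mul_of_nonneg_left ?_ hG0.le
    refine (Finset.sum_le_card_nsmul _ _ m hcnt).trans (le_of_eq ?_)
    rw [Finset.card_product, Finset.card_range, nsmul_eq_mul]
    push_cast
    ring
  -- the lower bound
  have hlow : ∀ j ∈ (univ : Finset (ZMod G)).filter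
      (fun j => nrm ((q : ℝ) * al G j) ≤ 1 / (8 * (T : ℝ))),
      ‖KE G E e j‖ ^ 2 * ((T : ℝ) ^ 2 / 4) ≤ ‖KE G E e j‖ ^ 2 *
      ‖∑ i ∈ range T, (ZMod.stdAddChar ((i : ZMod G) * (q : ZMod G) * j) : ℂ)‖ ^ 2 := by
    intro j hj
    refine mul_le_mul_of_nonneg_left ?_ (by positivity)
    have h1 := fejer T hT _ (Finset.mem_filter.1 hj).2
    have h2 : ∀ i : ℕ, (ZMod.stdAddChar ((i : ZMod G) * (q : ZMod G) * j) : ℂ) =
        ee ((i : ℝ) * ((q : ℝ) * al G j)) := by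
      intro i
      have h3 := chi_ee G (i * q) j
      push_cast at h3
      rw [h3]
      congr 1
      unfold al
      ring
    rw [Finset.sum_congr rfl fun i _ => h2 i]
    exact h1
  have hsum : (∑ j ∈ (univ : Finset (ZMod G)).filter
      (fun j => nrm ((q : ℝ) * al G j) ≤ 1 / (8 * (T : ℝ))), ‖KE G E e j‖ ^ 2) *
      ((T : ℝ) ^ 2 / 4) ≤ (G : ℝ) * (E.card * T * m) := by
    rw [Finset.sum_mul]
    refine (Finset.sum_le_sum hlow).trans (le_trans ?_ hall)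
    exact Finset.sum_le_sum_of_subset_of_nonneg (Finset.filter_subset _ _)
      fun _ _ _ => by positivity
  set SS1 := ∑ j ∈ (univ : Finset (ZMod G)).filter
      (fun j => nrm ((q : ℝ) * al G j) ≤ 1 / (8 * (T : ℝ))), ‖KE G E e j‖ ^ 2 with hS
  have h3 : (1 / (G : ℝ)) * SS1 = (SS1 * ((T : ℝ) ^ 2 / 4)) * (4 / (G * (T : ℝ) ^ 2)) := by
    field_simp
  rw [h3]
  refine (mul_le_mul_of_nonneg_right hsum (by positivity)).trans (le_of_eq ?_)
  field_simp

end Pool.MP_dd84fd_nt.GX
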