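import Pool.Agent.Lib.MP_dd84fd_nt.GX.Defs
import Pool.Agent.Lib.MP_dd84fd_nt.LS.Four

/-!
# GX-FFb (0.7 h): the Fourier series `F`, Parseval, duality

`ff_sup`: triangle inequality. `ff_l2`: `Σ_{n ∈ Icc 1 X} ≤ Σ_{n ∈ range G}` and Parseval on `ZMod G`: expand
`‖F(n)‖² = (1/G²) Σ_{j,j'} x_j conj x_j' χ(n (j - j'))`, sum over `n` (all residues mod `G`, `Fin`/`ZMod` reindexing) with
`LS.sum_chi`. `ke_l2`: the same for `K`: `(1/G) Σ_j ‖K_j‖² = Σ_{n,n' ∈ E} e(n) conj e(n') 1[n ≡ n' mod G] = Σ_{n ∈ E} ‖e n‖² ≤ #E`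
(`E ⊆ Icc 1 X`, `X < G`, `LS.cast_eq_small`). `ke_sup`: triangle inequality.
`ff_pair`: `Σ_{n ∈ E} e(n) Ph(n) = (1/G) Σ_j ω_j U_j V_j K_j = (1/G) Σ_j x_j U_j` and
`U_j = Σ_{m ∈ Icc 1 X} (ip m - f2 w m) χ(m j)`; exchange the sums.
-/

set_option autoImplicit false

namespace Pool.MP_dd84fd_nt.GX

open Finset Pool.MP_67663b_nt.Odd Pool.MP_dd84fd_nt.En Pool.MP_dd84fd_nt.E2 Pool.MP_dd84fd_nt.LS

open Pool.MP_dd84fd_nt.L2G (nrm)

private theorem gen_pars (G : ℕ) [NeZero G] {ι : Type*} (I : Finset ι) (c : ι → ℂ)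
    (a : ι → ZMod G) :
    ((∑ j : ZMod G, ‖∑ i ∈ I, c i * ZMod.stdAddChar (a i * j)‖ ^ 2 : ℝ) : ℂ) =
      (G : ℂ) * ∑ i ∈ I, ∑ k ∈ I, if a i = a k then c i * (starRingEnd ℂ) (c k) else 0 := by
  have h1 : ∀ j : ZMod G, ((‖∑ i ∈ I, c i * (ZMod.stdAddChar (a i * j) : ℂ)‖ ^ 2 : ℝ) : ℂ) =
      ∑ i ∈ I, ∑ k ∈ I, c i * (starRingEnd ℂ) (c k) * ZMod.stdAddChar ((a i - a k) * j) := by
    intro j
    rw [← Complex.normSq_eq_norm_sq, ← Complex.mul_conj, map_sum, Finset.sum_mul_sum]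
    refine Finset.sum_congr rfl fun i _ => Finset.sum_congr rfl fun k _ => ?_
    have h2 : (a i - a k) * j = a i * j + -(a k * j) := by ring
    rw [RingHom.map_mul, conj_chi, h2, AddChar.map_add_eq_mul]
    ring
  rw [Complex.ofReal_sum, Finset.sum_congr rfl fun j _ => h1 j, Finset.sum_comm, Finset.mul_sum]
  refine Finset.sum_congr rfl fun i _ => ?_
  rw [Finset.sum_comm, Finset.mul_sum]
  refine Finset.sum_congr rfl fun k _ => ?_
  rw [← Finset.mul_sum, sum_chi]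
  by_cases h : a i = a k
  · rw [if_pos h, if_pos (sub_eq_zero.2 h)]
    ring
  · rw [if_neg h, if_neg (fun h' => h (sub_eq_zero.1 h'))]
    ring

theorem ff_sup (G : ℕ) [NeZero G] (x : ZMod G → ℂ) (n : ℕ) : ‖FF G x n‖ ≤ nm1 G x := by
  unfold FF nm1
  rw [norm_mul]
  have h1 : ‖(1 / (G : ℂ))‖ = 1 / (G : ℝ) := by simp
  rw [h1]
  refine mul_le_mul_of_nonneg_left ?_ (by positivity)
  refine (norm_sum_le _ _).trans (Finset.sum_le_sum fun j _ => ?_)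
  rw [norm_mul, AddChar.norm_apply, mul_one]

theorem ff_l2 (X G : ℕ) [NeZero G] (hG : 3 * X ≤ G) (x : ZMod G → ℂ) :
    ∑ n ∈ Icc 1 X, ‖FF G x n‖ ^ 2 ≤ nm2 G x := by
  have hG0 : (0 : ℝ) < G := by exact_mod_cast Nat.pos_of_ne_zero (NeZero.ne G)
  have hGC : (G : ℂ) ≠ 0 := by exact_mod_cast NeZero.ne G
  have h1 := gen_pars G (univ : Finset (ZMod G)) x (fun j => j)
  have h2 : ∑ i : ZMod G, ∑ k : ZMod G, (if i = k then x i * (starRingEnd ℂ) (x k) else 0) =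
      ((∑ j : ZMod G, ‖x j‖ ^ 2 : ℝ) : ℂ) := by
    rw [Complex.ofReal_sum]
    refine Finset.sum_congr rfl fun i _ => ?_
    rw [Finset.sum_ite_eq, if_pos (Finset.mem_univ i), Complex.mul_conj,
      Complex.normSq_eq_norm_sq]
  rw [h2] at h1
  have h3 : ∑ n : ZMod G, ‖∑ j : ZMod G, x j * (ZMod.stdAddChar (j * n) : ℂ)‖ ^ 2 =
      (G : ℝ) * ∑ j : ZMod G, ‖x j‖ ^ 2 := by
    exact_mod_cast h1
  have h4 : ∀ n : ℕ, ‖FF G x n‖ ^ 2 =
      (1 / (G : ℝ)) ^ 2 * ‖∑ j : ZMod G, x j * (ZMod.stdAddChar (j * (n : ZMod G)) : ℂ)‖ ^ 2 := by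
    intro n
    unfold FF
    rw [norm_mul, mul_pow]
    congr 2
    · simp
    · congr 1
      refine Finset.sum_congr rfl fun j _ => ?_
      rw [mul_comm j]
  rw [Finset.sum_congr rfl fun n _ => h4 n, ← Finset.mul_sum]
  have hinj : Set.InjOn (fun n : ℕ => (n : ZMod G)) (Icc 1 X : Finset ℕ) := by
    intro n hn n' hn' h
    rw [Finset.mem_coe, Finset.mem_Icc] at hn hn'
    exact cast_eq_small (by omega) (by omega) h
  have h5 : ∑ n ∈ Icc 1 X,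
      ‖∑ j : ZMod G, x j * (ZMod.stdAddChar (j * (n : ZMod G)) : ℂ)‖ ^ 2 ≤
      ∑ n : ZMod G, ‖∑ j : ZMod G, x j * (ZMod.stdAddChar (j * n) : ℂ)‖ ^ 2 := by
    rw [← Finset.sum_image (s := Icc 1 X) (g := fun n : ℕ => (n : ZMod G))
      (f := fun n : ZMod G => ‖∑ j : ZMod G, x j * (ZMod.stdAddChar (j * n) : ℂ)‖ ^ 2) hinj]
    exact Finset.sum_le_sum_of_subset_of_nonneg (Finset.subset_univ _) fun _ _ _ => by positivity
  calc (1 / (G : ℝ)) ^ 2 * ∑ n ∈ Icc 1 X,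
        ‖∑ j : ZMod G, x j * (ZMod.stdAddChar (j * (n : ZMod G)) : ℂ)‖ ^ 2
      ≤ (1 / (G : ℝ)) ^ 2 * ((G : ℝ) * ∑ j : ZMod G, ‖x j‖ ^ 2) := by
        rw [← h3]
        exact mul_le_mul_of_nonneg_left h5 (by positivity)
    _ = nm2 G x := by
        unfold nm2
        field_simp

theorem ke_sup (G : ℕ) [NeZero G] (E : Finset ℕ) (e : ℕ → ℂ) (he : ∀ n, ‖e n‖ ≤ 1)
    (j : ZMod G) : ‖KE G E e j‖ ≤ E.card := by
  unfold KE
  refine (norm_sum_le _ _).trans ?_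
  refine (Finset.sum_le_card_nsmul E _ 1 fun n _ => ?_).trans (by simp)
  rw [norm_mul, AddChar.norm_apply, mul_one]
  exact he n

theorem ke_l2 (X G : ℕ) [NeZero G] (hG : 3 * X ≤ G) (E : Finset ℕ) (hE : E ⊆ Icc 1 X)
    (e : ℕ → ℂ) (he : ∀ n, ‖e n‖ ≤ 1) : nm2 G (KE G E e) ≤ E.card := by
  have hG0 : (0 : ℝ) < G := by exact_mod_cast Nat.pos_of_ne_zero (NeZero.ne G)
  have h1 := gen_pars G E e (fun n => -(n : ZMod G))
  have h2 : ∑ i ∈ E, ∑ k ∈ E,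
      (if -(i : ZMod G) = -(k : ZMod G) then e i * (starRingEnd ℂ) (e k) else 0) =
      ((∑ n ∈ E, ‖e n‖ ^ 2 : ℝ) : ℂ) := by
    rw [Complex.ofReal_sum]
    refine Finset.sum_congr rfl fun i hi => ?_
    rw [Finset.sum_eq_single i]
    · rw [if_pos rfl, Complex.mul_conj, Complex.normSq_eq_norm_sq]
    · intro k hk hne
      rw [if_neg]
      intro h
      apply hne
      have hi' := Finset.mem_Icc.1 (hE hi)
      have hk' := Finset.mem_Icc.1 (hE hk)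
      exact (cast_eq_small (by omega) (by omega) (neg_inj.1 h)).symm
    · intro h
      exact absurd hi h
  rw [h2] at h1
  have h3 : ∑ j : ZMod G, ‖∑ n ∈ E, e n * (ZMod.stdAddChar (-(n : ZMod G) * j) : ℂ)‖ ^ 2 =
      (G : ℝ) * ∑ n ∈ E, ‖e n‖ ^ 2 := by
    exact_mod_cast h1
  have h4 : ∑ n ∈ E, ‖e n‖ ^ 2 ≤ E.card := by
    refine (Finset.sum_le_card_nsmul E _ 1 fun n _ => ?_).trans (by simp)
    exact pow_le_one₀ (norm_nonneg _) (he n)
  unfold nm2 KE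
  have h5 : ∀ j : ZMod G, ‖∑ n ∈ E, e n * (ZMod.stdAddChar (-((n : ZMod G) * j)) : ℂ)‖ ^ 2 =
      ‖∑ n ∈ E, e n * (ZMod.stdAddChar (-(n : ZMod G) * j) : ℂ)‖ ^ 2 := by
    intro j
    congr 2
    refine Finset.sum_congr rfl fun n _ => ?_
    rw [neg_mul]
  rw [Finset.sum_congr rfl fun j _ => h5 j, h3, ← mul_assoc, one_div, inv_mul_cancel₀ hG0.ne',
    one_mul]
  exact h4

theorem ff_pair (X G w : ℕ) [NeZero G] (V ω : ZMod G → ℂ) (E : Finset ℕ) (e : ℕ → ℂ) :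
    ∑ n ∈ E, e n * Ph G X w V ω n =
      ∑ n ∈ Icc 1 X, ((ip n - f2 w n : ℝ) : ℂ) * FF G (xx G V ω E e) n := by
  have hL : ∑ n ∈ E, e n * Ph G X w V ω n =
      (1 / (G : ℂ)) * ∑ j : ZMod G, xx G V ω E e j * UU G X w j := by
    have h1 : ∀ n ∈ E, e n * Ph G X w V ω n = (1 / (G : ℂ)) * ∑ j : ZMod G,
        (ω j * V j * UU G X w j) * (e n * ZMod.stdAddChar (-((n : ZMod G) * j))) := by
      intro n _
      unfold Ph
      rw [mul_left_comm, Finset.mul_sum]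
      congr 1
      refine Finset.sum_congr rfl fun j _ => ?_
      ring
    rw [Finset.sum_congr rfl h1, ← Finset.mul_sum, Finset.sum_comm]
    congr 1
    refine Finset.sum_congr rfl fun j _ => ?_
    rw [← Finset.mul_sum]
    unfold xx KE
    ring
  have hR : ∑ n ∈ Icc 1 X, ((ip n - f2 w n : ℝ) : ℂ) * FF G (xx G V ω E e) n =
      (1 / (G : ℂ)) * ∑ j : ZMod G, xx G V ω E e j * UU G X w j := by
    have h1 : ∀ n ∈ Icc 1 X, ((ip n - f2 w n : ℝ) : ℂ) * FF G (xx G V ω E e) n =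
        (1 / (G : ℂ)) * ∑ j : ZMod G, xx G V ω E e j *
          (((ip n - f2 w n : ℝ) : ℂ) * ZMod.stdAddChar ((n : ZMod G) * j)) := by
      intro n _
      unfold FF
      rw [mul_left_comm, Finset.mul_sum]
      congr 1
      refine Finset.sum_congr rfl fun j _ => ?_
      ring
    rw [Finset.sum_congr rfl h1, ← Finset.mul_sum, Finset.sum_comm]
    congr 1
    refine Finset.sum_congr rfl fun j _ => ?_
    rw [← Finset.mul_sum]
    rfl
  rw [hL, hR]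

end Pool.MP_dd84fd_nt.GX
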