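import Pool.Agent.Lib.MP_dd84fd_nt.GX.Defs
import Pool.Agent.Lib.MP_dd84fd_nt.GX.FFb
import Pool.Agent.Lib.MP_dd84fd_nt.E2.FBound

/-!
# GX-Nrm (0.6 h): norms of `V` and of `x = ω V K`

`vv_l2`: `LS.parseval` (with `X < G`): `nm2 = Σ_{n ≤ X} (ip n + f2 w n)²`, `0 ≤ ip ≤ 1`, `0 ≤ f2 w n = f1 w n/log n ≤ log X/log 2 ≤ 1.5 log X`
(`E2.f1_le`; `f2 w 1 = 0` since `log 1 = 0`), so each square is `≤ (1 + 1.5 L)² ≤ 9 L²` for `L ≥ 1`.
`vv_sup`: `‖V_j‖ ≤ Σ (ip + f2) ≤ X (1 + 1.5 L) ≤ 3 X L`. `xx_l1`: Cauchy-Schwarz, `nm1 (ω V K)² ≤ nm2 V · nm2 K ≤ 9 X L² #E`. `xx_l2`: `‖K_j‖ ≤ #E`.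
-/

set_option autoImplicit false

namespace Pool.MP_dd84fd_nt.GX

open Finset Pool.MP_67663b_nt.Odd Pool.MP_dd84fd_nt.En Pool.MP_dd84fd_nt.E2 Pool.MP_dd84fd_nt.LS

open Pool.MP_dd84fd_nt.L2G (nrm)

private theorem nrm_chi {G : ℕ} [NeZero G] (z : ZMod G) : ‖(ZMod.stdAddChar z : ℂ)‖ = 1 :=
  AddChar.norm_apply _ _

private theorem nrm_f {X w n : ℕ} {L : ℝ} (hL : 1 ≤ L) (h : ∀ n : ℕ, f1 w n ≤ L) (hn : n ∈ Icc 1 X) :
    0 ≤ ip n + f2 w n ∧ ip n + f2 w n ≤ 3 * L := by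
  obtain ⟨hn1, _⟩ := Finset.mem_Icc.1 hn
  have h0 : 0 ≤ ip n ∧ ip n ≤ 1 := by
    unfold ip
    split_ifs
    · exact ⟨zero_le_one, le_rfl⟩
    · exact ⟨le_rfl, zero_le_one⟩
  have h1 : 0 ≤ f2 w n := by
    unfold f2
    exact div_nonneg (f1_nonneg w n) (Real.log_natCast_nonneg n)
  have h2 : f2 w n ≤ 3 / 2 * L := by
    unfold f2
    rcases Nat.eq_or_lt_of_le hn1 with h3 | h3
    · rw [← h3, Nat.cast_one, Real.log_one, div_zero]
      positivity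
    · have h4 : Real.log 2 ≤ Real.log (n : ℝ) :=
        Real.log_le_log (by norm_num) (by exact_mod_cast h3)
      have h5 : (2 : ℝ) / 3 < Real.log 2 := by
        have := Real.log_two_gt_d9
        linarith
      have h6 : (2 : ℝ) / 3 ≤ Real.log (n : ℝ) := h5.le.trans h4
      rw [div_le_iff₀ (by linarith)]
      have h7 := h n
      have h8 : 3 / 2 * L * (2 / 3) ≤ 3 / 2 * L * Real.log (n : ℝ) :=
        mul_le_mul_of_nonneg_left h6 (by positivity)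
      linarith
  constructor
  · linarith [h0.1]
  · linarith [h0.2]

theorem vb_VV (D' : ℕ) : ∃ X0 : ℕ, ∀ X : ℕ, X0 ≤ X → ∀ (G : ℕ) [NeZero G], 3 * X ≤ G →
    ∀ w : ℕ, (w : ℝ) ≤ (Real.log X) ^ D' → VB G X (VV G X w) := by
  obtain ⟨X1, hX1⟩ := f1_le D'
  refine ⟨max X1 3, fun X hX G hGz hG w hw => ?_⟩
  have hXX1 : X1 ≤ X := (le_max_left _ _).trans hX
  have hX3 : 3 ≤ X := (le_max_right _ _).trans hX
  have hXG : X < G := by omega
  have hL : 1 ≤ Real.log (X : ℝ) := by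
    rw [Real.le_log_iff_exp_le (by exact_mod_cast (by omega : 0 < X))]
    have h1 := Real.exp_one_lt_d9
    have h2 : (3 : ℝ) ≤ X := by exact_mod_cast hX3
    linarith
  obtain ⟨_, hf⟩ := hX1 X hXX1 w hw
  unfold VB
  set L : ℝ := Real.log (X : ℝ) with hLdef
  have hL0 : 0 < L := by linarith
  have hV2 : nm2 G (VV G X w) ≤ 9 * X * L ^ 2 := by
    unfold nm2 VV
    rw [parseval G X hXG]
    have h1 : ∑ n ∈ Icc 1 X, (ip n + f2 w n) ^ 2 ≤ ∑ _n ∈ Icc 1 X, (3 * L) ^ 2 := by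
      refine Finset.sum_le_sum fun n hn => ?_
      obtain ⟨h2, h3⟩ := nrm_f hL hf hn
      exact pow_le_pow_left₀ h2 h3 2
    refine h1.trans (le_of_eq ?_)
    rw [Finset.sum_const, Nat.card_Icc, nsmul_eq_mul, Nat.add_sub_cancel]
    ring
  have hVs : ∀ j, ‖VV G X w j‖ ≤ 3 * X * L := by
    intro j
    unfold VV tr
    refine (norm_sum_le _ _).trans ?_
    have h1 : ∑ n ∈ Icc 1 X, ‖((ip n + f2 w n : ℝ) : ℂ) * ZMod.stdAddChar ((n : ZMod G) * j)‖ ≤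
        ∑ _n ∈ Icc 1 X, 3 * L := by
      refine Finset.sum_le_sum fun n hn => ?_
      obtain ⟨h2, h3⟩ := nrm_f hL hf hn
      rw [norm_mul, nrm_chi, mul_one, Complex.norm_real, Real.norm_of_nonneg h2]
      exact h3
    refine h1.trans (le_of_eq ?_)
    rw [Finset.sum_const, Nat.card_Icc, nsmul_eq_mul, Nat.add_sub_cancel]
    ring
  exact ⟨hV2, hVs⟩

theorem norms (X G : ℕ) [NeZero G] (hG : 3 * X ≤ G) (V ω : ZMod G → ℂ) (hV : VB G X V)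
    (hω : ∀ j, ‖ω j‖ ≤ 1) (E : Finset ℕ) (hE : E ⊆ Icc 1 X) (e : ℕ → ℂ) (he : ∀ n, ‖e n‖ ≤ 1) :
    nm1 G (xx G V ω E e) ≤ 3 * Real.log X * Real.sqrt ((X : ℝ) * E.card) ∧
      nm2 G (xx G V ω E e) ≤ 9 * X * (Real.log X) ^ 2 * (E.card : ℝ) ^ 2 := by
  have hL0 : 0 ≤ Real.log (X : ℝ) := Real.log_natCast_nonneg X
  obtain ⟨hV2, hVs⟩ := hV
  set L : ℝ := Real.log (X : ℝ) with hLdef
  have hx : ∀ j, ‖xx G V ω E e j‖ ≤ ‖V j‖ * ‖KE G E e j‖ := by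
    intro j
    unfold xx
    rw [norm_mul, norm_mul]
    have h1 : ‖ω j‖ * ‖V j‖ ≤ 1 * ‖V j‖ :=
      mul_le_mul_of_nonneg_right (hω j) (norm_nonneg _)
    rw [one_mul] at h1
    exact mul_le_mul_of_nonneg_right h1 (norm_nonneg _)
  have hK2 := ke_l2 X G hG E hE e he
  constructor
  · have h1 : nm1 G (xx G V ω E e) ^ 2 ≤ nm2 G (V) * nm2 G (KE G E e) := by
      have h2 : nm1 G (xx G V ω E e) ≤
          (1 / (G : ℝ)) * ∑ j : ZMod G, ‖V j‖ * ‖KE G E e j‖ := by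
        unfold nm1
        exact mul_le_mul_of_nonneg_left (Finset.sum_le_sum fun j _ => hx j) (by positivity)
      have h3 : 0 ≤ nm1 G (xx G V ω E e) := by
        unfold nm1
        positivity
      have h4 := Finset.sum_mul_sq_le_sq_mul_sq (Finset.univ : Finset (ZMod G))
        (fun j => ‖V j‖) (fun j => ‖KE G E e j‖)
      calc nm1 G (xx G V ω E e) ^ 2
          ≤ ((1 / (G : ℝ)) * ∑ j : ZMod G, ‖V j‖ * ‖KE G E e j‖) ^ 2 :=
            pow_le_pow_left₀ h3 h2 2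
        _ = (1 / (G : ℝ)) ^ 2 * (∑ j : ZMod G, ‖V j‖ * ‖KE G E e j‖) ^ 2 := by
            rw [mul_pow]
        _ ≤ (1 / (G : ℝ)) ^ 2 * ((∑ j : ZMod G, ‖V j‖ ^ 2) *
            ∑ j : ZMod G, ‖KE G E e j‖ ^ 2) := mul_le_mul_of_nonneg_left h4 (by positivity)
        _ = nm2 G (V) * nm2 G (KE G E e) := by
            unfold nm2
            ring
    have h5 : nm2 G (V) * nm2 G (KE G E e) ≤ 9 * X * L ^ 2 * E.card :=
      mul_le_mul hV2 hK2 (by unfold nm2; positivity) (by positivity)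
    have h6 : (3 * L * Real.sqrt ((X : ℝ) * E.card)) ^ 2 = 9 * X * L ^ 2 * E.card := by
      rw [mul_pow, Real.sq_sqrt (by positivity)]
      ring
    have h7 : nm1 G (xx G V ω E e) ^ 2 ≤ (3 * L * Real.sqrt ((X : ℝ) * E.card)) ^ 2 := by
      rw [h6]
      exact h1.trans h5
    exact le_of_sq_le_sq h7 (by positivity)
  · have h1 : nm2 G (xx G V ω E e) ≤ nm2 G (V) * (E.card : ℝ) ^ 2 := by
      unfold nm2
      rw [mul_assoc, Finset.sum_mul]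
      refine mul_le_mul_of_nonneg_left (Finset.sum_le_sum fun j _ => ?_) (by positivity)
      have h2 := hx j
      have h3 := ke_sup G E e he j
      calc ‖xx G V ω E e j‖ ^ 2 ≤ (‖V j‖ * ‖KE G E e j‖) ^ 2 :=
            pow_le_pow_left₀ (norm_nonneg _) h2 2
        _ = ‖V j‖ ^ 2 * ‖KE G E e j‖ ^ 2 := by rw [mul_pow]
        _ ≤ ‖V j‖ ^ 2 * (E.card : ℝ) ^ 2 :=
            mul_le_mul_of_nonneg_left (pow_le_pow_left₀ (norm_nonneg _) h3 2) (by positivity)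
    exact h1.trans (mul_le_mul_of_nonneg_right hV2 (by positivity))

end Pool.MP_dd84fd_nt.GX
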