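import Pool.Agent.Lib.MP_dd84fd_nt.GX.Defs
import Pool.Agent.Lib.MP_dd84fd_nt.GX.KMass
import Pool.Agent.Lib.MP_dd84fd_nt.GX.Den
import Pool.Agent.Lib.MP_dd84fd_nt.GX.Nrm
import Pool.Agent.Lib.MP_dd84fd_nt.GX.GcdSum

/-!
# GX-Mu (1 h): masses of the denominators in a block

Put `Q = 2^a`, `h = 2^b`, `T = X / (16 h)` (ℕ division), `x = xx ... = ω V K`, `M_q = (1/G) Σ_{j : qd j = q} ‖V_j‖²`. If the block is
empty (`ω = 0`) everything is trivial; if `ω j ≠ 0`: `h ≤ ht ≤ √X` and `2^a ≤ qd ≤ ht < 2^(b+1)`, so `2^a ≤ 2^(b+1)`, and for `X ≥ 256`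
`T ≥ 1`, `T ≥ X/(32 h)`. For `q` with `mu q ≠ 0` there is `j` with `ω j ≠ 0`, `qd j = q`, so `ρ τ(q) ≤ δ` and
`#inAP E c q T ≤ ρ #E`; `q T ≤ 2^(b+1) X/(16 2^b) ≤ X`. All `j` with `x_j ≠ 0`, `qd j = q` satisfy
`nrm (q al_j) ≤ ht/X < 2^(b+1)/X ≤ 1/(8T)`. Cauchy-Schwarz and `kmass`:
`mu q ² ≤ M_q (4/T) #E (ρ #E) ≤ M_q · 128 (h/X) ρ #E²`.   (*)
`Σ_q M_q ≤ nm2 V ≤ 9 X L²` (disjoint sets of `j`). Note `ρ ≤ ρ τ(q) ≤ δ` (`q ≥ 1`).
`mu_sum`: `(Σ_{q ∈ [Q,2Q)} mu q)² ≤ Q Σ mu² ≤ 2h · 128 (h/X) δ #E² · 9 X L² = 2304 h² L² δ #E²`; root: `48 h L √δ #E`.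
`mu_lcm`: `gcd_sum` with `a = mu`: `≤ (2/Q) Σ τ(q) mu q² ≤ (2/Q) Σ τ(q) ρ M_q 128 (h/X) #E² ≤ (2/Q) · 128 (h/X) δ #E² · 9 X L² = 2304 (h/Q) L² δ #E²`.
-/

set_option autoImplicit false

namespace Pool.MP_dd84fd_nt.GX

open Finset Pool.MP_67663b_nt.Odd Pool.MP_dd84fd_nt.En Pool.MP_dd84fd_nt.E2 Pool.MP_dd84fd_nt.LS

open Pool.MP_dd84fd_nt.L2G (nrm)

/-- the pointwise bound -/
private theorem mu_pt (X G : ℕ) [NeZero G] (hX : 256 ≤ X) (hG : 3 * X ≤ G) (V : ZMod G → ℂ) (a b : ℕ)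
    (ω : ZMod G → ℂ) (hω : Wt G X a b ω) (E : Finset ℕ) (hE : E ⊆ Icc 1 X) (e : ℕ → ℂ)
    (he : ∀ n, ‖e n‖ ≤ 1) (ρ δ : ℝ) (hρ : 0 ≤ ρ) (hδ : 0 ≤ δ) (hN : NoAP G X b ω E ρ δ)
    (q : ℕ) (hq : 1 ≤ q) :
    (q.divisors.card : ℝ) * mu G X (xx G V ω E e) q ^ 2 ≤
      ((1 / (G : ℝ)) * ∑ j ∈ (univ : Finset (ZMod G)).filter (fun j => qd X (al G j) = q),
        ‖V j‖ ^ 2) * (128 * (2 ^ b / (X : ℝ)) * δ * (E.card : ℝ) ^ 2) := by
  have hX0 : (0 : ℝ) < X := by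
    have : 0 < X := by omega
    exact_mod_cast this
  have hG0 : (0 : ℝ) < G := by
    have : 0 < G := by omega
    exact_mod_cast this
  have hM0 : 0 ≤ (1 / (G : ℝ)) * ∑ j ∈ (univ : Finset (ZMod G)).filter
      (fun j => qd X (al G j) = q), ‖V j‖ ^ 2 :=
    mul_nonneg (by positivity) (sum_nonneg fun j _ => by positivity)
  by_cases h0 : ∃ j, ω j ≠ 0 ∧ qd X (al G j) = q
  · obtain ⟨j0, hj0, hqj0⟩ := h0
    obtain ⟨hb1, hb2, hb3, hb4⟩ := hω.2 j0 hj0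
    obtain ⟨hN1, hN2⟩ := hN j0 hj0
    rw [hqj0] at hN1 hN2 hb1 hb2
    have hs0 := ht_spec X (by omega) (al G j0)
    rw [hqj0] at hs0
    have hsq : (2 : ℝ) ^ b ≤ Real.sqrt X := hb3.trans hs0.2.1
    have hsq2 : (2 : ℝ) ^ b * 2 ^ b ≤ X := by
      have h1 : (2 : ℝ) ^ b * 2 ^ b ≤ Real.sqrt X * Real.sqrt X :=
        mul_le_mul hsq hsq (by positivity) (Real.sqrt_nonneg _)
      rwa [Real.mul_self_sqrt hX0.le] at h1
    have h16 : 16 * (2 : ℝ) ^ b ≤ X := by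
      have h256 : (256 : ℝ) ≤ X := by exact_mod_cast hX
      by_contra hc
      push Not at hc
      have hp : (0 : ℝ) < 2 ^ b := by positivity
      nlinarith
    obtain ⟨T, hT⟩ : ∃ T : ℕ, T = X / (16 * 2 ^ b) := ⟨_, rfl⟩
    have hT1 : 1 ≤ T := by
      rw [hT, Nat.one_le_div_iff (by positivity)]
      exact_mod_cast h16
    have hTle : T * (16 * 2 ^ b) ≤ X := by
      rw [hT]; exact Nat.div_mul_le_self _ _
    have hTge : X < (T + 1) * (16 * 2 ^ b) := by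
      rw [hT, mul_comm]
      exact Nat.lt_mul_div_succ X (by positivity)
    have hTleR : (T : ℝ) * (16 * 2 ^ b) ≤ X := by exact_mod_cast hTle
    have hTgeR : (X : ℝ) < (T + 1) * (16 * 2 ^ b) := by exact_mod_cast hTge
    have hT1R : (1 : ℝ) ≤ T := by exact_mod_cast hT1
    have hqR : (q : ℝ) < 2 ^ (b + 1) := lt_of_le_of_lt hs0.2.2.1 hb4
    have hqN : q < 2 ^ (b + 1) := by exact_mod_cast hqR
    have hqT : q * T ≤ X := by
      have h1 : q * T ≤ 2 ^ (b + 1) * T := Nat.mul_le_mul_right _ hqN.le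
      have h2 : 2 ^ (b + 1) * T ≤ T * (16 * 2 ^ b) := by
        rw [pow_succ]
        nlinarith [Nat.zero_le (T * 2 ^ b)]
      omega
    have hk := kmass X G hG E hE e he q T hq hT1 hqT (ρ * E.card) (by
      rw [hT]; exact hN2)
    -- mu ≤ (1/G) Σ ‖V‖ ‖K'‖
    obtain ⟨K', hK'⟩ : ∃ K' : ZMod G → ℝ, K' = fun j => if ω j = 0 then 0 else ‖KE G E e j‖ :=
      ⟨_, rfl⟩
    have hKsum : (1 / (G : ℝ)) * ∑ j ∈ (univ : Finset (ZMod G)).filter
        (fun j => qd X (al G j) = q), K' j ^ 2 ≤ 4 / (T : ℝ) * E.card * (ρ * E.card) := by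
      refine le_trans (mul_le_mul_of_nonneg_left ?_ (by positivity)) hk
      rw [sum_filter, sum_filter]
      apply sum_le_sum
      intro j _
      by_cases hj : qd X (al G j) = q
      · rw [if_pos hj]
        by_cases hωj : ω j = 0
        · rw [hK']
          simp only [hωj, if_true]
          split_ifs
          · have := sq_nonneg (‖KE G E e j‖)
            linarith
          · simp
        · have hbj := hω.2 j hωj
          have hsj := ht_spec X (by omega) (al G j)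
          rw [hj] at hsj
          have hn : nrm ((q : ℝ) * al G j) ≤ 1 / (8 * (T : ℝ)) := by
            have h1 : (X : ℝ) * nrm ((q : ℝ) * al G j) < 2 ^ (b + 1) :=
              lt_of_le_of_lt hsj.2.2.2 hbj.2.2.2
            have hnn : 0 ≤ nrm ((q : ℝ) * al G j) := by
              unfold L2G.nrm; exact abs_nonneg _
            rw [le_div_iff₀ (by positivity)]
            have h2 : (2 : ℝ) ^ (b + 1) * (8 * T) ≤ X := by
              rw [pow_succ]; linarith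
            have h3 : (X : ℝ) * (nrm ((q : ℝ) * al G j) * (8 * T)) ≤ X * 1 := by
              calc (X : ℝ) * (nrm ((q : ℝ) * al G j) * (8 * T))
                  = (X * nrm ((q : ℝ) * al G j)) * (8 * T) := by ring
                _ ≤ 2 ^ (b + 1) * (8 * T) := mul_le_mul_of_nonneg_right h1.le (by positivity)
                _ ≤ X * 1 := by linarith
            exact le_of_mul_le_mul_left h3 hX0
          rw [if_pos hn, hK']
          simp only [hωj, if_false]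
          exact le_refl _
      · rw [if_neg hj]
        split_ifs
        · positivity
        · exact le_refl _
    have hmu : mu G X (xx G V ω E e) q ≤ (1 / (G : ℝ)) *
        ∑ j ∈ (univ : Finset (ZMod G)).filter (fun j => qd X (al G j) = q),
          ‖V j‖ * K' j := by
      unfold mu xx
      refine mul_le_mul_of_nonneg_left (sum_le_sum fun j _ => ?_) (by positivity)
      rw [norm_mul, norm_mul, hK']
      by_cases hωj : ω j = 0
      · simp [hωj]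
      · simp only [hωj, if_false]
        have := hω.1 j
        calc ‖ω j‖ * ‖V j‖ * ‖KE G E e j‖ ≤ 1 * ‖V j‖ * ‖KE G E e j‖ := by
              gcongr
          _ = _ := by ring
    have hmu0 : 0 ≤ mu G X (xx G V ω E e) q := by
      unfold mu
      exact mul_nonneg (by positivity) (sum_nonneg fun j _ => norm_nonneg _)
    have hcs : (∑ j ∈ (univ : Finset (ZMod G)).filter (fun j => qd X (al G j) = q),
        ‖V j‖ * K' j) ^ 2 ≤
        (∑ j ∈ (univ : Finset (ZMod G)).filter (fun j => qd X (al G j) = q),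
          ‖V j‖ ^ 2) *
        ∑ j ∈ (univ : Finset (ZMod G)).filter (fun j => qd X (al G j) = q), K' j ^ 2 :=
      sum_mul_sq_le_sq_mul_sq _ _ _
    have hsq : mu G X (xx G V ω E e) q ^ 2 ≤
        ((1 / (G : ℝ)) * ∑ j ∈ (univ : Finset (ZMod G)).filter (fun j => qd X (al G j) = q),
          ‖V j‖ ^ 2) * (4 / (T : ℝ) * E.card * (ρ * E.card)) := by
      calc mu G X (xx G V ω E e) q ^ 2
          ≤ ((1 / (G : ℝ)) *
            ∑ j ∈ (univ : Finset (ZMod G)).filter (fun j => qd X (al G j) = q),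
              ‖V j‖ * K' j) ^ 2 := pow_le_pow_left₀ hmu0 hmu 2
        _ = (1 / (G : ℝ)) ^ 2 *
            (∑ j ∈ (univ : Finset (ZMod G)).filter (fun j => qd X (al G j) = q),
              ‖V j‖ * K' j) ^ 2 := by ring
        _ ≤ (1 / (G : ℝ)) ^ 2 *
            ((∑ j ∈ (univ : Finset (ZMod G)).filter (fun j => qd X (al G j) = q),
              ‖V j‖ ^ 2) *
            ∑ j ∈ (univ : Finset (ZMod G)).filter (fun j => qd X (al G j) = q), K' j ^ 2) :=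
            mul_le_mul_of_nonneg_left hcs (by positivity)
        _ = ((1 / (G : ℝ)) * ∑ j ∈ (univ : Finset (ZMod G)).filter
              (fun j => qd X (al G j) = q), ‖V j‖ ^ 2) *
            ((1 / (G : ℝ)) * ∑ j ∈ (univ : Finset (ZMod G)).filter
              (fun j => qd X (al G j) = q), K' j ^ 2) := by ring
        _ ≤ _ := mul_le_mul_of_nonneg_left hKsum hM0
    have hd : (q.divisors.card : ℝ) * (4 / (T : ℝ) * E.card * (ρ * E.card)) ≤
        128 * (2 ^ b / (X : ℝ)) * δ * (E.card : ℝ) ^ 2 := by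
      have h1 : 4 / (T : ℝ) ≤ 128 * (2 ^ b / (X : ℝ)) := by
        rw [div_le_iff₀ (by positivity), mul_assoc, div_mul_eq_mul_div, ← mul_div_assoc,
          le_div_iff₀ hX0]
        have hp : (0 : ℝ) < 2 ^ b := by positivity
        nlinarith
      calc (q.divisors.card : ℝ) * (4 / (T : ℝ) * E.card * (ρ * E.card))
          = 4 / (T : ℝ) * (ρ * (q.divisors.card : ℝ)) * (E.card : ℝ) ^ 2 := by ring
        _ ≤ 4 / (T : ℝ) * δ * (E.card : ℝ) ^ 2 := by gcongr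
        _ ≤ 128 * (2 ^ b / (X : ℝ)) * δ * (E.card : ℝ) ^ 2 := by gcongr
    calc (q.divisors.card : ℝ) * mu G X (xx G V ω E e) q ^ 2
        ≤ (q.divisors.card : ℝ) * (((1 / (G : ℝ)) *
          ∑ j ∈ (univ : Finset (ZMod G)).filter (fun j => qd X (al G j) = q),
          ‖V j‖ ^ 2) * (4 / (T : ℝ) * E.card * (ρ * E.card))) :=
          mul_le_mul_of_nonneg_left hsq (by positivity)
      _ = ((1 / (G : ℝ)) *
          ∑ j ∈ (univ : Finset (ZMod G)).filter (fun j => qd X (al G j) = q),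
          ‖V j‖ ^ 2) * ((q.divisors.card : ℝ) * (4 / (T : ℝ) * E.card * (ρ * E.card))) := by
          ring
      _ ≤ _ := mul_le_mul_of_nonneg_left hd hM0
  · have hz : mu G X (xx G V ω E e) q = 0 := by
      unfold mu xx
      rw [sum_eq_zero, mul_zero]
      intro j hj
      rw [mem_filter] at hj
      have : ω j = 0 := by
        by_contra hc
        exact h0 ⟨j, hc, hj.2⟩
      simp [this]
    rw [hz]
    have : 0 ≤ (128 * (2 ^ b / (X : ℝ)) * δ * (E.card : ℝ) ^ 2) := by positivity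
    calc (q.divisors.card : ℝ) * 0 ^ 2 = 0 := by ring
      _ ≤ _ := mul_nonneg hM0 this

/-- the sum over the denominators of a block -/
private theorem mu_key : ∃ X0 : ℕ, ∀ X : ℕ, X0 ≤ X → ∀ (G : ℕ) [NeZero G], 3 * X ≤ G →
    ∀ V : ZMod G → ℂ, VB G X V → ∀ (a b : ℕ) (ω : ZMod G → ℂ), Wt G X a b ω →
    ∀ E : Finset ℕ, E ⊆ Icc 1 X → ∀ e : ℕ → ℂ, (∀ n, ‖e n‖ ≤ 1) → ∀ ρ δ : ℝ, 0 ≤ ρ → 0 ≤ δ →
    NoAP G X b ω E ρ δ →
    ∑ q ∈ Ico (2 ^ a) (2 * 2 ^ a), (q.divisors.card : ℝ) * mu G X (xx G V ω E e) q ^ 2 ≤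
      1152 * 2 ^ b * (Real.log X) ^ 2 * δ * (E.card : ℝ) ^ 2 := by
  refine ⟨256, ?_⟩
  intro X hX2 G _ hG V hVB a b ω hω E hE e he ρ δ hρ hδ hN
  have hV := hVB.1
  have hXp : (0 : ℝ) < X := by
    have : 0 < X := by omega
    exact_mod_cast this
  have hG0 : (0 : ℝ) < G := by
    have : 0 < G := by omega
    exact_mod_cast this
  have hsum : ∑ q ∈ Ico (2 ^ a) (2 * 2 ^ a), (1 / (G : ℝ)) *
      ∑ j ∈ (univ : Finset (ZMod G)).filter (fun j => qd X (al G j) = q), ‖V j‖ ^ 2 ≤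
      9 * X * (Real.log X) ^ 2 := by
    refine le_trans ?_ hV
    unfold nm2
    rw [← mul_sum]
    refine mul_le_mul_of_nonneg_left ?_ (by positivity)
    rw [← sum_biUnion]
    · exact sum_le_sum_of_subset_of_nonneg (subset_univ _) (fun j _ _ => by positivity)
    · intro q _ q' _ hqq
      rw [Function.onFun, disjoint_filter]
      intro j _ h1 h2
      exact hqq (h1.symm.trans h2)
  calc ∑ q ∈ Ico (2 ^ a) (2 * 2 ^ a), (q.divisors.card : ℝ) * mu G X (xx G V ω E e) q ^ 2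
      ≤ ∑ q ∈ Ico (2 ^ a) (2 * 2 ^ a), ((1 / (G : ℝ)) *
        ∑ j ∈ (univ : Finset (ZMod G)).filter (fun j => qd X (al G j) = q),
        ‖V j‖ ^ 2) * (128 * (2 ^ b / (X : ℝ)) * δ * (E.card : ℝ) ^ 2) := by
        apply sum_le_sum
        intro q hq
        rw [mem_Ico] at hq
        have h2a : 1 ≤ 2 ^ a := Nat.one_le_two_pow
        exact mu_pt X G hX2 hG V a b ω hω E hE e he ρ δ hρ hδ hN q (h2a.trans hq.1)
    _ = (∑ q ∈ Ico (2 ^ a) (2 * 2 ^ a), (1 / (G : ℝ)) *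
        ∑ j ∈ (univ : Finset (ZMod G)).filter (fun j => qd X (al G j) = q),
        ‖V j‖ ^ 2) * (128 * (2 ^ b / (X : ℝ)) * δ * (E.card : ℝ) ^ 2) := by
        rw [sum_mul]
    _ ≤ 9 * X * (Real.log X) ^ 2 * (128 * (2 ^ b / (X : ℝ)) * δ * (E.card : ℝ) ^ 2) :=
        mul_le_mul_of_nonneg_right hsum (by positivity)
    _ = 1152 * 2 ^ b * (Real.log X) ^ 2 * δ * (E.card : ℝ) ^ 2 := by
        field_simp
        ring

theorem mu_sum : ∃ X0 : ℕ, ∀ X : ℕ, X0 ≤ X → ∀ (G : ℕ) [NeZero G], 3 * X ≤ G →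
    ∀ V : ZMod G → ℂ, VB G X V → ∀ (a b : ℕ) (ω : ZMod G → ℂ), Wt G X a b ω →
    ∀ E : Finset ℕ, E ⊆ Icc 1 X → ∀ e : ℕ → ℂ, (∀ n, ‖e n‖ ≤ 1) → ∀ ρ δ : ℝ, 0 ≤ ρ → 0 ≤ δ →
    NoAP G X b ω E ρ δ →
    ∑ q ∈ Ico (2 ^ a) (2 * 2 ^ a), mu G X (xx G V ω E e) q ≤
      48 * 2 ^ b * Real.log X * Real.sqrt δ * E.card := by
  obtain ⟨X0, hX0⟩ := mu_key
  refine ⟨max X0 256, ?_⟩
  intro X hX G _ hG V hVB a b ω hω E hE e he ρ δ hρ hδ hN
  have hX1 : X0 ≤ X := (le_max_left _ _).trans hX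
  have hX2 : 256 ≤ X := (le_max_right _ _).trans hX
  have hkey := hX0 X hX1 G hG V hVB a b ω hω E hE e he ρ δ hρ hδ hN
  have hlog : 0 ≤ Real.log X := Real.log_natCast_nonneg X
  have hR : 0 ≤ 48 * 2 ^ b * Real.log X * Real.sqrt δ * E.card := by positivity
  by_cases h0 : ∃ j, ω j ≠ 0
  · obtain ⟨j0, hj0⟩ := h0
    obtain ⟨hb1, hb2, hb3, hb4⟩ := hω.2 j0 hj0
    have hs0 := ht_spec X (by omega) (al G j0)
    have hQ : (2 : ℝ) ^ a ≤ 2 * 2 ^ b := by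
      have h1 : ((2 ^ a : ℕ) : ℝ) ≤ (qd X (al G j0) : ℝ) := by exact_mod_cast hb1
      push_cast at h1
      have h2 := hs0.2.2.1
      rw [pow_succ] at hb4
      linarith
    have hcs : (∑ q ∈ Ico (2 ^ a) (2 * 2 ^ a), mu G X (xx G V ω E e) q) ^ 2 ≤
        ((Ico (2 ^ a) (2 * 2 ^ a)).card : ℝ) *
          ∑ q ∈ Ico (2 ^ a) (2 * 2 ^ a), mu G X (xx G V ω E e) q ^ 2 :=
      sq_sum_le_card_mul_sum_sq
    have hcard : ((Ico (2 ^ a) (2 * 2 ^ a)).card : ℝ) = 2 ^ a := by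
      rw [Nat.card_Ico]
      have : 2 * 2 ^ a - 2 ^ a = 2 ^ a := by omega
      rw [this]
      push_cast
      ring
    have hle : ∑ q ∈ Ico (2 ^ a) (2 * 2 ^ a), mu G X (xx G V ω E e) q ^ 2 ≤
        ∑ q ∈ Ico (2 ^ a) (2 * 2 ^ a), (q.divisors.card : ℝ) *
          mu G X (xx G V ω E e) q ^ 2 := by
      apply sum_le_sum
      intro q hq
      rw [mem_Ico] at hq
      have h2a : 1 ≤ 2 ^ a := Nat.one_le_two_pow
      have hd : (1 : ℝ) ≤ (q.divisors.card : ℝ) := by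
        have : 0 < q.divisors.card := card_pos.2 ⟨1, Nat.one_mem_divisors.2 (by omega)⟩
        exact_mod_cast this
      nlinarith [sq_nonneg (mu G X (xx G V ω E e) q)]
    apply le_of_sq_le_sq ?_ hR
    calc (∑ q ∈ Ico (2 ^ a) (2 * 2 ^ a), mu G X (xx G V ω E e) q) ^ 2
        ≤ ((Ico (2 ^ a) (2 * 2 ^ a)).card : ℝ) *
          ∑ q ∈ Ico (2 ^ a) (2 * 2 ^ a), mu G X (xx G V ω E e) q ^ 2 := hcs
      _ ≤ (2 * 2 ^ b) * (1152 * 2 ^ b * (Real.log X) ^ 2 * δ * (E.card : ℝ) ^ 2) := by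
          rw [hcard]
          exact mul_le_mul hQ (hle.trans hkey) (sum_nonneg fun q _ => sq_nonneg _)
            (by positivity)
      _ = (48 * 2 ^ b * Real.log X * Real.sqrt δ * E.card) ^ 2 := by
          have := Real.sq_sqrt hδ
          calc (2 * (2 : ℝ) ^ b) * (1152 * 2 ^ b * (Real.log X) ^ 2 * δ * (E.card : ℝ) ^ 2)
              = 2304 * (2 ^ b) ^ 2 * (Real.log X) ^ 2 * δ * (E.card : ℝ) ^ 2 := by ring
            _ = 2304 * (2 ^ b) ^ 2 * (Real.log X) ^ 2 * (Real.sqrt δ ^ 2) *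
                (E.card : ℝ) ^ 2 := by rw [this]
            _ = _ := by ring
  · push Not at h0
    refine le_trans (le_of_eq ?_) hR
    apply sum_eq_zero
    intro q _
    unfold mu xx
    rw [sum_eq_zero, mul_zero]
    intro j _
    simp [h0 j]

theorem mu_lcm : ∃ X0 : ℕ, ∀ X : ℕ, X0 ≤ X → ∀ (G : ℕ) [NeZero G], 3 * X ≤ G →
    ∀ V : ZMod G → ℂ, VB G X V → ∀ (a b : ℕ) (ω : ZMod G → ℂ), Wt G X a b ω →
    ∀ E : Finset ℕ, E ⊆ Icc 1 X → ∀ e : ℕ → ℂ, (∀ n, ‖e n‖ ≤ 1) → ∀ ρ δ : ℝ, 0 ≤ ρ → 0 ≤ δ →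
    NoAP G X b ω E ρ δ →
    ∑ q ∈ Ico (2 ^ a) (2 * 2 ^ a), ∑ q' ∈ Ico (2 ^ a) (2 * 2 ^ a),
      mu G X (xx G V ω E e) q * mu G X (xx G V ω E e) q' / (Nat.lcm q q' : ℝ) ≤
      2304 * ((2 : ℝ) ^ b / 2 ^ a) * (Real.log X) ^ 2 * δ * (E.card : ℝ) ^ 2 := by
  obtain ⟨X0, hX0⟩ := mu_key
  refine ⟨X0, ?_⟩
  intro X hX G _ hG V hVB a b ω hω E hE e he ρ δ hρ hδ hN
  have hkey := hX0 X hX G hG V hVB a b ω hω E hE e he ρ δ hρ hδ hN
  have hg := gcd_sum (2 ^ a) Nat.one_le_two_pow (mu G X (xx G V ω E e)) (fun q => by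
    unfold mu
    exact mul_nonneg (by positivity) (sum_nonneg fun j _ => norm_nonneg _))
  refine hg.trans ?_
  calc (2 / ((2 ^ a : ℕ) : ℝ)) * ∑ q ∈ Ico (2 ^ a) (2 * 2 ^ a), (q.divisors.card : ℝ) *
        mu G X (xx G V ω E e) q ^ 2
      ≤ (2 / ((2 ^ a : ℕ) : ℝ)) * (1152 * 2 ^ b * (Real.log X) ^ 2 * δ * (E.card : ℝ) ^ 2) :=
        mul_le_mul_of_nonneg_left hkey (by positivity)
    _ = 2304 * ((2 : ℝ) ^ b / 2 ^ a) * (Real.log X) ^ 2 * δ * (E.card : ℝ) ^ 2 := by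
        push_cast
        ring

end Pool.MP_dd84fd_nt.GX
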