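import Pool.Agent.Lib.MP_dd84fd_nt.GX.Defs
import Pool.Agent.Lib.MP_dd84fd_nt.GX.Mu
import Pool.Agent.Lib.MP_dd84fd_nt.GX.Den2
import Pool.Agent.Lib.MP_dd84fd_nt.GX.TIexp

/-!
# GX-BlkI (0.6 h): type I bound for a block

Proof. `typeI_exp` (and `typeI_log`, whose extra factor is `2 log X`: take `B1` twice as large), `typeI_ker` for each `j` with `x_j ≠ 0`:
`Σ_{r ≤ R} mn ≤ C (X/ht + R) L ≤ C (X/2^b + X^(3/4)) L`, `R ≤ X^(3/4) ≤ X`. So the sum is `≤ C L (X/2^b) nm1 x + C L X^(3/4) nm1 x`;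
`nm1 x = Σ_{q ∈ [2^a, 2^(a+1))} mu q` (group by `qd`; only `j` in the block matter) `≤ 48 · 2^b L √δ #E` by `mu_sum`, used in the first term;
in the second `nm1 x ≤ 3 L √(X #E)` by `norms`. Total `≤ 48 C X L² √δ #E + 3 C L² X^(3/4) √(X #E)`.
-/

set_option autoImplicit false

namespace Pool.MP_dd84fd_nt.GX

open Finset Pool.MP_67663b_nt.Odd Pool.MP_dd84fd_nt.En Pool.MP_dd84fd_nt.E2 Pool.MP_dd84fd_nt.LS

open Pool.MP_dd84fd_nt.L2G (nrm)

private theorem blkI_fib (G : ℕ) [NeZero G] (X a : ℕ) (x : ZMod G → ℂ)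
    (h : ∀ j, x j ≠ 0 → 2 ^ a ≤ qd X (al G j) ∧ qd X (al G j) < 2 ^ (a + 1)) :
    nm1 G x ≤ ∑ q ∈ Ico (2 ^ a) (2 * 2 ^ a), mu G X x q := by
  unfold nm1 mu
  rw [← mul_sum]
  apply mul_le_mul_of_nonneg_left _ (by positivity)
  have h1 : ∑ q ∈ Ico (2 ^ a) (2 * 2 ^ a),
      ∑ j ∈ (univ : Finset (ZMod G)).filter (fun j => qd X (al G j) = q), ‖x j‖ =
      ∑ j : ZMod G, ∑ q ∈ Ico (2 ^ a) (2 * 2 ^ a), if qd X (al G j) = q then ‖x j‖ else 0 := by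
    rw [sum_comm]
    apply sum_congr rfl
    intro q _
    rw [sum_filter]
  rw [h1]
  apply sum_le_sum
  intro j _
  by_cases hj : x j = 0
  · rw [hj, norm_zero]
    apply sum_nonneg
    intro q _
    split_ifs <;> simp
  · have h2 := h j hj
    rw [sum_ite_eq, if_pos]
    rw [mem_Ico]
    refine ⟨h2.1, ?_⟩
    have := h2.2
    rw [pow_succ] at this
    omega

private theorem blkI_key : ∃ C : ℝ, 0 < C ∧ ∃ X0 : ℕ, 3 ≤ X0 ∧ ∀ X : ℕ, X0 ≤ X →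
    ∀ (G : ℕ) [NeZero G],
    3 * X ≤ G → ∀ V : ZMod G → ℂ, VB G X V → ∀ (a b : ℕ) (ω : ZMod G → ℂ),
    Wt G X a b ω → ∀ E : Finset ℕ, E ⊆ Icc 1 X → ∀ e : ℕ → ℂ, (∀ n, ‖e n‖ ≤ 1) →
    ∀ ρ δ : ℝ, 0 ≤ ρ → 0 ≤ δ → NoAP G X b ω E ρ δ → ∀ R : ℕ,
    (R : ℝ) ≤ (X : ℝ) ^ (3 / 4 : ℝ) →
    (1 / (G : ℝ)) * ∑ j : ZMod G, ‖xx G V ω E e j‖ *
        ∑ r ∈ Icc 1 R, L2G.mn ((X : ℝ) / r) ((r : ℝ) * al G j) ≤
      C * (Real.log X) ^ 2 *
      (X * Real.sqrt δ * E.card + (X : ℝ) ^ (3 / 4 : ℝ) * Real.sqrt ((X : ℝ) * E.card)) := by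
  obtain ⟨C1, hC1, X1, h1⟩ := typeI_ker
  obtain ⟨X2, h2⟩ := mu_sum
  refine ⟨48 * C1, by positivity, max (max X1 X2) 3, by simp, ?_⟩
  intro X hX G _ hG V hVB a b ω hω E hE e he ρ δ hρ hδ hN R hR
  have hX1 : X1 ≤ X := le_trans (le_trans (le_max_left _ _) (le_max_left _ _)) hX
  have hX2 : X2 ≤ X := le_trans (le_trans (le_max_right _ _) (le_max_left _ _)) hX
  have hX4 : 3 ≤ X := le_trans (le_max_right _ _) hX
  have hXr : (3 : ℝ) ≤ X := by exact_mod_cast hX4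
  have hL : 0 ≤ Real.log X := Real.log_nonneg (by linarith)
  have hmu := h2 X hX2 G hG V hVB a b ω hω E hE e he ρ δ hρ hδ hN
  have hnm := (norms X G hG V ω hVB hω.1 E hE e he).1
  have hsupp : ∀ j, xx G V ω E e j ≠ 0 → inBlk X a b (al G j) := by
    intro j hj
    apply hω.2 j
    intro h0
    apply hj
    unfold xx
    rw [h0, zero_mul, zero_mul]
  have hfib := blkI_fib G X a (xx G V ω E e) (fun j hj => ⟨(hsupp j hj).1, (hsupp j hj).2.1⟩)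
  have hnm1 : nm1 G (xx G V ω E e) ≤ 48 * 2 ^ b * Real.log X * Real.sqrt δ * E.card :=
    hfib.trans hmu
  have hnm0 : 0 ≤ nm1 G (xx G V ω E e) := by
    unfold nm1
    positivity
  have hRX : R ≤ X := by
    have : (R : ℝ) ≤ X := by
      refine hR.trans ?_
      calc (X : ℝ) ^ (3 / 4 : ℝ) ≤ (X : ℝ) ^ (1 : ℝ) :=
            Real.rpow_le_rpow_of_exponent_le (by linarith) (by norm_num)
        _ = X := Real.rpow_one _
    exact_mod_cast this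
  set Y := (X : ℝ) ^ (3 / 4 : ℝ) with hY
  have hY0 : 0 ≤ Y := by positivity
  have hb : (0 : ℝ) < 2 ^ b := by positivity
  have hS : (1 / (G : ℝ)) * ∑ j : ZMod G, ‖xx G V ω E e j‖ *
        ∑ r ∈ Icc 1 R, L2G.mn ((X : ℝ) / r) ((r : ℝ) * al G j) ≤
      nm1 G (xx G V ω E e) * (C1 * ((X : ℝ) / 2 ^ b + Y) * Real.log X) := by
    unfold nm1
    rw [mul_assoc, sum_mul]
    apply mul_le_mul_of_nonneg_left _ (by positivity)
    apply sum_le_sum
    intro j _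
    by_cases hj : xx G V ω E e j = 0
    · rw [hj, norm_zero, zero_mul, zero_mul]
    · apply mul_le_mul_of_nonneg_left _ (norm_nonneg _)
      refine (h1 X hX1 (al G j) R hRX).trans ?_
      apply mul_le_mul_of_nonneg_right _ hL
      apply mul_le_mul_of_nonneg_left _ hC1.le
      apply add_le_add _ hR
      exact div_le_div_of_nonneg_left (by positivity) hb (hsupp j hj).2.2.1
  refine hS.trans ?_
  have e1 : (X : ℝ) / 2 ^ b * nm1 G (xx G V ω E e) ≤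
      48 * Real.log X * (X * Real.sqrt δ * E.card) := by
    calc (X : ℝ) / 2 ^ b * nm1 G (xx G V ω E e) ≤
        (X : ℝ) / 2 ^ b * (48 * 2 ^ b * Real.log X * Real.sqrt δ * E.card) :=
          mul_le_mul_of_nonneg_left hnm1 (by positivity)
      _ = 48 * Real.log X * (X * Real.sqrt δ * E.card) := by
          field_simp
  have e2 : Y * nm1 G (xx G V ω E e) ≤ 48 * Real.log X * (Y * Real.sqrt ((X : ℝ) * E.card)) := by
    calc Y * nm1 G (xx G V ω E e) ≤ Y * (3 * Real.log X * Real.sqrt ((X : ℝ) * E.card)) :=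
          mul_le_mul_of_nonneg_left hnm hY0
      _ ≤ Y * (48 * Real.log X * Real.sqrt ((X : ℝ) * E.card)) := by
          apply mul_le_mul_of_nonneg_left _ hY0
          apply mul_le_mul_of_nonneg_right _ (Real.sqrt_nonneg _)
          linarith
      _ = 48 * Real.log X * (Y * Real.sqrt ((X : ℝ) * E.card)) := by ring
  calc nm1 G (xx G V ω E e) * (C1 * ((X : ℝ) / 2 ^ b + Y) * Real.log X)
      = C1 * Real.log X * ((X : ℝ) / 2 ^ b * nm1 G (xx G V ω E e) +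
          Y * nm1 G (xx G V ω E e)) := by ring
    _ ≤ C1 * Real.log X * (48 * Real.log X * (X * Real.sqrt δ * E.card) +
          48 * Real.log X * (Y * Real.sqrt ((X : ℝ) * E.card))) := by
          apply mul_le_mul_of_nonneg_left (add_le_add e1 e2) (by positivity)
    _ = 48 * C1 * (Real.log X) ^ 2 *
      (X * Real.sqrt δ * E.card + Y * Real.sqrt ((X : ℝ) * E.card)) := by ring

theorem blkI : ∃ C : ℝ, 0 < C ∧ ∃ X0 : ℕ, ∀ X : ℕ, X0 ≤ X → ∀ (G : ℕ) [NeZero G],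
    3 * X ≤ G → ∀ V : ZMod G → ℂ, VB G X V → ∀ (a b : ℕ) (ω : ZMod G → ℂ),
    Wt G X a b ω → ∀ E : Finset ℕ, E ⊆ Icc 1 X → ∀ e : ℕ → ℂ, (∀ n, ‖e n‖ ≤ 1) →
    ∀ ρ δ : ℝ, 0 ≤ ρ → 0 ≤ δ → NoAP G X b ω E ρ δ →
    TI X (FF G (xx G V ω E e)) (C * (Real.log X) ^ 2 *
      (X * Real.sqrt δ * E.card + (X : ℝ) ^ (3 / 4 : ℝ) * Real.sqrt ((X : ℝ) * E.card))) := by
  obtain ⟨C, hC, X0, hX0, h⟩ := blkI_key
  refine ⟨2 * C, by positivity, X0, ?_⟩
  intro X hX G _ hG V hVB a b ω hω E hE e he ρ δ hρ hδ hN R c y hR hc hy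
  have hX1 : 1 ≤ X := by omega
  have hXr : (3 : ℝ) ≤ X := by
    have : 3 ≤ X := hX0.trans hX
    exact_mod_cast this
  have hL : 0 ≤ Real.log X := Real.log_nonneg (by linarith)
  have hk := h X hX G hG V hVB a b ω hω E hE e he ρ δ hρ hδ hN R hR
  have hB0 : 0 ≤ C * (Real.log X) ^ 2 *
      (X * Real.sqrt δ * E.card + (X : ℝ) ^ (3 / 4 : ℝ) * Real.sqrt ((X : ℝ) * E.card)) := by
    positivity
  constructor
  · refine (typeI_exp X G hX1 (xx G V ω E e) R c hc y hy).trans ?_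
    linarith
  · refine (typeI_log X G hX1 (xx G V ω E e) R c hc y hy).trans ?_
    calc 2 * Real.log X * ((1 / (G : ℝ)) * ∑ j : ZMod G, ‖xx G V ω E e j‖ *
        ∑ r ∈ Icc 1 R, L2G.mn ((X : ℝ) / r) ((r : ℝ) * al G j)) ≤
        2 * Real.log X * (C * (Real.log X) ^ 2 *
      (X * Real.sqrt δ * E.card + (X : ℝ) ^ (3 / 4 : ℝ) * Real.sqrt ((X : ℝ) * E.card))) :=
          mul_le_mul_of_nonneg_left hk (by positivity)
      _ = 2 * C * (Real.log X) ^ 2 *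
      (X * Real.sqrt δ * E.card + (X : ℝ) ^ (3 / 4 : ℝ) * Real.sqrt ((X : ℝ) * E.card)) *
        Real.log X := by ring

end Pool.MP_dd84fd_nt.GX
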