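import Pool.Agent.Lib.MP_dd84fd_nt.GX.Defs
import Pool.Agent.Lib.MP_dd84fd_nt.RR.KT

/-!
# GX-KT (helper5): kernel trichotomy

Proof: `G98_paper.md` section 5 (Lemma KT); helper5's relation lemma.
-/

set_option autoImplicit false

namespace Pool.MP_dd84fd_nt.GX

open Finset Pool.MP_67663b_nt.Odd Pool.MP_dd84fd_nt.En Pool.MP_dd84fd_nt.E2 Pool.MP_dd84fd_nt.LS

open Pool.MP_dd84fd_nt.L2G (nrm)

theorem kt (N : ℕ) (Δ : ℝ) (hΔ : 0 < Δ) (α α' : ℝ) (r : ℕ)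
    (hr : r = (((Icc 1 N) ×ˢ (Icc 1 N)).filter
      (fun z : ℕ × ℕ => nrm ((z.1 : ℝ) * α - (z.2 : ℝ) * α') ≤ Δ)).card) :
    (r : ℝ) ≤ 162 * (N : ℝ) ^ 2 * Δ ∨
    (∃ d : ℕ, 1 ≤ d ∧ (d : ℝ) * r ≤ 54 * (N : ℝ) ^ 2 ∧
      nrm ((d : ℝ) * α) * r ≤ 54 * N * Δ ∧ nrm ((d : ℝ) * α') * r ≤ 54 * N * Δ) ∨
    (∃ u v : ℕ, 1 ≤ u ∧ u ≤ N ∧ 1 ≤ v ∧ v ≤ N ∧ (u : ℝ) * r ≤ N ∧ (v : ℝ) * r ≤ N ∧
      nrm ((u : ℝ) * α - (v : ℝ) * α') * r ≤ Δ) := by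
  rcases Nat.eq_zero_or_pos r with h0 | h0
  · left
    rw [h0, Nat.cast_zero]
    positivity
  have h := Pool.Agent.Lib.MP_dd84fd_nt.RR.kt N Δ α α' hΔ.le
  unfold Pool.Agent.Lib.MP_dd84fd_nt.RR.ktSet at h
  rw [← hr] at h
  have h1 : (1 : ℝ) ≤ r := by exact_mod_cast h0
  have hN : (0 : ℝ) ≤ N := Nat.cast_nonneg N
  rcases h with h | ⟨d, hd, h2, h3, h4⟩ | ⟨u, v, hu, hv, h2, h3, h4⟩
  · left
    have : 81 * (N : ℝ) ^ 2 * Δ ≤ 162 * (N : ℝ) ^ 2 * Δ := by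
      have : 0 ≤ (N : ℝ) ^ 2 * Δ := by positivity
      linarith
    exact h.trans this
  · right; left
    have hNΔ : 0 ≤ N * Δ := by positivity
    exact ⟨d, hd, by nlinarith, by nlinarith, by nlinarith⟩
  · right; right
    refine ⟨u, v, hu, ?_, hv, ?_, h2, h3, h4⟩
    · have : (u : ℝ) ≤ N := by nlinarith [Nat.cast_nonneg (α := ℝ) u]
      exact_mod_cast this
    · have : (v : ℝ) ≤ N := by nlinarith [Nat.cast_nonneg (α := ℝ) v]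
      exact_mod_cast this

end Pool.MP_dd84fd_nt.GX
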