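import Pool.Agent.Lib.MP_dd84fd_nt.GX.Defs
import Pool.Agent.Lib.MP_dd84fd_nt.GX.KT
import Pool.Agent.Lib.MP_dd84fd_nt.GX.Den

/-!
# GX-KerD (1 h): the kernel at one scale `Δ`

Proof. `kt` with `2N` in place of `N`. Let `r` be the cardinality, `q = qd X α`, `q' = qd X α'`, `h = ht X α`. All five
terms of the right side are nonnegative.
(a) `r ≤ 648 N² Δ`: `(1/Δ) r ≤ 648 N²`.
(b) `d r ≤ 216 N²`, `nrm (d α) r, nrm (d α') r ≤ 108 N Δ`. Put `H = max d (X nrm (d α))`, `H' = max d (X nrm (d α'))`.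
`(1/Δ) r H ≤ 432 N X` : `(1/Δ) r d ≤ 2M · 216 N² ≤ 432 N X` (`1/Δ ≤ 2M`, `M N ≤ X`), `(1/Δ) r X nrm (d α) ≤ 108 N X`;
same for `H'`. If `H ≥ √X/4` or `H' ≥ √X/4`: `(1/Δ) r ≤ 1728 N √X` (`X = √X √X`). Otherwise `d < √X/4`,
`nrm (d α) < 1/(4√X)`, `nrm (d α') < 1/(4√X)`: `near_frac` twice: `q ∣ d`, `q' ∣ d`, `H = (d/q) h`, so
`lcm(q,q') ∣ d`, `H ≥ (lcm(q,q')/q) h` and `(1/Δ) r ≤ 432 N X q/(lcm(q,q') h) = 432 N · Nk X α α'`.
(c) `u r ≤ 2N`, `v r ≤ 2N`, `nrm (u α - v α') r ≤ Δ`: put `k = max (max u v) ⌈X nrm (u α - v α')⌉₊ ≥ 1`. Then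
`rel X k α α'` and `(1/Δ) r k ≤ 8 X`: if `k = u` (or `v`): `(1/Δ) r u ≤ 2M·2N ≤ 4X`; if
`k = ⌈t⌉₊`, `t = X nrm`, `t ≥ 1`: `k ≤ 2t`, `(1/Δ) r t ≤ X`; if `t < 1`: `k = 1 ≤ u`. Let `J = Nat.log 2 X / 8`. If `k ≤ 2^(J+1)`: let `i`
be least with `k ≤ 2^i` (`i ≤ J+1`); `2^i ≤ 2k`, `rel X (2^i)` (monotone) and `(1/Δ) r ≤ 8X/k ≤ 16 X/2^i ≤ 16 Rk`. If `k > 2^(J+1)`:
`2^(J+1) ≥ X^(1/8)` (`X < 2^(Nat.log 2 X + 1) ≤ 2^(8(J+1))`), so `(1/Δ) r ≤ 8 X^(7/8)`.
`C = 1728` works.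
-/

set_option autoImplicit false

namespace Pool.MP_dd84fd_nt.GX

open Finset Pool.MP_67663b_nt.Odd Pool.MP_dd84fd_nt.En Pool.MP_dd84fd_nt.E2 Pool.MP_dd84fd_nt.LS

open Pool.MP_dd84fd_nt.L2G (nrm)

theorem rel_mono {X k k' : ℕ} (h : k ≤ k') {α α' : ℝ} (hr : rel X k α α') : rel X k' α α' := by
  obtain ⟨u, v, h1, h2, h3, h4, h5⟩ := hr
  refine ⟨u, v, h1, h2.trans h, h3, h4.trans h, h5.trans ?_⟩
  have : (k : ℝ) ≤ k' := by exact_mod_cast h
  gcongr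

theorem ker_delta (X : ℕ) (hX : 1 ≤ X) (M N : ℕ) (hN : 1 ≤ N) (hMN : M * N ≤ X) (Δ : ℝ)
    (hΔ : 0 < Δ) (hΔM : 1 / Δ ≤ 2 * M) (α α' : ℝ) :
    (1 / Δ) * ((((Icc 1 (2 * N)) ×ˢ (Icc 1 (2 * N))).filter
      (fun z : ℕ × ℕ => nrm ((z.1 : ℝ) * α - (z.2 : ℝ) * α') ≤ Δ)).card : ℝ) ≤
      1728 * ((N : ℝ) ^ 2 + N * Real.sqrt X + (X : ℝ) ^ (7 / 8 : ℝ) + N * Nk X α α' + Rk X α α') := by
  classical
  obtain ⟨r, hr⟩ : ∃ r, r = (((Icc 1 (2 * N)) ×ˢ (Icc 1 (2 * N))).filter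
      (fun z : ℕ × ℕ => nrm ((z.1 : ℝ) * α - (z.2 : ℝ) * α') ≤ Δ)).card := ⟨_, rfl⟩
  rw [← hr]
  have hX0 : (0 : ℝ) < X := by exact_mod_cast hX
  have hsq : 0 < √(X : ℝ) := Real.sqrt_pos.mpr hX0
  have hXs : (X : ℝ) = √X * √X := (Real.mul_self_sqrt hX0.le).symm
  have hN0 : (0 : ℝ) < N := by exact_mod_cast hN
  have hMN' : (M : ℝ) * N ≤ X := by exact_mod_cast hMN
  have hΔ' : 0 < 1 / Δ := by positivity
  have hr0 : (0 : ℝ) ≤ r := Nat.cast_nonneg _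
  have hnn : ∀ x : ℝ, 0 ≤ nrm x := fun x => abs_nonneg _
  obtain ⟨hq1, hq2, hq3, hq4⟩ := qd_spec X hX α
  obtain ⟨hq1', _, _, _⟩ := qd_spec X hX α'
  obtain ⟨hh1, hh2, hh3, hh4⟩ := ht_spec X hX α
  have hq0 : (0 : ℝ) < (qd X α : ℝ) := by exact_mod_cast hq1
  have hh0 : (0 : ℝ) < ht X α := by linarith
  have hl0 : 0 < Nat.lcm (qd X α) (qd X α') := Nat.lcm_pos hq1 hq1'
  have hl0R : (0 : ℝ) < (Nat.lcm (qd X α) (qd X α') : ℝ) := by exact_mod_cast hl0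
  -- nonnegativity of the terms
  have t1 : (0 : ℝ) ≤ (N : ℝ) ^ 2 := by positivity
  have t2 : (0 : ℝ) ≤ N * √X := by positivity
  have t3 : (0 : ℝ) ≤ (X : ℝ) ^ (7 / 8 : ℝ) := by positivity
  have t4 : (0 : ℝ) ≤ N * Nk X α α' := by unfold Nk; positivity
  have hnnj : ∀ j ∈ range (Nat.log 2 X / 8 + 2),
      (0 : ℝ) ≤ if rel X (2 ^ j) α α' then (X : ℝ) / 2 ^ j else 0 := by
    intro j _
    split_ifs <;> positivity
  have t5 : (0 : ℝ) ≤ Rk X α α' := sum_nonneg hnnj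
  rcases kt (2 * N) Δ hΔ α α' r hr with h | h | h
  · -- (a)
    have : (1 / Δ) * r ≤ 648 * (N : ℝ) ^ 2 := by
      calc (1 / Δ) * r ≤ (1 / Δ) * (162 * ((2 * N : ℕ) : ℝ) ^ 2 * Δ) := by gcongr
        _ = 648 * (N : ℝ) ^ 2 := by
            push_cast
            field_simp
            ring
    linarith
  · -- (b)
    obtain ⟨D, hD1, hD, ha, ha'⟩ := h
    have hD0 : (0 : ℝ) < D := by exact_mod_cast hD1
    have e1 : (1 / Δ) * r * D ≤ 432 * (N * X) := by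
      calc (1 / Δ) * r * D = (1 / Δ) * (D * r) := by ring
        _ ≤ (1 / Δ) * (54 * ((2 * N : ℕ) : ℝ) ^ 2) := by gcongr
        _ ≤ (2 * M) * (54 * ((2 * N : ℕ) : ℝ) ^ 2) := by gcongr
        _ = 432 * (N * (M * N)) := by push_cast; ring
        _ ≤ 432 * (N * X) := by gcongr
    have e2 : ∀ t : ℝ, nrm (D * t) * r ≤ 54 * ((2 * N : ℕ) : ℝ) * Δ →
        (1 / Δ) * r * (X * nrm (D * t)) ≤ 432 * (N * X) := by
      intro t hb
      calc (1 / Δ) * r * (X * nrm (D * t)) = (1 / Δ) * X * (nrm (D * t) * r) := by ring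
        _ ≤ (1 / Δ) * X * (54 * ((2 * N : ℕ) : ℝ) * Δ) := by gcongr
        _ = 108 * (N * X) := by push_cast; field_simp; ring
        _ ≤ 432 * (N * X) := by nlinarith [mul_pos hN0 hX0]
    have f1 := e2 α ha
    have f2 := e2 α' ha'
    by_cases hbig : √X / 4 ≤ D ∨ √X / 4 ≤ X * nrm (D * α) ∨ √X / 4 ≤ X * nrm (D * α')
    · have g1 : (1 / Δ) * r * (√X / 4) ≤ 432 * (N * X) := by
        rcases hbig with h | h | h
        · exact le_trans (by gcongr) e1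
        · exact le_trans (by gcongr) f1
        · exact le_trans (by gcongr) f2
      have g2 : (1 / Δ) * r ≤ 1728 * (N * √X) := by
        have g3 : (1 / Δ) * r * √X ≤ 1728 * (N * √X) * √X := by
          have : 1728 * (N * √X) * √X = 1728 * (N * (X : ℝ)) := by
            rw [mul_assoc, mul_assoc, ← hXs]
          rw [this]
          linarith
        exact le_of_mul_le_mul_right g3 hsq
      linarith
    · push Not at hbig
      obtain ⟨b1, b2, b3⟩ := hbig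
      have cvt : ∀ t : ℝ, X * nrm (D * t) < √X / 4 → nrm (D * t) < 1 / (4 * √X) := by
        intro t ht
        rw [lt_div_iff₀ (by positivity)]
        have h3 : √X * (√X * nrm (D * t)) < √X * (1 / 4) := by
          calc √X * (√X * nrm (D * t)) = (√X * √X) * nrm (D * t) := by ring
            _ = X * nrm (D * t) := by rw [← hXs]
            _ < √X / 4 := ht
            _ = √X * (1 / 4) := by ring
        have h4 := lt_of_mul_lt_mul_left h3 hsq.le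
        linarith
      obtain ⟨n1, n2⟩ := near_frac X hX α D hD1 b1 (cvt _ b2)
      obtain ⟨n1', _⟩ := near_frac X hX α' D hD1 b1 (cvt _ b3)
      have hlD : Nat.lcm (qd X α) (qd X α') ≤ D := Nat.le_of_dvd hD1 (Nat.lcm_dvd n1 n1')
      have hlDR : (Nat.lcm (qd X α) (qd X α') : ℝ) ≤ D := by exact_mod_cast hlD
      have g1 : (1 / Δ) * r * (((D : ℝ) / (qd X α : ℝ)) * ht X α) ≤ 432 * (N * X) := by
        rw [← n2]
        rcases max_choice (D : ℝ) (X * nrm (D * α)) with h | h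
        · rw [h]; exact e1
        · rw [h]; exact f1
      have g2 : (1 / Δ) * r ≤ 432 * (N * Nk X α α') := by
        have g3 : (1 / Δ) * r * (((Nat.lcm (qd X α) (qd X α') : ℝ) / (qd X α : ℝ)) * ht X α) ≤
            432 * (N * X) := by
          refine le_trans ?_ g1
          gcongr
        have g4 : 432 * (N * Nk X α α') = 432 * (N * X) /
            (((Nat.lcm (qd X α) (qd X α') : ℝ) / (qd X α : ℝ)) * ht X α) := by
          unfold Nk
          field_simp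
        rw [g4, le_div_iff₀ (by positivity)]
        exact g3
      linarith
  · -- (c)
    obtain ⟨m, m', hm1, _, hm1', _, hm, hm', hk⟩ := h
    have e1 : (1 / Δ) * r * m ≤ 4 * X := by
      calc (1 / Δ) * r * m = (1 / Δ) * (m * r) := by ring
        _ ≤ (1 / Δ) * ((2 * N : ℕ) : ℝ) := by gcongr
        _ ≤ 2 * M * ((2 * N : ℕ) : ℝ) := by gcongr
        _ = 4 * (M * N) := by push_cast; ring
        _ ≤ 4 * X := by gcongr
    have e1' : (1 / Δ) * r * m' ≤ 4 * X := by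
      calc (1 / Δ) * r * m' = (1 / Δ) * (m' * r) := by ring
        _ ≤ (1 / Δ) * ((2 * N : ℕ) : ℝ) := by gcongr
        _ ≤ 2 * M * ((2 * N : ℕ) : ℝ) := by gcongr
        _ = 4 * (M * N) := by push_cast; ring
        _ ≤ 4 * X := by gcongr
    have e2 : (1 / Δ) * r * (X * nrm (m * α - m' * α')) ≤ 4 * X := by
      calc (1 / Δ) * r * (X * nrm (m * α - m' * α'))
          = (1 / Δ) * X * (nrm (m * α - m' * α') * r) := by ring
        _ ≤ (1 / Δ) * X * Δ := by gcongr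
        _ = X := by field_simp
        _ ≤ 4 * X := by linarith
    -- the least j with max ≤ 2 ^ j
    have hex : ∃ j : ℕ, (m : ℝ) ≤ 2 ^ j ∧ (m' : ℝ) ≤ 2 ^ j ∧ X * nrm (m * α - m' * α') ≤ 2 ^ j := by
      obtain ⟨j, hj⟩ := pow_unbounded_of_one_lt ((m : ℝ) + m' + X * nrm (m * α - m' * α'))
        (by norm_num : (1 : ℝ) < 2)
      have a1 : (0 : ℝ) ≤ m := Nat.cast_nonneg _
      have a2 : (0 : ℝ) ≤ m' := Nat.cast_nonneg _
      have a3 : (0 : ℝ) ≤ X * nrm (m * α - m' * α') := mul_nonneg hX0.le (hnn _)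
      exact ⟨j, by linarith, by linarith, by linarith⟩
    obtain ⟨j, hj, hjmin⟩ : ∃ j : ℕ, ((m : ℝ) ≤ 2 ^ j ∧ (m' : ℝ) ≤ 2 ^ j ∧
        X * nrm (m * α - m' * α') ≤ 2 ^ j) ∧ ∀ j' < j, ¬ ((m : ℝ) ≤ 2 ^ j' ∧ (m' : ℝ) ≤ 2 ^ j' ∧
        X * nrm (m * α - m' * α') ≤ 2 ^ j') := ⟨Nat.find hex, Nat.find_spec hex, fun _ h => Nat.find_min hex h⟩
    obtain ⟨j1, j2, j3⟩ := hj
    have e3 : (1 / Δ) * r * 2 ^ j ≤ 8 * X := by
      rcases Nat.eq_zero_or_pos j with h0 | h0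
      · have hm1R : (1 : ℝ) ≤ m := by exact_mod_cast hm1
        rw [h0, pow_zero, mul_one]
        have : (1 / Δ) * r ≤ (1 / Δ) * r * m := le_mul_of_one_le_right (by positivity) hm1R
        linarith
      · have hj' := hjmin (j - 1) (by omega)
        have hpj : (2 : ℝ) ^ j = 2 * 2 ^ (j - 1) := by
          rw [← pow_succ']
          congr 1
          omega
        rw [not_and_or, not_and_or, not_le, not_le, not_le] at hj'
        rw [hpj]
        have base : (1 / Δ) * r * 2 ^ (j - 1) ≤ 4 * X := by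
          rcases hj' with h | h | h
          · exact le_trans (by gcongr) e1
          · exact le_trans (by gcongr) e1'
          · exact le_trans (by gcongr) e2
        linarith
    have h2j : (0 : ℝ) < 2 ^ j := by positivity
    have e4 : (1 / Δ) * r ≤ 8 * (X / 2 ^ j) := by
      rw [← mul_div_assoc, le_div_iff₀ h2j]
      exact e3
    by_cases hsm : j < Nat.log 2 X / 8 + 2
    · have hrel : rel X (2 ^ j) α α' := by
        refine ⟨m, m', hm1, by exact_mod_cast j1, hm1', by exact_mod_cast j2, ?_⟩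
        rw [le_div_iff₀ hX0]
        push_cast
        linarith
      have hs := single_le_sum hnnj (mem_range.mpr hsm)
      rw [if_pos hrel] at hs
      have hs' : (X : ℝ) / 2 ^ j ≤ Rk X α α' := hs
      linarith
    · push Not at hsm
      have e5 : (1 / Δ) * r ≤ 8 * (X : ℝ) ^ (7 / 8 : ℝ) := by
        refine e4.trans ?_
        have hlt : X < 2 ^ (Nat.log 2 X + 1) := Nat.lt_pow_succ_log_self (by norm_num) _
        have hle : 2 ^ (Nat.log 2 X + 1) ≤ 2 ^ (8 * j) := Nat.pow_le_pow_right (by norm_num) (by omega)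
        have hXj : (X : ℝ) ≤ (2 ^ j : ℝ) ^ 8 := by
          rw [← pow_mul, mul_comm]
          exact_mod_cast (hlt.le.trans hle)
        have h8 : (X : ℝ) ^ (1 / 8 : ℝ) ≤ 2 ^ j := by
          calc (X : ℝ) ^ (1 / 8 : ℝ) ≤ ((2 ^ j : ℝ) ^ 8) ^ (1 / 8 : ℝ) := by gcongr
            _ = 2 ^ j := by
                rw [← Real.rpow_natCast ((2 : ℝ) ^ j) 8, ← Real.rpow_mul h2j.le]
                norm_num
        have hdiv : (X : ℝ) / 2 ^ j ≤ (X : ℝ) ^ (7 / 8 : ℝ) := by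
          rw [div_le_iff₀ h2j]
          calc (X : ℝ) = (X : ℝ) ^ (7 / 8 : ℝ) * (X : ℝ) ^ (1 / 8 : ℝ) := by
                rw [← Real.rpow_add hX0]
                norm_num
            _ ≤ (X : ℝ) ^ (7 / 8 : ℝ) * 2 ^ j := by gcongr
        linarith
      linarith

end Pool.MP_dd84fd_nt.GX
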