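import Pool.Agent.Lib.MP_dd84fd_nt.GX.Defs
import Pool.Agent.Lib.MP_dd84fd_nt.GX.KerD
import Pool.Agent.Lib.MP_dd84fd_nt.L2G.MinSum

/-!
# GX-Ker (0.6 h): the kernel bound

Proof. For `M ≥ 1`: `mn M t ≤ Σ_{i ≤ I} 2^i 1[nrm t ≤ 2^(-i)]` where `I` is least with `2^I ≥ M` (so `2^I ≤ 2M`, `I ≤ 1 + log_2 X`):
if `nrm t ≤ 2^(-I)`, the term `i = I` is `2^I ≥ M ≥ mn`; otherwise let `i < I` be the largest index with
`nrm t ≤ 2^(-i)` (`i = 0` is allowed as `nrm t ≤ 1/2`): `nrm t > 2^(-i-1)`, `mn M t ≤ 1/(2 nrm t) ≤ 2^i`. Sum over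
`s, s' ∈ Ioc N (2N) ⊆ Icc 1 (2N)` and apply `ker_delta` with `Δ = 2^(-i)`, `1/Δ = 2^i ≤ 2M` for each of the `I + 1` values:
`I + 1 ≤ 3 + log X/log 2 ≤ 3 log X` for `X` large.
-/

set_option autoImplicit false

namespace Pool.MP_dd84fd_nt.GX

open Finset Pool.MP_67663b_nt.Odd Pool.MP_dd84fd_nt.En Pool.MP_dd84fd_nt.E2 Pool.MP_dd84fd_nt.LS

open Pool.MP_dd84fd_nt.L2G (nrm)

private theorem Ker_mn (M I : ℕ) (hMI : M ≤ 2 ^ I) (t : ℝ) :
    L2G.mn M t ≤ ∑ i ∈ range (I + 1), if nrm t ≤ 1 / (2 : ℝ) ^ i then (2 : ℝ) ^ i else 0 := by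
  have hnn : ∀ i ∈ range (I + 1), (0 : ℝ) ≤ if nrm t ≤ 1 / (2 : ℝ) ^ i then (2 : ℝ) ^ i else 0 := by
    intro i _
    split_ifs
    · positivity
    · exact le_rfl
  have hterm : ∀ i ∈ range (I + 1), nrm t ≤ 1 / (2 : ℝ) ^ i → (2 : ℝ) ^ i ≤
      ∑ i ∈ range (I + 1), if nrm t ≤ 1 / (2 : ℝ) ^ i then (2 : ℝ) ^ i else 0 := by
    intro i hi h
    have h1 := Finset.single_le_sum hnn hi
    rw [if_pos h] at h1
    exact h1
  have hMI' : (M : ℝ) ≤ 2 ^ I := by exact_mod_cast hMI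
  by_cases hI : nrm t ≤ 1 / (2 : ℝ) ^ I
  · refine le_trans ?_ (hterm I (by simp) hI)
    exact (L2G.mn_le M t (by positivity)).trans hMI'
  · have hex : ∃ i : ℕ, ¬ nrm t ≤ 1 / (2 : ℝ) ^ i := ⟨I, hI⟩
    classical
    have h1 := Nat.find_spec hex
    have h2 : Nat.find hex ≤ I := Nat.find_min' hex hI
    have h0 : Nat.find hex ≠ 0 := by
      intro h0
      rw [h0] at h1
      apply h1
      have h3 : nrm t ≤ 1 / 2 := abs_sub_round t
      rw [pow_zero]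
      linarith
    obtain ⟨k, hk⟩ := Nat.exists_eq_succ_of_ne_zero h0
    have h3 : nrm t ≤ 1 / (2 : ℝ) ^ k := by
      by_contra h3
      have := Nat.find_min' hex h3
      omega
    refine le_trans ?_ (hterm k (by simp; omega) h3)
    rw [hk] at h1
    push Not at h1
    have h4 : 0 < nrm t := lt_trans (by positivity) h1
    have h5 : L2G.mn M t ≤ 1 / (2 * nrm t) := by
      unfold L2G.mn
      split_ifs with h
      · rw [le_div_iff₀ (by positivity)]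
        linarith
      · exact le_rfl
    refine h5.trans ?_
    rw [div_le_iff₀ (by positivity)]
    rw [div_lt_iff₀ (by positivity), pow_succ] at h1
    linarith

theorem ker : ∃ C : ℝ, 0 < C ∧ ∃ X0 : ℕ, ∀ X : ℕ, X0 ≤ X → ∀ (M N : ℕ), 1 ≤ M → 1 ≤ N →
    M * N ≤ X → ∀ α α' : ℝ, Bker M N α α' ≤ C * Real.log X *
      ((N : ℝ) ^ 2 + N * Real.sqrt X + (X : ℝ) ^ (7 / 8 : ℝ) + N * Nk X α α' + Rk X α α') := by
  refine ⟨6912, by norm_num, 3, ?_⟩
  intro X hX M N hM hN hMN α α'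
  generalize hS : ((N : ℝ) ^ 2 + N * Real.sqrt X + (X : ℝ) ^ (7 / 8 : ℝ) + N * Nk X α α' +
    Rk X α α') = S
  have hMX : M ≤ X := le_trans (Nat.le_mul_of_pos_right M hN) hMN
  have hpow : 2 ^ (Nat.log 2 M + 1) ≤ 2 * M := by
    have := Nat.pow_log_le_self 2 (x := M) (by omega)
    rw [pow_succ]
    omega
  have hlt : M ≤ 2 ^ (Nat.log 2 M + 1) := (Nat.lt_pow_succ_log_self (by norm_num) M).le
  have hkd : ∀ i ∈ range (Nat.log 2 M + 1 + 1), (2 : ℝ) ^ i *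
      ((((Icc 1 (2 * N)) ×ˢ (Icc 1 (2 * N))).filter
      (fun z : ℕ × ℕ => nrm ((z.1 : ℝ) * α - (z.2 : ℝ) * α') ≤ 1 / (2 : ℝ) ^ i)).card : ℝ) ≤
      1728 * S := by
    intro i hi
    have hi' : i ≤ Nat.log 2 M + 1 := by
      have := Finset.mem_range.1 hi
      omega
    have h1 : (2 : ℝ) ^ i ≤ 2 * M := by
      have h2 : 2 ^ i ≤ 2 * M := le_trans (Nat.pow_le_pow_right (by norm_num) hi') hpow
      exact_mod_cast h2
    have h3 := ker_delta X (by omega) M N hN hMN (1 / (2 : ℝ) ^ i) (by positivity)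
      (by rw [one_div_one_div]; exact h1) α α'
    rw [hS, one_div_one_div] at h3
    exact h3
  have hS0 : 0 ≤ S := by
    have h1 := hkd 0 (by simp)
    have h2 : (0 : ℝ) ≤ (2 : ℝ) ^ 0 *
      ((((Icc 1 (2 * N)) ×ˢ (Icc 1 (2 * N))).filter
      (fun z : ℕ × ℕ => nrm ((z.1 : ℝ) * α - (z.2 : ℝ) * α') ≤ 1 / (2 : ℝ) ^ 0)).card : ℝ) := by
      positivity
    linarith
  have hB : Bker M N α α' ≤ ∑ i ∈ range (Nat.log 2 M + 1 + 1), (2 : ℝ) ^ i *
      ((((Icc 1 (2 * N)) ×ˢ (Icc 1 (2 * N))).filter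
      (fun z : ℕ × ℕ => nrm ((z.1 : ℝ) * α - (z.2 : ℝ) * α') ≤ 1 / (2 : ℝ) ^ i)).card : ℝ) := by
    unfold Bker
    have h1 : ∑ s ∈ Ioc N (2 * N), ∑ s' ∈ Ioc N (2 * N), L2G.mn M (s * α - s' * α') ≤
        ∑ s ∈ Ioc N (2 * N), ∑ s' ∈ Ioc N (2 * N), ∑ i ∈ range (Nat.log 2 M + 1 + 1),
          if nrm ((s : ℝ) * α - (s' : ℝ) * α') ≤ 1 / (2 : ℝ) ^ i then (2 : ℝ) ^ i else 0 :=
      Finset.sum_le_sum fun s _ => Finset.sum_le_sum fun s' _ => Ker_mn M _ hlt _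
    refine h1.trans ?_
    rw [← Finset.sum_product', Finset.sum_comm]
    refine Finset.sum_le_sum fun i _ => ?_
    rw [← Finset.sum_filter, Finset.sum_const, nsmul_eq_mul, mul_comm]
    refine mul_le_mul_of_nonneg_left ?_ (by positivity)
    have h2 : ((Ioc N (2 * N) ×ˢ Ioc N (2 * N)).filter
        (fun z : ℕ × ℕ => nrm ((z.1 : ℝ) * α - (z.2 : ℝ) * α') ≤ 1 / (2 : ℝ) ^ i)).card ≤
        (((Icc 1 (2 * N)) ×ˢ (Icc 1 (2 * N))).filter
        (fun z : ℕ × ℕ => nrm ((z.1 : ℝ) * α - (z.2 : ℝ) * α') ≤ 1 / (2 : ℝ) ^ i)).card := by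
      apply Finset.card_le_card
      apply Finset.filter_subset_filter
      intro z hz
      rw [Finset.mem_product, Finset.mem_Ioc, Finset.mem_Ioc] at hz
      rw [Finset.mem_product, Finset.mem_Icc, Finset.mem_Icc]
      omega
    exact_mod_cast h2
  refine hB.trans ((Finset.sum_le_sum hkd).trans ?_)
  rw [Finset.sum_const, Finset.card_range, nsmul_eq_mul]
  have hX3 : (3 : ℝ) ≤ X := by exact_mod_cast hX
  have hlog1 : 1 ≤ Real.log X := by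
    have h1 : Real.exp 1 ≤ X := by
      have := Real.exp_one_lt_d9
      linarith
    have h2 := Real.log_le_log (Real.exp_pos 1) h1
    rwa [Real.log_exp] at h2
  have hlog2 : ((Nat.log 2 M : ℕ) : ℝ) ≤ 2 * Real.log X := by
    have h1 : (2 : ℝ) ^ (Nat.log 2 M) ≤ X := by
      have h2 : 2 ^ Nat.log 2 M ≤ X := le_trans (Nat.pow_log_le_self 2 (x := M) (by omega)) hMX
      exact_mod_cast h2
    have h2 := Real.log_le_log (by positivity) h1
    rw [Real.log_pow] at h2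
    have h3 := Real.log_two_gt_d9
    have h4 : (0 : ℝ) ≤ (Nat.log 2 M : ℕ) := by positivity
    nlinarith
  have hcast : ((Nat.log 2 M + 1 + 1 : ℕ) : ℝ) ≤ 4 * Real.log X := by
    push_cast
    linarith
  have h5 : ((Nat.log 2 M + 1 + 1 : ℕ) : ℝ) * (1728 * S) ≤ 4 * Real.log X * (1728 * S) :=
    mul_le_mul_of_nonneg_right hcast (by positivity)
  refine h5.trans (le_of_eq ?_)
  ring

end Pool.MP_dd84fd_nt.GX
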