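import Pool.Agent.Lib.MP_dd84fd_nt.GX.Defs

/-!
# GX-RelCnt (0.7 h): counting rank one relations

`rel_symm`: swap `u, v`; `nrm (-x) = nrm x`.
`rel_count`. For fixed `u, v ∈ [1, k]`: `j' ∈ ZMod G` is determined by `n = j'.val ∈ [0, G)`. The condition says
`|v n/G - (u α - m)| ≤ k/X` for some integer `m` (with `nrm x = |x - round x|`). The integers `m` occurring satisfy
`u α - k/X - v ≤ m ≤ u α + k/X` (`0 ≤ v n/G ≤ v`): at most `v + 2k/X + 1 ≤ v + 3` of them. For each `m`, `n` lies in an interval of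
length `2 k G/(X v)`: at most `2kG/(Xv) + 1` values. Total `≤ (v+3)(2kG/(Xv) + 1) ≤ 8 k G/X + v + 3 ≤ 8kG/X + 4k ≤ 10 k G/X`
(`(v+3)/v ≤ 4`, `G ≥ 3X`). Sum over `u, v ≤ k`: `10 k³ G/X`.
-/

set_option autoImplicit false

namespace Pool.MP_dd84fd_nt.GX

open Finset Pool.MP_67663b_nt.Odd Pool.MP_dd84fd_nt.En Pool.MP_dd84fd_nt.E2 Pool.MP_dd84fd_nt.LS

open Pool.MP_dd84fd_nt.L2G (nrm)

theorem relcnt_nrm_neg (x : ℝ) : nrm (-x) = nrm x := by
  have h : ∀ x : ℝ, nrm (-x) ≤ nrm x := by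
    intro x
    unfold nrm
    have h1 := round_le (-x) (-round x)
    push_cast at h1
    refine h1.trans (le_of_eq ?_)
    rw [← abs_neg]
    congr 1
    ring
  refine le_antisymm (h x) ?_
  have h2 := h (-x)
  rwa [neg_neg] at h2

theorem rel_symm (X k : ℕ) (α α' : ℝ) (h : rel X k α α') : rel X k α' α := by
  obtain ⟨u, v, hu, huk, hv, hvk, h⟩ := h
  refine ⟨v, u, hv, hvk, hu, huk, ?_⟩
  rw [show (v : ℝ) * α' - u * α = -(u * α - v * α') by ring, relcnt_nrm_neg]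
  exact h

theorem relcnt_Icc (x y : ℝ) (h : x ≤ y) : ((Icc ⌈x⌉ ⌊y⌋).card : ℝ) ≤ y - x + 1 := by
  rw [Int.card_Icc]
  have h1 : ((⌊y⌋ + 1 - ⌈x⌉ : ℤ) : ℝ) ≤ y - x + 1 := by
    push_cast
    have := Int.floor_le y
    have := Int.le_ceil x
    linarith
  rcases le_total 0 (⌊y⌋ + 1 - ⌈x⌉) with h2 | h2
  · have h3 : (((⌊y⌋ + 1 - ⌈x⌉).toNat : ℤ) : ℝ) = ((⌊y⌋ + 1 - ⌈x⌉ : ℤ) : ℝ) := by
      rw [Int.toNat_of_nonneg h2]
    have h4 : (((⌊y⌋ + 1 - ⌈x⌉).toNat : ℤ) : ℝ) = ((⌊y⌋ + 1 - ⌈x⌉).toNat : ℝ) := by norm_cast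
    rw [← h4, h3]
    exact h1
  · rw [Int.toNat_of_nonpos h2]
    push_cast
    linarith

open Classical in
theorem relcnt_uv (X G : ℕ) [NeZero G] (hX : 1 ≤ X) (hG : 3 * X ≤ G) (k : ℕ) (hk : 1 ≤ k)
    (hkX : k ≤ X) (α : ℝ) (u v : ℕ) (hv : 1 ≤ v) (hvk : v ≤ k) :
    (((univ : Finset (ZMod G)).filter
      (fun j => nrm (u * α - v * al G j) ≤ (k : ℝ) / X)).card : ℝ) ≤
      10 * (k : ℝ) * ((G : ℝ) / X) := by
  have hX0 : (0 : ℝ) < X := by exact_mod_cast hX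
  have hG0 : (0 : ℝ) < G := by
    have : 0 < G := by omega
    exact_mod_cast this
  have hv0 : (0 : ℝ) < v := by exact_mod_cast hv
  have hk0 : (0 : ℝ) < k := by exact_mod_cast hk
  have hkX' : (k : ℝ) ≤ X := by exact_mod_cast hkX
  have hG' : 3 * (X : ℝ) ≤ G := by exact_mod_cast hG
  have hv1 : (1 : ℝ) ≤ v := by exact_mod_cast hv
  have hvk' : (v : ℝ) ≤ k := by exact_mod_cast hvk
  obtain ⟨T, hT⟩ : ∃ T : Finset ℤ, T = (Icc ⌈(u : ℝ) * α - k / X - v⌉ ⌊(u : ℝ) * α + k / X⌋).biUnion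
    (fun m : ℤ => Icc ⌈((u : ℝ) * α - m - k / X) * (G / v)⌉ ⌊((u : ℝ) * α - m + k / X) * (G / v)⌋) :=
    ⟨_, rfl⟩
  have h1 : ((univ : Finset (ZMod G)).filter
      (fun j => nrm (u * α - v * al G j) ≤ (k : ℝ) / X)).card ≤ T.card := by
    apply card_le_card_of_injOn (fun j : ZMod G => (j.val : ℤ))
    · intro j hj
      rw [mem_coe, mem_filter] at hj
      have h2 := hj.2
      unfold nrm al at h2
      have h3 := abs_le.mp h2
      have hj0 : (0 : ℝ) ≤ (j.val : ℝ) / G := by positivity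
      have hj1 : (j.val : ℝ) / G ≤ 1 := by
        rw [div_le_one hG0]
        exact_mod_cast (ZMod.val_lt j).le
      have h4 : (v : ℝ) * ((j.val : ℝ) / G) ≤ v := by nlinarith
      have h5 : 0 ≤ (v : ℝ) * ((j.val : ℝ) / G) := by positivity
      rw [mem_coe, hT, mem_biUnion]
      refine ⟨round (u * α - v * ((j.val : ℝ) / G)), ?_, ?_⟩
      · rw [mem_Icc, Int.ceil_le, Int.le_floor]
        constructor <;> linarith
      · rw [mem_Icc, Int.ceil_le, Int.le_floor]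
        have e1 : (((j.val : ℤ) : ℝ)) = (v * ((j.val : ℝ) / G)) * (G / v) := by
          push_cast
          field_simp
        rw [e1]
        have h6 : (0 : ℝ) ≤ G / v := by positivity
        constructor
        · apply mul_le_mul_of_nonneg_right _ h6
          linarith
        · apply mul_le_mul_of_nonneg_right _ h6
          linarith
    · intro j _ j' _ hjj
      simp only at hjj
      exact ZMod.val_injective G (by exact_mod_cast hjj)
  have hkX1 : (k : ℝ) / X ≤ 1 := by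
    rw [div_le_one hX0]
    exact hkX'
  have hkX0 : (0 : ℝ) ≤ (k : ℝ) / X := by positivity
  have h2 : (T.card : ℝ) ≤ (v + 3) * (2 * (k / X) * (G / v) + 1) := by
    rw [hT]
    have h3 := card_biUnion_le (s := Icc ⌈(u : ℝ) * α - k / X - v⌉ ⌊(u : ℝ) * α + k / X⌋)
      (t := fun m : ℤ => Icc ⌈((u : ℝ) * α - m - k / X) * (G / v)⌉
        ⌊((u : ℝ) * α - m + k / X) * (G / v)⌋)
    have h4 : ∀ m ∈ Icc ⌈(u : ℝ) * α - k / X - v⌉ ⌊(u : ℝ) * α + k / X⌋,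
        (((Icc ⌈((u : ℝ) * α - m - k / X) * (G / v)⌉
          ⌊((u : ℝ) * α - m + k / X) * (G / v)⌋).card : ℕ) : ℝ) ≤ 2 * (k / X) * (G / v) + 1 := by
      intro m _
      have h6 : (0 : ℝ) ≤ G / v := by positivity
      refine (relcnt_Icc _ _ ?_).trans (le_of_eq (by ring))
      apply mul_le_mul_of_nonneg_right _ h6
      linarith
    have h5 := relcnt_Icc ((u : ℝ) * α - k / X - v) ((u : ℝ) * α + k / X) (by linarith)
    have h7 : (0 : ℝ) ≤ 2 * (k / X) * (G / v) + 1 := by positivity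
    calc _ ≤ ((∑ m ∈ Icc ⌈(u : ℝ) * α - k / X - v⌉ ⌊(u : ℝ) * α + k / X⌋,
          (Icc ⌈((u : ℝ) * α - m - k / X) * (G / v)⌉
          ⌊((u : ℝ) * α - m + k / X) * (G / v)⌋).card : ℕ) : ℝ) := by exact_mod_cast h3
      _ ≤ ∑ m ∈ Icc ⌈(u : ℝ) * α - k / X - v⌉ ⌊(u : ℝ) * α + k / X⌋,
          (2 * (k / X) * (G / v) + 1 : ℝ) := by
        push_cast
        exact sum_le_sum h4
      _ = ((Icc ⌈(u : ℝ) * α - k / X - v⌉ ⌊(u : ℝ) * α + k / X⌋).card : ℝ) *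
          (2 * (k / X) * (G / v) + 1) := by rw [sum_const, nsmul_eq_mul]
      _ ≤ _ := mul_le_mul_of_nonneg_right (by linarith) h7
  have h3 : ((v : ℝ) + 3) * (2 * (k / X) * (G / v) + 1) ≤ 10 * (k : ℝ) * ((G : ℝ) / X) := by
    have e1 : ((v : ℝ) + 3) * (2 * (k / X) * (G / v) + 1)
        = 2 * k * (G / X) * ((v + 3) / v) + (v + 3) := by
      field_simp
    have h4 : ((v : ℝ) + 3) / v ≤ 4 := by
      rw [div_le_iff₀ hv0]
      linarith
    have h5 : (3 : ℝ) ≤ G / X := by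
      rw [le_div_iff₀ hX0]
      exact hG'
    have h6 : 2 * (k : ℝ) * (G / X) * ((v + 3) / v) ≤ 2 * (k : ℝ) * (G / X) * 4 :=
      mul_le_mul_of_nonneg_left h4 (by positivity)
    have hk1 : (1 : ℝ) ≤ k := by exact_mod_cast hk
    rw [e1]
    nlinarith
  calc _ ≤ (T.card : ℝ) := by exact_mod_cast h1
    _ ≤ _ := h2.trans h3

open Classical in
theorem rel_count (X G : ℕ) [NeZero G] (hX : 1 ≤ X) (hG : 3 * X ≤ G) (k : ℕ) (hk : 1 ≤ k)
    (hkX : k ≤ X) (α : ℝ) :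
    (((univ : Finset (ZMod G)).filter (fun j => rel X k α (al G j))).card : ℝ) ≤
      10 * (k : ℝ) ^ 3 * ((G : ℝ) / X) := by
  have h1 : (univ : Finset (ZMod G)).filter (fun j => rel X k α (al G j)) ⊆
      (Icc 1 k ×ˢ Icc 1 k).biUnion (fun p : ℕ × ℕ => (univ : Finset (ZMod G)).filter
        (fun j => nrm (p.1 * α - p.2 * al G j) ≤ (k : ℝ) / X)) := by
    intro j hj
    obtain ⟨u, v, hu, huk, hv, hvk, h⟩ := (mem_filter.mp hj).2
    rw [mem_biUnion]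
    exact ⟨(u, v), mem_product.mpr ⟨mem_Icc.mpr ⟨hu, huk⟩, mem_Icc.mpr ⟨hv, hvk⟩⟩,
      mem_filter.mpr ⟨mem_univ _, h⟩⟩
  have h2 := (card_le_card h1).trans card_biUnion_le
  calc _ ≤ ((∑ p ∈ Icc 1 k ×ˢ Icc 1 k, ((univ : Finset (ZMod G)).filter
        (fun j => nrm (p.1 * α - p.2 * al G j) ≤ (k : ℝ) / X)).card : ℕ) : ℝ) := by
        exact_mod_cast h2
    _ ≤ ∑ p ∈ Icc 1 k ×ˢ Icc 1 k, 10 * (k : ℝ) * ((G : ℝ) / X) := by
        push_cast
        apply sum_le_sum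
        intro p hp
        rw [mem_product, mem_Icc, mem_Icc] at hp
        exact relcnt_uv X G hX hG k hk hkX α p.1 p.2 hp.2.1 hp.2.2
    _ = 10 * (k : ℝ) ^ 3 * ((G : ℝ) / X) := by
        rw [sum_const, card_product, Nat.card_Icc, nsmul_eq_mul]
        push_cast
        ring

end Pool.MP_dd84fd_nt.GX
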