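import Pool.Agent.Lib.MP_dd84fd_nt.GX.Defs
import Pool.Agent.Lib.MP_dd84fd_nt.LS.Four
import Pool.Agent.Lib.MP_dd84fd_nt.L2G.MinSum

/-!
# GX-TIIexp (0.7 h): type II sums of `F`, Cauchy-Schwarz

Proof. Cauchy-Schwarz in `l` (`Ioc M (2M)` has `M` elements, `‖a_l‖ ≤ 1`): the square is
`≤ M Σ_l ‖Σ_s 1[l s ≤ t] b_s F(l s)‖² = M Σ_l (1/G²) ‖Σ_j x_j Σ_s 1[ls ≤ t] b_s χ(l s j)‖²`. Expand:
`= (M/G²) Σ_{j,j'} x_j conj x_j' Σ_{s,s'} b_s conj b_s' Σ_{l ∈ Ioc M (2M), l s ≤ t, l s' ≤ t} ee (l (s al_j - s' al_j'))`.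
The `l` form an interval `Ioc M m'`, `m' ≤ 2M` (`l s ≤ t ↔ l ≤ t / s` for `s ≥ 1`), or nothing, so the inner sum is at most
`mn M (s al_j - s' al_j')` in absolute value (`L2G.geo_sum`).
-/

set_option autoImplicit false

namespace Pool.MP_dd84fd_nt.GX

open Finset Pool.MP_67663b_nt.Odd Pool.MP_dd84fd_nt.En Pool.MP_dd84fd_nt.E2 Pool.MP_dd84fd_nt.LS

open Pool.MP_dd84fd_nt.L2G (nrm)

private theorem tii_conj_ee (x : ℝ) : (starRingEnd ℂ) (ee x) = ee (-x) := by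
  unfold ee
  rw [← Complex.exp_conj]
  congr 1
  have h2 : (starRingEnd ℂ) (2 : ℂ) = 2 := Complex.conj_ofNat 2
  rw [map_mul, map_mul, map_mul, h2, Complex.conj_ofReal, Complex.conj_ofReal, Complex.conj_I]
  push_cast
  ring

private theorem tii_dual {ι : Type} (P : Finset ι) (w : ι → ℂ) (D : ℕ → ι → Prop)
    [∀ l p, Decidable (D l p)] (φ : ι → ℝ) (L : Finset ℕ) (B : ι → ι → ℝ)
    (h : ∀ p ∈ P, ∀ p' ∈ P, ‖∑ l ∈ L.filter (fun l => D l p ∧ D l p'),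
      ee ((l : ℝ) * (φ p - φ p'))‖ ≤ B p p') :
    ∑ l ∈ L, ‖∑ p ∈ P, (if D l p then w p * ee ((l : ℝ) * φ p) else 0)‖ ^ 2 ≤
      ∑ p ∈ P, ∑ p' ∈ P, ‖w p‖ * ‖w p'‖ * B p p' := by
  have h1 : ((∑ l ∈ L, ‖∑ p ∈ P, (if D l p then w p * ee ((l : ℝ) * φ p) else 0)‖ ^ 2 : ℝ) : ℂ) =
      ∑ p ∈ P, ∑ p' ∈ P, w p * (starRingEnd ℂ) (w p') *
        ∑ l ∈ L.filter (fun l => D l p ∧ D l p'), ee ((l : ℝ) * (φ p - φ p')) := by
    push_cast
    have h2 : ∀ l ∈ L, ((‖∑ p ∈ P, (if D l p then w p * ee ((l : ℝ) * φ p) else 0)‖ : ℂ)) ^ 2 =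
        ∑ p ∈ P, ∑ p' ∈ P, (if D l p ∧ D l p' then w p * (starRingEnd ℂ) (w p') *
          ee ((l : ℝ) * (φ p - φ p')) else 0) := by
      intro l _
      rw [← Complex.mul_conj', map_sum, Finset.sum_mul_sum]
      refine Finset.sum_congr rfl fun p _ => Finset.sum_congr rfl fun p' _ => ?_
      by_cases hp : D l p
      · by_cases hp' : D l p'
        · rw [if_pos hp, if_pos hp', if_pos ⟨hp, hp'⟩, map_mul, tii_conj_ee]
          have e1 : (l : ℝ) * (φ p - φ p') = (l : ℝ) * φ p + -((l : ℝ) * φ p') := by ring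
          rw [e1, ee_add]
          ring
        · have hn : ¬ (D l p ∧ D l p') := fun hh => hp' hh.2
          rw [if_neg hp', if_neg hn, map_zero, mul_zero]
      · have hn : ¬ (D l p ∧ D l p') := fun hh => hp hh.1
        rw [if_neg hp, if_neg hn, zero_mul]
    rw [Finset.sum_congr rfl h2, Finset.sum_comm]
    refine Finset.sum_congr rfl fun p _ => ?_
    rw [Finset.sum_comm]
    refine Finset.sum_congr rfl fun p' _ => ?_
    rw [Finset.sum_filter, Finset.mul_sum]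
    refine Finset.sum_congr rfl fun l _ => ?_
    split_ifs <;> simp
  have h0 : 0 ≤ ∑ l ∈ L, ‖∑ p ∈ P, (if D l p then w p * ee ((l : ℝ) * φ p) else 0)‖ ^ 2 :=
    Finset.sum_nonneg fun l _ => sq_nonneg _
  have h3 : ‖((∑ l ∈ L, ‖∑ p ∈ P, (if D l p then w p * ee ((l : ℝ) * φ p) else 0)‖ ^ 2 : ℝ) : ℂ)‖ =
      ∑ l ∈ L, ‖∑ p ∈ P, (if D l p then w p * ee ((l : ℝ) * φ p) else 0)‖ ^ 2 := by
    rw [Complex.norm_real, Real.norm_eq_abs, abs_of_nonneg h0]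
  rw [← h3, h1]
  refine (norm_sum_le _ _).trans (Finset.sum_le_sum fun p hp => ?_)
  refine (norm_sum_le _ _).trans (Finset.sum_le_sum fun p' hp' => ?_)
  rw [norm_mul, norm_mul, RCLike.norm_conj]
  exact mul_le_mul_of_nonneg_left (h p hp p' hp') (by positivity)

theorem typeII_exp (G : ℕ) [NeZero G] (x : ZMod G → ℂ) (M N t : ℕ) (a b : ℕ → ℂ)
    (ha : ∀ n, ‖a n‖ ≤ 1) (hb : ∀ n, ‖b n‖ ≤ 1) :
    ‖∑ l ∈ Ioc M (2 * M), ∑ s ∈ (Ioc N (2 * N)).filter (fun s => l * s ≤ t),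
      a l * b s * FF G x (l * s)‖ ^ 2 ≤
      (M : ℝ) * ((1 / (G : ℝ)) ^ 2 * ∑ j : ZMod G, ∑ j' : ZMod G,
        ‖x j‖ * ‖x j'‖ * Bker M N (al G j) (al G j')) := by
  classical
  set P : Finset (ℕ × ZMod G) := Ioc N (2 * N) ×ˢ (univ : Finset (ZMod G)) with hP
  set w : ℕ × ZMod G → ℂ := fun p => (1 / (G : ℂ)) * (b p.1 * x p.2) with hw
  set φ : ℕ × ZMod G → ℝ := fun p => (p.1 : ℝ) * al G p.2 with hφ
  -- the inner sums
  have hT : ∀ l ∈ Ioc M (2 * M), ∑ s ∈ (Ioc N (2 * N)).filter (fun s => l * s ≤ t),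
      a l * b s * FF G x (l * s) = a l * ∑ p ∈ P, (if l * p.1 ≤ t then w p * ee ((l : ℝ) * φ p)
        else 0) := by
    intro l _
    rw [hP, Finset.sum_product, Finset.sum_filter, Finset.mul_sum]
    refine Finset.sum_congr rfl fun s _ => ?_
    by_cases hs : l * s ≤ t
    · simp only [if_pos hs, hw, hφ]
      unfold FF
      rw [Finset.mul_sum, Finset.mul_sum, Finset.mul_sum]
      refine Finset.sum_congr rfl fun j _ => ?_
      have e1 : ((l * s : ℕ) : ZMod G) * j = ((l * s : ℕ) : ZMod G) * j := rfl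
      rw [chi_ee]
      have e2 : ((l * s : ℕ) : ℝ) * ((j.val : ℝ) / G) = (l : ℝ) * ((s : ℝ) * al G j) := by
        unfold al
        push_cast
        ring
      rw [e2]
      ring
    · simp only [if_neg hs, Finset.sum_const_zero, mul_zero]
  rw [Finset.sum_congr rfl hT]
  have hCS : ‖∑ l ∈ Ioc M (2 * M), a l * ∑ p ∈ P, (if l * p.1 ≤ t then w p * ee ((l : ℝ) * φ p)
        else 0)‖ ^ 2 ≤ (M : ℝ) * ∑ l ∈ Ioc M (2 * M), ‖∑ p ∈ P, (if l * p.1 ≤ t then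
          w p * ee ((l : ℝ) * φ p) else 0)‖ ^ 2 := by
    have h1 : ‖∑ l ∈ Ioc M (2 * M), a l * ∑ p ∈ P, (if l * p.1 ≤ t then w p * ee ((l : ℝ) * φ p)
        else 0)‖ ≤ ∑ l ∈ Ioc M (2 * M), ‖∑ p ∈ P, (if l * p.1 ≤ t then
          w p * ee ((l : ℝ) * φ p) else 0)‖ := by
      refine (norm_sum_le _ _).trans (Finset.sum_le_sum fun l _ => ?_)
      rw [norm_mul]
      exact mul_le_of_le_one_left (norm_nonneg _) (ha l)
    refine (pow_le_pow_left₀ (norm_nonneg _) h1 2).trans ?_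
    refine sq_sum_le_card_mul_sum_sq.trans ?_
    rw [Nat.card_Ioc]
    have : 2 * M - M = M := by omega
    rw [this]
  refine hCS.trans (mul_le_mul_of_nonneg_left ?_ (Nat.cast_nonneg _))
  have hdual := tii_dual P w (fun l p => l * p.1 ≤ t) φ (Ioc M (2 * M))
    (fun p p' => L2G.mn M (φ p - φ p')) (by
      intro p hp p' hp'
      rw [hP, Finset.mem_product, Finset.mem_Ioc] at hp hp'
      have hs : 1 ≤ p.1 := by omega
      have hs' : 1 ≤ p'.1 := by omega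
      have e1 : (Ioc M (2 * M)).filter (fun l => l * p.1 ≤ t ∧ l * p'.1 ≤ t) =
          Ioc M (min (2 * M) (min (t / p.1) (t / p'.1))) := by
        ext l
        simp only [Finset.mem_filter, Finset.mem_Ioc, le_min_iff, Nat.le_div_iff_mul_le hs,
          Nat.le_div_iff_mul_le hs', and_assoc]
      rw [e1]
      refine L2G.geo_sum _ _ _ _ ?_ (Nat.cast_nonneg _)
      have h2 : ((min (2 * M) (min (t / p.1) (t / p'.1)) : ℕ) : ℝ) ≤ ((2 * M : ℕ) : ℝ) := by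
        exact_mod_cast min_le_left _ _
      push_cast at h2 ⊢
      linarith)
  refine hdual.trans ?_
  have hmn : ∀ y : ℝ, 0 ≤ L2G.mn M y := fun y => L2G.mn_nonneg _ _ (Nat.cast_nonneg _)
  have hwn : ∀ p : ℕ × ZMod G, ‖w p‖ ≤ (1 / (G : ℝ)) * ‖x p.2‖ := by
    intro p
    rw [hw]
    simp only [norm_mul, norm_div, norm_one, Complex.norm_natCast]
    refine mul_le_mul_of_nonneg_left ?_ (by positivity)
    exact mul_le_of_le_one_left (norm_nonneg _) (hb p.1)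
  calc ∑ p ∈ P, ∑ p' ∈ P, ‖w p‖ * ‖w p'‖ * L2G.mn M (φ p - φ p')
      ≤ ∑ p ∈ P, ∑ p' ∈ P, ((1 / (G : ℝ)) * ‖x p.2‖) * ((1 / (G : ℝ)) * ‖x p'.2‖) *
          L2G.mn M (φ p - φ p') := by
        refine Finset.sum_le_sum fun p _ => Finset.sum_le_sum fun p' _ => ?_
        refine mul_le_mul_of_nonneg_right ?_ (hmn _)
        exact mul_le_mul (hwn p) (hwn p') (norm_nonneg _) (by positivity)
    _ = (1 / (G : ℝ)) ^ 2 * ∑ j : ZMod G, ∑ j' : ZMod G,
        ‖x j‖ * ‖x j'‖ * Bker M N (al G j) (al G j') := by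
        rw [hP, Finset.sum_product, Finset.sum_comm, Finset.mul_sum]
        refine Finset.sum_congr rfl fun j _ => ?_
        simp only [Finset.sum_product]
        have e1 : ∀ s ∈ Ioc N (2 * N), ∑ s' ∈ Ioc N (2 * N), ∑ j' : ZMod G,
            ((1 / (G : ℝ)) * ‖x j‖) * ((1 / (G : ℝ)) * ‖x j'‖) * L2G.mn M (φ (s, j) - φ (s', j')) =
            ∑ j' : ZMod G, ∑ s' ∈ Ioc N (2 * N),
            ((1 / (G : ℝ)) * ‖x j‖) * ((1 / (G : ℝ)) * ‖x j'‖) * L2G.mn M (φ (s, j) - φ (s', j')) :=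
          fun s _ => Finset.sum_comm
        rw [Finset.sum_congr rfl e1, Finset.sum_comm, Finset.mul_sum]
        refine Finset.sum_congr rfl fun j' _ => ?_
        unfold Bker
        rw [Finset.mul_sum, Finset.mul_sum]
        refine Finset.sum_congr rfl fun s _ => ?_
        rw [Finset.mul_sum, Finset.mul_sum]
        refine Finset.sum_congr rfl fun s' _ => ?_
        simp only [hφ]
        ring

end Pool.MP_dd84fd_nt.GX
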