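import Pool.Agent.Lib.MP_dd84fd_nt.GX.Defs
import Pool.Agent.Lib.MP_dd84fd_nt.GX.Mu
import Pool.Agent.Lib.MP_dd84fd_nt.GX.Ker
import Pool.Agent.Lib.MP_dd84fd_nt.GX.RelCnt
import Pool.Agent.Lib.MP_dd84fd_nt.GX.TIIexp

/-!
# GX-BlkII (1 h): type II bound for a block

Proof. `M = 2^i`, `N = 2^i'`, `N ≤ M`, `M N ≤ X`, `N ≥ X^(3/8)/2`, so `M ≤ 2 X^(5/8)`, `N ≤ √X`. `typeII_exp` and `ker`: the square is
`≤ M C L (1/G²) Σ_{j,j'} ‖x_j‖ ‖x_j'‖ (N² + N√X + X^(7/8) + N Nk + Rk)`.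
(G) `M (N² + N√X + X^(7/8)) ≤ 4 X^(3/2)` and `(1/G²) Σ Σ = nm1 x² ≤ 9 L² X #E` (`norms`): `≤ 36 C L³ X^(5/2) #E`.
(N) for `j, j'` in the block `Nk = X q/(ht lcm(q,q')) ≤ X 2^(a+1)/(2^b lcm(q,q'))`; grouping by `q, q'`:
`(1/G²) Σ ‖x‖‖x'‖ Nk ≤ X 2^(a+1-b) Σ_{q,q'} mu mu'/lcm ≤ X 2^(a+1-b) 2304 2^(b-a) L² δ #E² = 4608 X L² δ #E²` (`mu_lcm`); times
`M N C L ≤ X C L`: `≤ 4608 C L³ X² δ #E²`.
(R) for one `k = 2^m`, `m ≤ Nat.log 2 X/8 + 1` (so `k ≤ 2 X^(1/8) ≤ X`): `‖x_j‖‖x_j'‖ ≤ (‖x_j‖² + ‖x_j'‖²)/2`, `rel_symm`, `rel_count`: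
`(1/G²) Σ_{rel_k} ‖x_j‖‖x_j'‖ ≤ (1/G²) · 10 k³ (G/X) Σ ‖x_j‖² = (10 k³/X) nm2 x`, times `X/k`: `10 k² nm2 x ≤ 10 k² · 9 X L² #E²`. Sum over
the powers `k = 2^m`: `Σ k² ≤ (4/3) (2 X^(1/8))² ≤ 6 X^(1/4)`. So (R) `≤ M C L · 540 X^(1/4) X L² #E² ≤ 1080 C L³ X^(15/8) #E²`.
-/

set_option autoImplicit false

namespace Pool.MP_dd84fd_nt.GX

open Finset Pool.MP_67663b_nt.Odd Pool.MP_dd84fd_nt.En Pool.MP_dd84fd_nt.E2 Pool.MP_dd84fd_nt.LS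

open Pool.MP_dd84fd_nt.L2G (nrm)

private theorem BlkII_group (G : ℕ) [NeZero G] (X a : ℕ) (x : ZMod G → ℂ)
    (hx : ∀ j, x j ≠ 0 → qd X (al G j) ∈ Ico (2 ^ a) (2 * 2 ^ a)) (φ : ℕ → ℝ) :
    (1 / (G : ℝ)) * ∑ j : ZMod G, ‖x j‖ * φ (qd X (al G j)) =
      ∑ q ∈ Ico (2 ^ a) (2 * 2 ^ a), mu G X x q * φ q := by
  have h1 : ∀ q ∈ Ico (2 ^ a) (2 * 2 ^ a), mu G X x q * φ q =
      (1 / (G : ℝ)) * ∑ j ∈ (univ : Finset (ZMod G)).filter (fun j => qd X (al G j) = q),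
        ‖x j‖ * φ (qd X (al G j)) := by
    intro q _
    unfold mu
    rw [mul_assoc, Finset.sum_mul]
    congr 1
    refine Finset.sum_congr rfl fun j hj => ?_
    rw [(Finset.mem_filter.1 hj).2]
  rw [Finset.sum_congr rfl h1, ← Finset.mul_sum,
    Finset.sum_fiberwise_eq_sum_filter univ (Ico (2 ^ a) (2 * 2 ^ a)) (fun j => qd X (al G j))]
  congr 1
  symm
  refine Finset.sum_filter_of_ne fun j _ hne => hx j fun h0 => hne ?_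
  rw [h0, norm_zero, zero_mul]

private theorem BlkII_N (G : ℕ) [NeZero G] (X a b : ℕ) (x : ZMod G → ℂ)
    (hx : ∀ j, x j ≠ 0 → inBlk X a b (al G j)) :
    (1 / (G : ℝ)) ^ 2 * ∑ j : ZMod G, ∑ j' : ZMod G, ‖x j‖ * ‖x j'‖ * Nk X (al G j) (al G j') ≤
      (X : ℝ) * 2 ^ (a + 1) / 2 ^ b * ∑ q ∈ Ico (2 ^ a) (2 * 2 ^ a),
        ∑ q' ∈ Ico (2 ^ a) (2 * 2 ^ a), mu G X x q * mu G X x q' / (Nat.lcm q q' : ℝ) := by
  have hx' : ∀ j, x j ≠ 0 → qd X (al G j) ∈ Ico (2 ^ a) (2 * 2 ^ a) := by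
    intro j hj
    have h := hx j hj
    rw [Finset.mem_Ico]
    refine ⟨h.1, ?_⟩
    have h2 := h.2.1
    rw [pow_succ] at h2
    omega
  have hpt : ∀ j j' : ZMod G, ‖x j‖ * ‖x j'‖ * Nk X (al G j) (al G j') ≤
      (X : ℝ) * 2 ^ (a + 1) / 2 ^ b *
        (‖x j‖ * (‖x j'‖ * (1 / (Nat.lcm (qd X (al G j)) (qd X (al G j')) : ℝ)))) := by
    intro j j'
    by_cases h0 : x j = 0
    · rw [h0]
      simp
    · obtain ⟨_, h2, h3, _⟩ := hx j h0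
      have hq : (qd X (al G j) : ℝ) ≤ 2 ^ (a + 1) := by exact_mod_cast h2.le
      have hb : (0 : ℝ) < 2 ^ b := by positivity
      have hN : Nk X (al G j) (al G j') ≤ (X : ℝ) * 2 ^ (a + 1) / 2 ^ b *
          (1 / (Nat.lcm (qd X (al G j)) (qd X (al G j')) : ℝ)) := by
        unfold Nk
        rw [← div_div, mul_one_div]
        refine div_le_div_of_nonneg_right ?_ (by positivity)
        exact div_le_div₀ (by positivity) (mul_le_mul_of_nonneg_left hq (by positivity)) hb h3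
      calc ‖x j‖ * ‖x j'‖ * Nk X (al G j) (al G j')
          ≤ ‖x j‖ * ‖x j'‖ * ((X : ℝ) * 2 ^ (a + 1) / 2 ^ b *
            (1 / (Nat.lcm (qd X (al G j)) (qd X (al G j')) : ℝ))) :=
            mul_le_mul_of_nonneg_left hN (by positivity)
        _ = _ := by ring
  have h1 : (1 / (G : ℝ)) ^ 2 * ∑ j : ZMod G, ∑ j' : ZMod G,
      ‖x j‖ * ‖x j'‖ * Nk X (al G j) (al G j') ≤ (1 / (G : ℝ)) ^ 2 * ∑ j : ZMod G, ∑ j' : ZMod G,
      (X : ℝ) * 2 ^ (a + 1) / 2 ^ b *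
        (‖x j‖ * (‖x j'‖ * (1 / (Nat.lcm (qd X (al G j)) (qd X (al G j')) : ℝ)))) :=
    mul_le_mul_of_nonneg_left (Finset.sum_le_sum fun j _ => Finset.sum_le_sum fun j' _ => hpt j j')
      (by positivity)
  refine h1.trans (le_of_eq ?_)
  have h2 : ∀ j : ZMod G, ∑ j' : ZMod G, (X : ℝ) * 2 ^ (a + 1) / 2 ^ b *
        (‖x j‖ * (‖x j'‖ * (1 / (Nat.lcm (qd X (al G j)) (qd X (al G j')) : ℝ)))) =
      (X : ℝ) * 2 ^ (a + 1) / 2 ^ b * (‖x j‖ *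
        ∑ j' : ZMod G, ‖x j'‖ * (1 / (Nat.lcm (qd X (al G j)) (qd X (al G j')) : ℝ))) := by
    intro j
    rw [Finset.mul_sum, Finset.mul_sum]
  rw [Finset.sum_congr rfl fun j _ => h2 j, ← Finset.mul_sum]
  have h3 : (1 / (G : ℝ)) ^ 2 * ((X : ℝ) * 2 ^ (a + 1) / 2 ^ b * ∑ j : ZMod G, ‖x j‖ *
        ∑ j' : ZMod G, ‖x j'‖ * (1 / (Nat.lcm (qd X (al G j)) (qd X (al G j')) : ℝ))) =
      (X : ℝ) * 2 ^ (a + 1) / 2 ^ b * ((1 / (G : ℝ)) * ∑ j : ZMod G, ‖x j‖ *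
        ((1 / (G : ℝ)) * ∑ j' : ZMod G, ‖x j'‖ *
          (1 / (Nat.lcm (qd X (al G j)) (qd X (al G j')) : ℝ)))) := by
    have h4 : ∑ j : ZMod G, ‖x j‖ * ((1 / (G : ℝ)) * ∑ j' : ZMod G, ‖x j'‖ *
          (1 / (Nat.lcm (qd X (al G j)) (qd X (al G j')) : ℝ))) =
        (1 / (G : ℝ)) * ∑ j : ZMod G, ‖x j‖ * ∑ j' : ZMod G, ‖x j'‖ *
          (1 / (Nat.lcm (qd X (al G j)) (qd X (al G j')) : ℝ)) := by
      rw [Finset.mul_sum]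
      exact Finset.sum_congr rfl fun j _ => by ring
    rw [h4]
    ring
  rw [h3]
  congr 1
  have h5 : ∀ j : ZMod G, (1 / (G : ℝ)) * ∑ j' : ZMod G, ‖x j'‖ *
      (1 / (Nat.lcm (qd X (al G j)) (qd X (al G j')) : ℝ)) =
      ∑ q' ∈ Ico (2 ^ a) (2 * 2 ^ a), mu G X x q' *
        (1 / (Nat.lcm (qd X (al G j)) q' : ℝ)) := fun j =>
    BlkII_group G X a x hx' (fun q' => 1 / (Nat.lcm (qd X (al G j)) q' : ℝ))
  simp only [h5]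
  rw [BlkII_group G X a x hx' (fun q => ∑ q' ∈ Ico (2 ^ a) (2 * 2 ^ a), mu G X x q' *
        (1 / (Nat.lcm q q' : ℝ)))]
  refine Finset.sum_congr rfl fun q _ => ?_
  rw [Finset.mul_sum]
  exact Finset.sum_congr rfl fun q' _ => by ring

open Classical in
private theorem BlkII_R1 (G : ℕ) [NeZero G] (X : ℕ) (hX : 1 ≤ X) (hG : 3 * X ≤ G) (k : ℕ)
    (hk : 1 ≤ k) (hkX : k ≤ X) (x : ZMod G → ℂ) :
    (1 / (G : ℝ)) ^ 2 * ∑ j : ZMod G, ∑ j' : ZMod G,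
      ‖x j‖ * ‖x j'‖ * (if rel X k (al G j) (al G j') then (X : ℝ) / k else 0) ≤
      10 * (k : ℝ) ^ 2 * nm2 G x := by
  have hG0 : (0 : ℝ) < G := by
    have : 0 < G := by omega
    exact_mod_cast this
  have hX0 : (0 : ℝ) < X := by exact_mod_cast hX
  have hk0 : (0 : ℝ) < k := by exact_mod_cast hk
  let r : ZMod G → ZMod G → ℝ := fun j j' => if rel X k (al G j) (al G j') then 1 else 0
  have hr0 : ∀ j j', 0 ≤ r j j' := by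
    intro j j'
    show 0 ≤ (if rel X k (al G j) (al G j') then (1 : ℝ) else 0)
    split_ifs <;> norm_num
  have hrs : ∀ j j', r j j' = r j' j := by
    intro j j'
    show (if rel X k (al G j) (al G j') then (1 : ℝ) else 0) =
      (if rel X k (al G j') (al G j) then (1 : ℝ) else 0)
    by_cases h : rel X k (al G j) (al G j')
    · rw [if_pos h, if_pos (rel_symm X k _ _ h)]
    · rw [if_neg h, if_neg fun h' => h (rel_symm X k _ _ h')]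
  have hrc : ∀ j, ∑ j', r j j' ≤ 10 * (k : ℝ) ^ 3 * ((G : ℝ) / X) := by
    intro j
    have h1 : ∑ j', r j j' = (((univ : Finset (ZMod G)).filter
        (fun j' => rel X k (al G j) (al G j'))).card : ℝ) := by
      show ∑ j', (if rel X k (al G j) (al G j') then (1 : ℝ) else 0) = _
      rw [Finset.sum_boole]
    rw [h1]
    exact rel_count X G hX hG k hk hkX (al G j)
  have h1 : ∀ j j', ‖x j‖ * ‖x j'‖ * (if rel X k (al G j) (al G j') then (X : ℝ) / k else 0) ≤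
      (X : ℝ) / k * ((1 / 2) * (‖x j‖ ^ 2 * r j j') + (1 / 2) * (‖x j'‖ ^ 2 * r j' j)) := by
    intro j j'
    rw [← hrs j j']
    have h2 : (if rel X k (al G j) (al G j') then (X : ℝ) / k else 0) = (X : ℝ) / k * r j j' := by
      show _ = (X : ℝ) / k * (if rel X k (al G j) (al G j') then (1 : ℝ) else 0)
      split_ifs <;> simp
    rw [h2]
    have h3 : ‖x j‖ * ‖x j'‖ ≤ (1 / 2) * ‖x j‖ ^ 2 + (1 / 2) * ‖x j'‖ ^ 2 := by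
      nlinarith [sq_nonneg (‖x j‖ - ‖x j'‖)]
    have h4 : 0 ≤ (X : ℝ) / k * r j j' := mul_nonneg (by positivity) (hr0 j j')
    calc ‖x j‖ * ‖x j'‖ * ((X : ℝ) / k * r j j')
        ≤ ((1 / 2) * ‖x j‖ ^ 2 + (1 / 2) * ‖x j'‖ ^ 2) * ((X : ℝ) / k * r j j') :=
          mul_le_mul_of_nonneg_right h3 h4
      _ = _ := by ring
  have h2 : ∑ j : ZMod G, ∑ j' : ZMod G,
      ‖x j‖ * ‖x j'‖ * (if rel X k (al G j) (al G j') then (X : ℝ) / k else 0) ≤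
      (X : ℝ) / k * ∑ j : ZMod G, ‖x j‖ ^ 2 * ∑ j' : ZMod G, r j j' := by
    refine (Finset.sum_le_sum fun j _ => Finset.sum_le_sum fun j' _ => h1 j j').trans
      (le_of_eq ?_)
    have h3 : ∑ j : ZMod G, ∑ j' : ZMod G, ‖x j'‖ ^ 2 * r j' j =
        ∑ j : ZMod G, ‖x j‖ ^ 2 * ∑ j' : ZMod G, r j j' := by
      rw [Finset.sum_comm]
      exact Finset.sum_congr rfl fun j _ => (Finset.mul_sum _ _ _).symm
    have h5 : ∀ j : ZMod G, ∑ j' : ZMod G, (X : ℝ) / k * ((1 / 2) * (‖x j‖ ^ 2 * r j j') +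
        (1 / 2) * (‖x j'‖ ^ 2 * r j' j)) = (X : ℝ) / k * ((1 / 2) * (‖x j‖ ^ 2 *
        ∑ j' : ZMod G, r j j') + (1 / 2) * ∑ j' : ZMod G, ‖x j'‖ ^ 2 * r j' j) := by
      intro j
      rw [← Finset.mul_sum, Finset.sum_add_distrib, ← Finset.mul_sum, ← Finset.mul_sum,
        ← Finset.mul_sum]
    rw [Finset.sum_congr rfl fun j _ => h5 j, ← Finset.mul_sum, Finset.sum_add_distrib,
      ← Finset.mul_sum, ← Finset.mul_sum, h3]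
    ring
  have h3 : ∑ j : ZMod G, ‖x j‖ ^ 2 * ∑ j' : ZMod G, r j j' ≤
      (∑ j : ZMod G, ‖x j‖ ^ 2) * (10 * (k : ℝ) ^ 3 * ((G : ℝ) / X)) := by
    rw [Finset.sum_mul]
    exact Finset.sum_le_sum fun j _ => mul_le_mul_of_nonneg_left (hrc j) (by positivity)
  have h4 : (1 / (G : ℝ)) ^ 2 * ((X : ℝ) / k * ((∑ j : ZMod G, ‖x j‖ ^ 2) *
      (10 * (k : ℝ) ^ 3 * ((G : ℝ) / X)))) = 10 * (k : ℝ) ^ 2 * nm2 G x := by
    unfold nm2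
    field_simp
  rw [← h4]
  refine mul_le_mul_of_nonneg_left (h2.trans ?_) (by positivity)
  exact mul_le_mul_of_nonneg_left h3 (by positivity)

private theorem BlkII_R (G : ℕ) [NeZero G] (X : ℕ) (hX : 2 ≤ X) (hG : 3 * X ≤ G)
    (x : ZMod G → ℂ) :
    (1 / (G : ℝ)) ^ 2 * ∑ j : ZMod G, ∑ j' : ZMod G, ‖x j‖ * ‖x j'‖ * Rk X (al G j) (al G j') ≤
      60 * (X : ℝ) ^ (1 / 4 : ℝ) * nm2 G x := by
  classical
  set n := Nat.log 2 X / 8 with hn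
  have hX0 : (0 : ℝ) < X := by
    have : 0 < X := by omega
    exact_mod_cast this
  have hnX : 2 ^ (8 * n) ≤ X := by
    have h1 : 8 * n ≤ Nat.log 2 X := by rw [hn]; omega
    exact (Nat.pow_le_pow_right (by norm_num) h1).trans (Nat.pow_log_le_self 2 (by omega))
  have hnm0 : 0 ≤ nm2 G x := by
    unfold nm2
    positivity
  have hswap : (1 / (G : ℝ)) ^ 2 * ∑ j : ZMod G, ∑ j' : ZMod G,
      ‖x j‖ * ‖x j'‖ * Rk X (al G j) (al G j') =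
      ∑ m ∈ range (n + 2), (1 / (G : ℝ)) ^ 2 * ∑ j : ZMod G, ∑ j' : ZMod G,
        ‖x j‖ * ‖x j'‖ * (if rel X (2 ^ m) (al G j) (al G j') then (X : ℝ) / ((2 ^ m : ℕ) : ℝ)
          else 0) := by
    rw [← Finset.mul_sum]
    congr 1
    symm
    rw [Finset.sum_comm]
    refine Finset.sum_congr rfl fun j _ => ?_
    rw [Finset.sum_comm]
    refine Finset.sum_congr rfl fun j' _ => ?_
    rw [← Finset.mul_sum]
    congr 1
    unfold Rk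
    refine Finset.sum_congr rfl fun m _ => ?_
    push_cast
    congr
  rw [hswap]
  have hm : ∀ m ∈ range (n + 2), (1 / (G : ℝ)) ^ 2 * ∑ j : ZMod G, ∑ j' : ZMod G,
        ‖x j‖ * ‖x j'‖ * (if rel X (2 ^ m) (al G j) (al G j') then (X : ℝ) / ((2 ^ m : ℕ) : ℝ)
          else 0) ≤ 10 * (4 : ℝ) ^ m * nm2 G x := by
    intro m hm
    rw [Finset.mem_range] at hm
    have hmX : 2 ^ m ≤ X := by
      rcases Nat.eq_zero_or_pos n with h0 | h0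
      · have h1 : m ≤ 1 := by omega
        have h2 : 2 ^ m ≤ 2 ^ 1 := Nat.pow_le_pow_right (by norm_num) h1
        omega
      · exact (Nat.pow_le_pow_right (by norm_num) (by omega)).trans hnX
    have h1 := BlkII_R1 G X (by omega) hG (2 ^ m) Nat.one_le_two_pow hmX x
    refine h1.trans (le_of_eq ?_)
    push_cast
    rw [← pow_mul, mul_comm m 2, pow_mul]
    norm_num
  refine (Finset.sum_le_sum hm).trans ?_
  rw [← Finset.sum_mul, ← Finset.mul_sum]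
  refine mul_le_mul_of_nonneg_right ?_ hnm0
  have hgeom : ∑ m ∈ range (n + 2), (4 : ℝ) ^ m ≤ 6 * 4 ^ n := by
    rw [geom_sum_eq (by norm_num : (4 : ℝ) ≠ 1)]
    have : (0 : ℝ) < 4 ^ n := by positivity
    rw [div_le_iff₀ (by norm_num)]
    rw [pow_add]
    nlinarith
  have h4n : (4 : ℝ) ^ n ≤ (X : ℝ) ^ (1 / 4 : ℝ) := by
    have h1 : ((4 : ℝ) ^ n) ^ (4 : ℝ) ≤ X := by
      rw [show ((4 : ℝ)) = ((4 : ℕ) : ℝ) by norm_num, Real.rpow_natCast]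
      push_cast
      have h2 : ((4 : ℝ) ^ n) ^ 4 = ((2 ^ (8 * n) : ℕ) : ℝ) := by
        push_cast
        rw [show (4 : ℝ) = 2 ^ 2 by norm_num, ← pow_mul, ← pow_mul]
        congr 1
        ring
      rw [h2]
      exact_mod_cast hnX
    have h3 : (4 : ℝ) ^ n = (((4 : ℝ) ^ n) ^ (4 : ℝ)) ^ (1 / 4 : ℝ) := by
      rw [← Real.rpow_mul (by positivity)]
      norm_num
    rw [h3]
    exact Real.rpow_le_rpow (by positivity) h1 (by norm_num)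
  calc 10 * ∑ m ∈ range (n + 2), (4 : ℝ) ^ m ≤ 10 * (6 * 4 ^ n) := by linarith
    _ ≤ 10 * (6 * (X : ℝ) ^ (1 / 4 : ℝ)) := by linarith
    _ = 60 * (X : ℝ) ^ (1 / 4 : ℝ) := by ring

private theorem BlkII_nm1 (G : ℕ) [NeZero G] (x : ZMod G → ℂ) :
    (1 / (G : ℝ)) ^ 2 * ∑ j : ZMod G, ∑ j' : ZMod G, ‖x j‖ * ‖x j'‖ = nm1 G x ^ 2 := by
  unfold nm1
  rw [mul_pow, ← Finset.sum_mul_sum, sq (∑ j : ZMod G, ‖x j‖)]

/-- the double sum with the kernel bound -/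
private theorem BlkII_sum (G : ℕ) [NeZero G] (X a b : ℕ) (hX : 2 ≤ X) (hG : 3 * X ≤ G)
    (x : ZMod G → ℂ) (hx : ∀ j, x j ≠ 0 → inBlk X a b (al G j)) (M N : ℕ) (c P : ℝ) (hc : 0 ≤ c)
    (hB : ∀ α α' : ℝ, Bker M N α α' ≤ c * (P + N * Nk X α α' + Rk X α α')) :
    (1 / (G : ℝ)) ^ 2 * ∑ j : ZMod G, ∑ j' : ZMod G,
        ‖x j‖ * ‖x j'‖ * Bker M N (al G j) (al G j') ≤
      c * (P * nm1 G x ^ 2 + N * ((X : ℝ) * 2 ^ (a + 1) / 2 ^ b * ∑ q ∈ Ico (2 ^ a) (2 * 2 ^ a),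
        ∑ q' ∈ Ico (2 ^ a) (2 * 2 ^ a), mu G X x q * mu G X x q' / (Nat.lcm q q' : ℝ)) +
        60 * (X : ℝ) ^ (1 / 4 : ℝ) * nm2 G x) := by
  have h1 : (1 / (G : ℝ)) ^ 2 * ∑ j : ZMod G, ∑ j' : ZMod G,
        ‖x j‖ * ‖x j'‖ * Bker M N (al G j) (al G j') ≤
      (1 / (G : ℝ)) ^ 2 * ∑ j : ZMod G, ∑ j' : ZMod G,
        (c * (P * (‖x j‖ * ‖x j'‖)) + c * (N * (‖x j‖ * ‖x j'‖ * Nk X (al G j) (al G j'))) +
          c * (‖x j‖ * ‖x j'‖ * Rk X (al G j) (al G j'))) := by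
    refine mul_le_mul_of_nonneg_left (Finset.sum_le_sum fun j _ =>
      Finset.sum_le_sum fun j' _ => ?_) (by positivity)
    calc ‖x j‖ * ‖x j'‖ * Bker M N (al G j) (al G j')
        ≤ ‖x j‖ * ‖x j'‖ * (c * (P + N * Nk X (al G j) (al G j') + Rk X (al G j) (al G j'))) :=
          mul_le_mul_of_nonneg_left (hB _ _) (by positivity)
      _ = _ := by ring
  refine h1.trans ?_
  simp only [Finset.sum_add_distrib, ← Finset.mul_sum]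
  have e1 := BlkII_nm1 G x
  have e2 := BlkII_N G X a b x hx
  have e3 := BlkII_R G X hX hG x
  set S1 := ∑ j : ZMod G, ∑ j' : ZMod G, ‖x j‖ * ‖x j'‖ with hS1
  set S2 := ∑ j : ZMod G, ∑ j' : ZMod G, ‖x j‖ * ‖x j'‖ * Nk X (al G j) (al G j') with hS2
  set S3 := ∑ j : ZMod G, ∑ j' : ZMod G, ‖x j‖ * ‖x j'‖ * Rk X (al G j) (al G j') with hS3
  have e4 : (1 / (G : ℝ)) ^ 2 * (c * (P * ∑ j : ZMod G, ‖x j‖ * ∑ j' : ZMod G, ‖x j'‖) +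
      c * (N * S2) + c * S3) = c * (P * ((1 / (G : ℝ)) ^ 2 * S1) +
        N * ((1 / (G : ℝ)) ^ 2 * S2) + (1 / (G : ℝ)) ^ 2 * S3) := by
    have : S1 = ∑ j : ZMod G, ‖x j‖ * ∑ j' : ZMod G, ‖x j'‖ := by
      rw [hS1]
      exact Finset.sum_congr rfl fun j _ => (Finset.mul_sum _ _ _).symm
    rw [this]
    ring
  rw [e4, e1]
  refine mul_le_mul_of_nonneg_left ?_ hc
  have hN0 : (0 : ℝ) ≤ N := Nat.cast_nonneg N
  have := mul_le_mul_of_nonneg_left e2 hN0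
  linarith

private theorem BlkII_rp {X : ℝ} (hX : 0 < X) (u v : ℝ) : X ^ u * X ^ v = X ^ (u + v) :=
  (Real.rpow_add hX u v).symm

/-- the numbers `M`, `N` -/
private theorem BlkII_MN {X M N : ℝ} (hX : 1 ≤ X) (hM : 0 < M) (hN : 0 < N) (hNM : N ≤ M)
    (h1 : X ^ (3 / 8 : ℝ) / 2 ≤ N) (h2 : M * N ≤ X) :
    M ≤ 2 * X ^ (5 / 8 : ℝ) ∧
      M * (N ^ 2 + N * Real.sqrt X + X ^ (7 / 8 : ℝ)) ≤ 4 * X ^ (3 / 2 : ℝ) := by
  have hX0 : 0 < X := by linarith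
  have hp : 0 < X ^ (3 / 8 : ℝ) := Real.rpow_pos_of_pos hX0 _
  have e1 : X ^ (5 / 8 : ℝ) * X ^ (3 / 8 : ℝ) = X := by
    rw [BlkII_rp hX0]
    norm_num
  have hM2 : M ≤ 2 * X ^ (5 / 8 : ℝ) := by
    have h3 : M * (X ^ (3 / 8 : ℝ) / 2) ≤ X := (mul_le_mul_of_nonneg_left h1 hM.le).trans h2
    by_contra hcon
    push Not at hcon
    nlinarith
  refine ⟨hM2, ?_⟩
  have hNs : N ≤ Real.sqrt X := by
    refine Real.le_sqrt_of_sq_le ?_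
    nlinarith
  have hs0 : 0 ≤ Real.sqrt X := Real.sqrt_nonneg X
  have e2 : X * Real.sqrt X = X ^ (3 / 2 : ℝ) := by
    rw [Real.sqrt_eq_rpow]
    nth_rewrite 1 [← Real.rpow_one X]
    rw [BlkII_rp hX0]
    norm_num
  have e3 : X ^ (5 / 8 : ℝ) * X ^ (7 / 8 : ℝ) = X ^ (3 / 2 : ℝ) := by
    rw [BlkII_rp hX0]
    norm_num
  have h78 : 0 < X ^ (7 / 8 : ℝ) := Real.rpow_pos_of_pos hX0 _
  have a1 : M * N ^ 2 ≤ X ^ (3 / 2 : ℝ) := by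
    rw [← e2]
    calc M * N ^ 2 = (M * N) * N := by ring
      _ ≤ X * Real.sqrt X := mul_le_mul h2 hNs hN.le hX0.le
  have a2 : M * (N * Real.sqrt X) ≤ X ^ (3 / 2 : ℝ) := by
    rw [← e2, ← mul_assoc]
    exact mul_le_mul_of_nonneg_right h2 hs0
  have a3 : M * X ^ (7 / 8 : ℝ) ≤ 2 * X ^ (3 / 2 : ℝ) := by
    rw [← e3, ← mul_assoc]
    exact mul_le_mul_of_nonneg_right hM2 h78.le
  calc M * (N ^ 2 + N * Real.sqrt X + X ^ (7 / 8 : ℝ))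
      = M * N ^ 2 + M * (N * Real.sqrt X) + M * X ^ (7 / 8 : ℝ) := by ring
    _ ≤ 4 * X ^ (3 / 2 : ℝ) := by linarith

/-- the final collection -/
private theorem BlkII_fin {X M N C L E δ A B s2 lc : ℝ} (hX : 1 ≤ X) (hM : 0 < M) (hN : 0 < N)
    (hNM : N ≤ M) (h1 : X ^ (3 / 8 : ℝ) / 2 ≤ N) (h2 : M * N ≤ X) (hC : 0 < C) (hL : 1 ≤ L)
    (hE : 0 ≤ E) (hδ : 0 ≤ δ) (hA : 0 < A) (hB : 0 < B) (hs2 : s2 ≤ 9 * X * L ^ 2 * E ^ 2)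
    (hlc : lc ≤ 2304 * (B / A) * L ^ 2 * δ * E ^ 2) :
    M * (C * L * ((N ^ 2 + N * Real.sqrt X + X ^ (7 / 8 : ℝ)) *
      (3 * L * Real.sqrt (X * E)) ^ 2 + N * (X * (A * 2) / B * lc) +
        60 * X ^ (1 / 4 : ℝ) * s2)) ≤
      ((4608 * C + 1) * L ^ 2) ^ 2 * (X ^ (5 / 2 : ℝ) * E + X ^ (15 / 8 : ℝ) * E ^ 2 +
        δ * X ^ 2 * E ^ 2) := by
  have hX0 : 0 < X := by linarith
  have hL0 : 0 < L := by linarith
  obtain ⟨hM2, hG⟩ := BlkII_MN hX hM hN hNM h1 h2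
  have hsq : (3 * L * Real.sqrt (X * E)) ^ 2 = 9 * L ^ 2 * (X * E) := by
    rw [mul_pow, Real.sq_sqrt (by positivity)]
    ring
  have e52 : X ^ (3 / 2 : ℝ) * X = X ^ (5 / 2 : ℝ) := by
    nth_rewrite 2 [← Real.rpow_one X]
    rw [BlkII_rp hX0]
    norm_num
  have e158 : X ^ (5 / 8 : ℝ) * (X ^ (1 / 4 : ℝ) * X) = X ^ (15 / 8 : ℝ) := by
    nth_rewrite 3 [← Real.rpow_one X]
    rw [BlkII_rp hX0, BlkII_rp hX0]
    norm_num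
  have p14 : 0 < X ^ (1 / 4 : ℝ) := Real.rpow_pos_of_pos hX0 _
  have p52 : 0 < X ^ (5 / 2 : ℝ) := Real.rpow_pos_of_pos hX0 _
  have p158 : 0 < X ^ (15 / 8 : ℝ) := Real.rpow_pos_of_pos hX0 _
  -- part G
  have g1 : M * ((N ^ 2 + N * Real.sqrt X + X ^ (7 / 8 : ℝ)) * (3 * L * Real.sqrt (X * E)) ^ 2) ≤
      36 * L ^ 2 * (X ^ (5 / 2 : ℝ) * E) := by
    rw [hsq, ← mul_assoc, ← e52]
    calc M * (N ^ 2 + N * Real.sqrt X + X ^ (7 / 8 : ℝ)) * (9 * L ^ 2 * (X * E))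
        ≤ 4 * X ^ (3 / 2 : ℝ) * (9 * L ^ 2 * (X * E)) :=
          mul_le_mul_of_nonneg_right hG (by positivity)
      _ = _ := by ring
  -- part N
  have g2 : M * (N * (X * (A * 2) / B * lc)) ≤ 4608 * L ^ 2 * (δ * X ^ 2 * E ^ 2) := by
    have h3 : X * (A * 2) / B * lc ≤ 4608 * X * L ^ 2 * δ * E ^ 2 := by
      calc X * (A * 2) / B * lc ≤ X * (A * 2) / B * (2304 * (B / A) * L ^ 2 * δ * E ^ 2) :=
            mul_le_mul_of_nonneg_left hlc (by positivity)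
        _ = _ := by field_simp; ring
    calc M * (N * (X * (A * 2) / B * lc)) = (M * N) * (X * (A * 2) / B * lc) := by ring
      _ ≤ (M * N) * (4608 * X * L ^ 2 * δ * E ^ 2) :=
          mul_le_mul_of_nonneg_left h3 (by positivity)
      _ ≤ X * (4608 * X * L ^ 2 * δ * E ^ 2) := mul_le_mul_of_nonneg_right h2 (by positivity)
      _ = _ := by ring
  -- part R
  have g3 : M * (60 * X ^ (1 / 4 : ℝ) * s2) ≤ 1080 * L ^ 2 * (X ^ (15 / 8 : ℝ) * E ^ 2) := by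
    have h3 : 60 * X ^ (1 / 4 : ℝ) * s2 ≤ 60 * X ^ (1 / 4 : ℝ) * (9 * X * L ^ 2 * E ^ 2) :=
      mul_le_mul_of_nonneg_left hs2 (by positivity)
    calc M * (60 * X ^ (1 / 4 : ℝ) * s2) ≤ M * (60 * X ^ (1 / 4 : ℝ) * (9 * X * L ^ 2 * E ^ 2)) :=
          mul_le_mul_of_nonneg_left h3 hM.le
      _ ≤ (2 * X ^ (5 / 8 : ℝ)) * (60 * X ^ (1 / 4 : ℝ) * (9 * X * L ^ 2 * E ^ 2)) :=
          mul_le_mul_of_nonneg_right hM2 (by positivity)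
      _ = 1080 * L ^ 2 * ((X ^ (5 / 8 : ℝ) * (X ^ (1 / 4 : ℝ) * X)) * E ^ 2) := by ring
      _ = _ := by rw [e158]
  set T1 := X ^ (5 / 2 : ℝ) * E with hT1
  set T2 := X ^ (15 / 8 : ℝ) * E ^ 2 with hT2
  set T3 := δ * X ^ 2 * E ^ 2 with hT3
  have t1 : 0 ≤ T1 := by positivity
  have t2 : 0 ≤ T2 := by positivity
  have t3 : 0 ≤ T3 := by positivity
  have hsum : M * (C * L * ((N ^ 2 + N * Real.sqrt X + X ^ (7 / 8 : ℝ)) *
      (3 * L * Real.sqrt (X * E)) ^ 2 + N * (X * (A * 2) / B * lc) +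
        60 * X ^ (1 / 4 : ℝ) * s2)) ≤ C * L * (4608 * L ^ 2 * (T1 + T2 + T3)) := by
    have h3 : M * (C * L * ((N ^ 2 + N * Real.sqrt X + X ^ (7 / 8 : ℝ)) *
      (3 * L * Real.sqrt (X * E)) ^ 2 + N * (X * (A * 2) / B * lc) +
        60 * X ^ (1 / 4 : ℝ) * s2)) = C * L * (M * ((N ^ 2 + N * Real.sqrt X + X ^ (7 / 8 : ℝ)) *
      (3 * L * Real.sqrt (X * E)) ^ 2) + M * (N * (X * (A * 2) / B * lc)) +
        M * (60 * X ^ (1 / 4 : ℝ) * s2)) := by ring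
    rw [h3]
    refine mul_le_mul_of_nonneg_left ?_ (by positivity)
    have hL2 : 0 < L ^ 2 := by positivity
    have q1 : 36 * L ^ 2 * T1 ≤ 4608 * L ^ 2 * T1 := by
      have := mul_nonneg hL2.le t1
      linarith
    have q2 : 1080 * L ^ 2 * T2 ≤ 4608 * L ^ 2 * T2 := by
      have := mul_nonneg hL2.le t2
      linarith
    calc _ ≤ 36 * L ^ 2 * T1 + 4608 * L ^ 2 * T3 + 1080 * L ^ 2 * T2 := by linarith
      _ ≤ 4608 * L ^ 2 * T1 + 4608 * L ^ 2 * T3 + 4608 * L ^ 2 * T2 := by linarith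
      _ = _ := by ring
  refine hsum.trans ?_
  have hT : 0 ≤ T1 + T2 + T3 := by positivity
  have h4 : C * L * (4608 * L ^ 2 * (T1 + T2 + T3)) = (4608 * C) * L ^ 3 * (T1 + T2 + T3) := by
    ring
  rw [h4]
  refine mul_le_mul_of_nonneg_right ?_ hT
  have h5 : L ^ 3 ≤ L ^ 4 := pow_le_pow_right₀ hL (by norm_num)
  have h6 : 4608 * C ≤ (4608 * C + 1) ^ 2 := by nlinarith
  calc 4608 * C * L ^ 3 ≤ (4608 * C + 1) ^ 2 * L ^ 4 := mul_le_mul h6 h5 (by positivity) (by positivity)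
    _ = ((4608 * C + 1) * L ^ 2) ^ 2 := by ring

theorem blkII : ∃ C : ℝ, 0 < C ∧ ∃ X0 : ℕ, ∀ X : ℕ, X0 ≤ X → ∀ (G : ℕ) [NeZero G],
    3 * X ≤ G → ∀ V : ZMod G → ℂ, VB G X V → ∀ (a b : ℕ) (ω : ZMod G → ℂ),
    Wt G X a b ω → ∀ E : Finset ℕ, E ⊆ Icc 1 X → ∀ e : ℕ → ℂ, (∀ n, ‖e n‖ ≤ 1) →
    ∀ ρ δ : ℝ, 0 ≤ ρ → 0 ≤ δ → NoAP G X b ω E ρ δ →
    TII X (FF G (xx G V ω E e)) (C * (Real.log X) ^ 2 *
      Real.sqrt ((X : ℝ) ^ (5 / 2 : ℝ) * E.card + (X : ℝ) ^ (15 / 8 : ℝ) * (E.card : ℝ) ^ 2 +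
        δ * (X : ℝ) ^ 2 * (E.card : ℝ) ^ 2)) := by
  obtain ⟨C, hC, X1, hker⟩ := ker
  obtain ⟨X3, hmu⟩ := mu_lcm
  refine ⟨4608 * C + 1, by positivity, max X1 (max X3 3), ?_⟩
  intro X hX G _ hG V hVB a b ω hω E hE e he ρ δ hρ hδ hno
  have hX1 : X1 ≤ X := (le_max_left _ _).trans hX
  have hX3 : X3 ≤ X := (le_max_left _ _).trans ((le_max_right _ _).trans hX)
  have hX4 : 3 ≤ X := (le_max_right _ _).trans ((le_max_right _ _).trans hX)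
  obtain ⟨hn1, hn2⟩ := norms X G hG V ω hVB hω.1 E hE e he
  have hlcm := hmu X hX3 G hG V hVB a b ω hω E hE e he ρ δ hρ hδ hno
  set x := xx G V ω E e with hxdef
  have hx : ∀ j, x j ≠ 0 → inBlk X a b (al G j) := by
    intro j hj
    refine hω.2 j fun h0 => hj ?_
    rw [hxdef]
    unfold xx
    rw [h0, zero_mul, zero_mul]
  have hXr : (3 : ℝ) ≤ X := by exact_mod_cast hX4
  have hL : 1 ≤ Real.log X := by
    rw [Real.le_log_iff_exp_le (by linarith)]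
    exact (Real.exp_one_lt_d9.le.trans (by norm_num)).trans hXr
  intro i i' t ca cb ht hca hcb hii hN hMN
  have hM1 : 1 ≤ 2 ^ i := Nat.one_le_two_pow
  have hN1 : 1 ≤ 2 ^ i' := Nat.one_le_two_pow
  have hexp := typeII_exp G x (2 ^ i) (2 ^ i') t ca cb hca hcb
  have e1 : 2 ^ (i + 1) = 2 * 2 ^ i := by rw [pow_succ]; ring
  have e2 : 2 ^ (i' + 1) = 2 * 2 ^ i' := by rw [pow_succ]; ring
  rw [e1, e2]
  have hMr : ((2 ^ i : ℕ) : ℝ) * ((2 ^ i' : ℕ) : ℝ) ≤ X := by exact_mod_cast hMN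
  have hNMr : ((2 ^ i' : ℕ) : ℝ) ≤ ((2 ^ i : ℕ) : ℝ) := by
    exact_mod_cast Nat.pow_le_pow_right (by norm_num) hii
  have hM0 : (0 : ℝ) < ((2 ^ i : ℕ) : ℝ) := by positivity
  have hN0 : (0 : ℝ) < ((2 ^ i' : ℕ) : ℝ) := by positivity
  have hNr : (X : ℝ) ^ (3 / 8 : ℝ) / 2 ≤ ((2 ^ i' : ℕ) : ℝ) := by
    push_cast
    exact hN
  have hsum := BlkII_sum G X a b (by omega) hG x hx (2 ^ i) (2 ^ i') (C * Real.log X)
    (((2 ^ i' : ℕ) : ℝ) ^ 2 + ((2 ^ i' : ℕ) : ℝ) * Real.sqrt X + (X : ℝ) ^ (7 / 8 : ℝ))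
    (by positivity) (fun α α' => hker X hX1 (2 ^ i) (2 ^ i') hM1 hN1 hMN α α')
  have hfin := BlkII_fin (X := (X : ℝ)) (M := ((2 ^ i : ℕ) : ℝ)) (N := ((2 ^ i' : ℕ) : ℝ)) (C := C)
    (L := Real.log X) (E := (E.card : ℝ)) (δ := δ) (A := (2 : ℝ) ^ a) (B := (2 : ℝ) ^ b)
    (by linarith) hM0 hN0 hNMr hNr hMr hC hL (by positivity) hδ (by positivity) (by positivity)
    hn2 hlcm
  have hnm1 : nm1 G x ^ 2 ≤ (3 * Real.log X * Real.sqrt ((X : ℝ) * E.card)) ^ 2 := by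
    have h0 : 0 ≤ nm1 G x := by
      unfold nm1
      positivity
    exact pow_le_pow_left₀ h0 hn1 2
  have hle : ‖∑ l ∈ Ioc (2 ^ i) (2 * 2 ^ i), ∑ s ∈ (Ioc (2 ^ i') (2 * 2 ^ i')).filter
      (fun s => l * s ≤ t), ca l * cb s * FF G x (l * s)‖ ^ 2 ≤
      ((4608 * C + 1) * (Real.log X) ^ 2) ^ 2 * ((X : ℝ) ^ (5 / 2 : ℝ) * E.card +
        (X : ℝ) ^ (15 / 8 : ℝ) * (E.card : ℝ) ^ 2 + δ * (X : ℝ) ^ 2 * (E.card : ℝ) ^ 2) := by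
    refine hexp.trans ((mul_le_mul_of_nonneg_left hsum hM0.le).trans (le_trans ?_ hfin))
    refine mul_le_mul_of_nonneg_left (mul_le_mul_of_nonneg_left ?_ (by positivity)) hM0.le
    have q1 := mul_le_mul_of_nonneg_left hnm1 (show (0 : ℝ) ≤ ((2 ^ i' : ℕ) : ℝ) ^ 2 +
      ((2 ^ i' : ℕ) : ℝ) * Real.sqrt X + (X : ℝ) ^ (7 / 8 : ℝ) by positivity)
    rw [pow_succ (2 : ℝ) a]
    linarith
  have hS : 0 ≤ (X : ℝ) ^ (5 / 2 : ℝ) * E.card + (X : ℝ) ^ (15 / 8 : ℝ) * (E.card : ℝ) ^ 2 +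
      δ * (X : ℝ) ^ 2 * (E.card : ℝ) ^ 2 := by positivity
  refine abs_le_of_sq_le_sq' ?_ (by positivity) |>.2
  rw [mul_pow, Real.sq_sqrt hS]
  exact hle

end Pool.MP_dd84fd_nt.GX
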