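import Pool.Agent.Lib.MP_dd84fd_nt.GX.Defs
import Pool.Agent.Lib.MP_dd84fd_nt.E2.MinorP
import Pool.Agent.Lib.MP_dd84fd_nt.E2.Rankin
import Pool.Agent.Lib.MP_dd84fd_nt.E2.FBound
import Pool.Agent.Lib.MP_dd84fd_nt.L2G.DivMom

/-!
# GX-Fr (1 h): the model part

Proof. `W = primorial w`, `W/φ(W) ≤ L` (`E2.f1_le`), `f2 w n = f1 w n/log n`; `E2.MP_abel`: it suffices to bound `Σ_{n ≤ t} f1(n) F(n)` for `t ≤ X` (factor 3).
`f1 w n = (W/φ(W)) Σ_{d ∣ n, d ∣ W} μ(d)` (see `MF_expand` in `E2/MinorF.lean`). `z = X^(1/4)`.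
`d ≤ z`: `(W/φ(W)) Σ_{d ≤ z, d ∣ W} μ(d) Σ_{k ≤ t/d} F(d k)`: `TI` with `R = ⌊z⌋₊`, `≤ L B1`.
`d > z`: `Σ_{n ≤ t} h(n) F(n)`, `|h(n)| ≤ L T(n)`, `T(n) = #{d : d ∣ n, d ∣ W, d > z} ≤ τ(n)`. `T² ≤ τ^(3/2) T^(1/2)`, so
`Σ T² ≤ (Σ τ³)^(1/2) (Σ T)^(1/2)`, `Σ_{n ≤ X} τ³ ≤ X (1+L)^C0` (`L2G.div_mom 3`), `Σ_{n ≤ X} T(n) ≤ X Σ_{d ∣ W, d > z} 1/d ≤ X · X^(1/(16D')) z^(-1/(2D')) =
X^(1 - 1/(16 D'))` (`E2.rankin` with `ε = 1/(16 D')`). So `Σ_{n ≤ X} T² ≤ X^(1 - 1/(32 D')) (1+L)^C0` and Cauchy-Schwarz gives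
`≤ L (1+L)^C0 X^(1/2 - 1/(64 D')) B3 ≤ (1/3) X^(1/2 - c) B3` with `c = 1/(128 D')`, `X` large (`E2.MP_log_pow`).
(If it is simpler: bound `Σ T² ≤ Σ τ T` and `Σ τ T ≤ (Σ τ³)^(1/2)...` as you like; any `c > 0` is fine.)
-/

set_option autoImplicit false

namespace Pool.MP_dd84fd_nt.GX

open Finset Pool.MP_67663b_nt.Odd Pool.MP_dd84fd_nt.En Pool.MP_dd84fd_nt.E2 Pool.MP_dd84fd_nt.LS

open Pool.MP_dd84fd_nt.L2G (nrm)

private theorem gxFr_mult (d t : ℕ) (hd : 0 < d) (F : ℕ → ℂ) :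
    ∑ n ∈ (Icc 1 t).filter (fun n => d ∣ n), F n = ∑ k ∈ Icc 1 (t / d), F (d * k) := by
  symm
  refine sum_bij (fun k _ => d * k) ?_ ?_ ?_ ?_
  · intro k hk
    rw [mem_Icc] at hk
    rw [mem_filter, mem_Icc]
    refine ⟨⟨Nat.mul_pos hd hk.1, ?_⟩, dvd_mul_right d k⟩
    calc d * k ≤ d * (t / d) := Nat.mul_le_mul_left d hk.2
      _ ≤ t := Nat.mul_div_le t d
  · intro k _ k' _ h
    exact Nat.eq_of_mul_eq_mul_left hd h
  · intro n hn
    rw [mem_filter, mem_Icc] at hn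
    obtain ⟨k, rfl⟩ := hn.2
    refine ⟨k, ?_, rfl⟩
    rw [mem_Icc]
    constructor
    · exact Nat.pos_of_mul_pos_left hn.1.1
    · rw [Nat.le_div_iff_mul_le hd, mul_comm]
      exact hn.1.2
  · intro k _
    rfl

private theorem gxFr_expand (w t : ℕ) (F : ℕ → ℂ) :
    ∑ n ∈ Icc 1 t, (f1 w n : ℂ) * F n =
      (((primorial w : ℝ) / (Nat.totient (primorial w) : ℝ) : ℝ) : ℂ) *
        ∑ d ∈ (primorial w).divisors, ((ArithmeticFunction.moebius d : ℤ) : ℂ) *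
          ∑ n ∈ (Icc 1 t).filter (fun n => d ∣ n), F n := by
  classical
  have hP : 0 < primorial w := primorial_pos w
  set P := primorial w with hPdef
  have h1 : ∀ n ∈ Icc 1 t, (f1 w n : ℂ) * F n =
      (((P : ℝ) / (Nat.totient P : ℝ) : ℝ) : ℂ) * ∑ d ∈ P.divisors,
        if d ∣ n then ((ArithmeticFunction.moebius d : ℤ) : ℂ) * F n else 0 := by
    intro n hn
    have hn1 : 0 < n := (mem_Icc.mp hn).1
    have h2 : ∑ d ∈ P.divisors,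
        (if d ∣ n then ((ArithmeticFunction.moebius d : ℤ) : ℂ) * F n else 0) =
        ((∑ d ∈ (Nat.gcd n P).divisors, ArithmeticFunction.moebius d : ℤ) : ℂ) * F n := by
      rw [← Finset.sum_filter]
      push_cast
      rw [Finset.sum_mul]
      refine sum_congr ?_ fun _ _ => rfl
      ext d
      rw [mem_filter, Nat.mem_divisors, Nat.mem_divisors]
      constructor
      · rintro ⟨⟨h3, _⟩, h4⟩
        exact ⟨Nat.dvd_gcd h4 h3, Nat.gcd_ne_zero_left hn1.ne'⟩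
      · rintro ⟨h3, _⟩
        exact ⟨⟨h3.trans (Nat.gcd_dvd_right n P), hP.ne'⟩, h3.trans (Nat.gcd_dvd_left n P)⟩
    have h3 : (∑ d ∈ (Nat.gcd n P).divisors, ArithmeticFunction.moebius d : ℤ) =
        if Nat.gcd n P = 1 then 1 else 0 := by
      rw [← ArithmeticFunction.coe_mul_zeta_apply, ArithmeticFunction.moebius_mul_coe_zeta,
        ArithmeticFunction.one_apply]
    rw [h2, h3]
    unfold f1
    by_cases hc : Nat.Coprime n P
    · rw [if_pos hc, if_pos hc]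
      push_cast
      ring
    · rw [if_neg hc, if_neg hc]
      push_cast
      ring
  rw [sum_congr rfl h1, ← Finset.mul_sum, Finset.sum_comm]
  congr 1
  refine sum_congr rfl fun d hd => ?_
  rw [← Finset.sum_filter, Finset.mul_sum]

/-- the first moment of the number of divisors in a set -/
private theorem gxFr_T1 (Dz : Finset ℕ) (hDz : ∀ d ∈ Dz, 0 < d) (X : ℕ) :
    ∑ n ∈ Icc 1 X, ((Dz.filter (fun d => d ∣ n)).card : ℝ) ≤ X * ∑ d ∈ Dz, 1 / (d : ℝ) := by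
  have h1 : ∀ n ∈ Icc 1 X, ((Dz.filter (fun d => d ∣ n)).card : ℝ) =
      ∑ d ∈ Dz, if d ∣ n then (1 : ℝ) else 0 := by
    intro n _
    rw [Finset.card_filter]
    push_cast
    rfl
  rw [sum_congr rfl h1, Finset.sum_comm, Finset.mul_sum]
  refine sum_le_sum fun d hd => ?_
  have hd0 := hDz d hd
  rw [← Finset.sum_filter, Finset.sum_const, nsmul_eq_mul, mul_one]
  have h2 : ((Icc 1 X).filter (fun n => d ∣ n)).card = X / d := by
    have h3 : Icc 1 X = Ioc 0 X := by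
      ext n
      rw [mem_Icc, mem_Ioc]
      omega
    rw [h3]
    exact Nat.Ioc_filter_dvd_card_eq_div X d
  rw [h2]
  refine (Nat.cast_div_le).trans (le_of_eq ?_)
  ring

private theorem gxFr_T2 (Dz : Finset ℕ) (hDz : ∀ d ∈ Dz, 0 < d) (X : ℕ) :
    (∑ n ∈ Icc 1 X, ((Dz.filter (fun d => d ∣ n)).card : ℝ) ^ 2) ^ 2 ≤
      (∑ n ∈ Icc 1 X, (n.divisors.card : ℝ) ^ 3) * (X * ∑ d ∈ Dz, 1 / (d : ℝ)) := by
  set T : ℕ → ℝ := fun n => ((Dz.filter (fun d => d ∣ n)).card : ℝ) with hT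
  have hT0 : ∀ n, 0 ≤ T n := fun n => Nat.cast_nonneg _
  have hTt : ∀ n ∈ Icc 1 X, T n ≤ (n.divisors.card : ℝ) := by
    intro n hn
    have hn1 : 1 ≤ n := (mem_Icc.1 hn).1
    have h0 : Dz.filter (fun d => d ∣ n) ⊆ n.divisors := by
      intro d hd
      rw [mem_filter] at hd
      exact Nat.mem_divisors.2 ⟨hd.2, by omega⟩
    have h1 := Finset.card_le_card h0
    simp only [hT]
    exact_mod_cast h1
  have h1 : ∑ n ∈ Icc 1 X, T n ^ 2 ≤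
      ∑ n ∈ Icc 1 X, Real.sqrt ((n.divisors.card : ℝ) ^ 3) * Real.sqrt (T n) := by
    refine sum_le_sum fun n hn => ?_
    rw [← Real.sqrt_mul (by positivity)]
    refine Real.le_sqrt_of_sq_le ?_
    have h2 := hTt n hn
    have h3 := hT0 n
    calc (T n ^ 2) ^ 2 = T n ^ 3 * T n := by ring
      _ ≤ (n.divisors.card : ℝ) ^ 3 * T n :=
          mul_le_mul_of_nonneg_right (pow_le_pow_left₀ h3 h2 3) h3
  have h4 : 0 ≤ ∑ n ∈ Icc 1 X, T n ^ 2 := sum_nonneg fun n _ => sq_nonneg _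
  calc (∑ n ∈ Icc 1 X, T n ^ 2) ^ 2
      ≤ (∑ n ∈ Icc 1 X, Real.sqrt ((n.divisors.card : ℝ) ^ 3) * Real.sqrt (T n)) ^ 2 :=
        pow_le_pow_left₀ h4 h1 2
    _ ≤ (∑ n ∈ Icc 1 X, Real.sqrt ((n.divisors.card : ℝ) ^ 3) ^ 2) *
        (∑ n ∈ Icc 1 X, Real.sqrt (T n) ^ 2) := Finset.sum_mul_sq_le_sq_mul_sq _ _ _
    _ = (∑ n ∈ Icc 1 X, (n.divisors.card : ℝ) ^ 3) * (∑ n ∈ Icc 1 X, T n) := by
        congr 1
        · exact sum_congr rfl fun n _ => Real.sq_sqrt (by positivity)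
        · exact sum_congr rfl fun n _ => Real.sq_sqrt (hT0 n)
    _ ≤ (∑ n ∈ Icc 1 X, (n.divisors.card : ℝ) ^ 3) * (X * ∑ d ∈ Dz, 1 / (d : ℝ)) :=
        mul_le_mul_of_nonneg_left (gxFr_T1 Dz hDz X) (sum_nonneg fun n _ => by positivity)

private theorem gxFr_tail (Dz : Finset ℕ) (X t : ℕ) (ht : t ≤ X) (F : ℕ → ℂ) (B3 : ℝ)
    (hB3 : 0 ≤ B3) (hF : ∑ n ∈ Icc 1 X, ‖F n‖ ^ 2 ≤ B3 ^ 2) :
    ‖∑ d ∈ Dz, ((ArithmeticFunction.moebius d : ℤ) : ℂ) *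
      ∑ n ∈ (Icc 1 t).filter (fun n => d ∣ n), F n‖ ≤
      Real.sqrt (∑ n ∈ Icc 1 X, ((Dz.filter (fun d => d ∣ n)).card : ℝ) ^ 2) * B3 := by
  have hmu : ∀ (d : ℕ) (x : ℂ), ‖((ArithmeticFunction.moebius d : ℤ) : ℂ) * x‖ ≤ ‖x‖ := by
    intro d x
    rw [norm_mul, Complex.norm_intCast]
    have h1 : |((ArithmeticFunction.moebius d : ℤ) : ℝ)| ≤ 1 := by
      exact_mod_cast ArithmeticFunction.abs_moebius_le_one
    exact mul_le_of_le_one_left (norm_nonneg _) h1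
  have h1 : ‖∑ d ∈ Dz, ((ArithmeticFunction.moebius d : ℤ) : ℂ) *
      ∑ n ∈ (Icc 1 t).filter (fun n => d ∣ n), F n‖ ≤
      ∑ d ∈ Dz, ∑ n ∈ (Icc 1 X).filter (fun n => d ∣ n), ‖F n‖ := by
    refine (norm_sum_le _ _).trans (sum_le_sum fun d _ => (hmu d _).trans ?_)
    refine (norm_sum_le _ _).trans ?_
    refine sum_le_sum_of_subset_of_nonneg ?_ fun _ _ _ => norm_nonneg _
    exact Finset.filter_subset_filter _ (Finset.Icc_subset_Icc_right ht)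
  have h2 : ∑ d ∈ Dz, ∑ n ∈ (Icc 1 X).filter (fun n => d ∣ n), ‖F n‖ =
      ∑ n ∈ Icc 1 X, ((Dz.filter (fun d => d ∣ n)).card : ℝ) * ‖F n‖ := by
    have h3 : ∀ d ∈ Dz, ∑ n ∈ (Icc 1 X).filter (fun n => d ∣ n), ‖F n‖ =
        ∑ n ∈ Icc 1 X, if d ∣ n then ‖F n‖ else 0 := fun d _ => Finset.sum_filter _ _
    rw [sum_congr rfl h3, Finset.sum_comm]
    refine sum_congr rfl fun n _ => ?_
    rw [← Finset.sum_filter, Finset.sum_const, nsmul_eq_mul]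
  have h3 := Finset.sum_mul_sq_le_sq_mul_sq (Icc 1 X)
    (fun n => ((Dz.filter (fun d => d ∣ n)).card : ℝ)) (fun n => ‖F n‖)
  rw [h2] at h1
  refine h1.trans ?_
  have h4 : 0 ≤ ∑ n ∈ Icc 1 X, ((Dz.filter (fun d => d ∣ n)).card : ℝ) ^ 2 :=
    sum_nonneg fun n _ => sq_nonneg _
  have h5 : 0 ≤ Real.sqrt (∑ n ∈ Icc 1 X, ((Dz.filter (fun d => d ∣ n)).card : ℝ) ^ 2) * B3 :=
    mul_nonneg (Real.sqrt_nonneg _) hB3
  refine (pow_le_pow_iff_left₀ (sum_nonneg fun n _ => mul_nonneg (Nat.cast_nonneg _)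
    (norm_nonneg _)) h5 two_ne_zero).1 ?_
  rw [mul_pow, Real.sq_sqrt h4]
  exact h3.trans (mul_le_mul_of_nonneg_left hF h4)

private theorem gxFr_real1 {X D : ℝ} (hX : 0 < X) (hD : 0 < D) :
    X * (X ^ (1 / (16 * D)) * (X ^ (1 / 4 : ℝ)) ^ (-(1 / (2 * D)))) = X ^ (1 - 1 / (16 * D)) := by
  calc X * (X ^ (1 / (16 * D)) * (X ^ (1 / 4 : ℝ)) ^ (-(1 / (2 * D))))
      = X ^ (1 : ℝ) * (X ^ (1 / (16 * D)) * X ^ ((1 / 4 : ℝ) * (-(1 / (2 * D))))) := by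
        rw [Real.rpow_one, ← Real.rpow_mul hX.le]
    _ = X ^ (1 - 1 / (16 * D)) := by
        rw [← Real.rpow_add hX, ← Real.rpow_add hX]
        congr 1
        field_simp
        ring

private theorem gxFr_real2 {X L S D : ℝ} {C0 : ℕ} (hX : 1 ≤ X) (hL : 1 ≤ L) (hS : 0 ≤ S)
    (hD : 0 < D) (hlp : 81 * 2 ^ C0 * L ^ (C0 + 4) ≤ X ^ (1 / (32 * D)))
    (h4 : S ^ 2 ≤ (X * (2 ^ C0 * L ^ C0)) * X ^ (1 - 1 / (16 * D))) :
    Real.sqrt S ≤ X ^ (1 / 2 - 1 / (128 * D)) / (3 * L) := by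
  have hX0 : 0 < X := by linarith
  have hL0 : 0 < L := by linarith
  have h5 : (3 * L) ^ 4 * S ^ 2 ≤ X ^ (2 - 1 / (32 * D)) := by
    calc (3 * L) ^ 4 * S ^ 2
        ≤ (3 * L) ^ 4 * ((X * (2 ^ C0 * L ^ C0)) * X ^ (1 - 1 / (16 * D))) :=
          mul_le_mul_of_nonneg_left h4 (by positivity)
      _ = (81 * 2 ^ C0 * L ^ (C0 + 4)) * (X * X ^ (1 - 1 / (16 * D))) := by
          rw [pow_add L C0 4]
          ring
      _ ≤ X ^ (1 / (32 * D)) * (X * X ^ (1 - 1 / (16 * D))) :=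
          mul_le_mul_of_nonneg_right hlp (by positivity)
      _ = X ^ (1 / (32 * D)) * (X ^ (1 : ℝ) * X ^ (1 - 1 / (16 * D))) := by rw [Real.rpow_one]
      _ = X ^ (2 - 1 / (32 * D)) := by
          rw [← Real.rpow_add hX0, ← Real.rpow_add hX0]
          congr 1
          field_simp
          ring
  rw [le_div_iff₀ (by positivity)]
  have h6 : 0 ≤ Real.sqrt S * (3 * L) := mul_nonneg (Real.sqrt_nonneg _) (by linarith)
  have h7 : (Real.sqrt S * (3 * L)) ^ 4 ≤ (X ^ (1 / 2 - 1 / (128 * D))) ^ 4 := by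
    have h8 : (Real.sqrt S * (3 * L)) ^ 4 = (3 * L) ^ 4 * S ^ 2 := by
      rw [mul_pow, show (Real.sqrt S) ^ 4 = ((Real.sqrt S) ^ 2) ^ 2 by ring, Real.sq_sqrt hS]
      ring
    rw [h8, ← Real.rpow_natCast (X ^ (1 / 2 - 1 / (128 * D))) 4, ← Real.rpow_mul hX0.le]
    refine h5.trans (le_of_eq ?_)
    congr 1
    push_cast
    field_simp
    ring
  exact (pow_le_pow_iff_left₀ h6 (by positivity) (by norm_num)).1 h7

theorem fr (D' : ℕ) (hD : 1 ≤ D') : ∃ c : ℝ, 0 < c ∧ ∃ X0 : ℕ, ∀ X : ℕ, X0 ≤ X → ∀ w : ℕ,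
    (w : ℝ) ≤ (Real.log X) ^ D' → ∀ (F : ℕ → ℂ) (B1 B3 : ℝ), 0 ≤ B1 → 0 ≤ B3 → TI X F B1 →
    ∑ n ∈ Icc 1 X, ‖F n‖ ^ 2 ≤ B3 ^ 2 →
    ‖∑ n ∈ Icc 1 X, ((f2 w n : ℝ) : ℂ) * F n‖ ≤
      3 * Real.log X * B1 + (X : ℝ) ^ (1 / 2 - c) * B3 := by
  classical
  have hD'R : (1 : ℝ) ≤ D' := by exact_mod_cast hD
  have hD0 : (0 : ℝ) < D' := by linarith
  obtain ⟨XF, hXF⟩ := f1_le D'
  obtain ⟨XR, hXR⟩ := rankin D' hD (ε := 1 / (16 * (D' : ℝ))) (by positivity)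
  obtain ⟨C0, hC0⟩ := L2G.div_mom 3
  obtain ⟨X1, hX1⟩ := MP_log_large 1
  obtain ⟨X2, hX2⟩ := MP_log_pow (81 * 2 ^ C0) (C0 + 4) (ε := 1 / (32 * (D' : ℝ))) (by positivity)
  refine ⟨1 / (128 * (D' : ℝ)), by positivity, max (max XF XR) (max (max X1 X2) 1),
    fun X hX w hw F B1 B3 hB1 hB3 hTI hF => ?_⟩
  simp only [max_le_iff] at hX
  obtain ⟨⟨hXF', hXR'⟩, ⟨hX1', hX2'⟩, hX1''⟩ := hX
  have hX1R : (1 : ℝ) ≤ X := by exact_mod_cast hX1''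
  have hX0 : (0 : ℝ) < X := by linarith
  obtain ⟨hPφ, -⟩ := hXF X hXF' w hw
  have hrk := hXR X hXR' w hw
  have hL1 := hX1 X hX1'
  have hlp := hX2 X hX2'
  have hdm := (hC0 X hX1'').1
  set L := Real.log X with hL
  have hL0 : 0 < L := by linarith
  set P := primorial w with hP
  set z : ℝ := (X : ℝ) ^ (1 / 4 : ℝ) with hz
  have hz1 : 1 ≤ z := Real.one_le_rpow hX1R (by norm_num)
  set Dz := P.divisors.filter (fun d : ℕ => z < (d : ℝ)) with hDz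
  have hDz0 : ∀ d ∈ Dz, 0 < d := by
    intro d hd
    exact Nat.pos_of_mem_divisors (Finset.mem_filter.1 hd).1
  -- the second moment
  have hT : Real.sqrt (∑ n ∈ Icc 1 X, ((Dz.filter (fun d => d ∣ n)).card : ℝ) ^ 2) ≤
      (X : ℝ) ^ (1 / 2 - 1 / (128 * (D' : ℝ))) / (3 * L) := by
    have h1 := gxFr_T2 Dz hDz0 X
    have hS0 : 0 ≤ ∑ n ∈ Icc 1 X, ((Dz.filter (fun d => d ∣ n)).card : ℝ) ^ 2 :=
      sum_nonneg fun n _ => sq_nonneg _
    have h2 : (X : ℝ) * ∑ d ∈ Dz, 1 / (d : ℝ) ≤ (X : ℝ) ^ (1 - 1 / (16 * (D' : ℝ))) := by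
      refine (mul_le_mul_of_nonneg_left (hrk z hz1).1 hX0.le).trans (le_of_eq ?_)
      exact gxFr_real1 hX0 hD0
    have h3 : (1 + L) ^ C0 ≤ 2 ^ C0 * L ^ C0 := by
      rw [← mul_pow]
      exact pow_le_pow_left₀ (by linarith) (by linarith) _
    refine gxFr_real2 hX1R hL1 hS0 hD0 hlp (h1.trans ?_)
    refine mul_le_mul ?_ h2 ?_ (by positivity)
    · exact hdm.trans (mul_le_mul_of_nonneg_left h3 hX0.le)
    · exact mul_nonneg hX0.le (sum_nonneg fun d _ => by positivity)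
  -- partial sums
  have hM : ∀ t ≤ X, ‖∑ n ∈ Icc 1 t, (f1 w n : ℂ) * F n‖ ≤
      L * B1 + (X : ℝ) ^ (1 / 2 - 1 / (128 * (D' : ℝ))) / 3 * B3 := by
    intro t ht
    rw [gxFr_expand, norm_mul, Complex.norm_real]
    have hPφ0 : 0 ≤ (P : ℝ) / (Nat.totient P : ℝ) := by positivity
    rw [Real.norm_of_nonneg hPφ0,
      ← Finset.sum_filter_add_sum_filter_not P.divisors (fun d : ℕ => z < (d : ℝ))]
    have h1 := gxFr_tail Dz X t ht F B3 hB3 hF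
    have h2 : ‖∑ d ∈ P.divisors.filter (fun d : ℕ => ¬ z < (d : ℝ)),
        ((ArithmeticFunction.moebius d : ℤ) : ℂ) *
          ∑ n ∈ (Icc 1 t).filter (fun n => d ∣ n), F n‖ ≤ B1 := by
      have h3 := (hTI ⌊z⌋₊ (fun r => if r ∣ P then ((ArithmeticFunction.moebius r : ℤ) : ℂ) else 0)
        (fun r => t / r) ?_ ?_ ?_).1
      · refine le_trans (le_of_eq ?_) h3
        congr 1
        simp only [ite_mul, zero_mul]
        rw [← Finset.sum_filter]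
        have h4 : P.divisors.filter (fun d : ℕ => ¬ z < (d : ℝ)) =
            (Icc 1 ⌊z⌋₊).filter (fun r => r ∣ P) := by
          ext d
          rw [mem_filter, mem_filter, Nat.mem_divisors, mem_Icc]
          have hP0 : P ≠ 0 := (primorial_pos w).ne'
          constructor
          · rintro ⟨⟨h5, _⟩, h6⟩
            exact ⟨⟨Nat.pos_of_dvd_of_pos h5 (primorial_pos w), Nat.le_floor (not_lt.1 h6)⟩, h5⟩
          · rintro ⟨⟨_, h6⟩, h7⟩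
            exact ⟨⟨h7, hP0⟩, not_lt.2 ((Nat.le_floor_iff (by linarith)).1 h6)⟩
        rw [h4]
        refine sum_congr rfl fun d hd => ?_
        rw [mem_filter, mem_Icc] at hd
        rw [gxFr_mult d t hd.1.1]
      · refine (Nat.floor_le (by linarith)).trans ?_
        exact Real.rpow_le_rpow_of_exponent_le hX1R (by norm_num)
      · intro r
        split_ifs
        · rw [Complex.norm_intCast]
          exact_mod_cast ArithmeticFunction.abs_moebius_le_one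
        · rw [norm_zero]
          exact zero_le_one
      · intro r _
        exact (Nat.mul_div_le t r).trans ht
    have h3 : ‖(∑ d ∈ P.divisors.filter (fun d : ℕ => z < (d : ℝ)),
        ((ArithmeticFunction.moebius d : ℤ) : ℂ) *
          ∑ n ∈ (Icc 1 t).filter (fun n => d ∣ n), F n) +
        ∑ d ∈ P.divisors.filter (fun d : ℕ => ¬ z < (d : ℝ)),
        ((ArithmeticFunction.moebius d : ℤ) : ℂ) *
          ∑ n ∈ (Icc 1 t).filter (fun n => d ∣ n), F n‖ ≤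
        (X : ℝ) ^ (1 / 2 - 1 / (128 * (D' : ℝ))) / (3 * L) * B3 + B1 := by
      refine (norm_add_le _ _).trans (add_le_add ?_ h2)
      exact h1.trans (mul_le_mul_of_nonneg_right hT hB3)
    calc (P : ℝ) / (Nat.totient P : ℝ) * _
        ≤ L * ((X : ℝ) ^ (1 / 2 - 1 / (128 * (D' : ℝ))) / (3 * L) * B3 + B1) :=
          mul_le_mul hPφ h3 (norm_nonneg _) hL0.le
      _ = L * B1 + (X : ℝ) ^ (1 / 2 - 1 / (128 * (D' : ℝ))) / 3 * B3 := by
          field_simp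
          ring
  have h1 := MP_abel _ _ X hM
  have h2 : ∑ n ∈ Icc 1 X, ((f2 w n : ℝ) : ℂ) * F n =
      ∑ n ∈ Icc 1 X, ((1 / Real.log (n : ℝ) : ℝ) : ℂ) * ((f1 w n : ℂ) * F n) := by
    unfold f2
    refine sum_congr rfl fun n _ => ?_
    rw [← mul_assoc, ← Complex.ofReal_mul]
    congr 2
    ring
  rw [h2]
  refine h1.trans (le_of_eq ?_)
  ring

end Pool.MP_dd84fd_nt.GX
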