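import Pool.Agent.Lib.MP_dd84fd_nt.GX.Defs
import Pool.Agent.Lib.BV.Vaughan

/-!
# GX-VMain (0.9 h): dyadic decomposition of the bilinear sum

Proof. `L = log X`, `U = ⌊X^(3/8)⌋₊`. Every pair `(m, k)` of the sum (`m, k > U`, `m k ≤ t`) lies in exactly one box
`2^i < m ≤ 2^(i+1)`, `2^i' < k ≤ 2^(i'+1)` with `i, i' ≤ Nat.log 2 X` (`m ≥ 2` since `U ≥ 1`; for `i` take the largest `i` with `2^i < m`). So the sum is the sum
over `i, i' ∈ range (Nat.log 2 X + 1)` of the box sums, `(1 + log_2 X)² ≤ (3L)²` of them. A non-empty box has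
`2^(i+1) ≥ m > U`, `m ≥ U + 1 > X^(3/8)`, so `2^i ≥ X^(3/8)/2`, likewise `2^i'`, and `2^i 2^i' < m k ≤ X`. If `i' ≤ i` it is
`L Z` times a sum as in `TII` with `l = m`, `s = k`, `a l = Λ(l)/L · 1[U < l ∧ l ≤ t]`, `b s = c2 U s/Z · 1[U < s ∧ τ(s) ≤ Z]`
(`Λ(l) ≤ log l ≤ L` for `l ≤ X`: `ArithmeticFunction.vonMangoldt_le_log`, for the other `l` the coefficient is `0`; `BV.c2_bound`); if `i < i'` exchange the roles (`l = k`, `s = m`). Hence
`≤ 9 L² · L Z B2`. (`k ≤ t/m ↔ m k ≤ t`.)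
-/

set_option autoImplicit false

namespace Pool.MP_dd84fd_nt.GX

open Finset Pool.MP_67663b_nt.Odd Pool.MP_dd84fd_nt.En Pool.MP_dd84fd_nt.E2 Pool.MP_dd84fd_nt.LS

open Pool.MP_dd84fd_nt.L2G (nrm)

private theorem sum_dyadic (N : ℕ) (f : ℕ → ℂ) :
    ∑ i ∈ range N, ∑ m ∈ Ioc (2 ^ i) (2 ^ (i + 1)), f m = ∑ m ∈ Ioc 1 (2 ^ N), f m := by
  induction N with
  | zero => simp
  | succ n ih =>
    rw [sum_range_succ, ih]
    exact sum_Ioc_consecutive f Nat.one_le_two_pow (Nat.pow_le_pow_right (by norm_num) (Nat.le_succ n))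

/-- the coefficient of von Mangoldt type -/
private noncomputable def ca (U X : ℕ) (n : ℕ) : ℂ :=
  if U < n ∧ n ≤ X then (ArithmeticFunction.vonMangoldt n : ℂ) / (Real.log X : ℂ) else 0

/-- the coefficient of divisor type -/
private noncomputable def cb (U : ℕ) (Z : ℝ) (n : ℕ) : ℂ :=
  if U < n ∧ (n.divisors.card : ℝ) ≤ Z then (Pool.BV.c2 U n : ℂ) / (Z : ℂ) else 0

private theorem ca_le (U X : ℕ) (hL : 1 ≤ Real.log X) (n : ℕ) : ‖ca U X n‖ ≤ 1 := by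
  unfold ca
  split_ifs with h
  · rw [norm_div, Complex.norm_real, Complex.norm_real, Real.norm_eq_abs, Real.norm_eq_abs,
      abs_of_nonneg ArithmeticFunction.vonMangoldt_nonneg, abs_of_pos (by linarith),
      div_le_one (by linarith)]
    refine ArithmeticFunction.vonMangoldt_le_log.trans ?_
    have hn : 0 < n := by omega
    exact Real.log_le_log (by exact_mod_cast hn) (by exact_mod_cast h.2)
  · simp

private theorem cb_le (U : ℕ) (Z : ℝ) (hZ : 1 ≤ Z) (n : ℕ) : ‖cb U Z n‖ ≤ 1 := by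
  unfold cb
  split_ifs with h
  · rw [norm_div, Complex.norm_real, Complex.norm_real, Real.norm_eq_abs, Real.norm_eq_abs,
      abs_of_pos (show (0 : ℝ) < Z by linarith), div_le_one (by linarith)]
    exact (Pool.BV.c2_bound U n).trans h.2
  · simp

/-- the summand -/
private noncomputable def hh (U X : ℕ) (Z : ℝ) (t : ℕ) (F : ℕ → ℂ) (m k : ℕ) : ℂ :=
  if m * k ≤ t then ca U X m * cb U Z k * F (m * k) else 0

private theorem box (X : ℕ) (hL : 1 ≤ Real.log X) (F : ℕ → ℂ) (B2 Z : ℝ) (hB : 0 ≤ B2)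
    (hZ : 1 ≤ Z) (hT : TII X F B2) (t : ℕ) (ht : t ≤ X) (i i' : ℕ) :
    ‖∑ m ∈ Ioc (2 ^ i) (2 ^ (i + 1)), ∑ k ∈ Ioc (2 ^ i') (2 ^ (i' + 1)),
      hh ⌊(X : ℝ) ^ (3 / 8 : ℝ)⌋₊ X Z t F m k‖ ≤ B2 := by
  set U := ⌊(X : ℝ) ^ (3 / 8 : ℝ)⌋₊ with hU
  have hlow : ∀ j : ℕ, U < 2 ^ (j + 1) → (X : ℝ) ^ (3 / 8 : ℝ) / 2 ≤ (2 : ℝ) ^ j := by
    intro j hj
    have h1 : (X : ℝ) ^ (3 / 8 : ℝ) < (U : ℝ) + 1 := Nat.lt_floor_add_one _
    have h2 : ((U : ℝ) + 1) ≤ 2 ^ (j + 1) := by exact_mod_cast hj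
    rw [pow_succ] at h2
    linarith
  by_cases h1 : U < 2 ^ (i + 1)
  · by_cases h2 : U < 2 ^ (i' + 1)
    · by_cases h3 : 2 ^ i * 2 ^ i' ≤ X
      · rcases le_total i' i with h4 | h4
        · have h5 := hT i i' t (ca U X) (cb U Z) ht (ca_le U X hL) (cb_le U Z hZ) h4 (hlow i' h2) h3
          have h6 : ∑ m ∈ Ioc (2 ^ i) (2 ^ (i + 1)), ∑ k ∈ Ioc (2 ^ i') (2 ^ (i' + 1)),
              hh U X Z t F m k = ∑ l ∈ Ioc (2 ^ i) (2 ^ (i + 1)),
                ∑ s ∈ (Ioc (2 ^ i') (2 ^ (i' + 1))).filter (fun s => l * s ≤ t),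
                  ca U X l * cb U Z s * F (l * s) := by
            refine sum_congr rfl fun m _ => ?_
            rw [sum_filter]
            rfl
          rw [h6]
          exact h5
        · have h5 := hT i' i t (cb U Z) (ca U X) ht (cb_le U Z hZ) (ca_le U X hL) h4 (hlow i h1)
            (by rwa [mul_comm])
          have h6 : ∑ m ∈ Ioc (2 ^ i) (2 ^ (i + 1)), ∑ k ∈ Ioc (2 ^ i') (2 ^ (i' + 1)),
              hh U X Z t F m k = ∑ l ∈ Ioc (2 ^ i') (2 ^ (i' + 1)),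
                ∑ s ∈ (Ioc (2 ^ i) (2 ^ (i + 1))).filter (fun s => l * s ≤ t),
                  cb U Z l * ca U X s * F (l * s) := by
            rw [sum_comm]
            refine sum_congr rfl fun k _ => ?_
            rw [sum_filter]
            refine sum_congr rfl fun m _ => ?_
            unfold hh
            rw [mul_comm m k, mul_comm (ca U X m)]
          rw [h6]
          exact h5
      · have h4 : ∑ m ∈ Ioc (2 ^ i) (2 ^ (i + 1)), ∑ k ∈ Ioc (2 ^ i') (2 ^ (i' + 1)),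
            hh U X Z t F m k = 0 := by
          refine sum_eq_zero fun m hm => sum_eq_zero fun k hk => ?_
          rw [mem_Ioc] at hm hk
          unfold hh
          rw [if_neg]
          intro h5
          have h6 : 2 ^ i * 2 ^ i' ≤ m * k := Nat.mul_le_mul hm.1.le hk.1.le
          omega
        rw [h4, norm_zero]
        exact hB
    · have h4 : ∑ m ∈ Ioc (2 ^ i) (2 ^ (i + 1)), ∑ k ∈ Ioc (2 ^ i') (2 ^ (i' + 1)),
          hh U X Z t F m k = 0 := by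
        refine sum_eq_zero fun m hm => sum_eq_zero fun k hk => ?_
        rw [mem_Ioc] at hm hk
        unfold hh cb
        rw [if_neg (show ¬ (U < k ∧ (k.divisors.card : ℝ) ≤ Z) by intro h; omega)]
        simp
      rw [h4, norm_zero]
      exact hB
  · have h4 : ∑ m ∈ Ioc (2 ^ i) (2 ^ (i + 1)), ∑ k ∈ Ioc (2 ^ i') (2 ^ (i' + 1)),
        hh U X Z t F m k = 0 := by
      refine sum_eq_zero fun m hm => sum_eq_zero fun k hk => ?_
      rw [mem_Ioc] at hm hk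
      unfold hh ca
      rw [if_neg (show ¬ (U < m ∧ m ≤ X) by intro h; omega)]
      simp
    rw [h4, norm_zero]
    exact hB

private theorem conv (X U : ℕ) (hU : 1 ≤ U) (hL : 1 ≤ Real.log X) (F : ℕ → ℂ) (Z : ℝ)
    (hZ : 1 ≤ Z) (t : ℕ) (ht : t ≤ X) (N : ℕ) (hN : X < 2 ^ N) :
    ∑ m ∈ Ioc U t, ∑ k ∈ (Ioc U (t / m)).filter (fun k : ℕ => (k.divisors.card : ℝ) ≤ Z),
      (ArithmeticFunction.vonMangoldt m : ℂ) * (Pool.BV.c2 U k : ℂ) * F (m * k) =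
    ((Real.log X : ℂ) * (Z : ℂ)) * ∑ m ∈ Ioc 1 (2 ^ N), ∑ k ∈ Ioc 1 (2 ^ N), hh U X Z t F m k := by
  have hLc : (Real.log X : ℂ) ≠ 0 := by
    rw [Ne, Complex.ofReal_eq_zero]
    linarith
  have hZc : (Z : ℂ) ≠ 0 := by
    rw [Ne, Complex.ofReal_eq_zero]
    linarith
  have h1 : ∑ m ∈ Ioc 1 (2 ^ N), ∑ k ∈ Ioc 1 (2 ^ N), hh U X Z t F m k =
      ∑ m ∈ Ioc U t, ∑ k ∈ Ioc 1 (2 ^ N), hh U X Z t F m k := by
    symm
    refine sum_subset ?_ ?_
    · intro m hm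
      rw [mem_Ioc] at hm ⊢
      omega
    · intro m hm hm'
      rw [mem_Ioc] at hm hm'
      refine sum_eq_zero fun k hk => ?_
      rw [mem_Ioc] at hk
      unfold hh
      split_ifs with h
      · have h2 : m ≤ m * k := Nat.le_mul_of_pos_right m (by omega)
        have h3 : ¬ (U < m ∧ m ≤ X) := by omega
        unfold ca
        rw [if_neg h3]
        simp
      · rfl
  rw [h1, mul_sum]
  refine sum_congr rfl fun m hm => ?_
  rw [mem_Ioc] at hm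
  have hm0 : 0 < m := by omega
  rw [mul_sum]
  have h2 : ∑ k ∈ Ioc 1 (2 ^ N), (Real.log X : ℂ) * (Z : ℂ) * hh U X Z t F m k =
      ∑ k ∈ (Ioc U (t / m)).filter (fun k : ℕ => (k.divisors.card : ℝ) ≤ Z),
        (Real.log X : ℂ) * (Z : ℂ) * hh U X Z t F m k := by
    symm
    refine sum_subset ?_ ?_
    · intro k hk
      rw [mem_filter, mem_Ioc] at hk
      rw [mem_Ioc]
      have := Nat.div_le_self t m
      omega
    · intro k hk hk'
      rw [mem_Ioc] at hk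
      rw [mem_filter, mem_Ioc] at hk'
      unfold hh
      split_ifs with h
      · have h3 : k ≤ t / m := by
          rw [Nat.le_div_iff_mul_le hm0, mul_comm]
          exact h
        have h4 : ¬ (U < k ∧ (k.divisors.card : ℝ) ≤ Z) := by
          intro h5
          exact hk' ⟨⟨h5.1, h3⟩, h5.2⟩
        unfold cb
        rw [if_neg h4]
        simp
      · simp
  rw [h2]
  refine sum_congr rfl fun k hk => ?_
  rw [mem_filter, mem_Ioc, Nat.le_div_iff_mul_le hm0, mul_comm k m] at hk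
  unfold hh ca cb
  rw [if_pos hk.1.2, if_pos (show U < m ∧ m ≤ X by omega), if_pos ⟨hk.1.1, hk.2⟩]
  field_simp

theorem vmain : ∃ X0 : ℕ, ∀ X : ℕ, X0 ≤ X → ∀ (F : ℕ → ℂ) (B2 Z : ℝ), 0 ≤ B2 → 1 ≤ Z →
    TII X F B2 → ∀ t : ℕ, t ≤ X →
    ‖∑ m ∈ Ioc ⌊(X : ℝ) ^ (3 / 8 : ℝ)⌋₊ t,
      ∑ k ∈ (Ioc ⌊(X : ℝ) ^ (3 / 8 : ℝ)⌋₊ (t / m)).filter (fun k : ℕ => (k.divisors.card : ℝ) ≤ Z),
      (ArithmeticFunction.vonMangoldt m : ℂ) *
        (Pool.BV.c2 ⌊(X : ℝ) ^ (3 / 8 : ℝ)⌋₊ k : ℂ) * F (m * k)‖ ≤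
      9 * (Real.log X) ^ 3 * Z * B2 := by
  refine ⟨3, fun X hX F B2 Z hB hZ hT t ht => ?_⟩
  have hX3 : (3 : ℝ) ≤ X := by exact_mod_cast hX
  have hL : 1 ≤ Real.log X := by
    have h1 : Real.exp 1 ≤ X := by
      have := Real.exp_one_lt_d9
      linarith
    rw [Real.le_log_iff_exp_le (by linarith)]
    exact h1
  have hU : 1 ≤ ⌊(X : ℝ) ^ (3 / 8 : ℝ)⌋₊ := by
    apply Nat.le_floor
    rw [Nat.cast_one]
    exact Real.one_le_rpow (by linarith) (by norm_num)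
  set N := Nat.log 2 X + 1 with hN
  have hXN : X < 2 ^ N := Nat.lt_pow_succ_log_self (by norm_num) X
  rw [conv X _ hU hL F Z hZ t ht N hXN, norm_mul]
  have h1 : ∑ m ∈ Ioc 1 (2 ^ N), ∑ k ∈ Ioc 1 (2 ^ N),
      hh ⌊(X : ℝ) ^ (3 / 8 : ℝ)⌋₊ X Z t F m k =
      ∑ i ∈ range N, ∑ i' ∈ range N, ∑ m ∈ Ioc (2 ^ i) (2 ^ (i + 1)),
        ∑ k ∈ Ioc (2 ^ i') (2 ^ (i' + 1)), hh ⌊(X : ℝ) ^ (3 / 8 : ℝ)⌋₊ X Z t F m k := by
    refine (sum_dyadic N (fun m => ∑ k ∈ Ioc 1 (2 ^ N),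
      hh ⌊(X : ℝ) ^ (3 / 8 : ℝ)⌋₊ X Z t F m k)).symm.trans ?_
    refine sum_congr rfl fun i _ => ?_
    refine Eq.trans (sum_congr rfl fun m _ => ?_) sum_comm
    exact (sum_dyadic N (fun k => hh ⌊(X : ℝ) ^ (3 / 8 : ℝ)⌋₊ X Z t F m k)).symm
  have h2 : ‖∑ m ∈ Ioc 1 (2 ^ N), ∑ k ∈ Ioc 1 (2 ^ N),
      hh ⌊(X : ℝ) ^ (3 / 8 : ℝ)⌋₊ X Z t F m k‖ ≤ (N : ℝ) * ((N : ℝ) * B2) := by
    rw [h1]
    refine (norm_sum_le _ _).trans ?_
    have h3 : ∀ i ∈ range N, ‖∑ i' ∈ range N, ∑ m ∈ Ioc (2 ^ i) (2 ^ (i + 1)),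
        ∑ k ∈ Ioc (2 ^ i') (2 ^ (i' + 1)), hh ⌊(X : ℝ) ^ (3 / 8 : ℝ)⌋₊ X Z t F m k‖ ≤
        (N : ℝ) * B2 := by
      intro i _
      refine (norm_sum_le _ _).trans ?_
      refine (sum_le_sum fun i' _ => box X hL F B2 Z hB hZ hT t ht i i').trans ?_
      rw [sum_const, card_range, nsmul_eq_mul]
    refine (sum_le_sum h3).trans ?_
    rw [sum_const, card_range, nsmul_eq_mul]
  have h4 : (N : ℝ) ≤ 3 * Real.log X := by
    have h5 : ((Nat.log 2 X : ℕ) : ℝ) * Real.log 2 ≤ Real.log X := by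
      rw [← Real.log_pow]
      apply Real.log_le_log (by positivity)
      exact_mod_cast Nat.pow_log_le_self 2 (by omega)
    have h6 := Real.log_two_gt_d9
    have h7 : (N : ℝ) = (Nat.log 2 X : ℕ) + 1 := by
      rw [hN]
      push_cast
      ring
    rw [h7]
    have h8 : (0 : ℝ) ≤ ((Nat.log 2 X : ℕ) : ℝ) := Nat.cast_nonneg _
    nlinarith
  have h5 : ‖(Real.log X : ℂ) * (Z : ℂ)‖ = Real.log X * Z := by
    rw [norm_mul, Complex.norm_real, Complex.norm_real, Real.norm_eq_abs, Real.norm_eq_abs,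
      abs_of_pos (by linarith), abs_of_pos (by linarith)]
  rw [h5]
  have hN0 : (0 : ℝ) ≤ (N : ℝ) := Nat.cast_nonneg _
  have h6 : (N : ℝ) * ((N : ℝ) * B2) ≤ (3 * Real.log X) * ((3 * Real.log X) * B2) := by
    apply mul_le_mul h4 _ (by positivity) (by positivity)
    exact mul_le_mul_of_nonneg_right h4 hB
  calc Real.log X * Z * ‖∑ m ∈ Ioc 1 (2 ^ N), ∑ k ∈ Ioc 1 (2 ^ N),
        hh ⌊(X : ℝ) ^ (3 / 8 : ℝ)⌋₊ X Z t F m k‖
      ≤ Real.log X * Z * ((3 * Real.log X) * ((3 * Real.log X) * B2)) :=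
        mul_le_mul_of_nonneg_left (h2.trans h6) (by positivity)
    _ = 9 * (Real.log X) ^ 3 * Z * B2 := by ring

end Pool.MP_dd84fd_nt.GX
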