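import Pool.Agent.Lib.MP_dd84fd_nt.GX.Defs
import Pool.Agent.Lib.BV.Vaughan
import Pool.Agent.Lib.MP_dd84fd_nt.L2G.DivMom

/-!
# GX-VTail (0.7 h): large values of the divisor function

`tau_tail`: `τ(n)² ≤ τ(n)⁴/Z²` on the set; `L2G.div_mom 4`.
`vtail`: group by `n = m k ≤ t ≤ X`: the sum is `Σ_{n ≤ X} h(n) F(n)` with
`|h(n)| ≤ Σ_{m k = n, τ(k) > Z} Λ(m) τ(k) ≤ τ(n) 1[τ(n) > Z] Σ_{m ∣ n} Λ(m) = τ(n) log n 1[τ(n) > Z]` (`BV.c2_bound`, `τ(k) ≤ τ(n)` for
`k ∣ n`, `ArithmeticFunction.vonMangoldt_sum`). Cauchy-Schwarz. (A convenient way: `Finset.sum_sigma'`/`Nat.divisorsAntidiagonal` as in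
the proof of `BV.Vaughan` `conv_sum`.) Final constant: `C` = half of the constant of `div_mom 4`, rounded up.
-/

set_option autoImplicit false

namespace Pool.MP_dd84fd_nt.GX

open Finset Pool.MP_67663b_nt.Odd Pool.MP_dd84fd_nt.En Pool.MP_dd84fd_nt.E2 Pool.MP_dd84fd_nt.LS

open Pool.MP_dd84fd_nt.L2G (nrm)

private theorem VTail_swap (N : ℕ) (F : ℕ → ℕ → ℝ) :
    ∑ n ∈ Icc 1 N, ∑ d ∈ n.divisors, F d (n / d) =
      ∑ d ∈ Icc 1 N, ∑ e ∈ Icc 1 (N / d), F d e := by
  rw [Finset.sum_sigma', Finset.sum_sigma']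
  refine Finset.sum_bij' (fun p _ => (⟨p.2, p.1 / p.2⟩ : Σ _ : ℕ, ℕ))
    (fun p _ => (⟨p.1 * p.2, p.1⟩ : Σ _ : ℕ, ℕ)) ?_ ?_ ?_ ?_ ?_
  · rintro ⟨n, d⟩ h
    rw [Finset.mem_sigma, Finset.mem_Icc, Nat.mem_divisors] at h
    obtain ⟨⟨h1, h2⟩, h3, h4⟩ := h
    simp only at h1 h2 h3 h4
    rw [Finset.mem_sigma, Finset.mem_Icc, Finset.mem_Icc]
    have hd : 0 < d := Nat.pos_of_dvd_of_pos h3 (by omega)
    have hdn : d ≤ n := Nat.le_of_dvd (by omega) h3
    refine ⟨⟨hd, by simp only; omega⟩, ?_, ?_⟩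
    · exact Nat.div_pos hdn hd
    · exact Nat.div_le_div_right h2
  · rintro ⟨d, e⟩ h
    rw [Finset.mem_sigma, Finset.mem_Icc, Finset.mem_Icc] at h
    obtain ⟨⟨h1, h2⟩, h3, h4⟩ := h
    simp only at h1 h2 h3 h4
    rw [Finset.mem_sigma, Finset.mem_Icc, Nat.mem_divisors]
    have hde : d * e ≤ N := by
      calc d * e ≤ d * (N / d) := Nat.mul_le_mul_left _ h4
        _ ≤ N := Nat.mul_div_le N d
    refine ⟨⟨Nat.mul_pos h1 h3, hde⟩, Dvd.intro _ rfl, ?_⟩
    exact (Nat.mul_pos h1 h3).ne'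
  · rintro ⟨n, d⟩ h
    rw [Finset.mem_sigma, Finset.mem_Icc, Nat.mem_divisors] at h
    obtain ⟨⟨h1, h2⟩, h3, h4⟩ := h
    simp only at h3
    simp only [Nat.mul_div_cancel' h3]
  · rintro ⟨d, e⟩ h
    rw [Finset.mem_sigma, Finset.mem_Icc, Finset.mem_Icc] at h
    obtain ⟨⟨h1, h2⟩, h3, h4⟩ := h
    simp only at h1
    simp only [Nat.mul_div_cancel_left e (show 0 < d from h1)]
  · rintro ⟨n, d⟩ h
    rfl

theorem tau_tail : ∃ C : ℕ, ∀ X : ℕ, 1 ≤ X → ∀ Z : ℝ, 0 < Z →
    ∑ n ∈ (Icc 1 X).filter (fun n => Z < (n.divisors.card : ℝ)), (n.divisors.card : ℝ) ^ 2 ≤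
      X * (1 + Real.log X) ^ C / Z ^ 2 := by
  obtain ⟨C, hC⟩ := L2G.div_mom 4
  refine ⟨C, fun X hX Z hZ => ?_⟩
  rw [le_div_iff₀ (by positivity), Finset.sum_mul]
  refine le_trans ?_ (hC X hX).1
  calc ∑ n ∈ (Icc 1 X).filter (fun n => Z < (n.divisors.card : ℝ)),
        (n.divisors.card : ℝ) ^ 2 * Z ^ 2
      ≤ ∑ n ∈ (Icc 1 X).filter (fun n => Z < (n.divisors.card : ℝ)),
        (n.divisors.card : ℝ) ^ 4 := by
        refine Finset.sum_le_sum fun n hn => ?_
        have h1 := (Finset.mem_filter.1 hn).2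
        have h2 : Z ^ 2 ≤ (n.divisors.card : ℝ) ^ 2 := pow_le_pow_left₀ hZ.le h1.le 2
        calc (n.divisors.card : ℝ) ^ 2 * Z ^ 2
            ≤ (n.divisors.card : ℝ) ^ 2 * (n.divisors.card : ℝ) ^ 2 :=
              mul_le_mul_of_nonneg_left h2 (by positivity)
          _ = (n.divisors.card : ℝ) ^ 4 := by ring
    _ ≤ ∑ n ∈ Icc 1 X, (n.divisors.card : ℝ) ^ 4 :=
        Finset.sum_le_sum_of_subset_of_nonneg (Finset.filter_subset _ _)
          fun _ _ _ => by positivity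

theorem vtail : ∃ C : ℕ, ∀ X : ℕ, 1 ≤ X → ∀ (F : ℕ → ℂ) (B3 Z : ℝ), 0 ≤ B3 → 0 < Z →
    ∑ n ∈ Icc 1 X, ‖F n‖ ^ 2 ≤ B3 ^ 2 → ∀ U t : ℕ, t ≤ X →
    ‖∑ m ∈ Ioc U t, ∑ k ∈ (Ioc U (t / m)).filter (fun k : ℕ => Z < (k.divisors.card : ℝ)),
      (ArithmeticFunction.vonMangoldt m : ℂ) * (Pool.BV.c2 U k : ℂ) * F (m * k)‖ ≤
      Real.sqrt X * (1 + Real.log X) ^ C * B3 / Z := by
  classical
  obtain ⟨C, hC⟩ := tau_tail
  refine ⟨C + 1, fun X hX F B3 Z hB hZ hF U t ht => ?_⟩
  have hlog : 0 ≤ Real.log X := Real.log_natCast_nonneg X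
  have hX0 : (0 : ℝ) ≤ X := Nat.cast_nonneg X
  set G : ℕ → ℕ → ℝ := fun m k => if Z < (k.divisors.card : ℝ) then
    ArithmeticFunction.vonMangoldt m * (k.divisors.card : ℝ) * ‖F (m * k)‖ else 0 with hG
  have hG0 : ∀ m k, 0 ≤ G m k := by
    intro m k
    simp only [hG]
    split_ifs
    · have := ArithmeticFunction.vonMangoldt_nonneg (n := m)
      positivity
    · exact le_rfl
  have h1 : ‖∑ m ∈ Ioc U t, ∑ k ∈ (Ioc U (t / m)).filter (fun k : ℕ => Z < (k.divisors.card : ℝ)),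
      (ArithmeticFunction.vonMangoldt m : ℂ) * (Pool.BV.c2 U k : ℂ) * F (m * k)‖ ≤
      ∑ m ∈ Icc 1 X, ∑ k ∈ Icc 1 (X / m), G m k := by
    refine (norm_sum_le _ _).trans ?_
    calc ∑ m ∈ Ioc U t, ‖∑ k ∈ (Ioc U (t / m)).filter (fun k : ℕ => Z < (k.divisors.card : ℝ)),
          (ArithmeticFunction.vonMangoldt m : ℂ) * (Pool.BV.c2 U k : ℂ) * F (m * k)‖
        ≤ ∑ m ∈ Ioc U t, ∑ k ∈ Icc 1 (X / m), G m k := by
          refine Finset.sum_le_sum fun m _ => (norm_sum_le _ _).trans ?_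
          rw [Finset.sum_filter]
          calc ∑ k ∈ Ioc U (t / m), (if Z < (k.divisors.card : ℝ) then
                ‖(ArithmeticFunction.vonMangoldt m : ℂ) * (Pool.BV.c2 U k : ℂ) * F (m * k)‖ else 0)
              ≤ ∑ k ∈ Ioc U (t / m), G m k := by
                refine Finset.sum_le_sum fun k _ => ?_
                simp only [hG]
                split_ifs
                · rw [norm_mul, norm_mul, Complex.norm_real, Complex.norm_real, Real.norm_eq_abs,
                    Real.norm_eq_abs, abs_of_nonneg ArithmeticFunction.vonMangoldt_nonneg]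
                  refine mul_le_mul_of_nonneg_right ?_ (norm_nonneg _)
                  exact mul_le_mul_of_nonneg_left (Pool.BV.c2_bound U k)
                    ArithmeticFunction.vonMangoldt_nonneg
                · exact le_rfl
            _ ≤ ∑ k ∈ Icc 1 (X / m), G m k := by
                refine Finset.sum_le_sum_of_subset_of_nonneg ?_ fun _ _ _ => hG0 _ _
                intro k hk
                rw [Finset.mem_Ioc] at hk
                rw [Finset.mem_Icc]
                exact ⟨by omega, hk.2.trans (Nat.div_le_div_right ht)⟩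
      _ ≤ ∑ m ∈ Icc 1 X, ∑ k ∈ Icc 1 (X / m), G m k := by
          refine Finset.sum_le_sum_of_subset_of_nonneg ?_
            fun _ _ _ => Finset.sum_nonneg fun _ _ => hG0 _ _
          intro m hm
          rw [Finset.mem_Ioc] at hm
          rw [Finset.mem_Icc]
          exact ⟨by omega, hm.2.trans ht⟩
  refine h1.trans ?_
  rw [← VTail_swap X G]
  have h2 : ∀ n ∈ Icc 1 X, ∑ d ∈ n.divisors, G d (n / d) ≤
      if Z < (n.divisors.card : ℝ) then Real.log X * ((n.divisors.card : ℝ) * ‖F n‖) else 0 := by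
    intro n hn
    rw [Finset.mem_Icc] at hn
    have hn0 : n ≠ 0 := by omega
    have hmono : ∀ d ∈ n.divisors, ((n / d).divisors.card : ℝ) ≤ (n.divisors.card : ℝ) := by
      intro d hd
      exact_mod_cast Finset.card_le_card (Nat.divisors_subset_of_dvd hn0
        (Nat.div_dvd_of_dvd (Nat.dvd_of_mem_divisors hd)))
    split_ifs with hz
    · calc ∑ d ∈ n.divisors, G d (n / d)
          ≤ ∑ d ∈ n.divisors, ArithmeticFunction.vonMangoldt d *
              ((n.divisors.card : ℝ) * ‖F n‖) := by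
            refine Finset.sum_le_sum fun d hd => ?_
            simp only [hG]
            have hv := ArithmeticFunction.vonMangoldt_nonneg (n := d)
            split_ifs
            · rw [Nat.mul_div_cancel' (Nat.dvd_of_mem_divisors hd), mul_assoc]
              exact mul_le_mul_of_nonneg_left
                (mul_le_mul_of_nonneg_right (hmono d hd) (norm_nonneg _)) hv
            · positivity
        _ = Real.log n * ((n.divisors.card : ℝ) * ‖F n‖) := by
            rw [← Finset.sum_mul, ArithmeticFunction.vonMangoldt_sum]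
        _ ≤ Real.log X * ((n.divisors.card : ℝ) * ‖F n‖) := by
            refine mul_le_mul_of_nonneg_right ?_ (by positivity)
            exact Real.log_le_log (by exact_mod_cast hn.1) (by exact_mod_cast hn.2)
    · refine le_of_eq (Finset.sum_eq_zero fun d hd => ?_)
      simp only [hG]
      rw [if_neg]
      intro h
      exact hz (h.trans_le (hmono d hd))
  refine (Finset.sum_le_sum h2).trans ?_
  rw [← Finset.sum_filter, ← Finset.mul_sum]
  have hcs : ∑ n ∈ (Icc 1 X).filter (fun n => Z < (n.divisors.card : ℝ)),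
      (n.divisors.card : ℝ) * ‖F n‖ ≤ Real.sqrt (X * (1 + Real.log X) ^ C / Z ^ 2) * B3 := by
    have h3 := Real.sum_mul_le_sqrt_mul_sqrt
      ((Icc 1 X).filter (fun n => Z < (n.divisors.card : ℝ)))
      (fun n => (n.divisors.card : ℝ)) (fun n => ‖F n‖)
    refine h3.trans ?_
    refine mul_le_mul (Real.sqrt_le_sqrt (hC X hX Z hZ)) ?_ (Real.sqrt_nonneg _)
      (Real.sqrt_nonneg _)
    rw [← Real.sqrt_sq hB]
    refine Real.sqrt_le_sqrt (le_trans ?_ hF)
    exact Finset.sum_le_sum_of_subset_of_nonneg (Finset.filter_subset _ _)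
      fun _ _ _ => by positivity
  have hL1 : (1 : ℝ) ≤ 1 + Real.log X := by linarith
  have hs : Real.sqrt (X * (1 + Real.log X) ^ C / Z ^ 2) ≤
      Real.sqrt X * (1 + Real.log X) ^ C / Z := by
    rw [Real.sqrt_div (by positivity), Real.sqrt_mul hX0, Real.sqrt_sq hZ.le]
    refine div_le_div_of_nonneg_right (mul_le_mul_of_nonneg_left ?_ (Real.sqrt_nonneg _)) hZ.le
    have h1p : (1 : ℝ) ≤ (1 + Real.log X) ^ C := one_le_pow₀ hL1
    rw [Real.sqrt_le_left (by positivity)]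
    nlinarith
  calc Real.log X * ∑ n ∈ (Icc 1 X).filter (fun n => Z < (n.divisors.card : ℝ)),
        (n.divisors.card : ℝ) * ‖F n‖
      ≤ (1 + Real.log X) * (Real.sqrt X * (1 + Real.log X) ^ C / Z * B3) := by
        refine mul_le_mul (by linarith) (hcs.trans (mul_le_mul_of_nonneg_right hs hB))
          (Finset.sum_nonneg fun _ _ => by positivity) (by positivity)
    _ = Real.sqrt X * (1 + Real.log X) ^ (C + 1) * B3 / Z := by
        rw [pow_succ]
        ring

end Pool.MP_dd84fd_nt.GX
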