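import Pool.Agent.Lib.MP_dd84fd_nt.GX.Defs
import Pool.Agent.Lib.MP_dd84fd_nt.GX.VTail
import Pool.Agent.Lib.MP_dd84fd_nt.GX.VMain
import Pool.Agent.Lib.MP_dd84fd_nt.E2.MinorP

/-!
# GX-VIp (1 h): from the primes to bilinear sums

Proof. `L = log X`, `U = ⌊X^(3/8)⌋₊`, `U² ≤ X^(3/4)`.
`vlam`: `BV.vaughan U t`: first term `≤ Σ_{n ≤ U} Λ(n) B4 ≤ X^(3/8) L B4`; second: `TI` (first half) with `R = U²`, `c_t = c1 U t/L`
(`BV.c1_bound`, `log t ≤ L`), `y = t/·`: `≤ L B1`; third: `TI` (second half) with `R = U ≤ X^(3/4)`, `c = μ`: `≤ L B1`; fourth: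
split `Ioc U (t/m)` by `τ(k) ≤ Z` or `> Z`: `vmain`, `vtail`.
`vip`: `a_n = Λ(n) F(n)`: `E2.MP_abel` gives `‖Σ_{n ≤ X} (1/log n) Λ(n) F(n)‖ ≤ 3 max_t ‖Σ_{n ≤ t} Λ(n) F(n)‖`. And
`Λ(n)/log n = ip n` for `n` prime, `0` if `n` is not a prime power, `1/k` for `n = p^k`: the difference to `Σ ip(n) F(n)` is
`≤ B4 #{n ≤ X : n = p^k, k ≥ 2} ≤ B4 √X · 2 L` (`p ≤ √X`, `k ≤ log_2 X ≤ 2 L`). `3 X^(3/8) L B4 + 2 √X L B4 ≤ 5 √X L B4`.
-/

set_option autoImplicit false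

namespace Pool.MP_dd84fd_nt.GX

open Finset Pool.MP_67663b_nt.Odd Pool.MP_dd84fd_nt.En Pool.MP_dd84fd_nt.E2 Pool.MP_dd84fd_nt.LS

open Pool.MP_dd84fd_nt.L2G (nrm)

private theorem vip_first (X U t : ℕ) (F : ℕ → ℂ) (B4 : ℝ) (hX : 3 ≤ X) (h4 : 0 ≤ B4)
    (hF : ∀ n ∈ Icc 1 X, ‖F n‖ ≤ B4) (ht : t ≤ X) :
    ‖∑ n ∈ Icc 1 (min U t), (ArithmeticFunction.vonMangoldt n : ℂ) * F n‖ ≤
      U * Real.log X * B4 := by
  have hL : 0 ≤ Real.log X := Real.log_nonneg (by exact_mod_cast (by omega : 1 ≤ X))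
  calc ‖∑ n ∈ Icc 1 (min U t), (ArithmeticFunction.vonMangoldt n : ℂ) * F n‖
      ≤ ∑ n ∈ Icc 1 (min U t), ‖(ArithmeticFunction.vonMangoldt n : ℂ) * F n‖ := norm_sum_le _ _
    _ ≤ ∑ _n ∈ Icc 1 (min U t), Real.log X * B4 := by
        refine sum_le_sum fun n hn => ?_
        rw [mem_Icc] at hn
        have h1 : n ≤ X := (hn.2.trans (min_le_right _ _)).trans ht
        rw [norm_mul, Complex.norm_real,
          Real.norm_of_nonneg ArithmeticFunction.vonMangoldt_nonneg]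
        refine mul_le_mul ?_ (hF n (mem_Icc.2 ⟨hn.1, h1⟩)) (norm_nonneg _) hL
        refine ArithmeticFunction.vonMangoldt_le_log.trans (Real.log_le_log ?_ ?_)
        · exact_mod_cast hn.1
        · exact_mod_cast h1
    _ = ((min U t : ℕ) : ℝ) * (Real.log X * B4) := by
        rw [sum_const, Nat.card_Icc, Nat.add_sub_cancel, nsmul_eq_mul]
    _ ≤ U * (Real.log X * B4) := by
        apply mul_le_mul_of_nonneg_right _ (by positivity)
        exact_mod_cast min_le_left _ _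
    _ = U * Real.log X * B4 := by ring

theorem vlam : ∃ C X0 : ℕ, ∀ X : ℕ, X0 ≤ X → ∀ (F : ℕ → ℂ) (B1 B2 B3 B4 Z : ℝ),
    0 ≤ B1 → 0 ≤ B2 → 0 ≤ B3 → 0 ≤ B4 → 1 ≤ Z → TI X F B1 → TII X F B2 →
    ∑ n ∈ Icc 1 X, ‖F n‖ ^ 2 ≤ B3 ^ 2 → (∀ n ∈ Icc 1 X, ‖F n‖ ≤ B4) → ∀ t : ℕ, t ≤ X →
    ‖∑ n ∈ Icc 1 t, (ArithmeticFunction.vonMangoldt n : ℂ) * F n‖ ≤
      2 * Real.log X * B1 + 9 * (Real.log X) ^ 3 * Z * B2 +
        Real.sqrt X * (1 + Real.log X) ^ C * B3 / Z + (X : ℝ) ^ (3 / 8 : ℝ) * Real.log X * B4 := by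
  obtain ⟨C, hvt⟩ := vtail
  obtain ⟨X0, hvm⟩ := vmain
  refine ⟨C, max X0 3, fun X hX F B1 B2 B3 B4 Z h1 h2 h3 h4 hZ hTI hTII hF2 hF t ht => ?_⟩
  have hX0 : X0 ≤ X := (le_max_left _ _).trans hX
  have hX3 : 3 ≤ X := (le_max_right _ _).trans hX
  have hXR : (1 : ℝ) ≤ X := by exact_mod_cast (by omega : 1 ≤ X)
  have hXR0 : (0 : ℝ) ≤ X := Nat.cast_nonneg _
  have hL : 0 < Real.log X := Real.log_pos (by exact_mod_cast (by omega : 1 < X))
  set U : ℕ := ⌊(X : ℝ) ^ (3 / 8 : ℝ)⌋₊ with hU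
  have hUle : (U : ℝ) ≤ (X : ℝ) ^ (3 / 8 : ℝ) := Nat.floor_le (Real.rpow_nonneg hXR0 _)
  have hU1 : 1 ≤ U := by
    rw [hU, Nat.one_le_floor_iff]
    exact Real.one_le_rpow hXR (by norm_num)
  have hpow : (X : ℝ) ^ (3 / 8 : ℝ) * (X : ℝ) ^ (3 / 8 : ℝ) = (X : ℝ) ^ (3 / 4 : ℝ) := by
    rw [← Real.rpow_add (by linarith)]
    norm_num
  have hR : ((U ^ 2 : ℕ) : ℝ) ≤ (X : ℝ) ^ (3 / 4 : ℝ) := by
    push_cast
    rw [pow_two, ← hpow]
    exact mul_le_mul hUle hUle (Nat.cast_nonneg _) (Real.rpow_nonneg hXR0 _)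
  have hR' : ((U : ℕ) : ℝ) ≤ (X : ℝ) ^ (3 / 4 : ℝ) :=
    hUle.trans (Real.rpow_le_rpow_of_exponent_le hXR (by norm_num))
  have hle34 : (X : ℝ) ^ (3 / 4 : ℝ) ≤ X := by
    calc (X : ℝ) ^ (3 / 4 : ℝ) ≤ (X : ℝ) ^ (1 : ℝ) :=
          Real.rpow_le_rpow_of_exponent_le hXR (by norm_num)
      _ = X := Real.rpow_one _
  have hy : ∀ r ∈ Icc 1 (U ^ 2), r * (t / r) ≤ X := fun r _ => (Nat.mul_div_le t r).trans ht
  have hy' : ∀ r ∈ Icc 1 U, r * (t / r) ≤ X := fun r _ => (Nat.mul_div_le t r).trans ht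
  -- second term
  have hs2 : ‖∑ r ∈ Icc 1 (U ^ 2), ∑ k ∈ Icc 1 (t / r), (Pool.BV.c1 U r : ℂ) * F (r * k)‖ ≤
      Real.log X * B1 := by
    set c : ℕ → ℂ := fun r => if r ∈ Icc 1 (U ^ 2) then
      ((Pool.BV.c1 U r / Real.log X : ℝ) : ℂ) else 0 with hc
    have hc1 : ∀ r, ‖c r‖ ≤ 1 := by
      intro r
      simp only [hc]
      split_ifs with hr
      · rw [mem_Icc] at hr
        rw [Complex.norm_real, Real.norm_eq_abs, abs_div, abs_of_pos hL, div_le_one hL]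
        refine (Pool.BV.c1_bound U r).trans (Real.log_le_log (by exact_mod_cast hr.1) ?_)
        have : (r : ℝ) ≤ ((U ^ 2 : ℕ) : ℝ) := by exact_mod_cast hr.2
        exact this.trans (hR.trans hle34)
      · rw [norm_zero]; exact zero_le_one
    have hkey := (hTI (U ^ 2) c (fun r => t / r) hR hc1 hy).1
    have heq : ∑ r ∈ Icc 1 (U ^ 2), ∑ k ∈ Icc 1 (t / r), (Pool.BV.c1 U r : ℂ) * F (r * k) =
        ((Real.log X : ℝ) : ℂ) * ∑ r ∈ Icc 1 (U ^ 2), c r * ∑ k ∈ Icc 1 (t / r), F (r * k) := by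
      rw [Finset.mul_sum]
      refine sum_congr rfl fun r hr => ?_
      rw [← Finset.mul_sum]
      simp only [hc, if_pos hr]
      rw [← mul_assoc]
      congr 1
      rw [← Complex.ofReal_mul, mul_div_cancel₀ _ hL.ne']
    rw [heq, norm_mul, Complex.norm_real, Real.norm_of_nonneg hL.le]
    exact mul_le_mul_of_nonneg_left hkey hL.le
  -- third term
  have hs3 : ‖∑ d ∈ Icc 1 U, ∑ k ∈ Icc 1 (t / d),
      (((ArithmeticFunction.moebius d : ℤ) : ℂ)) * ((Real.log k : ℝ) : ℂ) * F (d * k)‖ ≤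
      B1 * Real.log X := by
    have hc1 : ∀ r : ℕ, ‖((ArithmeticFunction.moebius r : ℤ) : ℂ)‖ ≤ 1 := by
      intro r
      have h5 : |ArithmeticFunction.moebius r| ≤ 1 := ArithmeticFunction.abs_moebius_le_one
      rw [Complex.norm_intCast]
      exact_mod_cast h5
    have hkey := (hTI U (fun r => ((ArithmeticFunction.moebius r : ℤ) : ℂ)) (fun r => t / r) hR'
      hc1 hy').2
    have heq : ∑ d ∈ Icc 1 U, ∑ k ∈ Icc 1 (t / d),
        (((ArithmeticFunction.moebius d : ℤ) : ℂ)) * ((Real.log k : ℝ) : ℂ) * F (d * k) =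
        ∑ r ∈ Icc 1 U, ((ArithmeticFunction.moebius r : ℤ) : ℂ) *
          ∑ k ∈ Icc 1 (t / r), ((Real.log k : ℝ) : ℂ) * F (r * k) := by
      refine sum_congr rfl fun r _ => ?_
      rw [Finset.mul_sum]
      exact sum_congr rfl fun k _ => mul_assoc _ _ _
    rw [heq]
    exact hkey
  -- fourth term
  have hs4 : ‖∑ m ∈ Ioc U t, ∑ k ∈ Ioc U (t / m),
      (ArithmeticFunction.vonMangoldt m : ℂ) * (Pool.BV.c2 U k : ℂ) * F (m * k)‖ ≤
      9 * (Real.log X) ^ 3 * Z * B2 + Real.sqrt X * (1 + Real.log X) ^ C * B3 / Z := by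
    have heq : ∑ m ∈ Ioc U t, ∑ k ∈ Ioc U (t / m),
        (ArithmeticFunction.vonMangoldt m : ℂ) * (Pool.BV.c2 U k : ℂ) * F (m * k) =
        (∑ m ∈ Ioc U t, ∑ k ∈ (Ioc U (t / m)).filter (fun k : ℕ => (k.divisors.card : ℝ) ≤ Z),
          (ArithmeticFunction.vonMangoldt m : ℂ) * (Pool.BV.c2 U k : ℂ) * F (m * k)) +
        ∑ m ∈ Ioc U t, ∑ k ∈ (Ioc U (t / m)).filter (fun k : ℕ => Z < (k.divisors.card : ℝ)),
          (ArithmeticFunction.vonMangoldt m : ℂ) * (Pool.BV.c2 U k : ℂ) * F (m * k) := by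
      rw [← Finset.sum_add_distrib]
      refine sum_congr rfl fun m _ => ?_
      rw [← Finset.sum_filter_add_sum_filter_not (Ioc U (t / m))
        (fun k : ℕ => (k.divisors.card : ℝ) ≤ Z)]
      congr 1
      refine sum_congr ?_ fun _ _ => rfl
      refine Finset.filter_congr fun k _ => ?_
      exact not_le
    rw [heq]
    refine (norm_add_le _ _).trans (add_le_add ?_ ?_)
    · exact hvm X hX0 F B2 Z h2 hZ hTII t ht
    · exact hvt X (by omega) F B3 Z h3 (by linarith) hF2 U t ht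
  have hs1 := vip_first X U t F B4 hX3 h4 hF ht
  have hs1' : (U : ℝ) * Real.log X * B4 ≤ (X : ℝ) ^ (3 / 8 : ℝ) * Real.log X * B4 := by
    gcongr
  rw [Pool.BV.vaughan U t hU1 F]
  refine (norm_add_le _ _).trans ?_
  refine (add_le_add ((norm_add_le _ _).trans (add_le_add (norm_sub_le _ _) le_rfl)) le_rfl).trans ?_
  linarith

private theorem vip_diff (X : ℕ) (hX : 1 ≤ X) (F : ℕ → ℂ) (B4 : ℝ) (h4 : 0 ≤ B4)
    (hF : ∀ n ∈ Icc 1 X, ‖F n‖ ≤ B4) :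
    ‖∑ n ∈ Icc 1 X, (((1 / Real.log (n : ℝ)) * ArithmeticFunction.vonMangoldt n -
      ip n : ℝ) : ℂ) * F n‖ ≤ 2 * Real.sqrt X * Real.log X * B4 := by
  have hterm : ∀ n ∈ Icc 1 X, ‖(((1 / Real.log (n : ℝ)) * ArithmeticFunction.vonMangoldt n -
      ip n : ℝ) : ℂ) * F n‖ ≤
      (if ¬ n.Prime then ArithmeticFunction.vonMangoldt n else 0) * B4 := by
    intro n hn
    rw [norm_mul, Complex.norm_real]
    refine mul_le_mul ?_ (hF n hn) (norm_nonneg _) ?_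
    · by_cases hp : n.Prime
      · have hlog : Real.log (n : ℝ) ≠ 0 := (Real.log_pos (by exact_mod_cast hp.one_lt)).ne'
        rw [if_neg (not_not.2 hp), ArithmeticFunction.vonMangoldt_apply_prime hp,
          one_div_mul_cancel hlog]
        simp [ip, hp]
      · rw [if_pos hp]
        have hip : ip n = 0 := by simp [ip, hp]
        rw [hip, sub_zero]
        by_cases h0 : ArithmeticFunction.vonMangoldt n = 0
        · rw [h0, mul_zero, norm_zero]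
        have hn2 : 4 ≤ n := by
          by_contra hlt
          rw [not_le] at hlt
          interval_cases n
          · simp at h0
          · simp at h0
          · exact hp Nat.prime_two
          · exact hp Nat.prime_three
        have hlog : 1 ≤ Real.log (n : ℝ) := by
          have h5 : Real.log 4 ≤ Real.log n :=
            Real.log_le_log (by norm_num) (by exact_mod_cast hn2)
          have h6 : Real.log 4 = 2 * Real.log 2 := by
            rw [show (4 : ℝ) = 2 ^ 2 by norm_num, Real.log_pow]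
            norm_num
          have h7 := Real.log_two_gt_d9
          linarith
        have hnn : 0 ≤ ArithmeticFunction.vonMangoldt n := ArithmeticFunction.vonMangoldt_nonneg
        rw [Real.norm_of_nonneg (by positivity)]
        have h8 : 1 / Real.log (n : ℝ) ≤ 1 := by
          rw [div_le_one (by linarith)]
          exact hlog
        calc 1 / Real.log (n : ℝ) * ArithmeticFunction.vonMangoldt n
            ≤ 1 * ArithmeticFunction.vonMangoldt n := mul_le_mul_of_nonneg_right h8 hnn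
          _ = ArithmeticFunction.vonMangoldt n := one_mul _
    · by_cases hp : n.Prime
      · rw [if_neg (not_not.2 hp)]
      · rw [if_pos hp]
        exact ArithmeticFunction.vonMangoldt_nonneg
  refine (norm_sum_le _ _).trans ((sum_le_sum hterm).trans ?_)
  rw [← Finset.sum_mul]
  refine mul_le_mul_of_nonneg_right ?_ h4
  have h9 := Chebyshev.psi_sub_theta_le (x := (X : ℝ)) (by exact_mod_cast hX)
  rw [Chebyshev.psi_sub_theta_eq_sum_not_prime, Nat.floor_natCast, Finset.sum_filter] at h9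
  have h10 : Icc 1 X = Ioc 0 X := by
    ext n
    rw [mem_Icc, mem_Ioc]
    omega
  rw [h10]
  exact h9

theorem vip : ∃ C X0 : ℕ, ∀ X : ℕ, X0 ≤ X → ∀ (F : ℕ → ℂ) (B1 B2 B3 B4 Z : ℝ),
    0 ≤ B1 → 0 ≤ B2 → 0 ≤ B3 → 0 ≤ B4 → 1 ≤ Z → TI X F B1 → TII X F B2 →
    ∑ n ∈ Icc 1 X, ‖F n‖ ^ 2 ≤ B3 ^ 2 → (∀ n ∈ Icc 1 X, ‖F n‖ ≤ B4) →
    ‖∑ n ∈ Icc 1 X, ((ip n : ℝ) : ℂ) * F n‖ ≤
      6 * Real.log X * B1 + 27 * (Real.log X) ^ 3 * Z * B2 +
        3 * (Real.sqrt X * (1 + Real.log X) ^ C * B3 / Z) + 5 * Real.sqrt X * Real.log X * B4 := by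
  obtain ⟨C, X0, hlam⟩ := vlam
  refine ⟨C, max X0 3, fun X hX F B1 B2 B3 B4 Z h1 h2 h3 h4 hZ hTI hTII hF2 hF => ?_⟩
  have hX0 : X0 ≤ X := (le_max_left _ _).trans hX
  have hX3 : 3 ≤ X := (le_max_right _ _).trans hX
  have hXR : (1 : ℝ) ≤ X := by exact_mod_cast (by omega : 1 ≤ X)
  have hL : 0 < Real.log X := Real.log_pos (by exact_mod_cast (by omega : 1 < X))
  have hM := MP_abel (fun n => (ArithmeticFunction.vonMangoldt n : ℂ) * F n) _ X
    (fun t ht => hlam X hX0 F B1 B2 B3 B4 Z h1 h2 h3 h4 hZ hTI hTII hF2 hF t ht)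
  have hD := vip_diff X (by omega) F B4 h4 hF
  have heq : ∑ n ∈ Icc 1 X, ((ip n : ℝ) : ℂ) * F n =
      ∑ n ∈ Icc 1 X, ((1 / Real.log (n : ℝ) : ℝ) : ℂ) *
        ((ArithmeticFunction.vonMangoldt n : ℂ) * F n) -
      ∑ n ∈ Icc 1 X, (((1 / Real.log (n : ℝ)) * ArithmeticFunction.vonMangoldt n -
        ip n : ℝ) : ℂ) * F n := by
    rw [← Finset.sum_sub_distrib]
    refine sum_congr rfl fun n _ => ?_
    push_cast
    ring
  rw [heq]
  refine (norm_sub_le _ _).trans ((add_le_add hM hD).trans ?_)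
  have hsq : (X : ℝ) ^ (3 / 8 : ℝ) ≤ Real.sqrt X := by
    rw [Real.sqrt_eq_rpow]
    exact Real.rpow_le_rpow_of_exponent_le hXR (by norm_num)
  have h5 : (X : ℝ) ^ (3 / 8 : ℝ) * Real.log X * B4 ≤ Real.sqrt X * Real.log X * B4 := by
    gcongr
  linarith

end Pool.MP_dd84fd_nt.GX
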