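import Pool.Agent.Lib.MP_dd84fd_nt.GX.Defs
import Pool.Agent.Lib.MP_dd84fd_nt.GX.BlkI
import Pool.Agent.Lib.MP_dd84fd_nt.GX.BlkII
import Pool.Agent.Lib.MP_dd84fd_nt.GX.VIp
import Pool.Agent.Lib.MP_dd84fd_nt.GX.Fr
import Pool.Agent.Lib.MP_dd84fd_nt.GX.FFb
import Pool.Agent.Lib.MP_dd84fd_nt.GX.Nrm

/-!
# GX-ST (1 h): the structure theorem

Proof. `L = log X`, `w = wX D' X ≤ L^D'` (`Nat.floor_le`), `δ = 1/L^C`, `F = FF G (xx G X w ω E e)`, `N = #E ≥ X^(1/2+ε)`.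
`ff_pair`: the sum is `Σ_{n ≤ X} ip(n) F(n) - Σ_{n ≤ X} f2(n) F(n)`. `blkI`: `TI` with `B1 = C1 L² (X √δ N + X^(3/4) √(X N))`; `blkII`: `TII` with
`B2 = C2 L² √(X^(5/2) N + X^(15/8) N² + δ X² N²)`; `ff_l2`, `norms`: `B3 = 3 √X L N`; `ff_sup`, `norms`: `B4 = 3 L √(X N)`.
`vip` with `Z = L^(A+CV+3)` (`CV` its constant) and `fr`: the sum is at most
`9 L B1 + 27 L³ Z B2 + 3 √X (1+L)^CV B3/Z + 5 √X L B4 + X^(1/2-c) B3`. Each of the following is `≤ X N/(10 L^A)` for `X` large when `C = 2 (2A + CV + 10)`: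
`9 C1 L³ X √δ N`; `9 C1 L³ X^(5/4) √N` (`√N ≥ X^(1/4+ε/2)`); `27 C2 L⁵ Z X^(5/4) √N`; `27 C2 L⁵ Z X^(15/16) N`; `27 C2 L⁵ Z √δ X N`
(`√(a+b+c) ≤ √a + √b + √c`); `9 X N L (1+L)^CV/Z ≤ 9 · 2^CV X N/L^(A+2)`; `15 L² X √N`; `3 X^(1-c) L N`.
-/

set_option autoImplicit false

namespace Pool.MP_dd84fd_nt.GX

open Finset Pool.MP_67663b_nt.Odd Pool.MP_dd84fd_nt.En Pool.MP_dd84fd_nt.E2 Pool.MP_dd84fd_nt.LS

open Pool.MP_dd84fd_nt.L2G (nrm)

/-- `L^j / P ≤ 1 / (K L^A)` -/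
private theorem st_aux1 {L P K : ℝ} {j A m : ℕ} (hL : 1 ≤ L) (hK : 0 < K) (hP : K * L ^ m ≤ P)
    (hj : j + A ≤ m) : L ^ j / P ≤ 1 / K / L ^ A := by
  have hL0 : 0 < L := by linarith
  have h1 : L ^ j * L ^ A ≤ L ^ m := by
    rw [← pow_add]
    exact pow_le_pow_right₀ hL hj
  have hP0 : 0 < P := lt_of_lt_of_le (by positivity) hP
  rw [div_le_iff₀ hP0]
  have h2 : 1 / K / L ^ A * (K * L ^ m) ≤ 1 / K / L ^ A * P :=
    mul_le_mul_of_nonneg_left hP (by positivity)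
  refine le_trans ?_ h2
  have h3 : 1 / K / L ^ A * (K * L ^ m) = L ^ m / L ^ A := by
    field_simp
  rw [h3, le_div_iff₀ (by positivity)]
  exact h1

private theorem st_aux2 {L : ℝ} {j A m : ℕ} (hL : 1 ≤ L) (hj : j + A + 2 ≤ m) :
    L ^ j / L ^ m ≤ 1 / L ^ 2 / L ^ A := by
  have hL0 : 0 < L := by linarith
  have h1 : L ^ j * L ^ A * L ^ 2 ≤ L ^ m := by
    rw [← pow_add, ← pow_add]
    exact pow_le_pow_right₀ hL hj
  rw [div_div, div_le_div_iff₀ (by positivity) (by positivity)]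
  linarith

/-- the final estimate of real numbers -/
private theorem st_fin (A CV : ℕ) {C1 C2 c κ x N L : ℝ} (hC1 : 0 < C1) (hC2 : 0 < C2)
    (hx : 1 ≤ x) (hL : 1 ≤ L) (hN0 : 0 ≤ N) (hκ : 0 < κ) (hκ1 : κ ≤ 1 / 16) (hκc : κ ≤ c)
    (hNx : x ^ (1 / 4 + κ : ℝ) ≤ Real.sqrt N)
    (hP : 4 * (9 * C1 + 54 * C2 + 18) * L ^ (2 * A + CV + 10) ≤ x ^ κ)
    (hL2 : 4 * (9 * C1 + 27 * C2 + 9 * 2 ^ CV) ≤ L ^ 2) :
    9 * L * (C1 * L ^ 2 * (x * Real.sqrt (1 / L ^ (2 * (2 * A + CV + 10))) * N +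
        x ^ (3 / 4 : ℝ) * Real.sqrt (x * N))) +
      27 * L ^ 3 * L ^ (A + CV + 3) * (C2 * L ^ 2 * Real.sqrt (x ^ (5 / 2 : ℝ) * N +
        x ^ (15 / 8 : ℝ) * N ^ 2 + 1 / L ^ (2 * (2 * A + CV + 10)) * x ^ 2 * N ^ 2)) +
      3 * (Real.sqrt x * (1 + L) ^ CV * (3 * Real.sqrt x * L * N) / L ^ (A + CV + 3)) +
      5 * Real.sqrt x * L * (3 * L * Real.sqrt (x * N)) +
      x ^ (1 / 2 - c) * (3 * Real.sqrt x * L * N) ≤ x * N / L ^ A := by
  set m : ℕ := 2 * A + CV + 10 with hm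
  set K : ℝ := 4 * (9 * C1 + 54 * C2 + 18) with hK
  set P : ℝ := x ^ κ with hPdef
  set s : ℝ := Real.sqrt N with hs
  set u : ℝ := x ^ (1 / 4 : ℝ) with hu
  have hx0 : 0 < x := by linarith
  have hL0 : 0 < L := by linarith
  have hK0 : 0 < K := by rw [hK]; positivity
  have hP1 : 1 ≤ P := Real.one_le_rpow hx hκ.le
  have hP0 : 0 < P := by linarith
  have hu1 : 1 ≤ u := Real.one_le_rpow hx (by norm_num)
  have hu0 : 0 < u := by linarith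
  have hs0 : 0 ≤ s := Real.sqrt_nonneg _
  have hss : s * s = N := Real.mul_self_sqrt hN0
  have hsq : Real.sqrt x = u ^ 2 := by
    rw [Real.sqrt_eq_rpow, hu, ← Real.rpow_natCast, ← Real.rpow_mul hx0.le]
    norm_num
  have hx4 : x = u ^ 4 := by
    rw [hu, ← Real.rpow_natCast, ← Real.rpow_mul hx0.le]
    norm_num
  have hx34 : x ^ (3 / 4 : ℝ) = u ^ 3 := by
    rw [hu, ← Real.rpow_natCast, ← Real.rpow_mul hx0.le]
    norm_num
  have hx52 : x ^ (5 / 2 : ℝ) = u ^ 10 := by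
    rw [hu, ← Real.rpow_natCast, ← Real.rpow_mul hx0.le]
    norm_num
  have hus : u * P ≤ s := by
    rw [hu, hPdef, ← Real.rpow_add hx0]
    exact hNx
  have hPs : P ≤ s := by
    have : 1 * P ≤ u * P := mul_le_mul_of_nonneg_right hu1 hP0.le
    linarith
  have hsN : Real.sqrt (x * N) = u ^ 2 * s := by
    rw [Real.sqrt_mul hx0.le, hsq]
  have hδ : Real.sqrt (1 / L ^ (2 * m)) = 1 / L ^ m := by
    have h1 : (1 : ℝ) / L ^ (2 * m) = (1 / L ^ m) ^ 2 := by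
      rw [div_pow, one_pow, ← pow_mul, mul_comm 2 m]
    rw [h1, Real.sqrt_sq (by positivity)]
  -- us ≤ N / P
  have husN : u * s ≤ N / P := by
    rw [le_div_iff₀ hP0]
    calc u * s * P = (u * P) * s := by ring
      _ ≤ s * s := mul_le_mul_of_nonneg_right hus hs0
      _ = N := hss
  have hsN' : s ≤ N / P := by
    rw [le_div_iff₀ hP0]
    calc s * P ≤ s * s := mul_le_mul_of_nonneg_left hPs hs0
      _ = N := hss
  have h1 : x ^ (3 / 4 : ℝ) * Real.sqrt (x * N) ≤ x * N / P := by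
    rw [hx34, hsN]
    calc u ^ 3 * (u ^ 2 * s) = x * (u * s) := by rw [hx4]; ring
      _ ≤ x * (N / P) := mul_le_mul_of_nonneg_left husN hx0.le
      _ = x * N / P := by ring
  have h2 : Real.sqrt (x ^ (5 / 2 : ℝ) * N + x ^ (15 / 8 : ℝ) * N ^ 2 +
      1 / L ^ (2 * m) * x ^ 2 * N ^ 2) ≤ x * N * (2 / P + 1 / L ^ m) := by
    apply Real.sqrt_le_iff.mpr
    refine ⟨by positivity, ?_⟩
    have e1 : x ^ (5 / 2 : ℝ) * N ≤ (x * N / P) ^ 2 := by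
      rw [hx52]
      calc u ^ 10 * N = x ^ 2 * (u * s) ^ 2 := by rw [hx4, ← hss]; ring
        _ ≤ x ^ 2 * (N / P) ^ 2 :=
          mul_le_mul_of_nonneg_left (pow_le_pow_left₀ (by positivity) husN 2) (by positivity)
        _ = (x * N / P) ^ 2 := by ring
    have e2 : x ^ (15 / 8 : ℝ) * N ^ 2 ≤ (x * N / P) ^ 2 := by
      have e3 : x ^ (15 / 8 : ℝ) * P ^ 2 ≤ x ^ 2 := by
        rw [hPdef, ← Real.rpow_natCast (x ^ κ) 2, ← Real.rpow_mul hx0.le, ← Real.rpow_add hx0,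
          ← Real.rpow_natCast x 2]
        apply Real.rpow_le_rpow_of_exponent_le hx
        push_cast
        linarith
      have e4 : (x * N / P) ^ 2 = x ^ 2 * N ^ 2 / P ^ 2 := by ring
      rw [e4, le_div_iff₀ (by positivity)]
      calc x ^ (15 / 8 : ℝ) * N ^ 2 * P ^ 2 = (x ^ (15 / 8 : ℝ) * P ^ 2) * N ^ 2 := by ring
        _ ≤ x ^ 2 * N ^ 2 := mul_le_mul_of_nonneg_right e3 (by positivity)
    have e5 : 1 / L ^ (2 * m) * x ^ 2 * N ^ 2 = (x * N / L ^ m) ^ 2 := by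
      have : L ^ (2 * m) = (L ^ m) ^ 2 := by rw [← pow_mul, mul_comm 2 m]
      rw [this]; field_simp
    rw [e5]
    have e6 : x * N * (2 / P + 1 / L ^ m) = x * N / P + x * N / P + x * N / L ^ m := by ring
    rw [e6]
    have a0 : 0 ≤ x * N / P := by positivity
    have b0 : 0 ≤ x * N / L ^ m := by positivity
    nlinarith [mul_nonneg a0 a0, mul_nonneg a0 b0]
  have h5 : x ^ (1 / 2 - c) * Real.sqrt x ≤ x / P := by
    rw [Real.sqrt_eq_rpow, ← Real.rpow_add hx0, hPdef, le_div_iff₀ (by positivity),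
      ← Real.rpow_add hx0]
    calc x ^ (1 / 2 - c + 1 / 2 + κ) ≤ x ^ (1 : ℝ) :=
          Real.rpow_le_rpow_of_exponent_le hx (by linarith)
      _ = x := Real.rpow_one x
  rw [hδ]
  have hxN0 : 0 ≤ x * N := by positivity
  have hLA : 0 < L ^ A := by positivity
  -- the five terms
  have g1 : 9 * L * (C1 * L ^ 2 * (x * (1 / L ^ m) * N + x ^ (3 / 4 : ℝ) * Real.sqrt (x * N))) ≤
      x * N / L ^ A * (9 * C1 / L ^ 2 + 9 * C1 / K) := by
    calc 9 * L * (C1 * L ^ 2 * (x * (1 / L ^ m) * N + x ^ (3 / 4 : ℝ) * Real.sqrt (x * N)))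
        ≤ 9 * L * (C1 * L ^ 2 * (x * (1 / L ^ m) * N + x * N / P)) := by gcongr
      _ = x * N * (9 * C1 * (L ^ 3 / L ^ m) + 9 * C1 * (L ^ 3 / P)) := by ring
      _ ≤ x * N * (9 * C1 * (1 / L ^ 2 / L ^ A) + 9 * C1 * (1 / K / L ^ A)) := by
          have a1 := st_aux2 (L := L) (j := 3) (A := A) (m := m) hL (by omega)
          have a2 := st_aux1 (L := L) (P := P) (K := K) (j := 3) (A := A) (m := m) hL hK0 hP (by omega)
          gcongr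
      _ = x * N / L ^ A * (9 * C1 / L ^ 2 + 9 * C1 / K) := by ring
  have g2 : 27 * L ^ 3 * L ^ (A + CV + 3) * (C2 * L ^ 2 * Real.sqrt (x ^ (5 / 2 : ℝ) * N +
        x ^ (15 / 8 : ℝ) * N ^ 2 + 1 / L ^ (2 * m) * x ^ 2 * N ^ 2)) ≤
      x * N / L ^ A * (27 * C2 / L ^ 2 + 54 * C2 / K) := by
    calc 27 * L ^ 3 * L ^ (A + CV + 3) * (C2 * L ^ 2 * Real.sqrt (x ^ (5 / 2 : ℝ) * N +
        x ^ (15 / 8 : ℝ) * N ^ 2 + 1 / L ^ (2 * m) * x ^ 2 * N ^ 2))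
        ≤ 27 * L ^ 3 * L ^ (A + CV + 3) * (C2 * L ^ 2 * (x * N * (2 / P + 1 / L ^ m))) := by gcongr
      _ = x * N * (54 * C2 * (L ^ (A + CV + 8) / P) + 27 * C2 * (L ^ (A + CV + 8) / L ^ m)) := by
          have : L ^ (A + CV + 8) = L ^ 3 * L ^ (A + CV + 3) * L ^ 2 := by ring
          rw [this]; ring
      _ ≤ x * N * (54 * C2 * (1 / K / L ^ A) + 27 * C2 * (1 / L ^ 2 / L ^ A)) := by
          have a1 := st_aux2 (L := L) (j := A + CV + 8) (A := A) (m := m) hL (by omega)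
          have a2 := st_aux1 (L := L) (P := P) (K := K) (j := A + CV + 8) (A := A) (m := m) hL hK0 hP
            (by omega)
          gcongr
      _ = x * N / L ^ A * (27 * C2 / L ^ 2 + 54 * C2 / K) := by ring
  have g3 : 3 * (Real.sqrt x * (1 + L) ^ CV * (3 * Real.sqrt x * L * N) / L ^ (A + CV + 3)) ≤
      x * N / L ^ A * (9 * 2 ^ CV / L ^ 2) := by
    have b1 : (1 + L) ^ CV ≤ 2 ^ CV * L ^ CV := by
      rw [← mul_pow]
      exact pow_le_pow_left₀ (by positivity) (by linarith) _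
    calc 3 * (Real.sqrt x * (1 + L) ^ CV * (3 * Real.sqrt x * L * N) / L ^ (A + CV + 3))
        ≤ 3 * (Real.sqrt x * (2 ^ CV * L ^ CV) * (3 * Real.sqrt x * L * N) / L ^ (A + CV + 3)) := by
          gcongr
      _ = x * N / L ^ A * (9 * 2 ^ CV / L ^ 2) := by
          have hxx : Real.sqrt x * Real.sqrt x = x := Real.mul_self_sqrt hx0.le
          have b2 : L ^ (A + CV + 3) = L ^ A * L ^ CV * L ^ 2 * L := by ring
          rw [b2]
          have b3 : 3 * (Real.sqrt x * (2 ^ CV * L ^ CV) * (3 * Real.sqrt x * L * N) /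
              (L ^ A * L ^ CV * L ^ 2 * L)) =
              (Real.sqrt x * Real.sqrt x) * N * (9 * 2 ^ CV) * (L ^ CV * L) /
              (L ^ A * L ^ CV * L ^ 2 * L) := by ring
          rw [b3, hxx]
          field_simp
  have g4 : 5 * Real.sqrt x * L * (3 * L * Real.sqrt (x * N)) ≤ x * N / L ^ A * (15 / K) := by
    calc 5 * Real.sqrt x * L * (3 * L * Real.sqrt (x * N)) = 15 * L ^ 2 * (x * s) := by
          rw [hsN, hsq, hx4]; ring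
      _ ≤ 15 * L ^ 2 * (x * (N / P)) := by gcongr
      _ = x * N * (15 * (L ^ 2 / P)) := by ring
      _ ≤ x * N * (15 * (1 / K / L ^ A)) := by
          have a2 := st_aux1 (L := L) (P := P) (K := K) (j := 2) (A := A) (m := m) hL hK0 hP
            (by omega)
          gcongr
      _ = x * N / L ^ A * (15 / K) := by ring
  have g5 : x ^ (1 / 2 - c) * (3 * Real.sqrt x * L * N) ≤ x * N / L ^ A * (3 / K) := by
    calc x ^ (1 / 2 - c) * (3 * Real.sqrt x * L * N)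
        = (x ^ (1 / 2 - c) * Real.sqrt x) * (3 * L * N) := by ring
      _ ≤ (x / P) * (3 * L * N) := mul_le_mul_of_nonneg_right h5 (by positivity)
      _ = x * N * (3 * (L ^ 1 / P)) := by ring
      _ ≤ x * N * (3 * (1 / K / L ^ A)) := by
          have a2 := st_aux1 (L := L) (P := P) (K := K) (j := 1) (A := A) (m := m) hL hK0 hP
            (by omega)
          gcongr
      _ = x * N / L ^ A * (3 / K) := by ring
  have q1 : (9 * C1 + 27 * C2 + 9 * 2 ^ CV) / L ^ 2 ≤ 1 / 4 := by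
    rw [div_le_iff₀ (by positivity)]
    linarith
  have q2 : (9 * C1 + 54 * C2 + 18) / K ≤ 1 / 4 := by
    rw [div_le_iff₀ hK0, hK]
    linarith
  have hfin : x * N / L ^ A * (9 * C1 / L ^ 2 + 9 * C1 / K) +
      x * N / L ^ A * (27 * C2 / L ^ 2 + 54 * C2 / K) + x * N / L ^ A * (9 * 2 ^ CV / L ^ 2) +
      x * N / L ^ A * (15 / K) + x * N / L ^ A * (3 / K) ≤ x * N / L ^ A := by
    have e7 : x * N / L ^ A * (9 * C1 / L ^ 2 + 9 * C1 / K) +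
      x * N / L ^ A * (27 * C2 / L ^ 2 + 54 * C2 / K) + x * N / L ^ A * (9 * 2 ^ CV / L ^ 2) +
      x * N / L ^ A * (15 / K) + x * N / L ^ A * (3 / K) =
      x * N / L ^ A * ((9 * C1 + 27 * C2 + 9 * 2 ^ CV) / L ^ 2 + (9 * C1 + 54 * C2 + 18) / K) := by
      ring
    rw [e7]
    have a0 : 0 ≤ x * N / L ^ A := by positivity
    calc x * N / L ^ A * ((9 * C1 + 27 * C2 + 9 * 2 ^ CV) / L ^ 2 + (9 * C1 + 54 * C2 + 18) / K)
        ≤ x * N / L ^ A * 1 := mul_le_mul_of_nonneg_left (by linarith) a0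
      _ = x * N / L ^ A := mul_one _
  linarith

theorem st (A : ℕ) : ∃ C : ℕ, ∀ (ε : ℝ) (D' : ℕ), 0 < ε → 1 ≤ D' → ∃ X0 : ℕ, ∀ X : ℕ, X0 ≤ X →
    ∀ (G : ℕ) [NeZero G], 3 * X ≤ G → ∀ V : ZMod G → ℂ, VB G X V →
    ∀ (a b : ℕ) (ω : ZMod G → ℂ), Wt G X a b ω →
    ∀ E : Finset ℕ, E ⊆ Icc 1 X → (X : ℝ) ^ (1 / 2 + ε) ≤ E.card →
    ∀ e : ℕ → ℂ, (∀ n, ‖e n‖ ≤ 1) → ∀ ρ : ℝ, 0 ≤ ρ → NoAP G X b ω E ρ (1 / (Real.log X) ^ C) →
    ‖∑ n ∈ E, e n * Ph G X (wX D' X) V ω n‖ ≤ X * E.card / (Real.log X) ^ A := by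
  obtain ⟨CV, XV, hV⟩ := vip
  refine ⟨2 * (2 * A + CV + 10), fun ε D' hε hD => ?_⟩
  obtain ⟨C1, hC1, X1, h1⟩ := blkI
  obtain ⟨C2, hC2, X2, h2⟩ := blkII
  obtain ⟨X3, -⟩ : ∃ X3 : ℕ, X3 = 0 := ⟨0, rfl⟩
  obtain ⟨c, hc, X4, h4⟩ := fr D' hD
  set κ : ℝ := min (ε / 2) (min (1 / 16) c) with hκdef
  have hκ : 0 < κ := by
    rw [hκdef]
    exact lt_min (by linarith) (lt_min (by norm_num) hc)
  have hκε : κ ≤ ε / 2 := min_le_left _ _
  have hκ1 : κ ≤ 1 / 16 := (min_le_right _ _).trans (min_le_left _ _)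
  have hκc : κ ≤ c := (min_le_right _ _).trans (min_le_right _ _)
  obtain ⟨X5, h5⟩ := MP_log_pow (4 * (9 * C1 + 54 * C2 + 18)) (2 * A + CV + 10) hκ
  have hlog : ∃ X6 : ℕ, ∀ X : ℕ, X6 ≤ X →
      max 1 (4 * (9 * C1 + 27 * C2 + 9 * 2 ^ CV)) ≤ Real.log X := by
    have := (Real.tendsto_log_atTop.comp tendsto_natCast_atTop_atTop).eventually_ge_atTop
      (max 1 (4 * (9 * C1 + 27 * C2 + 9 * 2 ^ CV)))
    exact Filter.eventually_atTop.mp this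
  obtain ⟨X6, h6⟩ := hlog
  refine ⟨max XV (max X1 (max X2 (max X3 (max X4 (max X5 (max X6 1)))))), fun X hX => ?_⟩
  simp only [max_le_iff] at hX
  obtain ⟨hXV, hX1, hX2, hX3, hX4, hX5, hX6, hX7⟩ := hX
  intro G _ hG V hVB a b ω hω E hE hcard e he ρ hρ hNo
  set L : ℝ := Real.log X with hLdef
  have hL6 := h6 X hX6
  rw [max_le_iff] at hL6
  have hL : 1 ≤ L := hL6.1
  have hL0 : 0 < L := by linarith
  have hLL : 4 * (9 * C1 + 27 * C2 + 9 * 2 ^ CV) ≤ L ^ 2 := by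
    have e1 : 4 * (9 * C1 + 27 * C2 + 9 * 2 ^ CV) ≤ L := hL6.2
    nlinarith
  have hx : (1 : ℝ) ≤ X := by exact_mod_cast hX7
  have hx0 : (0 : ℝ) < X := by linarith
  set w : ℕ := wX D' X with hwdef
  have hw : (w : ℝ) ≤ L ^ D' := by
    rw [hwdef, wX]
    exact Nat.floor_le (by positivity)
  set δ : ℝ := 1 / L ^ (2 * (2 * A + CV + 10)) with hδ
  have hδ0 : 0 ≤ δ := by positivity
  set N : ℝ := (E.card : ℝ) with hN
  have hN0 : 0 ≤ N := by positivity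
  have hTI := h1 X hX1 G hG V hVB a b ω hω E hE e he ρ δ hρ hδ0 hNo
  have hTII := h2 X hX2 G hG V hVB a b ω hω E hE e he ρ δ hρ hδ0 hNo
  obtain ⟨hn1, hn2⟩ := norms X G hG V ω hVB hω.1 E hE e he
  set F := FF G (xx G V ω E e) with hF
  set B1 : ℝ := C1 * L ^ 2 * (X * Real.sqrt δ * N + (X : ℝ) ^ (3 / 4 : ℝ) * Real.sqrt ((X : ℝ) * N))
    with hB1
  set B2 : ℝ := C2 * L ^ 2 * Real.sqrt ((X : ℝ) ^ (5 / 2 : ℝ) * N + (X : ℝ) ^ (15 / 8 : ℝ) * N ^ 2 +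
    δ * (X : ℝ) ^ 2 * N ^ 2) with hB2
  set B3 : ℝ := 3 * Real.sqrt X * L * N with hB3
  set B4 : ℝ := 3 * L * Real.sqrt ((X : ℝ) * N) with hB4
  have hB10 : 0 ≤ B1 := by positivity
  have hB20 : 0 ≤ B2 := by positivity
  have hB30 : 0 ≤ B3 := by positivity
  have hB40 : 0 ≤ B4 := by positivity
  have hl2 : ∑ n ∈ Icc 1 X, ‖F n‖ ^ 2 ≤ B3 ^ 2 := by
    refine (ff_l2 X G hG _).trans (hn2.trans (le_of_eq ?_))
    rw [hB3, mul_pow, mul_pow, mul_pow, Real.sq_sqrt hx0.le]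
    ring
  have hsup : ∀ n ∈ Icc 1 X, ‖F n‖ ≤ B4 := fun n _ => (ff_sup G _ n).trans hn1
  have hZ : (1 : ℝ) ≤ L ^ (A + CV + 3) := one_le_pow₀ hL
  have r1 := hV X hXV F B1 B2 B3 B4 (L ^ (A + CV + 3)) hB10 hB20 hB30 hB40 hZ hTI hTII hl2 hsup
  have r2 := h4 X hX4 w hw F B1 B3 hB10 hB30 hTI hl2
  rw [ff_pair]
  have r3 : ∑ n ∈ Icc 1 X, ((ip n - f2 w n : ℝ) : ℂ) * F n =
      ∑ n ∈ Icc 1 X, ((ip n : ℝ) : ℂ) * F n - ∑ n ∈ Icc 1 X, ((f2 w n : ℝ) : ℂ) * F n := by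
    rw [← Finset.sum_sub_distrib]
    refine Finset.sum_congr rfl fun n _ => ?_
    push_cast
    ring
  rw [r3]
  have hNx : (X : ℝ) ^ (1 / 4 + κ : ℝ) ≤ Real.sqrt N := by
    apply Real.le_sqrt_of_sq_le
    rw [← Real.rpow_natCast, ← Real.rpow_mul hx0.le]
    refine le_trans ?_ hcard
    apply Real.rpow_le_rpow_of_exponent_le hx
    push_cast
    linarith
  have r4 := st_fin A CV (C1 := C1) (C2 := C2) (c := c) (κ := κ) (x := X) (N := N) (L := L)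
    hC1 hC2 hx hL hN0 hκ hκ1 hκc hNx (h5 X hX5) hLL
  have r5 := norm_sub_le (∑ n ∈ Icc 1 X, ((ip n : ℝ) : ℂ) * F n)
    (∑ n ∈ Icc 1 X, ((f2 w n : ℝ) : ℂ) * F n)
  refine r5.trans ?_
  refine le_trans ?_ r4
  linarith

end Pool.MP_dd84fd_nt.GX
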