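import Pool.Agent.Lib.MP_dd84fd_nt.GX.Defs
import Pool.Agent.Lib.MP_dd84fd_nt.GX.ST
import Pool.Agent.Lib.MP_dd84fd_nt.GX.DivPow
import Pool.Agent.Lib.MP_dd84fd_nt.GX.Den

/-!
# GX-Tree (1 h): the tree argument (for Theorem F)

Proof. `L = log X`. Let `B` be the set, suppose `#B > X^(1/2+ε)`. `k0 = ⌈1/e'⌉₊ + 2`, `η = ε/(2 k0)`, `ρ = X^(-η)`, `T = X/(16·2^b)`. `C` = constant of
`st (A + 1)`, used with `ε/2`. For `X` large `ρ τ(q) ≤ 1/L^C` for all `q ≤ X` (`div_pow (η/2)`).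
Step: let `E ⊆ B`, `#E ≥ X^(1/2+ε/2)` and let `ω'` be `ω` (only at the start) or `rs G X Λ (ε/8) ω` with `Λ ≥ 1`, `Λ 2^b ≤ 2^a X^(1/2-ε/2)`. Every `n ∈ B` has
`‖Ph ω' n‖ > X/L^A`; with `e n` = conjugate phase of `Ph ω' n` (`‖e n‖ ≤ 1`): `‖Σ_{n ∈ E} e n Ph ω' n‖ = Σ ‖Ph ω' n‖ > X #E/L^A > X #E/L^(A+1)`.
`ω'` is a weight on the block too, so `st` shows that `NoAP` fails: there are `j`, `c` with `ω' j ≠ 0`, `q = qd X (al G j)`, `#(inAP E c q T) > ρ #E`.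
Induction on `k ≤ k0`: for `1 ≤ k ≤ k0` there are `E_k ⊆ B` and `Λ_k ≥ X^((k-1)ε/8)` (real inequality) with `#E_k ≥ X^(1/2+ε-kη)`, `E_k` contained in one residue class modulo
`Λ_k` and in an interval of length `≤ 2^a X/(8·2^b)` (`max - min ≤`). Start `k = 1`: `ω' = ω`, `E = B`, `Λ_1 = q`, `E_1 = inAP B c q T`, interval length `≤ q T ≤ 2^(a+1) X/(16·2^b)`.
For such `E_k`: `#E_k ≤ 1 + 2^a X/(8·2^b Λ_k)`, and `#E_k ≥ X^(1/2+ε/2) ≥ 2`, so `#E_k/2 ≤ 2^a X/(8·2^b Λ_k)`, `Λ_k 2^b ≤ 2^a X^(1/2-ε/2)`: the step applies to `Λ_k`, gives `q` with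
`lcm(q, Λ_k) > X^(ε/8) Λ_k`; `Λ_(k+1) = lcm(q, Λ_k)`, `E_(k+1) = inAP E_k c q T` (all its elements are congruent mod `q` and mod `Λ_k`, hence mod the lcm).
At `k = k0`: `Λ_k ≥ X^((k0-1)ε/8) ≥ X^(1 + ε/8)` but `Λ_k ≤ 2^a X^(1/2)/2^b ≤ 2 X^(1/2)` (`2^a ≤ qd ≤ ht < 2^(b+1)` for any `j` in the block): contradiction.
-/

set_option autoImplicit false

namespace Pool.MP_dd84fd_nt.GX

open Finset Pool.MP_67663b_nt.Odd Pool.MP_dd84fd_nt.En Pool.MP_dd84fd_nt.E2 Pool.MP_dd84fd_nt.LS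

open Pool.MP_dd84fd_nt.L2G (nrm)

private theorem tree_card (E : Finset ℕ) (Λ : ℕ) (hΛ : 1 ≤ Λ) (Len : ℝ) (hLen : 0 ≤ Len)
    (hc : ∀ n ∈ E, ∀ m ∈ E, (Λ : ℤ) ∣ (n : ℤ) - m) (hl : ∀ n ∈ E, ∀ m ∈ E, (n : ℝ) - m ≤ Len) :
    (E.card : ℝ) ≤ 1 + Len / Λ := by
  have hΛ0 : (0 : ℝ) < Λ := by exact_mod_cast hΛ
  rcases E.eq_empty_or_nonempty with rfl | hne
  · simp only [card_empty, Nat.cast_zero]
    positivity
  obtain ⟨m0, hm0, hmin⟩ := exists_min_image E id hne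
  have hmin' : ∀ n ∈ E, m0 ≤ n := hmin
  have hle := card_le_card_of_injOn (s := E) (t := range (⌊Len / Λ⌋₊ + 1)) (fun n => (n - m0) / Λ) (by
    intro n hn
    have hn' : n ∈ E := hn
    rw [coe_range, Set.mem_Iio, Nat.lt_succ_iff]
    apply Nat.le_floor
    have h1 : (((n - m0) / Λ : ℕ) : ℝ) ≤ ((n - m0 : ℕ) : ℝ) / Λ := Nat.cast_div_le
    refine h1.trans ?_
    rw [Nat.cast_sub (hmin' n hn')]
    exact div_le_div_of_nonneg_right (hl n hn' m0 hm0) hΛ0.le) (by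
    intro n hn m hm hnm
    have hn' : n ∈ E := hn
    have hm' : m ∈ E := hm
    have e1 : Λ ∣ n - m0 := by
      have := hc n hn' m0 hm0
      have h2 : ((n - m0 : ℕ) : ℤ) = (n : ℤ) - m0 := Nat.cast_sub (hmin' n hn')
      rw [← h2] at this
      exact_mod_cast this
    have e2 : Λ ∣ m - m0 := by
      have := hc m hm' m0 hm0
      have h2 : ((m - m0 : ℕ) : ℤ) = (m : ℤ) - m0 := Nat.cast_sub (hmin' m hm')
      rw [← h2] at this
      exact_mod_cast this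
    have f1 := Nat.div_mul_cancel e1
    have f2 := Nat.div_mul_cancel e2
    have hnm' : (n - m0) / Λ = (m - m0) / Λ := hnm
    rw [hnm', f2] at f1
    have g1 := hmin' n hn'
    have g2 := hmin' m hm'
    omega)
  rw [card_range] at hle
  have h3 : (⌊Len / Λ⌋₊ : ℝ) ≤ Len / Λ := Nat.floor_le (by positivity)
  have h4 : (E.card : ℝ) ≤ (⌊Len / Λ⌋₊ : ℝ) + 1 := by exact_mod_cast hle
  linarith

private theorem tree_step (X A w : ℕ) (ρ δ : ℝ) (hX : 1 ≤ X) (hL : 1 ≤ Real.log X) (G : ℕ) [NeZero G]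
    (b : ℕ) (V ω : ZMod G → ℂ) (E : Finset ℕ) (hne : E.Nonempty)
    (hst : ∀ e : ℕ → ℂ, (∀ n, ‖e n‖ ≤ 1) → NoAP G X b ω E ρ δ →
      ‖∑ n ∈ E, e n * Ph G X w V ω n‖ ≤ X * E.card / (Real.log X) ^ (A + 1))
    (hτ : ∀ j : ZMod G, ρ * ((qd X (al G j)).divisors.card : ℝ) ≤ δ)
    (hbig : ∀ n ∈ E, (X : ℝ) / (Real.log X) ^ A < ‖Ph G X w V ω n‖) :
    ∃ (j : ZMod G) (c : ℤ), ω j ≠ 0 ∧
      ρ * E.card < ((inAP E c (qd X (al G j)) (X / (16 * 2 ^ b))).card : ℝ) := by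
  by_contra hcon
  push Not at hcon
  have hno : NoAP G X b ω E ρ δ := fun j hj => ⟨hτ j, fun c => hcon j c hj⟩
  have hz : ∀ z : ℂ, ‖(starRingEnd ℂ) z / (‖z‖ : ℂ)‖ ≤ 1 ∧ (starRingEnd ℂ) z / (‖z‖ : ℂ) * z = (‖z‖ : ℂ) := by
    intro z
    by_cases h : z = 0
    · simp [h]
    · have hn : ‖z‖ ≠ 0 := norm_ne_zero_iff.2 h
      have hn' : (‖z‖ : ℂ) ≠ 0 := by exact_mod_cast hn
      constructor
      · rw [norm_div, RCLike.norm_conj, Complex.norm_real, norm_norm, div_self hn]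
      · rw [div_mul_eq_mul_div, mul_comm ((starRingEnd ℂ) z) z, Complex.mul_conj, Complex.normSq_eq_norm_sq]
        push_cast
        field_simp
  have h := hst (fun n => (starRingEnd ℂ) (Ph G X w V ω n) / (‖Ph G X w V ω n‖ : ℂ))
    (fun n => (hz _).1) hno
  have e1 : ∑ n ∈ E, (starRingEnd ℂ) (Ph G X w V ω n) / (‖Ph G X w V ω n‖ : ℂ) * Ph G X w V ω n =
      ((∑ n ∈ E, ‖Ph G X w V ω n‖ : ℝ) : ℂ) := by
    push_cast
    exact sum_congr rfl fun n _ => (hz _).2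
  rw [e1, Complex.norm_real, Real.norm_eq_abs, abs_of_nonneg (sum_nonneg fun _ _ => norm_nonneg _)] at h
  have h2 : (E.card : ℝ) * ((X : ℝ) / (Real.log X) ^ A) < ∑ n ∈ E, ‖Ph G X w V ω n‖ := by
    rw [← nsmul_eq_mul, ← sum_const]
    exact sum_lt_sum_of_nonempty hne hbig
  have hX0 : (0 : ℝ) < X := by exact_mod_cast hX
  have hL0 : 0 < Real.log X := by linarith
  have h3 : (X : ℝ) * E.card / (Real.log X) ^ (A + 1) ≤ (E.card : ℝ) * ((X : ℝ) / (Real.log X) ^ A) := by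
    rw [mul_comm (X : ℝ), mul_div_assoc]
    have : (X : ℝ) / (Real.log X) ^ (A + 1) ≤ (X : ℝ) / (Real.log X) ^ A := by
      apply div_le_div_of_nonneg_left hX0.le (by positivity)
      exact pow_le_pow_right₀ hL (Nat.le_succ A)
    exact mul_le_mul_of_nonneg_left this (Nat.cast_nonneg _)
  linarith

private theorem tree_ev (C : ℕ) (C1 s : ℝ) (hC1 : 1 ≤ C1) (hs : 0 < s) : ∃ X0 : ℕ, ∀ X : ℕ, X0 ≤ X →
    C1 * (Real.log X) ^ C ≤ (X : ℝ) ^ s := by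
  have h := isLittleO_log_rpow_rpow_atTop (C : ℝ) hs
  have h2 := (h.bound (show 0 < 1 / C1 by positivity)).and (Filter.eventually_ge_atTop (1 : ℝ))
  have h3 := (tendsto_natCast_atTop_atTop (R := ℝ)).eventually h2
  rw [Filter.eventually_atTop] at h3
  obtain ⟨X0, hX0⟩ := h3
  refine ⟨X0, fun X hX => ?_⟩
  obtain ⟨h4, h5⟩ := hX0 X hX
  have hl : 0 ≤ Real.log X := Real.log_nonneg h5
  rw [Real.rpow_natCast, Real.norm_of_nonneg (by positivity), Real.norm_of_nonneg (by positivity)] at h4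
  have hC0 : 0 < C1 := by linarith
  calc C1 * (Real.log X) ^ C ≤ C1 * (1 / C1 * (X : ℝ) ^ s) := by gcongr
    _ = (X : ℝ) ^ s := by field_simp

private theorem tree_wt {G X a b : ℕ} {ω : ZMod G → ℂ} (h : Wt G X a b ω) (Λ : ℕ) (η : ℝ) :
    Wt G X a b (rs G X Λ η ω) := by
  constructor
  · intro j
    unfold rs
    split_ifs
    · exact h.1 j
    · simp
  · intro j hj
    apply h.2 j
    intro h0
    apply hj
    unfold rs
    rw [h0]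
    simp

theorem tree (A : ℕ) (ε e' : ℝ) (hε : 0 < ε) (he' : 0 < e') (D' : ℕ) (hD : 1 ≤ D') :
    ∃ X0 : ℕ, ∀ X : ℕ, X0 ≤ X → ∀ (G : ℕ) [NeZero G], 3 * X ≤ G →
    ∀ V : ZMod G → ℂ, VB G X V → ∀ (a b : ℕ) (ω : ZMod G → ℂ), Wt G X a b ω →
    ∀ B : Finset ℕ, B ⊆ Icc 1 X →
    (∀ n ∈ B, (X : ℝ) / (Real.log X) ^ A < ‖Ph G X (wX D' X) V ω n‖ ∧
      ∀ Λ : ℕ, 1 ≤ Λ → (Λ : ℝ) * 2 ^ b ≤ 2 ^ a * (X : ℝ) ^ (1 / 2 - ε / 2) →
        (X : ℝ) / (Real.log X) ^ A < ‖Ph G X (wX D' X) V (rs G X Λ e' ω) n‖) →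
    (B.card : ℝ) ≤ (X : ℝ) ^ (1 / 2 + ε) := by
  obtain ⟨C, hC⟩ := st (A + 1)
  obtain ⟨X1, hX1⟩ := hC (ε / 2) D' (by positivity) hD
  obtain ⟨k0, hk0⟩ : ∃ k0 : ℕ, k0 = ⌈1 / e'⌉₊ + 2 := ⟨_, rfl⟩
  have hk0p : (0 : ℝ) < k0 := by rw [hk0]; positivity
  obtain ⟨η, hη⟩ : ∃ η : ℝ, η = ε / (2 * k0) := ⟨_, rfl⟩
  have hη0 : 0 < η := by rw [hη]; positivity
  obtain ⟨C1, hC1, hC1'⟩ := div_pow (η / 2) (by positivity)
  obtain ⟨X2, hX2⟩ := tree_ev C C1 (η / 2) hC1 (by positivity)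
  obtain ⟨X3, hX3⟩ := tree_ev 0 2 (1 / 2) (by norm_num) (by norm_num)
  refine ⟨X1 + X2 + X3 + 5, ?_⟩
  intro X hX G _ hG V hVB a b ω hω B hB hbad
  by_contra hlt
  push Not at hlt
  have hX5 : (5 : ℝ) ≤ X := by
    have : 5 ≤ X := by omega
    exact_mod_cast this
  have hXr : (3 : ℝ) ≤ X := by linarith
  have hX0 : (0 : ℝ) < X := by linarith
  have hX1r : (1 : ℝ) ≤ X := by linarith
  have hX1n : 1 ≤ X := by omega
  have hL : 1 ≤ Real.log X := by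
    rw [← Real.log_exp 1]
    apply Real.log_le_log (Real.exp_pos 1)
    have := Real.exp_one_lt_d9
    linarith
  have hL0 : 0 < Real.log X := by linarith
  have h3X := hX3 X (by omega)
  rw [pow_zero, mul_one] at h3X
  obtain ⟨ρ, hρ⟩ : ∃ ρ : ℝ, ρ = (X : ℝ) ^ (-η) := ⟨_, rfl⟩
  have hρ0 : 0 < ρ := by rw [hρ]; positivity
  have hτ : ∀ j : ZMod G, ρ * ((qd X (al G j)).divisors.card : ℝ) ≤ 1 / (Real.log X) ^ C := by
    intro j
    obtain ⟨h1, h2, _⟩ := qd_spec X hX1n (al G j)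
    have hqX : (qd X (al G j) : ℝ) ≤ X := by
      have : qd X (al G j) ≤ X := h2.trans (Nat.sqrt_le_self X)
      exact_mod_cast this
    have hd := hC1' _ h1
    have hd2 : ((qd X (al G j)).divisors.card : ℝ) ≤ C1 * (X : ℝ) ^ (η / 2) :=
      hd.trans (mul_le_mul_of_nonneg_left (Real.rpow_le_rpow (Nat.cast_nonneg _) hqX (by positivity)) (by linarith))
    have he := hX2 X (by omega)
    rw [le_div_iff₀ (by positivity)]
    calc ρ * ((qd X (al G j)).divisors.card : ℝ) * (Real.log X) ^ C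
        ≤ ρ * (C1 * (X : ℝ) ^ (η / 2)) * (Real.log X) ^ C := by gcongr
      _ = (ρ * (X : ℝ) ^ (η / 2)) * (C1 * (Real.log X) ^ C) := by ring
      _ ≤ (ρ * (X : ℝ) ^ (η / 2)) * (X : ℝ) ^ (η / 2) := by gcongr
      _ = 1 := by
          rw [hρ, ← Real.rpow_add hX0, ← Real.rpow_add hX0]
          have : -η + η / 2 + η / 2 = 0 := by ring
          rw [this, Real.rpow_zero]
  obtain ⟨Len, hLen⟩ : ∃ Len : ℝ, Len = 2 ^ a * X / (8 * 2 ^ b) := ⟨_, rfl⟩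
  have hLen0 : 0 ≤ Len := by rw [hLen]; positivity
  -- the step
  have hstep : ∀ (ω' : ZMod G → ℂ), Wt G X a b ω' → ∀ E : Finset ℕ, E ⊆ B →
      (X : ℝ) ^ (1 / 2 + ε / 2) ≤ E.card →
      (∀ n ∈ B, (X : ℝ) / (Real.log X) ^ A < ‖Ph G X (wX D' X) V ω' n‖) →
      ∃ (j : ZMod G) (c : ℤ), ω' j ≠ 0 ∧
        ρ * E.card < ((inAP E c (qd X (al G j)) (X / (16 * 2 ^ b))).card : ℝ) := by
    intro ω' hω' E hE hEc hbig
    have hne : E.Nonempty := by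
      rw [← card_pos]
      have : (0 : ℝ) < E.card := lt_of_lt_of_le (by positivity) hEc
      exact_mod_cast this
    refine tree_step X A (wX D' X) ρ (1 / (Real.log X) ^ C) hX1n hL G b V ω' E hne ?_ hτ
      (fun n hn => hbig n (hE hn))
    intro e he hno
    exact hX1 X (by omega) G hG V hVB a b ω' hω' E (hE.trans hB) hEc e he ρ hρ0.le hno
  -- elements of a progression
  have hap : ∀ (E : Finset ℕ) (c : ℤ) (q T : ℕ), q < 2 ^ (a + 1) → T = X / (16 * 2 ^ b) →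
      ∀ n ∈ inAP E c q T, ∀ m ∈ inAP E c q T, (q : ℤ) ∣ (n : ℤ) - m ∧ (n : ℝ) - m ≤ Len := by
    intro E c q T hq hT n hn m hm
    unfold inAP at hn hm
    rw [mem_filter] at hn hm
    obtain ⟨_, i, hi, hni⟩ := hn
    obtain ⟨_, i', hi', hmi⟩ := hm
    refine ⟨⟨(i : ℤ) - i', by rw [hni, hmi]; ring⟩, ?_⟩
    have e1 : (n : ℝ) - m = ((i : ℝ) - i') * q := by
      have e2 : (n : ℤ) - m = ((i : ℤ) - i') * q := by rw [hni, hmi]; ring
      have : (((n : ℤ) - m : ℤ) : ℝ) = ((((i : ℤ) - i') * q : ℤ) : ℝ) := by rw [e2]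
      push_cast at this
      exact this
    rw [e1]
    have hq' : (q : ℝ) ≤ 2 ^ (a + 1) := by exact_mod_cast hq.le
    have hi2 : (i : ℝ) - i' ≤ T := by
      have h1 : (i : ℝ) ≤ T := by exact_mod_cast hi.le
      have h2 : (0 : ℝ) ≤ i' := Nat.cast_nonneg _
      linarith
    have hT2 : (T : ℝ) ≤ X / (16 * 2 ^ b) := by
      rw [hT]
      have := @Nat.cast_div_le ℝ _ _ _ X (16 * 2 ^ b)
      push_cast at this
      exact this
    have hq0 : (0 : ℝ) ≤ q := Nat.cast_nonneg _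
    calc ((i : ℝ) - i') * q ≤ T * q := by gcongr
      _ ≤ (X / (16 * 2 ^ b)) * 2 ^ (a + 1) := by gcongr
      _ = Len := by rw [hLen, pow_succ]; ring
  -- size of such a set
  have hsize : ∀ (E : Finset ℕ) (Λ : ℕ), 1 ≤ Λ → (∀ n ∈ E, ∀ m ∈ E, (Λ : ℤ) ∣ (n : ℤ) - m) →
      (∀ n ∈ E, ∀ m ∈ E, (n : ℝ) - m ≤ Len) → (X : ℝ) ^ (1 / 2 + ε / 2) ≤ E.card →
      (Λ : ℝ) * 2 ^ b ≤ 2 ^ a * (X : ℝ) ^ (1 / 2 - ε / 2) := by
    intro E Λ hΛ h1 h2 h3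
    have hΛ0 : (0 : ℝ) < Λ := by exact_mod_cast hΛ
    have h4 := tree_card E Λ hΛ Len hLen0 h1 h2
    have h5 : (2 : ℝ) ≤ (X : ℝ) ^ (1 / 2 + ε / 2) :=
      h3X.trans (Real.rpow_le_rpow_of_exponent_le hX1r (by linarith))
    have h6 : (X : ℝ) ^ (1 / 2 + ε / 2) ≤ 2 * (Len / Λ) := by linarith
    have h7 : (X : ℝ) ^ (1 / 2 + ε / 2) * Λ ≤ 2 * Len := by
      have := mul_le_mul_of_nonneg_right h6 hΛ0.le
      rwa [mul_assoc, div_mul_cancel₀ _ hΛ0.ne'] at this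
    rw [hLen] at h7
    have hb : (0 : ℝ) < 2 ^ b := by positivity
    have ha : (0 : ℝ) < 2 ^ a := by positivity
    have h8 : (X : ℝ) ^ (1 / 2 + ε / 2) * ((Λ : ℝ) * 2 ^ b) ≤ 2 ^ a * X := by
      have h9 : 2 * (2 ^ a * (X : ℝ) / (8 * 2 ^ b)) * 2 ^ b = 2 ^ a * X / 4 := by
        field_simp
        norm_num
      have h10 := mul_le_mul_of_nonneg_right h7 hb.le
      rw [h9] at h10
      have : 2 ^ a * (X : ℝ) / 4 ≤ 2 ^ a * X := by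
        have : 0 ≤ 2 ^ a * (X : ℝ) := by positivity
        linarith
      linarith
    have h11 : (X : ℝ) = (X : ℝ) ^ (1 / 2 + ε / 2) * (X : ℝ) ^ (1 / 2 - ε / 2) := by
      rw [← Real.rpow_add hX0]
      have : 1 / 2 + ε / 2 + (1 / 2 - ε / 2) = 1 := by ring
      rw [this, Real.rpow_one]
    have h12 : (X : ℝ) ^ (1 / 2 + ε / 2) * ((Λ : ℝ) * 2 ^ b) ≤
        (X : ℝ) ^ (1 / 2 + ε / 2) * (2 ^ a * (X : ℝ) ^ (1 / 2 - ε / 2)) := by
      calc _ ≤ 2 ^ a * (X : ℝ) := h8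
        _ = 2 ^ a * ((X : ℝ) ^ (1 / 2 + ε / 2) * (X : ℝ) ^ (1 / 2 - ε / 2)) := by rw [← h11]
        _ = _ := by ring
    exact le_of_mul_le_mul_left h12 (by positivity)
  -- lower bounds for the cardinalities
  have hpow : ∀ k : ℕ, k ≤ k0 → (X : ℝ) ^ (1 / 2 + ε / 2) ≤ (X : ℝ) ^ (1 / 2 + ε - k * η) := by
    intro k hk
    apply Real.rpow_le_rpow_of_exponent_le hX1r
    have h1 : (k : ℝ) ≤ k0 := by exact_mod_cast hk
    have h2 : (k : ℝ) * η ≤ k0 * η := by gcongr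
    have h3 : (k0 : ℝ) * η = ε / 2 := by rw [hη]; field_simp
    linarith
  have hrho : ∀ k : ℕ, ρ * (X : ℝ) ^ (1 / 2 + ε - k * η) = (X : ℝ) ^ (1 / 2 + ε - (k + 1 : ℕ) * η) := by
    intro k
    rw [hρ, ← Real.rpow_add hX0]
    congr 1
    push_cast
    ring
  -- the invariant
  have hinv : ∀ k : ℕ, k + 1 ≤ k0 → ∃ (E : Finset ℕ) (Λ : ℕ), E ⊆ B ∧ 1 ≤ Λ ∧
      (X : ℝ) ^ ((k : ℝ) * e') ≤ Λ ∧ (X : ℝ) ^ (1 / 2 + ε - (k + 1 : ℕ) * η) ≤ E.card ∧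
      (∀ n ∈ E, ∀ m ∈ E, (Λ : ℤ) ∣ (n : ℤ) - m) ∧ (∀ n ∈ E, ∀ m ∈ E, (n : ℝ) - m ≤ Len) ∧
      (2 : ℝ) ^ a ≤ 2 * 2 ^ b := by
    intro k
    induction k with
    | zero =>
      intro _
      have hB1 : (X : ℝ) ^ (1 / 2 + ε / 2) ≤ B.card :=
        (Real.rpow_le_rpow_of_exponent_le hX1r (by linarith)).trans hlt.le
      obtain ⟨j, c, hj, hjc⟩ := hstep ω hω B (Subset.refl _) hB1 (fun n hn => (hbad n hn).1)
      obtain ⟨h1, h2, h3, h4⟩ := hω.2 j hj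
      refine ⟨inAP B c (qd X (al G j)) (X / (16 * 2 ^ b)), qd X (al G j), filter_subset _ _,
        (qd_spec X hX1n _).1, ?_, ?_, fun n hn m hm => (hap B c _ _ h2 rfl n hn m hm).1,
        fun n hn m hm => (hap B c _ _ h2 rfl n hn m hm).2, ?_⟩
      · rw [Nat.cast_zero, zero_mul, Real.rpow_zero]
        exact_mod_cast (qd_spec X hX1n _).1
      · refine le_trans ?_ hjc.le
        have h5 := hrho 0
        rw [Nat.cast_zero, zero_mul, sub_zero] at h5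
        rw [← h5]
        exact mul_le_mul_of_nonneg_left hlt.le hρ0.le
      · have h5 : (2 : ℝ) ^ a ≤ qd X (al G j) := by exact_mod_cast h1
        have h6 := (ht_spec X hX1n (al G j)).2.2.1
        have h7 : (2 : ℝ) ^ (b + 1) = 2 * 2 ^ b := by rw [pow_succ]; ring
        rw [h7] at h4
        linarith
    | succ k ih =>
      intro hk
      obtain ⟨E, Λ, hE, hΛ, hΛ2, hEc, hd, hl, hab⟩ := ih (by omega)
      have hEc' : (X : ℝ) ^ (1 / 2 + ε / 2) ≤ E.card := (hpow (k + 1) (by omega)).trans hEc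
      have hcond := hsize E Λ hΛ hd hl hEc'
      obtain ⟨j, c, hj, hjc⟩ := hstep (rs G X Λ e' ω) (tree_wt hω Λ e') E hE hEc'
        (fun n hn => (hbad n hn).2 Λ hΛ hcond)
      obtain ⟨h1, h2, h3, h4⟩ := (tree_wt hω Λ e').2 j hj
      have hlcm : (X : ℝ) ^ e' * Λ < (Nat.lcm (qd X (al G j)) Λ : ℝ) := by
        by_contra hcon
        apply hj
        unfold rs
        rw [if_neg hcon]
      have hΛr : (1 : ℝ) ≤ Λ := by exact_mod_cast hΛ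
      refine ⟨inAP E c (qd X (al G j)) (X / (16 * 2 ^ b)), Nat.lcm (qd X (al G j)) Λ,
        (filter_subset _ _).trans hE, ?_, ?_, ?_, ?_,
        fun n hn m hm => (hap E c _ _ h2 rfl n hn m hm).2, hab⟩
      · exact Nat.lcm_pos (qd_spec X hX1n _).1 hΛ
      · refine le_trans ?_ hlcm.le
        have : ((k + 1 : ℕ) : ℝ) * e' = e' + k * e' := by push_cast; ring
        rw [this, Real.rpow_add hX0]
        gcongr
      · refine le_trans ?_ hjc.le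
        rw [← hrho (k + 1)]
        exact mul_le_mul_of_nonneg_left hEc hρ0.le
      · intro n hn m hm
        have g1 := (hap E c _ _ h2 rfl n hn m hm).1
        have g2 := hd n (mem_filter.1 hn).1 m (mem_filter.1 hm).1
        have g3 : ((Nat.lcm (qd X (al G j)) Λ : ℕ) : ℤ) ∣ (n : ℤ) - m := by
          have := Int.natCast_dvd.1 g1
          have h' := Int.natCast_dvd.1 g2
          exact Int.natCast_dvd.2 (Nat.lcm_dvd this h')
        exact g3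
  -- the end
  have hk0' : (k0 - 1) + 1 = k0 := by omega
  obtain ⟨E, Λ, hE, hΛ, hΛ2, hEc, hd, hl, hab⟩ := hinv (k0 - 1) (by omega)
  rw [hk0'] at hEc
  have hcond := hsize E Λ hΛ hd hl ((hpow k0 le_rfl).trans hEc)
  have hkk : (1 : ℝ) ≤ ((k0 - 1 : ℕ) : ℝ) * e' := by
    have h1 : ((k0 - 1 : ℕ) : ℝ) = (⌈1 / e'⌉₊ : ℝ) + 1 := by
      rw [hk0]
      push_cast [Nat.add_sub_cancel]
      norm_num
    rw [h1]
    have h2 := Nat.le_ceil (1 / e')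
    have h3 : 1 / e' * e' = 1 := by field_simp
    nlinarith
  have h20 : (X : ℝ) ≤ Λ := by
    refine le_trans ?_ hΛ2
    calc (X : ℝ) = (X : ℝ) ^ (1 : ℝ) := (Real.rpow_one _).symm
      _ ≤ _ := Real.rpow_le_rpow_of_exponent_le hX1r hkk
  have h21 : (X : ℝ) ^ (1 / 2 - ε / 2) ≤ (X : ℝ) ^ (1 / 2 : ℝ) :=
    Real.rpow_le_rpow_of_exponent_le hX1r (by linarith)
  have hb : (0 : ℝ) < 2 ^ b := by positivity
  have h22 : (X : ℝ) * 2 ^ b ≤ 2 * 2 ^ b * (X : ℝ) ^ (1 / 2 : ℝ) := by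
    calc (X : ℝ) * 2 ^ b ≤ Λ * 2 ^ b := by gcongr
      _ ≤ 2 ^ a * (X : ℝ) ^ (1 / 2 - ε / 2) := hcond
      _ ≤ 2 * 2 ^ b * (X : ℝ) ^ (1 / 2 : ℝ) := by gcongr
  have h23 : (X : ℝ) ≤ 2 * (X : ℝ) ^ (1 / 2 : ℝ) := by
    have : (X : ℝ) * 2 ^ b ≤ (2 * (X : ℝ) ^ (1 / 2 : ℝ)) * 2 ^ b := by
      calc _ ≤ _ := h22
        _ = _ := by ring
    exact le_of_mul_le_mul_right this hb
  have h24 : (X : ℝ) = (X : ℝ) ^ (1 / 2 : ℝ) * (X : ℝ) ^ (1 / 2 : ℝ) := by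
    rw [← Real.rpow_add hX0]
    norm_num
  have h25 : (X : ℝ) ^ (1 / 2 : ℝ) ≤ 2 := by
    have hp : 0 < (X : ℝ) ^ (1 / 2 : ℝ) := by positivity
    have : (X : ℝ) ^ (1 / 2 : ℝ) * (X : ℝ) ^ (1 / 2 : ℝ) ≤ 2 * (X : ℝ) ^ (1 / 2 : ℝ) := by
      rw [← h24]; exact h23
    exact le_of_mul_le_mul_right this hp
  have h26 : 0 ≤ (X : ℝ) ^ (1 / 2 : ℝ) := by positivity
  have h27 : (X : ℝ) ^ (1 / 2 : ℝ) * (X : ℝ) ^ (1 / 2 : ℝ) ≤ 2 * 2 := mul_le_mul h25 h25 h26 (by norm_num)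
  rw [← h24] at h27
  linarith

end Pool.MP_dd84fd_nt.GX
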