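import Pool.Agent.Lib.MP_dd84fd_nt.GX.Defs
import Pool.Agent.Lib.MP_dd84fd_nt.L2G.MinSum

/-!
# GX-Fej (0.3 h): a Fejer type lower bound

Proof. `x = θ - round θ`, `|x| = nrm θ`. `ee (i θ) = ee (i x)` (`ee` has period 1: `ee_add_int`, see
`L2G/MinSum.lean`). `‖ee t - 1‖ ≤ 2 π |t|`. So `‖Σ_{i<T} ee (i x) - T‖ ≤ Σ_{i<T} 2 π i |x| ≤
2 π (T (T-1) / 2) / (8 T) ≤ π T / 8 ≤ T / 2`, hence `‖Σ‖ ≥ T / 2`; square.
-/

set_option autoImplicit false

namespace Pool.MP_dd84fd_nt.GX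

open Finset Pool.MP_67663b_nt.Odd Pool.MP_dd84fd_nt.En Pool.MP_dd84fd_nt.E2 Pool.MP_dd84fd_nt.LS

open Pool.MP_dd84fd_nt.L2G (nrm)

theorem fejer (T : ℕ) (hT : 1 ≤ T) (θ : ℝ) (h : nrm θ ≤ 1 / (8 * (T : ℝ))) :
    (T : ℝ) ^ 2 / 4 ≤ ‖∑ i ∈ range T, ee ((i : ℝ) * θ)‖ ^ 2 := by
  have hT0 : (0 : ℝ) < T := by exact_mod_cast hT
  set x : ℝ := θ - round θ with hx
  have hxn : |x| ≤ 1 / (8 * (T : ℝ)) := h
  have e1 : ∀ i : ℕ, ee ((i : ℝ) * θ) = ee ((i : ℝ) * x) := by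
    intro i
    have e2 : (i : ℝ) * θ = (i : ℝ) * x + (((i : ℤ) * round θ : ℤ) : ℝ) := by
      rw [hx]
      push_cast
      ring
    rw [e2, ee_add_int]
  have h1 : ‖∑ i ∈ range T, ee ((i : ℝ) * θ) - (T : ℂ)‖ ≤ (T : ℝ) / 2 := by
    have e3 : ∑ i ∈ range T, ee ((i : ℝ) * θ) - (T : ℂ) = ∑ i ∈ range T, (ee ((i : ℝ) * x) - 1) := by
      rw [Finset.sum_sub_distrib, Finset.sum_const, Finset.card_range, nsmul_eq_mul, mul_one]
      congr 1
      exact Finset.sum_congr rfl fun i _ => e1 i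
    rw [e3]
    refine (norm_sum_le _ _).trans ?_
    have hg : ∀ n : ℕ, ∑ i ∈ range n, (i : ℝ) ≤ (n : ℝ) ^ 2 / 2 := by
      intro n
      induction n with
      | zero => simp
      | succ n ih =>
        rw [Finset.sum_range_succ]
        push_cast
        nlinarith
    have h2 : ∑ i ∈ range T, ‖ee ((i : ℝ) * x) - 1‖ ≤ ∑ i ∈ range T, 2 * Real.pi * |x| * (i : ℝ) := by
      refine Finset.sum_le_sum fun i _ => ?_
      refine (norm_ee_sub_one_le _).trans (le_of_eq ?_)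
      rw [abs_mul, Nat.abs_cast]
      ring
    refine h2.trans ?_
    rw [← Finset.mul_sum]
    have h3 := hg T
    have h4 : |x| * T ≤ 1 / 8 := by
      have := mul_le_mul_of_nonneg_right hxn hT0.le
      rwa [div_mul_eq_mul_div, one_mul, show (T : ℝ) / (8 * T) = 1 / 8 by field_simp] at this
    have h5 : 2 * Real.pi * |x| * ∑ i ∈ range T, (i : ℝ) ≤ 2 * Real.pi * |x| * ((T : ℝ) ^ 2 / 2) :=
      mul_le_mul_of_nonneg_left h3 (by positivity)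
    refine h5.trans ?_
    have h6 : 2 * Real.pi * |x| * ((T : ℝ) ^ 2 / 2) = Real.pi * (|x| * T) * T := by ring
    rw [h6]
    have h7 : Real.pi * (|x| * T) ≤ 4 * (1 / 8) :=
      mul_le_mul Real.pi_le_four h4 (by positivity) (by norm_num)
    nlinarith
  have h8 : (T : ℝ) / 2 ≤ ‖∑ i ∈ range T, ee ((i : ℝ) * θ)‖ := by
    have h9 : ‖(T : ℂ)‖ = T := by simp
    have h10 := norm_sub_norm_le (T : ℂ) (∑ i ∈ range T, ee ((i : ℝ) * θ))
    rw [norm_sub_rev] at h10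
    linarith
  nlinarith

end Pool.MP_dd84fd_nt.GX
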