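import Pool.Agent.Lib.MP_dd84fd_nt.GX.Defs
import Pool.Agent.Lib.MP_dd84fd_nt.LS.Four

/-!
# GX-Rep (0.5 h): the number of representations

Proof. `UU j * VV j = (tr ip j)² - (tr (f2 w) j)²` (`tr` is additive: `LS.tr_add`, and `tr (-f) = - tr f`, or `sum_congr`), so `Ph 1 n = co (tr ip ²) n - co (tr (f2 w) ²) n` (`LS.co_sub`), and `LS.co_sq` with
`Y = X`, `2X < G`: `Σ_{a ∈ Icc 1 (n-1)} ip a ip (n-a) - conv2 w n`. The first sum is `g n` (`g` counts `p ∈ range (n+1)` with `p`, `n - p` prime; `p = 0, n` do not count). See `LS/Discrete.lean` for a similar computation.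
-/

set_option autoImplicit false

namespace Pool.MP_dd84fd_nt.GX

open Finset Pool.MP_67663b_nt.Odd Pool.MP_dd84fd_nt.En Pool.MP_dd84fd_nt.E2 Pool.MP_dd84fd_nt.LS

open Pool.MP_dd84fd_nt.L2G (nrm)

private theorem rep_ip_zero : ip 0 = 0 := by
  unfold ip
  rw [if_neg Nat.not_prime_zero]

private theorem rep_g_eq (n : ℕ) : (g n : ℝ) = ∑ a ∈ Icc 1 (n - 1), ip a * ip (n - a) := by
  unfold g
  rw [Finset.card_eq_sum_ones, Nat.cast_sum, Finset.sum_filter]
  have h1 : ∀ a ∈ range (n + 1), (if (Nat.Prime a ∧ Nat.Prime (n - a)) then ((1 : ℕ) : ℝ) else 0) =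
      ip a * ip (n - a) := by
    intro a _
    unfold ip
    by_cases h2 : Nat.Prime a <;> by_cases h3 : Nat.Prime (n - a) <;> simp [h2, h3]
  rw [Finset.sum_congr rfl h1]
  symm
  refine Finset.sum_subset (fun a ha => ?_) (fun a ha hn => ?_)
  · rw [Finset.mem_Icc] at ha
    rw [Finset.mem_range]
    omega
  · rw [Finset.mem_range] at ha
    rw [Finset.mem_Icc] at hn
    have h4 : a = 0 ∨ n - a = 0 := by omega
    rcases h4 with h4 | h4
    · rw [h4, rep_ip_zero, zero_mul]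
    · rw [h4, rep_ip_zero, mul_zero]

theorem rep (X G w : ℕ) [NeZero G] (hG : 3 * X ≤ G) (n : ℕ) (h1 : 1 ≤ n) (hn : n ≤ X) :
    Ph G X w (VV G X w) (fun _ => 1) n = (((g n : ℝ) - conv2 w n : ℝ) : ℂ) := by
  have hX : 2 * X < G := by omega
  have hsub : ∀ j : ZMod G, UU G X w j = tr G X ip j - tr G X (f2 w) j := by
    intro j
    unfold UU tr
    rw [← Finset.sum_sub_distrib]
    refine Finset.sum_congr rfl fun m _ => ?_
    push_cast
    ring
  have h2 : Ph G X w (VV G X w) (fun _ => 1) n =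
      co G (fun j => tr G X ip j ^ 2 - tr G X (f2 w) j ^ 2) n := by
    unfold Ph co
    congr 1
    refine Finset.sum_congr rfl fun j _ => ?_
    rw [hsub, one_mul]
    unfold VV
    rw [tr_add]
    ring
  rw [h2, co_sub, co_sq G X hX ip n hn, co_sq G X hX (f2 w) n hn, rep_g_eq]
  unfold conv2
  push_cast
  ring

end Pool.MP_dd84fd_nt.GX
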