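import Pool.Agent.Lib.MP_dd84fd_nt.LS.Defs
import Pool.Agent.Lib.MP_dd84fd_nt.L2G.HBDefs

/-!
# Goldbach exceptions and arithmetic progressions: definitions

Everything is modulo `G ≥ 3 X`; `χ = ZMod.stdAddChar`, so `χ (n j) = e(n j / G)`.
-/

set_option autoImplicit false

namespace Pool.MP_dd84fd_nt.GX

open Finset Pool.MP_67663b_nt.Odd Pool.MP_dd84fd_nt.En Pool.MP_dd84fd_nt.E2 Pool.MP_dd84fd_nt.LS

open Pool.MP_dd84fd_nt.L2G (nrm)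

/-- the frequency `j / G` -/
noncomputable def al (G : ℕ) (j : ZMod G) : ℝ := (j.val : ℝ) / G

/-- the least `q ≥ 1` with `‖q α‖ ≤ 1 / (⌊√X⌋ + 1)` -/
noncomputable def qd (X : ℕ) (α : ℝ) : ℕ :=
  sInf {q : ℕ | 1 ≤ q ∧ nrm (q * α) ≤ 1 / ((Nat.sqrt X : ℝ) + 1)}

/-- the height `max (q, X ‖q α‖)`, `q = qd X α` -/
noncomputable def ht (X : ℕ) (α : ℝ) : ℝ := max (qd X α : ℝ) (X * nrm (qd X α * α))

/-- Fourier transform of the primes minus the model -/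
noncomputable def UU (G : ℕ) [NeZero G] (X w : ℕ) (j : ZMod G) : ℂ :=
  tr G X (fun n => ip n - f2 w n) j

/-- Fourier transform of the primes plus the model -/
noncomputable def VV (G : ℕ) [NeZero G] (X w : ℕ) (j : ZMod G) : ℂ :=
  tr G X (fun n => ip n + f2 w n) j

/-- `(1/G) Σ_j ω(j) U(j) V(j) e(-n j / G)` -/
noncomputable def Ph (G : ℕ) [NeZero G] (X w : ℕ) (V ω : ZMod G → ℂ) (n : ℕ) : ℂ :=
  (1 / (G : ℂ)) * ∑ j : ZMod G, ω j * UU G X w j * V j * ZMod.stdAddChar (-((n : ZMod G) * j))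

/-- `K(j) = Σ_{n ∈ E} e(n) χ(-n j)` -/
noncomputable def KE (G : ℕ) [NeZero G] (E : Finset ℕ) (e : ℕ → ℂ) (j : ZMod G) : ℂ :=
  ∑ n ∈ E, e n * ZMod.stdAddChar (-((n : ZMod G) * j))

/-- `F(n) = (1/G) Σ_j x(j) χ(n j)` -/
noncomputable def FF (G : ℕ) [NeZero G] (x : ZMod G → ℂ) (n : ℕ) : ℂ :=
  (1 / (G : ℂ)) * ∑ j : ZMod G, x j * ZMod.stdAddChar ((n : ZMod G) * j)

/-- `(1/G) Σ_j |x(j)|` -/
noncomputable def nm1 (G : ℕ) [NeZero G] (x : ZMod G → ℂ) : ℝ := (1 / (G : ℝ)) * ∑ j : ZMod G, ‖x j‖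

/-- `(1/G) Σ_j |x(j)|²` -/
noncomputable def nm2 (G : ℕ) [NeZero G] (x : ZMod G → ℂ) : ℝ :=
  (1 / (G : ℝ)) * ∑ j : ZMod G, ‖x j‖ ^ 2

/-- the number of elements of `E` in the progression `c + i q`, `0 ≤ i < T` -/
noncomputable def inAP (E : Finset ℕ) (c : ℤ) (q T : ℕ) : Finset ℕ :=
  E.filter (fun n => ∃ i : ℕ, i < T ∧ (n : ℤ) = c + i * q)

/-- `∃ u, v ∈ [1, k]` with `‖u α - v α'‖ ≤ k / X` -/
def rel (X k : ℕ) (α α' : ℝ) : Prop :=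
  ∃ u v : ℕ, 1 ≤ u ∧ u ≤ k ∧ 1 ≤ v ∧ v ≤ k ∧ nrm (u * α - v * α') ≤ (k : ℝ) / X

/-- `j` belongs to the block `(a, b)`: `2^a ≤ q < 2^(a+1)`, `2^b ≤ height < 2^(b+1)` -/
def inBlk (X a b : ℕ) (α : ℝ) : Prop :=
  2 ^ a ≤ qd X α ∧ qd X α < 2 ^ (a + 1) ∧ (2 : ℝ) ^ b ≤ ht X α ∧ ht X α < 2 ^ (b + 1)

/-- the resonance kernel `X q / (h lcm(q, q'))` -/
noncomputable def Nk (X : ℕ) (α α' : ℝ) : ℝ :=
  (X : ℝ) * (qd X α : ℝ) / (ht X α * (Nat.lcm (qd X α) (qd X α') : ℝ))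

open Classical in
/-- the rank one kernel `Σ_i (X/2^i) 1[rel_{2^i}]`, `i ≤ (log_2 X)/8 + 1` -/
noncomputable def Rk (X : ℕ) (α α' : ℝ) : ℝ :=
  ∑ i ∈ range (Nat.log 2 X / 8 + 2), if rel X (2 ^ i) α α' then (X : ℝ) / 2 ^ i else 0

/-- the kernel `Σ_{s, s' ∈ (N, 2N]} min(M, 1/(2‖s α - s' α'‖))` -/
noncomputable def Bker (M N : ℕ) (α α' : ℝ) : ℝ :=
  ∑ s ∈ Ioc N (2 * N), ∑ s' ∈ Ioc N (2 * N), L2G.mn M (s * α - s' * α')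

/-- `(1/G) Σ_{j : qd j = q} |x(j)|` -/
noncomputable def mu (G : ℕ) [NeZero G] (X : ℕ) (x : ZMod G → ℂ) (q : ℕ) : ℝ :=
  (1 / (G : ℝ)) * ∑ j ∈ (univ : Finset (ZMod G)).filter (fun j => qd X (al G j) = q), ‖x j‖

/-- `x(j) = ω(j) V(j) K(j)` -/
noncomputable def xx (G : ℕ) [NeZero G] (V ω : ZMod G → ℂ) (E : Finset ℕ) (e : ℕ → ℂ)
    (j : ZMod G) : ℂ := ω j * V j * KE G E e j

/-- the bounds for the second function -/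
def VB (G : ℕ) [NeZero G] (X : ℕ) (V : ZMod G → ℂ) : Prop :=
  nm2 G V ≤ 9 * X * (Real.log X) ^ 2 ∧ ∀ j, ‖V j‖ ≤ 3 * X * Real.log X

/-- `ω` is a weight on the block `(a, b)` -/
def Wt (G : ℕ) (X a b : ℕ) (ω : ZMod G → ℂ) : Prop :=
  (∀ j, ‖ω j‖ ≤ 1) ∧ ∀ j, ω j ≠ 0 → inBlk X a b (al G j)

/-- the hypothesis of the structure theorem: no progression `c mod q` of length `⌊X / (16·2^b)⌋` with `q`
in the support of `ω` contains more than `ρ |E|` elements of `E`, where `ρ τ(q) ≤ δ` -/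
def NoAP (G : ℕ) (X b : ℕ) (ω : ZMod G → ℂ) (E : Finset ℕ) (ρ δ : ℝ) : Prop :=
  ∀ j, ω j ≠ 0 → ρ * ((qd X (al G j)).divisors.card : ℝ) ≤ δ ∧
    ∀ c : ℤ, ((inAP E c (qd X (al G j)) (X / (16 * 2 ^ b))).card : ℝ) ≤ ρ * E.card

/-- the type I bound `B1` for `F` at level `X^(3/4)` -/
def TI (X : ℕ) (F : ℕ → ℂ) (B1 : ℝ) : Prop :=
  ∀ (R : ℕ) (c : ℕ → ℂ) (y : ℕ → ℕ), (R : ℝ) ≤ (X : ℝ) ^ (3 / 4 : ℝ) → (∀ r, ‖c r‖ ≤ 1) →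
    (∀ r ∈ Icc 1 R, r * y r ≤ X) →
    ‖∑ r ∈ Icc 1 R, c r * ∑ k ∈ Icc 1 (y r), F (r * k)‖ ≤ B1 ∧
    ‖∑ r ∈ Icc 1 R, c r * ∑ k ∈ Icc 1 (y r), ((Real.log k : ℝ) : ℂ) * F (r * k)‖ ≤
      B1 * Real.log X

/-- the type II bound `B2` for `F`, both variables `≥ X^(3/8)/2` -/
def TII (X : ℕ) (F : ℕ → ℂ) (B2 : ℝ) : Prop :=
  ∀ (i i' t : ℕ) (a b : ℕ → ℂ), t ≤ X → (∀ n, ‖a n‖ ≤ 1) → (∀ n, ‖b n‖ ≤ 1) → i' ≤ i →
    (X : ℝ) ^ (3 / 8 : ℝ) / 2 ≤ (2 : ℝ) ^ i' → 2 ^ i * 2 ^ i' ≤ X →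
    ‖∑ l ∈ Ioc (2 ^ i) (2 ^ (i + 1)), ∑ s ∈ (Ioc (2 ^ i') (2 ^ (i' + 1))).filter (fun s => l * s ≤ t),
      a l * b s * F (l * s)‖ ≤ B2

/-- the restriction of the weight `ω` to the denominators `q` with `lcm(q, Λ) > X^η Λ` -/
noncomputable def rs (G X Λ : ℕ) (η : ℝ) (ω : ZMod G → ℂ) (j : ZMod G) : ℂ :=
  if (X : ℝ) ^ η * Λ < (Nat.lcm (qd X (al G j)) Λ : ℝ) then ω j else 0

/-- the progression `{c + i q : 0 ≤ i < T}`, `p = (c, q, T)` -/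
def apm (p : ℤ × ℕ × ℕ) (n : ℕ) : Prop := ∃ i : ℕ, i < p.2.2 ∧ (n : ℤ) = p.1 + i * p.2.1

/-- `n` is exceptional: the number of representations differs from the prediction by more than
`n / (log n)^A` -/
def Exc (A n : ℕ) : Prop := (n : ℝ) / (Real.log n) ^ A < |(g n : ℝ) - SS n * JJ n|

end Pool.MP_dd84fd_nt.GX
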