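import Pool.Agent.Lib.MP_dd84fd_nt.GX.Defs

/-!
# GX-Greedy (0.5 h): greedy covering

Proof. Strong induction on `#B`. If `#B < m`: `I = ∅` (`Real.log (#B) ≥ 0` for every natural number, also `0`). Otherwise take `i` from `h B`, `B' = B.filter (n ∉ S i)`, `#B' = #B - #(B.filter (n ∈ S i)) < #B`. Induction hypothesis
for `B'` gives `I'`; `I = insert i I'` (`Finset.sum_insert_le`-type bound: if `i ∈ I'` the sum does not change, `wt ≥ 0`). If `#B' ≥ 1`: `wt i ≤ 1 - #B'/#B ≤ log (#B/#B')` (`Real.log_le_sub_one_of_pos` for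
`#B'/#B`), so the sum is `≤ log #B - log #B' + 1 + log #B'`. If `#B' = 0`: `wt i ≤ 1` and the induction hypothesis may not help (`1 + log 0 = 1`): here directly `I = {i}`: nothing is left, `0 < m`.
-/

set_option autoImplicit false

namespace Pool.MP_dd84fd_nt.GX

open Finset Pool.MP_67663b_nt.Odd Pool.MP_dd84fd_nt.En Pool.MP_dd84fd_nt.E2 Pool.MP_dd84fd_nt.LS

open Pool.MP_dd84fd_nt.L2G (nrm)

open Classical in
theorem greedy {ι : Type} (S : ι → ℕ → Prop) (wt : ι → ℝ) (hw : ∀ i, 0 ≤ wt i) (m : ℝ)
    (hm : 0 < m) (P : ι → Prop) (B : Finset ℕ)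
    (h : ∀ E : Finset ℕ, E ⊆ B → m ≤ E.card → ∃ i, P i ∧ (∃ n ∈ E, S i n) ∧
      wt i * E.card ≤ ((E.filter (fun n => S i n)).card : ℝ)) :
    ∃ I : Finset ι, (∀ i ∈ I, P i) ∧ ∑ i ∈ I, wt i ≤ 1 + Real.log B.card ∧
      ((B.filter (fun n => ∀ i ∈ I, ¬ S i n)).card : ℝ) < m := by
  classical
  induction hn : B.card using Nat.strong_induction_on generalizing B with
  | _ N ih =>
  subst hn
  by_cases hlt : (B.card : ℝ) < m
  · refine ⟨∅, by simp, ?_, ?_⟩
    · rw [sum_empty]
      have := Real.log_natCast_nonneg B.card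
      linarith
    · simpa using hlt
  · push Not at hlt
    obtain ⟨i, hPi, ⟨n, hnB, hnS⟩, hwi⟩ := h B (Subset.refl _) hlt
    have hBpos : (0 : ℝ) < B.card := lt_of_lt_of_le hm hlt
    obtain ⟨B', hB'⟩ : ∃ B' : Finset ℕ, B' = B.filter (fun n => ¬ S i n) := ⟨_, rfl⟩
    have hsplit : (B.filter (fun n => S i n)).card + B'.card = B.card := by
      rw [hB']
      exact card_filter_add_card_filter_not _
    have hsplitR : ((B.filter (fun n => S i n)).card : ℝ) + B'.card = B.card := by
      exact_mod_cast hsplit
    have hpos : 0 < (B.filter (fun n => S i n)).card :=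
      card_pos.2 ⟨n, mem_filter.2 ⟨hnB, hnS⟩⟩
    have hsub : B' ⊆ B := by rw [hB']; exact filter_subset _ _
    rcases Nat.eq_zero_or_pos B'.card with h0 | h0
    · refine ⟨{i}, by simpa using hPi, ?_, ?_⟩
      · rw [sum_singleton]
        have h1 : wt i * B.card ≤ 1 * B.card := by
          rw [one_mul]
          refine hwi.trans ?_
          exact_mod_cast card_le_card (filter_subset _ _)
        have h2 := le_of_mul_le_mul_right h1 hBpos
        have := Real.log_natCast_nonneg B.card
        linarith
      · have h3 : B.filter (fun n => ∀ j ∈ ({i} : Finset ι), ¬ S j n) = B' := by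
          rw [hB']
          apply filter_congr
          intro n _
          simp
        rw [h3, h0]
        simpa using hm
    · obtain ⟨I', hI1, hI2, hI3⟩ := ih B'.card (by omega) B'
        (fun E hE hmE => h E (hE.trans hsub) hmE) rfl
      have hB'pos : (0 : ℝ) < B'.card := by exact_mod_cast h0
      refine ⟨insert i I', ?_, ?_, ?_⟩
      · intro j hj
        rcases mem_insert.1 hj with rfl | hj
        · exact hPi
        · exact hI1 j hj
      · have h1 : ∑ j ∈ insert i I', wt j ≤ wt i + ∑ j ∈ I', wt j := by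
          by_cases hi : i ∈ I'
          · rw [insert_eq_of_mem hi]
            have := hw i
            linarith
          · rw [sum_insert hi]
        have h2 : wt i ≤ 1 - (B'.card : ℝ) / B.card := by
          rw [← sub_nonneg]
          have h3 : (1 - (B'.card : ℝ) / B.card - wt i) * B.card =
              ((B.card : ℝ) - B'.card) - wt i * B.card := by
            field_simp
          have h4 : 0 ≤ (1 - (B'.card : ℝ) / B.card - wt i) * B.card := by
            rw [h3]; linarith
          exact nonneg_of_mul_nonneg_left h4 hBpos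
        have h5 := Real.log_le_sub_one_of_pos (div_pos hB'pos hBpos)
        rw [Real.log_div hB'pos.ne' hBpos.ne'] at h5
        linarith
      · refine lt_of_le_of_lt ?_ hI3
        have h6 : B.filter (fun n => ∀ j ∈ insert i I', ¬ S j n) ⊆
            B'.filter (fun n => ∀ j ∈ I', ¬ S j n) := by
          intro n hn
          rw [mem_filter] at hn ⊢
          refine ⟨?_, fun j hj => hn.2 j (mem_insert_of_mem hj)⟩
          rw [hB', mem_filter]
          exact ⟨hn.1, hn.2 i (mem_insert_self _ _)⟩
        exact_mod_cast card_le_card h6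

end Pool.MP_dd84fd_nt.GX
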