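import Pool.Agent.Lib.MP_dd84fd_nt.GX.Defs
import Pool.Agent.Lib.MP_dd84fd_nt.GX.Nrm
import Pool.Agent.Lib.MP_dd84fd_nt.E2.SupClose

/-!
# GX-Maj (0.8 h): the major arcs are small for EVERY n

Proof. `H = L^K1`, `L = log X`. `#{j : Ht H X (al G j)} ≤ 6 H² G/X` for `H ≤ X/4`, `H ≥ 1`: `q ≤ H`, `|al_j - a/q| ≤ H/(q X)`, `0 ≤ al_j < 1` forces `0 ≤ a ≤ q`; for given `(q, a)`
the `j.val` lie in an interval of length `2 H G/(q X)`, at most `2HG/(qX) + 1` values; `Σ_{q ≤ H} (q+1)(2HG/(qX) + 1) ≤ Σ_{q ≤ H} (4HG/X + 2q) ≤ 4H²G/X + 2H² ≤ 6H²G/X`.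
`‖UU j‖ = ‖P1 - F2‖ ≤ X/L^A'` for all `j` (`E2.sup_close A'`, `LS.tr_ip`, `LS.tr_f2`, `LS.tr_add`), `‖VV j‖ ≤ 3XL` (`norms`):
`‖Ph‖ ≤ (1/G) · 6 H² (G/X) · (X/L^A') · 3XL = 18 X L^(2K1+1-A')`, `A' = 2 K1 + A + 2`.
-/

set_option autoImplicit false

namespace Pool.MP_dd84fd_nt.GX

open Finset Pool.MP_67663b_nt.Odd Pool.MP_dd84fd_nt.En Pool.MP_dd84fd_nt.E2 Pool.MP_dd84fd_nt.LS

open Pool.MP_dd84fd_nt.L2G (nrm)

/-- integers in an interval -/
private theorem maj_int (c R : ℝ) (hR : 0 ≤ R) :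
    ((Finset.Icc ⌈c - R⌉ ⌊c + R⌋).card : ℝ) ≤ 2 * R + 1 := by
  rw [Int.card_Icc]
  have h1 : (⌊c + R⌋ : ℝ) ≤ c + R := Int.floor_le _
  have h2 : c - R ≤ (⌈c - R⌉ : ℝ) := Int.le_ceil _
  rcases le_total 0 (⌊c + R⌋ + 1 - ⌈c - R⌉) with h | h
  · have h3 : (((⌊c + R⌋ + 1 - ⌈c - R⌉).toNat : ℤ) : ℝ) = ((⌊c + R⌋ + 1 - ⌈c - R⌉ : ℤ) : ℝ) := by
      rw [Int.toNat_of_nonneg h]
    have h4 : (((⌊c + R⌋ + 1 - ⌈c - R⌉).toNat : ℕ) : ℝ) =
        (((⌊c + R⌋ + 1 - ⌈c - R⌉).toNat : ℤ) : ℝ) := (Int.cast_natCast _).symm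
    rw [h4, h3]
    push_cast
    linarith
  · rw [Int.toNat_of_nonpos h]
    push_cast
    linarith

private theorem maj_count (X G : ℕ) [NeZero G] (hX : 1 ≤ X) (hG : 3 * X ≤ G) (H : ℝ)
    (hH1 : 1 ≤ H) (hHX : H < X) (J : Finset (ZMod G)) (hJ : ∀ j ∈ J, Ht H X (al G j)) :
    (J.card : ℝ) ≤ 6 * H ^ 3 * (G / X) := by
  classical
  have X0 : (0 : ℝ) < X := by exact_mod_cast hX
  have G0 : (0 : ℝ) < G := by
    have : 0 < G := by omega
    exact_mod_cast this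
  have hGX : (3 : ℝ) ≤ G / X := by
    rw [le_div_iff₀ X0]
    exact_mod_cast hG
  obtain ⟨R, hR⟩ : ∃ R : ℝ, R = H * G / X := ⟨_, rfl⟩
  have hR3 : 3 ≤ R := by
    have h1 : H * G / X = H * (G / X) := by ring
    rw [hR, h1]
    have h2 : 1 * (3 : ℝ) ≤ H * (G / X) := mul_le_mul hH1 hGX (by norm_num) (by linarith)
    linarith
  obtain ⟨h, hh⟩ : ∃ h : ℕ, h = ⌊H⌋₊ := ⟨_, rfl⟩
  have hhH : (h : ℝ) ≤ H := by
    rw [hh]
    exact Nat.floor_le (by linarith)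
  obtain ⟨P, hP⟩ : ∃ P : Finset (ℕ × ℕ), P = Finset.Icc 1 h ×ˢ Finset.range (h + 1) := ⟨_, rfl⟩
  have hcov : J ⊆ P.biUnion fun p =>
      J.filter fun j => |(j.val : ℝ) - (p.2 : ℝ) * G / p.1| ≤ R := by
    intro j hj
    obtain ⟨q, a, hq, _, hle⟩ := hJ j hj
    obtain ⟨θ, hθ⟩ : ∃ θ, θ = al G j := ⟨_, rfl⟩
    rw [← hθ] at hle
    have q0 : (0 : ℝ) < q := by exact_mod_cast hq
    have habs : 0 ≤ |θ - (a : ℝ) / q| := abs_nonneg _
    have hqH : (q : ℝ) ≤ H := by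
      have h1 : 0 ≤ (q : ℝ) * (X * |θ - (a : ℝ) / q|) := by positivity
      linarith
    have hqX : (q : ℝ) * (X * |θ - (a : ℝ) / q|) ≤ H := by linarith
    have hθ0 : 0 ≤ θ := by
      rw [hθ]
      unfold al
      positivity
    have hθ1 : θ < 1 := by
      rw [hθ]
      unfold al
      rw [div_lt_one G0]
      exact_mod_cast ZMod.val_lt j
    have hqa : |q * θ - a| * X ≤ H := by
      have h1 : |q * θ - a| = q * |θ - (a : ℝ) / q| := by
        rw [← abs_of_pos q0, ← abs_mul, abs_of_pos q0]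
        congr 1
        field_simp
      rw [h1]
      linarith
    have hqa1 : |q * θ - a| < 1 := by
      by_contra hcon
      push Not at hcon
      have h1 : 1 * (X : ℝ) ≤ |q * θ - a| * X := mul_le_mul_of_nonneg_right hcon X0.le
      linarith
    rw [abs_lt] at hqa1
    have hqθ0 : 0 ≤ (q : ℝ) * θ := by positivity
    have hqθ1 : (q : ℝ) * θ < q := by
      have := mul_lt_mul_of_pos_left hθ1 q0
      linarith
    have ha0 : 0 ≤ a := by
      have h1 : (-1 : ℝ) < a := by linarith [hqa1.2]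
      have h2 : (-1 : ℤ) < a := by exact_mod_cast h1
      omega
    have haq : a ≤ q := by
      have h1 : (a : ℝ) < q + 1 := by linarith [hqa1.1]
      have h2 : a < (q : ℤ) + 1 := by exact_mod_cast h1
      omega
    obtain ⟨b, rfl⟩ := Int.eq_ofNat_of_zero_le ha0
    have hbq : b ≤ q := by exact_mod_cast haq
    have hqh : q ≤ h := by
      rw [hh]
      exact Nat.le_floor hqH
    rw [mem_biUnion]
    refine ⟨(q, b), ?_, ?_⟩
    · rw [hP, mem_product, mem_Icc, mem_range]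
      exact ⟨⟨hq, hqh⟩, by
        show b < h + 1
        omega⟩
    · rw [mem_filter]
      refine ⟨hj, ?_⟩
      show |(j.val : ℝ) - (b : ℝ) * G / q| ≤ R
      have h1 : (j.val : ℝ) - (b : ℝ) * G / q = G * (θ - ((b : ℤ) : ℝ) / q) := by
        rw [hθ]
        unfold al
        push_cast
        field_simp
      rw [h1, abs_mul, abs_of_pos G0, hR, le_div_iff₀ X0]
      have q1 : (1 : ℝ) ≤ q := by exact_mod_cast hq
      have h2 : 1 * (X * |θ - ((b : ℤ) : ℝ) / q|) ≤ (q : ℝ) * (X * |θ - ((b : ℤ) : ℝ) / q|) :=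
        mul_le_mul_of_nonneg_right q1 (by positivity)
      have h3 : X * |θ - ((b : ℤ) : ℝ) / q| * G ≤ H * G :=
        mul_le_mul_of_nonneg_right (by linarith) G0.le
      linarith
  have hone : ∀ p ∈ P, ((J.filter fun j => |(j.val : ℝ) - (p.2 : ℝ) * G / p.1| ≤ R).card : ℝ) ≤
      3 * R := by
    intro p _
    obtain ⟨c, hc⟩ : ∃ c : ℝ, c = (p.2 : ℝ) * G / p.1 := ⟨_, rfl⟩
    rw [← hc]
    have h1 : (J.filter fun j => |(j.val : ℝ) - c| ≤ R).card ≤
        (Finset.Icc ⌈c - R⌉ ⌊c + R⌋).card := by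
      refine card_le_card_of_injOn (fun j => (j.val : ℤ)) ?_ ?_
      · intro j hj
        have h2 := (mem_filter.1 (mem_coe.1 hj)).2
        rw [abs_le] at h2
        rw [mem_coe, mem_Icc]
        refine ⟨Int.ceil_le.2 ?_, Int.le_floor.2 ?_⟩
        · push_cast
          linarith [h2.1]
        · push_cast
          linarith [h2.2]
      · intro j _ j' _ hjj
        have h2 : (j.val : ℤ) = (j'.val : ℤ) := hjj
        exact ZMod.val_injective G (by exact_mod_cast h2)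
    have h2 := maj_int c R (by linarith)
    have h3 : ((J.filter fun j => |(j.val : ℝ) - c| ≤ R).card : ℝ) ≤
        ((Finset.Icc ⌈c - R⌉ ⌊c + R⌋).card : ℝ) := by exact_mod_cast h1
    linarith
  have hPc : (P.card : ℝ) ≤ 2 * H ^ 2 := by
    rw [hP, card_product, Nat.card_Icc, card_range, Nat.add_sub_cancel]
    push_cast
    have h1 : (h : ℝ) * (h + 1) ≤ H * (H + 1) :=
      mul_le_mul hhH (by linarith) (by positivity) (by linarith)
    have h2 : H * 1 ≤ H * H := mul_le_mul_of_nonneg_left hH1 (by linarith)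
    have h3 : H ^ 2 = H * H := by ring
    rw [h3]
    linarith
  have h1 : (J.card : ℝ) ≤ ∑ p ∈ P,
      ((J.filter fun j => |(j.val : ℝ) - (p.2 : ℝ) * G / p.1| ≤ R).card : ℝ) := by
    have h2 := (card_le_card hcov).trans card_biUnion_le
    exact_mod_cast h2
  have h2 := h1.trans (sum_le_sum hone)
  rw [sum_const, nsmul_eq_mul] at h2
  have h3 : (P.card : ℝ) * (3 * R) ≤ 2 * H ^ 2 * (3 * R) :=
    mul_le_mul_of_nonneg_right hPc (by linarith)
  have h4 : 2 * H ^ 2 * (3 * R) = 6 * H ^ 3 * (G / X) := by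
    rw [hR]
    ring
  linarith

private theorem maj_UU (G : ℕ) [NeZero G] (X w : ℕ) (j : ZMod G) :
    UU G X w j = P1 X (al G j) - F2 w X (al G j) := by
  have h1 : UU G X w j = tr G X ip j - tr G X (f2 w) j := by
    unfold UU tr
    rw [← Finset.sum_sub_distrib]
    refine Finset.sum_congr rfl (fun n _ => ?_)
    push_cast
    ring
  rw [h1, tr_ip, tr_f2]
  rfl

theorem maj (K1 A : ℕ) : ∃ D0 : ℕ, ∀ D' : ℕ, D0 ≤ D' → ∃ X0 : ℕ, ∀ X : ℕ, X0 ≤ X →
    ∀ (G : ℕ) [NeZero G], 3 * X ≤ G → ∀ V : ZMod G → ℂ, VB G X V →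
    ∀ ω : ZMod G → ℂ, (∀ j, ‖ω j‖ ≤ 1) →
    (∀ j, ω j ≠ 0 → Ht ((Real.log X) ^ K1) X (al G j)) → ∀ n : ℕ,
    ‖Ph G X (wX D' X) V ω n‖ ≤ X / (Real.log X) ^ A := by
  classical
  obtain ⟨D0, hD0⟩ := sup_close (3 * K1 + A + 2)
  refine ⟨D0, fun D' hD' => ?_⟩
  obtain ⟨X1, hX1⟩ := hD0 D' hD'
  have hlog : ∀ᶠ x : ℝ in Filter.atTop, ‖Real.log x ^ K1‖ ≤ (1 / 2) * ‖id x‖ :=
    (Real.isLittleO_pow_log_id_atTop (n := K1)).bound (by norm_num)
  obtain ⟨x0, hx0⟩ := Filter.eventually_atTop.1 hlog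
  obtain ⟨X2, hX2⟩ := exists_nat_ge (max x0 (Real.exp 18))
  refine ⟨max X1 X2, fun X hX G hGz hG V hV ω hω hHt n => ?_⟩
  have hXX1 : X1 ≤ X := (le_max_left _ _).trans hX
  have hXX2 : (X2 : ℝ) ≤ X := by exact_mod_cast (le_max_right _ _).trans hX
  have hXx : x0 ≤ X := ((le_max_left _ _).trans hX2).trans hXX2
  have hXe : Real.exp 18 ≤ X := ((le_max_right _ _).trans hX2).trans hXX2
  have X0 : (0 : ℝ) < X := lt_of_lt_of_le (Real.exp_pos _) hXe
  have hX1' : 1 ≤ X := by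
    have : 0 < X := by exact_mod_cast X0
    exact this
  have G0 : (0 : ℝ) < G := by
    have : 0 < G := by omega
    exact_mod_cast this
  have hclose := hX1 X hXX1
  obtain ⟨L, hL⟩ : ∃ L, L = Real.log (X : ℝ) := ⟨_, rfl⟩
  have L18 : 18 ≤ L := by
    rw [hL, Real.le_log_iff_exp_le X0]
    exact hXe
  have L0 : 0 < L := by linarith
  have hHX : L ^ K1 < X := by
    have h1 := hx0 X hXx
    rw [← hL, Real.norm_of_nonneg (by positivity)] at h1
    have h2 : ‖(id (X : ℝ))‖ = X := Real.norm_of_nonneg X0.le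
    rw [h2] at h1
    linarith
  rw [← hL] at hclose hHt ⊢
  have hVs : ∀ j, ‖V j‖ ≤ 3 * X * L := by
    intro j
    rw [hL]
    exact hV.2 j
  have hH1 : 1 ≤ L ^ K1 := one_le_pow₀ (by linarith)
  obtain ⟨J, hJ⟩ : ∃ J : Finset (ZMod G), J = univ.filter fun j => ω j ≠ 0 := ⟨_, rfl⟩
  have hJH : ∀ j ∈ J, Ht (L ^ K1) X (al G j) := by
    intro j hj
    rw [hJ, mem_filter] at hj
    exact hHt j hj.2
  have hcard := maj_count X G hX1' hG (L ^ K1) hH1 hHX J hJH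
  obtain ⟨B, hB⟩ : ∃ B : ℝ, B = X / L ^ (3 * K1 + A + 2) * (3 * X * L) := ⟨_, rfl⟩
  have hB0 : 0 ≤ B := by
    rw [hB]
    positivity
  have hterm : ∀ j : ZMod G, ‖ω j * UU G X (wX D' X) j * V j *
      ZMod.stdAddChar (-((n : ZMod G) * j))‖ ≤ if j ∈ J then B else 0 := by
    intro j
    have hchi : ‖(ZMod.stdAddChar (-((n : ZMod G) * j)) : ℂ)‖ = 1 := AddChar.norm_apply _ _
    by_cases hj : ω j = 0
    · rw [hj, zero_mul, zero_mul, zero_mul, norm_zero]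
      split_ifs
      · exact hB0
      · exact le_rfl
    · have hjJ : j ∈ J := by
        rw [hJ, mem_filter]
        exact ⟨mem_univ _, hj⟩
      rw [if_pos hjJ, norm_mul, norm_mul, norm_mul, hchi, mul_one, maj_UU, hB]
      have h1 := hclose (al G j)
      have h2 : ‖ω j‖ * ‖P1 X (al G j) - F2 (wX D' X) X (al G j)‖ ≤
          1 * (X / L ^ (3 * K1 + A + 2)) :=
        mul_le_mul (hω j) h1 (norm_nonneg _) (by norm_num)
      rw [one_mul] at h2
      exact mul_le_mul h2 (hVs j) (norm_nonneg _) (by positivity)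
  have hsum : ‖∑ j : ZMod G, ω j * UU G X (wX D' X) j * V j *
      ZMod.stdAddChar (-((n : ZMod G) * j))‖ ≤ J.card * B := by
    refine (norm_sum_le _ _).trans ((sum_le_sum fun j _ => hterm j).trans ?_)
    rw [← sum_filter, sum_const, nsmul_eq_mul]
    refine le_of_eq ?_
    congr 2
    congr 1
    ext j
    simp
  unfold Ph
  rw [norm_mul, norm_div, norm_one, Complex.norm_natCast]
  have h1 : (1 / (G : ℝ)) * ‖∑ j : ZMod G, ω j * UU G X (wX D' X) j * V j *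
      ZMod.stdAddChar (-((n : ZMod G) * j))‖ ≤
      (1 / (G : ℝ)) * (6 * (L ^ K1) ^ 3 * (G / X) * B) :=
    mul_le_mul_of_nonneg_left (hsum.trans (mul_le_mul_of_nonneg_right hcard hB0)) (by positivity)
  refine h1.trans ?_
  have h2 : (1 / (G : ℝ)) * (6 * (L ^ K1) ^ 3 * (G / X) * B) = X * (18 / (L * L ^ A)) := by
    have e1 : L ^ (3 * K1 + A + 2) = (L ^ K1) ^ 3 * L ^ A * (L * L) := by
      rw [← pow_mul, ← pow_two, ← pow_add, ← pow_add]
      congr 1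
      ring
    have hK : (L ^ K1) ≠ 0 := by positivity
    have hA : (L ^ A) ≠ 0 := by positivity
    rw [hB, e1]
    field_simp
    ring
  rw [h2, div_eq_mul_one_div (X : ℝ) (L ^ A)]
  refine mul_le_mul_of_nonneg_left ?_ X0.le
  rw [div_le_div_iff₀ (by positivity) (by positivity)]
  have hA0 : 0 < L ^ A := by positivity
  have h3 := mul_le_mul_of_nonneg_right L18 hA0.le
  linarith

end Pool.MP_dd84fd_nt.GX
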