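import Pool.Agent.Lib.MP_dd84fd_nt.GX.Defs
import Pool.Agent.Lib.MP_dd84fd_nt.GX.ST
import Pool.Agent.Lib.MP_dd84fd_nt.GX.DivPow
import Pool.Agent.Lib.MP_dd84fd_nt.GX.Maj
import Pool.Agent.Lib.MP_dd84fd_nt.GX.Rep
import Pool.Agent.Lib.MP_dd84fd_nt.GX.Nrm
import Pool.Agent.Lib.MP_dd84fd_nt.GX.Den

/-!
# GX-MT (1 h): the main theorem

Proof. `L = log X`, `G = 3X`. `C` = constant of `st (A + 4)`. `K0 = K1` with `K1 κ/2 ≥ C + 1` and `K1 ≥ K`. `D0 ≥ 1` and `≥` the constant of `maj K1 (A + 1)`.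
`1 = ω_M + Σ_{a, b ∈ range (Nat.log 2 X + 1)} ω_ab`, `ω_M = 1[Ht (L^K1) X (al j)]`, `ω_ab = 1[¬ Ht ∧ inBlk X a b]` (each `j` is in exactly one block, `1 ≤ qd ≤ ht ≤ √X`, `ht_spec`).
`Ph` is linear in `ω`; `Σ e(n) (g n - conv2) = Σ_n e(n) Ph 1 n` (`rep`). `maj`: `‖Σ_n e(n) Ph ω_M n‖ ≤ #E X/L^(A+1)`. Block `(a, b)`, non-empty (otherwise `ω_ab = 0`, `Ph = 0`): there is `j`, not `Ht (L^K1)`, so
`L^K1/2 < ht < 2^(b+1)` (`ht_large`): `2^b > L^K1/4`; `2^b ≤ √X`; `T = X/(16·2^b)` satisfies `q T ≤ 2^(b+1) X/(16·2^b) ≤ X`, `√X/32 ≤ X/(32·2^b) ≤ T ≤ X/(16·2^b) ≤ X/(4 L^K1) ≤ X/L^K0`. `ρ = (T/X)^κ ≤ (16·2^b)^(-κ)`; `q = qd ≤ ht < 2^(b+1)`, `q ≤ √X`: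
`ρ τ(q) ≤ (16·2^b)^(-κ) C_κ (2^(b+1))^(κ/2) ≤ C_κ 2^κ (2^b)^(-κ/2) ≤ C_κ 2^κ (L^K1/4)^(-κ/2) ≤ 1/L^C` for `X` large (`div_pow (κ/2)`; `K1 κ/2 ≥ C + 1`). The second part of `NoAP` is `hAP`. `st (A+4)`: `≤ X #E/L^(A+4)`,
at most `(1 + log_2 X)² ≤ 9 L²` blocks. Total `≤ X #E (1/L^(A+1) + 9/L^(A+2)) ≤ X #E/L^A`.
-/

set_option autoImplicit false

namespace Pool.MP_dd84fd_nt.GX

open Finset Pool.MP_67663b_nt.Odd Pool.MP_dd84fd_nt.En Pool.MP_dd84fd_nt.E2 Pool.MP_dd84fd_nt.LS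

open Pool.MP_dd84fd_nt.L2G (nrm)

private theorem mt_sum {ι : Type*} (G : ℕ) [NeZero G] (X w : ℕ) (V : ZMod G → ℂ) (s : Finset ι)
    (f : ι → ZMod G → ℂ) (n : ℕ) :
    Ph G X w V (fun j => ∑ i ∈ s, f i j) n = ∑ i ∈ s, Ph G X w V (f i) n := by
  unfold Ph
  rw [← Finset.mul_sum, Finset.sum_comm]
  congr 1
  refine Finset.sum_congr rfl fun j _ => ?_
  simp only [Finset.sum_mul]

private theorem mt_add (G : ℕ) [NeZero G] (X w : ℕ) (V f h : ZMod G → ℂ) (n : ℕ) :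
    Ph G X w V (fun j => f j + h j) n = Ph G X w V f n + Ph G X w V h n := by
  unfold Ph
  rw [← mul_add, ← Finset.sum_add_distrib]
  congr 1
  refine Finset.sum_congr rfl fun j _ => ?_
  ring

open Classical in
private noncomputable def mtM (X : ℕ) (H : ℝ) (G : ℕ) (j : ZMod G) : ℂ :=
  if Ht H X (al G j) then 1 else 0

open Classical in
private noncomputable def mtB (X : ℕ) (H : ℝ) (G : ℕ) (p : ℕ × ℕ) (j : ZMod G) : ℂ :=
  if ¬ Ht H X (al G j) ∧ inBlk X p.1 p.2 (al G j) then 1 else 0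

private theorem mt_blk (X : ℕ) (hX : 1 ≤ X) (α : ℝ) :
    ∃ p ∈ (range (Nat.log 2 X + 1)) ×ˢ (range (Nat.log 2 X + 1)), inBlk X p.1 p.2 α ∧
      ∀ p' : ℕ × ℕ, inBlk X p'.1 p'.2 α → p' = p := by
  obtain ⟨q1, q2, -, -⟩ := qd_spec X hX α
  obtain ⟨h1, h2, -, -⟩ := ht_spec X hX α
  have hq0 : qd X α ≠ 0 := by omega
  have hf1 : 1 ≤ ⌊ht X α⌋₊ := Nat.le_floor (by exact_mod_cast h1)
  have hf0 : ⌊ht X α⌋₊ ≠ 0 := by omega
  have hsX : Nat.sqrt X ≤ X := Nat.sqrt_le_self X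
  have hfX : ⌊ht X α⌋₊ ≤ X := by
    have h3 : Real.sqrt X ≤ X := by
      rw [Real.sqrt_le_left (Nat.cast_nonneg X)]
      have : (1 : ℝ) ≤ X := by exact_mod_cast hX
      nlinarith
    have h4 : (⌊ht X α⌋₊ : ℝ) ≤ X := (Nat.floor_le (by linarith)).trans (h2.trans h3)
    exact_mod_cast h4
  refine ⟨(Nat.log 2 (qd X α), Nat.log 2 ⌊ht X α⌋₊), ?_, ?_, ?_⟩
  · rw [mem_product, mem_range, mem_range]
    exact ⟨Nat.lt_succ_of_le (Nat.log_mono_right (b := 2) (q2.trans hsX)),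
      Nat.lt_succ_of_le (Nat.log_mono_right (b := 2) hfX)⟩
  · refine ⟨Nat.pow_log_le_self 2 hq0, Nat.lt_pow_succ_log_self (by norm_num) _, ?_, ?_⟩
    · have h3 : ((2 ^ Nat.log 2 ⌊ht X α⌋₊ : ℕ) : ℝ) ≤ (⌊ht X α⌋₊ : ℝ) := by
        exact_mod_cast Nat.pow_log_le_self 2 hf0
      push_cast at h3
      exact h3.trans (Nat.floor_le (by linarith))
    · have h3 : ⌊ht X α⌋₊ < 2 ^ (Nat.log 2 ⌊ht X α⌋₊ + 1) := Nat.lt_pow_succ_log_self (by norm_num) _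
      have h4 := (Nat.floor_lt' (by positivity)).1 h3
      push_cast at h4
      exact h4
  · rintro ⟨a, b⟩ ⟨k1, k2, k3, k4⟩
    have e1 : Nat.log 2 (qd X α) = a := Nat.log_eq_of_pow_le_of_lt_pow k1 k2
    have e2 : Nat.log 2 ⌊ht X α⌋₊ = b := by
      refine Nat.log_eq_of_pow_le_of_lt_pow (Nat.le_floor (by exact_mod_cast k3)) ?_
      rw [Nat.floor_lt' (by positivity)]
      exact_mod_cast k4
    rw [e1, e2]

private theorem mt_one (X : ℕ) (hX : 1 ≤ X) (H : ℝ) (G : ℕ) (j : ZMod G) :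
    (1 : ℂ) = mtM X H G j +
      ∑ p ∈ (range (Nat.log 2 X + 1)) ×ˢ (range (Nat.log 2 X + 1)), mtB X H G p j := by
  unfold mtM mtB
  by_cases hH : Ht H X (al G j)
  · simp [hH]
  · obtain ⟨p, hp, h1, h2⟩ := mt_blk X hX (al G j)
    rw [Finset.sum_eq_single p]
    · simp [hH, h1]
    · intro p' _ hne
      rw [if_neg]
      rintro ⟨-, h3⟩
      exact hne (h2 p' h3)
    · intro h3
      exact absurd hp h3

private theorem mt_log (X : ℕ) (hL : 1 ≤ Real.log X) :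
    ((Nat.log 2 X + 1 : ℕ) : ℝ) ≤ 3 * Real.log X := by
  have h1 : ((Nat.log 2 X : ℕ) : ℝ) ≤ Real.logb 2 X := by
    have := Real.natLog_le_logb X 2
    exact_mod_cast this
  have h2 : Real.logb 2 X ≤ 2 * Real.log X := by
    rw [Real.logb, div_le_iff₀ (Real.log_pos (by norm_num))]
    have := Real.log_two_gt_d9
    nlinarith
  push_cast
  linarith

/-- numerical conditions for the length of the progressions -/
private theorem mt_len (X b K1 : ℕ) (hX : 1024 ≤ X) (hL : 1 ≤ Real.log X)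
    (h1 : (Real.log X) ^ K1 / 2 < (2 : ℝ) ^ (b + 1)) (h2 : (2 : ℝ) ^ b ≤ Real.sqrt X) :
    Real.sqrt X / 32 ≤ ((X / (16 * 2 ^ b) : ℕ) : ℝ) ∧
    ((X / (16 * 2 ^ b) : ℕ) : ℝ) ≤ X / (Real.log X) ^ K1 ∧
    ((X / (16 * 2 ^ b) : ℕ) : ℝ) ≤ X / (16 * 2 ^ b) := by
  have hXr : (1024 : ℝ) ≤ X := by exact_mod_cast hX
  have hX0 : (0 : ℝ) < X := by linarith
  have hs : 32 ≤ Real.sqrt X := by
    rw [Real.le_sqrt (by norm_num) hX0.le]
    linarith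
  have hY : (0 : ℝ) < 2 ^ b := by positivity
  have hLK : (0 : ℝ) < (Real.log X) ^ K1 := by positivity
  have h3 : ((X / (16 * 2 ^ b) : ℕ) : ℝ) ≤ X / (16 * 2 ^ b) := by
    have := @Nat.cast_div_le ℝ _ _ _ X (16 * 2 ^ b)
    push_cast at this
    exact this
  refine ⟨?_, ?_, h3⟩
  · have h4 : X < (X / (16 * 2 ^ b) + 1) * (16 * 2 ^ b) := by
      have := Nat.div_add_mod X (16 * 2 ^ b)
      have h5 := Nat.mod_lt X (show 0 < 16 * 2 ^ b by positivity)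
      nlinarith
    have h5 : (X : ℝ) < (((X / (16 * 2 ^ b) : ℕ) : ℝ) + 1) * (16 * 2 ^ b) := by exact_mod_cast h4
    have h6 : (X : ℝ) = Real.sqrt X * Real.sqrt X := (Real.mul_self_sqrt hX0.le).symm
    have h7 : (((X / (16 * 2 ^ b) : ℕ) : ℝ) + 1) * (16 * 2 ^ b) ≤
        (((X / (16 * 2 ^ b) : ℕ) : ℝ) + 1) * (16 * Real.sqrt X) :=
      mul_le_mul_of_nonneg_left (by linarith) (by positivity)
    have h8 : Real.sqrt X * Real.sqrt X < (((X / (16 * 2 ^ b) : ℕ) : ℝ) + 1) * 16 * Real.sqrt X := by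
      calc Real.sqrt X * Real.sqrt X = X := h6.symm
        _ < (((X / (16 * 2 ^ b) : ℕ) : ℝ) + 1) * (16 * Real.sqrt X) := h5.trans_le h7
        _ = _ := by ring
    have h9 : Real.sqrt X < (((X / (16 * 2 ^ b) : ℕ) : ℝ) + 1) * 16 :=
      lt_of_mul_lt_mul_right h8 (Real.sqrt_nonneg _)
    linarith
  · refine h3.trans ?_
    refine div_le_div_of_nonneg_left hX0.le hLK ?_
    rw [pow_succ] at h1
    linarith

private theorem mt_rho (κ Cκ : ℝ) (hκ : 0 < κ) (hC1 : 1 ≤ Cκ) (K1 C : ℕ) (L X T Y q : ℝ)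
    (hK1 : (C : ℝ) + 1 ≤ K1 * (κ / 2)) (hL : 1 ≤ L) (hLC : Cκ * (2 : ℝ) ^ (κ / 2) ≤ L)
    (hX : 0 < X) (hT : 0 ≤ T) (hY : 0 < Y) (hTX : T ≤ X / (16 * Y)) (hq0 : 0 ≤ q)
    (hq : q ≤ 2 * Y) (hY2 : L ^ K1 / 2 < 2 * Y) (τ : ℝ) (hτ : τ ≤ Cκ * q ^ (κ / 2)) :
    (T / X) ^ κ * τ ≤ 1 / L ^ C := by
  have hκ2 : 0 < κ / 2 := by linarith
  have hY20 : 0 < 2 * Y := by linarith
  have hC0 : 0 < Cκ := by linarith
  have hL0 : 0 < L := by linarith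
  have h1 : T / X ≤ (2 * Y)⁻¹ := by
    rw [div_le_iff₀ hX]
    refine hTX.trans ?_
    rw [div_eq_mul_inv, mul_comm X]
    refine mul_le_mul_of_nonneg_right ?_ hX.le
    exact inv_anti₀ hY20 (by linarith)
  have h2 : (T / X) ^ κ ≤ ((2 * Y)⁻¹) ^ κ := Real.rpow_le_rpow (div_nonneg hT hX.le) h1 hκ.le
  have h3 : τ ≤ Cκ * (2 * Y) ^ (κ / 2) :=
    hτ.trans (mul_le_mul_of_nonneg_left (Real.rpow_le_rpow hq0 hq hκ2.le) hC0.le)
  have h4 : (T / X) ^ κ * τ ≤ ((2 * Y)⁻¹) ^ κ * (Cκ * (2 * Y) ^ (κ / 2)) := by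
    refine (mul_le_mul_of_nonneg_left h3 (Real.rpow_nonneg (div_nonneg hT hX.le) _)).trans ?_
    exact mul_le_mul_of_nonneg_right h2 (by positivity)
  refine h4.trans ?_
  have h5 : ((2 * Y)⁻¹) ^ κ = ((2 * Y) ^ (κ / 2))⁻¹ * ((2 * Y) ^ (κ / 2))⁻¹ := by
    rw [Real.inv_rpow hY20.le, ← mul_inv, ← Real.rpow_add hY20]
    congr 2
    ring
  have hP : 0 < (2 * Y) ^ (κ / 2) := Real.rpow_pos_of_pos hY20 _
  have h6 : ((2 * Y)⁻¹) ^ κ * (Cκ * (2 * Y) ^ (κ / 2)) = Cκ / (2 * Y) ^ (κ / 2) := by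
    rw [h5]
    field_simp
  rw [h6, div_le_div_iff₀ hP (by positivity), one_mul]
  -- Cκ * L^C ≤ (2Y)^(κ/2)
  have hLK : 0 < L ^ K1 / 2 := by positivity
  have h7 : (L ^ K1 / 2) ^ (κ / 2) ≤ (2 * Y) ^ (κ / 2) := Real.rpow_le_rpow hLK.le hY2.le hκ2.le
  refine le_trans ?_ h7
  rw [Real.div_rpow (by positivity) (by norm_num), le_div_iff₀ (Real.rpow_pos_of_pos (by norm_num) _)]
  have h8 : (L ^ K1) ^ (κ / 2) = L ^ ((K1 : ℝ) * (κ / 2)) := by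
    rw [← Real.rpow_natCast L K1, ← Real.rpow_mul hL0.le]
  rw [h8]
  calc Cκ * L ^ C * (2 : ℝ) ^ (κ / 2) = (Cκ * (2 : ℝ) ^ (κ / 2)) * L ^ C := by ring
    _ ≤ L * L ^ C := mul_le_mul_of_nonneg_right hLC (by positivity)
    _ = L ^ ((C : ℝ) + 1) := by
      rw [Real.rpow_add hL0, Real.rpow_natCast, Real.rpow_one]
      ring
    _ ≤ L ^ ((K1 : ℝ) * (κ / 2)) := Real.rpow_le_rpow_of_exponent_le hL hK1

/-- the general form: `V` arbitrary -/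
theorem mtV (A K : ℕ) (ε κ : ℝ) (hε : 0 < ε) (hκ : 0 < κ) : ∃ K0 D0 : ℕ, K ≤ K0 ∧
    ∀ D' : ℕ, D0 ≤ D' → ∃ X0 : ℕ, ∀ X : ℕ, X0 ≤ X → ∀ (G : ℕ) [NeZero G], 3 * X ≤ G →
    ∀ V : ZMod G → ℂ, VB G X V → ∀ E : Finset ℕ, E ⊆ Icc 1 X →
    (X : ℝ) ^ (1 / 2 + ε) ≤ E.card →
    (∀ (c : ℤ) (q T : ℕ), 1 ≤ q → (q : ℝ) ≤ Real.sqrt X → q * T ≤ X → Real.sqrt X / 32 ≤ T →
      (T : ℝ) ≤ X / (Real.log X) ^ K0 → ((inAP E c q T).card : ℝ) ≤ ((T : ℝ) / X) ^ κ * E.card) →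
    ∀ e : ℕ → ℂ, (∀ n, ‖e n‖ ≤ 1) →
    ‖∑ n ∈ E, e n * Ph G X (wX D' X) V (fun _ => 1) n‖ ≤ X * E.card / (Real.log X) ^ A := by
  obtain ⟨C, hC⟩ := st (A + 4)
  obtain ⟨Cκ, hCκ1, hCκ⟩ := div_pow (κ / 2) (by linarith)
  obtain ⟨K1', hK1'⟩ := exists_nat_ge (((C : ℝ) + 1) / (κ / 2))
  set K1 : ℕ := max K K1' with hK1def
  have hK1 : (C : ℝ) + 1 ≤ K1 * (κ / 2) := by
    have h1 : ((C : ℝ) + 1) / (κ / 2) ≤ (K1 : ℝ) :=
      hK1'.trans (by exact_mod_cast le_max_right _ _)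
    exact (div_le_iff₀ (by linarith)).1 h1
  obtain ⟨D1, hD1⟩ := maj K1 (A + 1)
  refine ⟨K1, max 1 D1, le_max_left _ _, fun D' hD' => ?_⟩
  obtain ⟨X1, hX1⟩ := hD1 D' ((le_max_right _ _).trans hD')
  obtain ⟨X2, hX2⟩ := hC ε D' hε ((le_max_left _ _).trans hD')
  obtain ⟨X3, hX3⟩ := Filter.eventually_atTop.1
    ((Real.tendsto_log_atTop.comp tendsto_natCast_atTop_atTop).eventually
      (Filter.eventually_ge_atTop (max 10 (Cκ * (2 : ℝ) ^ (κ / 2)))))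
  refine ⟨max (max X1 X2) (max X3 1024), fun X hX G _ hG V hVB E hE hEc hAP e he => ?_⟩
  have k1 : X1 ≤ X := (le_max_left _ _).trans ((le_max_left _ _).trans hX)
  have k2 : X2 ≤ X := (le_max_right _ _).trans ((le_max_left _ _).trans hX)
  have k3 : X3 ≤ X := (le_max_left _ _).trans ((le_max_right _ _).trans hX)
  have k4 : 1024 ≤ X := (le_max_right _ _).trans ((le_max_right _ _).trans hX)
  have hLb : max 10 (Cκ * (2 : ℝ) ^ (κ / 2)) ≤ Real.log X := hX3 X k3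
  set L := Real.log X with hLdef
  have hL10 : 10 ≤ L := (le_max_left _ _).trans hLb
  have hLC : Cκ * (2 : ℝ) ^ (κ / 2) ≤ L := (le_max_right _ _).trans hLb
  have hL1 : 1 ≤ L := by linarith
  have hL0 : 0 < L := by linarith
  have hX1024 : (1024 : ℝ) ≤ X := by exact_mod_cast k4
  have hX0 : (0 : ℝ) < X := by linarith
  have hXone : 1 ≤ X := by omega
  set w := wX D' X with hw
  set P := (range (Nat.log 2 X + 1)) ×ˢ (range (Nat.log 2 X + 1)) with hP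
  have hsplit : ∀ n, Ph G X w V (fun _ => 1) n =
      Ph G X w V (mtM X (L ^ K1) G) n + ∑ p ∈ P, Ph G X w V (mtB X (L ^ K1) G p) n := by
    intro n
    rw [← mt_sum, ← mt_add]
    congr 1
    funext j
    exact mt_one X hXone (L ^ K1) G j
  -- the major arcs
  have hM : ∀ n, ‖Ph G X w V (mtM X (L ^ K1) G) n‖ ≤ X / L ^ (A + 1) := by
    refine fun n => hX1 X k1 G hG V hVB _ (fun j => ?_) (fun j hj => ?_) n
    · unfold mtM
      split_ifs <;> simp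
    · unfold mtM at hj
      by_contra h
      exact hj (if_neg h)
  -- the blocks
  have hB : ∀ p : ℕ × ℕ, ‖∑ n ∈ E, e n * Ph G X w V (mtB X (L ^ K1) G p) n‖ ≤
      X * E.card / L ^ (A + 4) := by
    intro p
    refine hX2 X k2 G hG V hVB p.1 p.2 _ ⟨fun j => ?_, fun j hj => ?_⟩ E hE hEc (fun n => e n)
      (fun n => ?_) ((((X / (16 * 2 ^ p.2) : ℕ) : ℝ) / X) ^ κ) (by positivity) ?_
    · unfold mtB
      split_ifs <;> simp
    · unfold mtB at hj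
      by_contra h
      exact hj (if_neg fun h' => h h'.2)
    · exact he n
    · intro j hj
      have hj' : ¬ Ht (L ^ K1) X (al G j) ∧ inBlk X p.1 p.2 (al G j) := by
        unfold mtB at hj
        by_contra h
        exact hj (if_neg h)
      obtain ⟨hj1, b1, b2, b3, b4⟩ := hj'
      obtain ⟨q1, q2, -, -⟩ := qd_spec X hXone (al G j)
      obtain ⟨t1, t2, t3, -⟩ := ht_spec X hXone (al G j)
      have hlarge := ht_large X hXone (al G j) (L ^ K1) hj1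
      set q := qd X (al G j) with hq
      have c1 : L ^ K1 / 2 < (2 : ℝ) ^ (p.2 + 1) := hlarge.trans b4
      have c2 : (2 : ℝ) ^ p.2 ≤ Real.sqrt X := b3.trans t2
      obtain ⟨l1, l2, l3⟩ := mt_len X p.2 K1 k4 hL1 c1 c2
      have hqlt : (q : ℝ) < (2 : ℝ) ^ (p.2 + 1) := t3.trans_lt b4
      have hqltN : q < 2 ^ (p.2 + 1) := by exact_mod_cast hqlt
      refine ⟨?_, fun c => hAP c q _ q1 (t3.trans t2) ?_ l1 l2⟩
      · refine mt_rho κ Cκ hκ hCκ1 K1 C L X _ ((2 : ℝ) ^ p.2) q hK1 hL1 hLC hX0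
          (Nat.cast_nonneg _) (by positivity) l3 (Nat.cast_nonneg _) ?_ ?_ _ (hCκ q q1)
        · rw [pow_succ] at hqlt
          linarith
        · rw [pow_succ] at c1
          linarith
      · have h1 : q ≤ 16 * 2 ^ p.2 := by
          rw [pow_succ] at hqltN
          omega
        calc q * (X / (16 * 2 ^ p.2)) ≤ (16 * 2 ^ p.2) * (X / (16 * 2 ^ p.2)) :=
              Nat.mul_le_mul_right _ h1
          _ ≤ X := Nat.mul_div_le _ _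
  -- assembly
  have hsum : ∑ n ∈ E, e n * Ph G X w V (fun _ => 1) n =
      ∑ n ∈ E, e n * Ph G X w V (mtM X (L ^ K1) G) n +
        ∑ p ∈ P, ∑ n ∈ E, e n * Ph G X w V (mtB X (L ^ K1) G p) n := by
    rw [Finset.sum_comm, ← Finset.sum_add_distrib]
    refine Finset.sum_congr rfl fun n _ => ?_
    rw [← Finset.mul_sum, ← mul_add, hsplit n]
  have hcard : (P.card : ℝ) ≤ 9 * L ^ 2 := by
    rw [hP, Finset.card_product, Finset.card_range]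
    have h1 := mt_log X hL1
    have h2 : (0 : ℝ) ≤ ((Nat.log 2 X + 1 : ℕ) : ℝ) := Nat.cast_nonneg _
    rw [Nat.cast_mul]
    calc ((Nat.log 2 X + 1 : ℕ) : ℝ) * ((Nat.log 2 X + 1 : ℕ) : ℝ) ≤ (3 * L) * (3 * L) :=
          mul_le_mul h1 h1 h2 (by linarith)
      _ = 9 * L ^ 2 := by ring
  have hXE : (0 : ℝ) ≤ X * E.card := by positivity
  rw [hsum]
  have hfirst : ‖∑ n ∈ E, e n * Ph G X w V (mtM X (L ^ K1) G) n‖ ≤ X * E.card / L ^ (A + 1) := by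
    refine (norm_sum_le _ _).trans ?_
    have h1 : ∀ n ∈ E, ‖e n * Ph G X w V (mtM X (L ^ K1) G) n‖ ≤ X / L ^ (A + 1) := by
      intro n _
      rw [norm_mul]
      calc ‖e n‖ * ‖Ph G X w V (mtM X (L ^ K1) G) n‖ ≤ 1 * (X / L ^ (A + 1)) :=
            mul_le_mul (he n) (hM n) (norm_nonneg _) (by norm_num)
        _ = _ := one_mul _
    refine (Finset.sum_le_card_nsmul _ _ _ h1).trans (le_of_eq ?_)
    rw [nsmul_eq_mul]
    ring
  have hsecond : ‖∑ p ∈ P, ∑ n ∈ E, e n * Ph G X w V (mtB X (L ^ K1) G p) n‖ ≤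
      9 * L ^ 2 * (X * E.card / L ^ (A + 4)) := by
    refine (norm_sum_le _ _).trans ?_
    refine (Finset.sum_le_card_nsmul _ _ _ fun p _ => hB p).trans ?_
    rw [nsmul_eq_mul]
    exact mul_le_mul_of_nonneg_right hcard (by positivity)
  refine (norm_add_le _ _).trans ((add_le_add hfirst hsecond).trans ?_)
  have hLA : (0 : ℝ) < L ^ A := by positivity
  have e1 : X * (E.card : ℝ) / L ^ (A + 1) = (X * E.card / L ^ A) * (1 / L) := by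
    rw [pow_succ]
    field_simp
  have e2 : 9 * L ^ 2 * (X * (E.card : ℝ) / L ^ (A + 4)) = (X * E.card / L ^ A) * (9 / L ^ 2) := by
    rw [pow_add]
    field_simp
  rw [e1, e2, ← mul_add]
  have h3 : 1 / L + 9 / L ^ 2 ≤ 1 := by
    have h4 : 1 / L ≤ 1 / 10 := one_div_le_one_div_of_le (by norm_num) hL10
    have h5 : 9 / L ^ 2 ≤ 9 / 100 := by
      refine div_le_div_of_nonneg_left (by norm_num) (by norm_num) ?_
      nlinarith
    linarith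
  calc (X * (E.card : ℝ) / L ^ A) * (1 / L + 9 / L ^ 2) ≤ (X * E.card / L ^ A) * 1 :=
        mul_le_mul_of_nonneg_left h3 (by positivity)
    _ = _ := mul_one _

/-- Goldbach: `V = VV`, `G = 3 X` -/
theorem mt (A K : ℕ) (ε κ : ℝ) (hε : 0 < ε) (hκ : 0 < κ) : ∃ K0 D0 : ℕ, K ≤ K0 ∧
    ∀ D' : ℕ, D0 ≤ D' → ∃ X0 : ℕ, ∀ X : ℕ, X0 ≤ X → ∀ E : Finset ℕ, E ⊆ Icc 1 X →
    (X : ℝ) ^ (1 / 2 + ε) ≤ E.card →
    (∀ (c : ℤ) (q T : ℕ), 1 ≤ q → (q : ℝ) ≤ Real.sqrt X → q * T ≤ X → Real.sqrt X / 32 ≤ T →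
      (T : ℝ) ≤ X / (Real.log X) ^ K0 → ((inAP E c q T).card : ℝ) ≤ ((T : ℝ) / X) ^ κ * E.card) →
    ∀ e : ℕ → ℝ, (∀ n, |e n| ≤ 1) →
    |∑ n ∈ E, e n * ((g n : ℝ) - conv2 (wX D' X) n)| ≤ X * E.card / (Real.log X) ^ A := by
  obtain ⟨K0, D0, hK, h⟩ := mtV A K ε κ hε hκ
  refine ⟨K0, D0, hK, fun D' hD' => ?_⟩
  obtain ⟨X1, h1⟩ := h D' hD'
  obtain ⟨X2, h2⟩ := vb_VV D'
  refine ⟨max (max X1 X2) 1, fun X hX E hE hEc hAP e he => ?_⟩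
  have k1 : X1 ≤ X := (le_max_left _ _).trans ((le_max_left _ _).trans hX)
  have k2 : X2 ≤ X := (le_max_right _ _).trans ((le_max_left _ _).trans hX)
  have k3 : 1 ≤ X := (le_max_right _ _).trans hX
  have hz : NeZero (3 * X) := ⟨by omega⟩
  have hw : ((wX D' X : ℕ) : ℝ) ≤ (Real.log X) ^ D' :=
    Nat.floor_le (pow_nonneg (Real.log_natCast_nonneg X) _)
  have h3 := h1 X k1 (3 * X) le_rfl (VV (3 * X) X (wX D' X))
    (h2 X k2 (3 * X) le_rfl (wX D' X) hw) E hE hEc hAP (fun n => (e n : ℂ)) (fun n => by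
      simpa using he n)
  have h4 : ((∑ n ∈ E, e n * ((g n : ℝ) - conv2 (wX D' X) n) : ℝ) : ℂ) =
      ∑ n ∈ E, (e n : ℂ) * Ph (3 * X) X (wX D' X) (VV (3 * X) X (wX D' X)) (fun _ => 1) n := by
    push_cast
    refine Finset.sum_congr rfl fun n hn => ?_
    have hn1 := Finset.mem_Icc.1 (hE hn)
    rw [rep X (3 * X) (wX D' X) le_rfl n hn1.1 hn1.2]
    push_cast
    ring
  rw [← Real.norm_eq_abs, ← Complex.norm_real, h4]
  exact h3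

end Pool.MP_dd84fd_nt.GX
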