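import Pool.Agent.Lib.MP_dd84fd_nt.GX.Defs
import Pool.Agent.Lib.MP_dd84fd_nt.GX.MT
import Pool.Agent.Lib.MP_dd84fd_nt.GX.Greedy
import Pool.Agent.Lib.MP_dd84fd_nt.LS.Point

/-!
# GX-GScale: Theorem G at one scale
-/

set_option autoImplicit false

namespace Pool.MP_dd84fd_nt.GX

open Finset Pool.MP_67663b_nt.Odd Pool.MP_dd84fd_nt.En Pool.MP_dd84fd_nt.E2 Pool.MP_dd84fd_nt.LS

open Pool.MP_dd84fd_nt.L2G (nrm)

private lemma gsc_inAP (E : Finset ℕ) (c : ℤ) (q T : ℕ) [DecidablePred (fun n => apm (c, q, T) n)] :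
    inAP E c q T = E.filter (fun n => apm (c, q, T) n) := by
  ext n
  simp [inAP, apm]

private lemma gsc_point (A Y n : ℕ) (hL : 3 ≤ Real.log Y) (hn : Y < 2 * n) (hnY : n ≤ Y)
    (he : Exc A n) (v : ℝ) (hv : |v - SS n * JJ n| ≤ Y / (4 * (Real.log Y) ^ A)) :
    (Y : ℝ) / (4 * (Real.log Y) ^ A) ≤ |(g n : ℝ) - v| := by
  have hYpos : (0 : ℝ) < Y := by
    rcases Nat.eq_zero_or_pos Y with h | h
    · exfalso
      subst h
      simp at hL
      linarith
    · exact_mod_cast h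
  have hn' : (Y : ℝ) < 2 * n := by exact_mod_cast hn
  have hnY' : (n : ℝ) ≤ Y := by exact_mod_cast hnY
  have hY4 : (4 : ℝ) ≤ Y := by
    have h1 := Real.log_le_sub_one_of_pos hYpos
    linarith
  have hn2 : (1 : ℝ) < n := by linarith
  have hlogn : 0 < Real.log n := Real.log_pos hn2
  have hlogle : Real.log n ≤ Real.log Y := Real.log_le_log (by linarith) hnY'
  have hpow : Real.log n ^ A ≤ Real.log Y ^ A := pow_le_pow_left₀ hlogn.le hlogle A
  have hpn : 0 < Real.log n ^ A := pow_pos hlogn A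
  have hpY : 0 < Real.log Y ^ A := pow_pos (by linarith) A
  have h1 : (Y : ℝ) / (2 * Real.log Y ^ A) ≤ (n : ℝ) / Real.log n ^ A := by
    rw [div_le_div_iff₀ (by positivity) hpn]
    nlinarith
  unfold Exc at he
  have h2 : |(g n : ℝ) - SS n * JJ n| ≤ |(g n : ℝ) - v| + |v - SS n * JJ n| := abs_sub_le _ _ _
  have h3 : (Y : ℝ) / (2 * Real.log Y ^ A) = 2 * (Y / (4 * (Real.log Y) ^ A)) := by
    field_simp
    ring
  linarith

private lemma gsc_sign (x : ℝ) : (if 0 ≤ x then (1 : ℝ) else -1) * x = |x| := by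
  split_ifs with h
  · rw [one_mul, abs_of_nonneg h]
  · rw [abs_of_neg (not_le.1 h)]
    ring

private lemma gsc_sign1 (x : ℝ) : |(if 0 ≤ x then (1 : ℝ) else -1)| ≤ 1 := by
  split_ifs <;> simp

open Classical in
theorem gscale (A K : ℕ) (ε κ : ℝ) (hε : 0 < ε) (hκ : 0 < κ) : ∃ Y0 : ℕ, ∀ Y : ℕ, Y0 ≤ Y →
    ∃ P : Finset (ℤ × ℕ × ℕ),
      (∀ p ∈ P, 1 ≤ p.2.1 ∧ (p.2.1 : ℝ) ≤ Real.sqrt Y ∧ p.2.1 * p.2.2 ≤ Y ∧
        Real.sqrt Y / 32 ≤ (p.2.2 : ℝ) ∧ (p.2.2 : ℝ) ≤ Y / (Real.log Y) ^ K) ∧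
      ∑ p ∈ P, ((p.2.2 : ℝ) / Y) ^ κ ≤ 2 * Real.log Y ∧
      (((Icc 1 Y).filter (fun n => Y < 2 * n ∧ Even n ∧ Exc A n ∧ ∀ p ∈ P, ¬ apm p n)).card : ℝ) ≤
        (Y : ℝ) ^ (1 / 2 + ε) := by
  obtain ⟨K0, D0, hK0, hmt⟩ := mt (A + 2) K ε κ hε hκ
  obtain ⟨X0, hX0⟩ := hmt (max D0 (A + 5)) (le_max_left _ _)
  obtain ⟨X1, hX1⟩ := point_close A (max D0 (A + 5)) (le_max_right _ _)
  obtain ⟨X2, hX2⟩ := MP_log_large 3
  refine ⟨max (max X0 X1) X2, fun Y hY => ?_⟩
  have hY0 : X0 ≤ Y := (le_max_left _ _).trans ((le_max_left _ _).trans hY)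
  have hY1 : X1 ≤ Y := (le_max_right _ _).trans ((le_max_left _ _).trans hY)
  have hY2 : X2 ≤ Y := (le_max_right _ _).trans hY
  have hL := hX2 Y hY2
  have hYpos : (0 : ℝ) < Y := by
    rcases Nat.eq_zero_or_pos Y with h | h
    · exfalso
      subst h
      simp at hL
      linarith
    · exact_mod_cast h
  have hmt' := hX0 Y hY0
  have hpc := hX1 Y hY1
  set B := (Icc 1 Y).filter (fun n => Y < 2 * n ∧ Even n ∧ Exc A n) with hB
  have hm : (0 : ℝ) < (Y : ℝ) ^ (1 / 2 + ε) := Real.rpow_pos_of_pos hYpos _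
  obtain ⟨P, hP1, hP2, hP3⟩ := greedy (S := apm)
    (wt := fun p : ℤ × ℕ × ℕ => ((p.2.2 : ℝ) / Y) ^ κ) (fun p => by positivity)
    ((Y : ℝ) ^ (1 / 2 + ε)) hm
    (fun p : ℤ × ℕ × ℕ => 1 ≤ p.2.1 ∧ (p.2.1 : ℝ) ≤ Real.sqrt Y ∧ p.2.1 * p.2.2 ≤ Y ∧
        Real.sqrt Y / 32 ≤ (p.2.2 : ℝ) ∧ (p.2.2 : ℝ) ≤ Y / (Real.log Y) ^ K) B (by
      intro E hE hEm
      by_contra hcon
      push Not at hcon
      have hEpos : (0 : ℝ) < E.card := lt_of_lt_of_le hm hEm
      have hE1 : E ⊆ Icc 1 Y := hE.trans (filter_subset _ _)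
      have key := hmt' E hE1 hEm (by
        intro c q T hq1 hq2 hqT hT1 hT2
        rw [gsc_inAP]
        by_cases hex : ∃ n ∈ E, apm (c, q, T) n
        · refine (hcon (c, q, T) ⟨hq1, hq2, hqT, hT1, hT2.trans ?_⟩ hex).le
          apply div_le_div_of_nonneg_left hYpos.le (by positivity)
          exact pow_le_pow_right₀ (by linarith) hK0
        · have : E.filter (fun n => apm (c, q, T) n) = ∅ := by
            rw [filter_eq_empty_iff]
            intro n hn h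
            exact hex ⟨n, hn, h⟩
          rw [this, card_empty, Nat.cast_zero]
          positivity)
        (fun n => if 0 ≤ ((g n : ℝ) - conv2 (wX (max D0 (A + 5)) Y) n) then 1 else -1)
        (fun n => gsc_sign1 _)
      simp only [gsc_sign] at key
      have hlow : ∀ n ∈ E, (Y : ℝ) / (4 * (Real.log Y) ^ A) ≤
          |(g n : ℝ) - conv2 (wX (max D0 (A + 5)) Y) n| := by
        intro n hn
        have h1 := hE hn
        rw [hB, mem_filter, mem_Icc] at h1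
        exact gsc_point A Y n hL h1.2.1 h1.1.2 h1.2.2.2 _
          (hpc n h1.2.2.1 (by omega) h1.1.2)
      have hsum := card_nsmul_le_sum E _ _ hlow
      rw [nsmul_eq_mul] at hsum
      have h2 := hsum.trans ((le_abs_self _).trans key)
      have hpA : 0 < Real.log Y ^ A := pow_pos (by linarith) A
      have hpA2 : 0 < Real.log Y ^ (A + 2) := pow_pos (by linarith) _
      rw [mul_div_assoc', div_le_div_iff₀ (by positivity) hpA2, pow_add] at h2
      have h3 : (0 : ℝ) < E.card * Y * Real.log Y ^ A := by positivity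
      have h4 : (9 : ℝ) ≤ Real.log Y ^ 2 := by nlinarith
      nlinarith)
  refine ⟨P, hP1, hP2.trans ?_, ?_⟩
  · have hc : (B.card : ℝ) ≤ Y := by
      have h1 : B.card ≤ (Icc 1 Y).card := card_filter_le _ _
      rw [Nat.card_Icc, Nat.add_sub_cancel] at h1
      exact_mod_cast h1
    have h2 : Real.log B.card ≤ Real.log Y := by
      rcases Nat.eq_zero_or_pos B.card with h | h
      · rw [h, Nat.cast_zero, Real.log_zero]
        linarith
      · exact Real.log_le_log (by exact_mod_cast h) hc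
    linarith
  · have h1 : (Icc 1 Y).filter (fun n => Y < 2 * n ∧ Even n ∧ Exc A n ∧ ∀ p ∈ P, ¬ apm p n) =
        B.filter (fun n => ∀ p ∈ P, ¬ apm p n) := by
      ext n
      simp only [hB, mem_filter]
      tauto
    rw [h1]
    exact hP3.le

end Pool.MP_dd84fd_nt.GX
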