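import Pool.Agent.Lib.MP_dd84fd_nt.GX.Defs
import Pool.Agent.Lib.MP_dd84fd_nt.GX.GScale
import Pool.Agent.Lib.MP_dd84fd_nt.E2.MinorP

/-!
# GX-GFin: Theorem G
-/

set_option autoImplicit false

namespace Pool.MP_dd84fd_nt.GX

open Finset Pool.MP_67663b_nt.Odd Pool.MP_dd84fd_nt.En Pool.MP_dd84fd_nt.E2 Pool.MP_dd84fd_nt.LS

open Pool.MP_dd84fd_nt.L2G (nrm)

private lemma gf_sum_biUnion {α : Type} [DecidableEq α] (I : Finset ℕ) (t : ℕ → Finset α)
    (f : α → ℝ) (hf : ∀ a, 0 ≤ f a) :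
    ∑ a ∈ I.biUnion t, f a ≤ ∑ i ∈ I, ∑ a ∈ t i, f a := by
  induction I using Finset.induction_on with
  | empty => simp
  | insert i I hi ih =>
    rw [biUnion_insert, sum_insert hi]
    have h1 : ∑ a ∈ t i ∪ I.biUnion t, f a ≤ ∑ a ∈ t i, f a + ∑ a ∈ I.biUnion t, f a := by
      rw [← sum_union_inter (s₁ := t i) (s₂ := I.biUnion t)]
      have : 0 ≤ ∑ a ∈ t i ∩ I.biUnion t, f a := sum_nonneg fun a _ => hf a
      linarith
    linarith

private lemma gf_scale (X n : ℕ) (hn : 1 ≤ n) (hnX : n ≤ X) :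
    ∃ i, i ≤ Nat.log 2 X ∧ n ≤ X / 2 ^ i ∧ X / 2 ^ i < 2 * n := by
  have h0 : X / n ≠ 0 := by
    have := Nat.div_pos hnX hn
    omega
  have hX0 : X ≠ 0 := by omega
  refine ⟨Nat.log 2 (X / n), ?_, ?_, ?_⟩
  · exact Nat.log_mono_right (Nat.div_le_self _ _)
  · rw [Nat.le_div_iff_mul_le (by positivity)]
    have h1 := Nat.pow_log_le_self 2 h0
    have h2 : n * 2 ^ Nat.log 2 (X / n) ≤ n * (X / n) := Nat.mul_le_mul_left _ h1
    exact h2.trans (Nat.mul_div_le _ _)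
  · rw [Nat.div_lt_iff_lt_mul (by positivity)]
    have h1 := Nat.lt_pow_succ_log_self (b := 2) (by norm_num) (X / n)
    rw [Nat.div_lt_iff_lt_mul hn, pow_succ] at h1
    calc X < 2 ^ Nat.log 2 (X / n) * 2 * n := h1
      _ = 2 * n * 2 ^ Nat.log 2 (X / n) := by ring

private lemma gf_log2 (X : ℕ) (hL : 1 ≤ Real.log X) : ((Nat.log 2 X : ℕ) : ℝ) + 1 ≤ 3 * Real.log X := by
  have h1 := Real.natLog_le_logb X 2
  have h2 : (0.6931471803 : ℝ) < Real.log 2 := Real.log_two_gt_d9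
  have h3 : Real.logb 2 X ≤ 2 * Real.log X := by
    rw [Real.logb, div_le_iff₀ (by linarith)]
    nlinarith
  push_cast at h1 h3
  linarith

open Classical in
theorem gfin (A K : ℕ) (ε κ : ℝ) (hε : 0 < ε) (hκ : 0 < κ) : ∃ X0 : ℕ, ∀ X : ℕ, X0 ≤ X →
    ∃ P : Finset (ℤ × ℕ × ℕ),
      (∀ p ∈ P, 1 ≤ p.2.1 ∧ (p.2.1 : ℝ) ≤ Real.sqrt X ∧ p.2.1 * p.2.2 ≤ X ∧
        (X : ℝ) ^ (1 / 5 : ℝ) ≤ (p.2.2 : ℝ) ∧ (p.2.2 : ℝ) ≤ X / (Real.log X) ^ K) ∧
      (P.card : ℝ) ≤ (X : ℝ) ^ κ ∧ ∑ p ∈ P, ((p.2.2 : ℝ) / X) ^ κ ≤ 1 ∧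
      (((Icc 1 X).filter (fun n => Even n ∧ (∀ p ∈ P, ¬ apm p n) ∧ Exc A n)).card : ℝ) ≤
        (X : ℝ) ^ (1 / 2 + ε) := by
  obtain ⟨K', hK'1, hK'2⟩ : ∃ K' : ℕ, K + 1 ≤ K' ∧ 4 ≤ (K' : ℝ) * (κ / 2) := by
    obtain ⟨N, hN⟩ := exists_nat_ge (8 / κ)
    refine ⟨max N (K + 1), le_max_right _ _, ?_⟩
    have h1 : (8 / κ : ℝ) ≤ (max N (K + 1) : ℕ) := hN.trans (by exact_mod_cast le_max_left _ _)
    rw [div_le_iff₀ hκ] at h1
    linarith
  obtain ⟨Y0, hY0⟩ := gscale A K' (ε / 2) (κ / 2) (by positivity) (by positivity)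
  obtain ⟨X1, hX1⟩ := MP_log_large (max 10 (2 ^ (K + 1)))
  obtain ⟨X2, hX2⟩ := MP_log_pow 32 0 (ε := 1 / 20) (by norm_num)
  obtain ⟨X3, hX3⟩ := MP_log_pow (6 * 32 ^ (κ / 2)) 2 (ε := 3 * κ / 4) (by positivity)
  obtain ⟨X4, hX4⟩ := MP_log_pow 4 1 (ε := ε / 2) (by positivity)
  refine ⟨max (max (Y0 ^ 2) X1) (max X2 (max X3 X4)), fun X hX => ?_⟩
  have hXY : Y0 ^ 2 ≤ X := (le_max_left _ _).trans ((le_max_left _ _).trans hX)
  have hX1' : X1 ≤ X := (le_max_right _ _).trans ((le_max_left _ _).trans hX)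
  have hX2' : X2 ≤ X := (le_max_left _ _).trans ((le_max_right _ _).trans hX)
  have hX3' : X3 ≤ X :=
    (le_max_left _ _).trans ((le_max_right _ _).trans ((le_max_right _ _).trans hX))
  have hX4' : X4 ≤ X :=
    (le_max_right _ _).trans ((le_max_right _ _).trans ((le_max_right _ _).trans hX))
  have hL := hX1 X hX1'
  have hL10 : 10 ≤ Real.log X := (le_max_left _ _).trans hL
  have hLK : 2 ^ (K + 1) ≤ Real.log X := (le_max_right _ _).trans hL
  have e2 := hX2 X hX2'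
  have e3 := hX3 X hX3'
  have e4 := hX4 X hX4'
  rw [pow_zero, mul_one] at e2
  rw [pow_one] at e4
  clear hX hX1 hX2 hX3 hX4
  obtain ⟨L, hLdef⟩ : ∃ L : ℝ, L = Real.log X := ⟨_, rfl⟩
  rw [← hLdef] at hL10 hLK e3 e4
  have hXpos : (0 : ℝ) < X := by
    rcases Nat.eq_zero_or_pos X with h | h
    · exfalso
      subst h
      simp at hLdef
      linarith
    · exact_mod_cast h
  have hX1R : (1 : ℝ) ≤ X := by
    have : 1 ≤ X := by
      have : 0 < X := by exact_mod_cast hXpos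
      omega
    exact_mod_cast this
  -- the scales
  obtain ⟨I, hI⟩ : ∃ I : Finset ℕ, I = (range (Nat.log 2 X + 1)).filter
    (fun i => X ≤ (X / 2 ^ i) ^ 2) := ⟨_, rfl⟩
  have hIcard : (I.card : ℝ) ≤ 3 * L := by
    have h1 : I.card ≤ Nat.log 2 X + 1 := by
      rw [hI]
      exact (card_filter_le _ _).trans (by rw [card_range])
    have h2 := gf_log2 X (by rw [← hLdef]; linarith)
    rw [← hLdef] at h2
    have h3 : (I.card : ℝ) ≤ (Nat.log 2 X : ℝ) + 1 := by exact_mod_cast h1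
    linarith
  have hYi : ∀ i ∈ I, X ≤ (X / 2 ^ i) ^ 2 := by
    intro i hi
    rw [hI, mem_filter] at hi
    exact hi.2
  have hex : ∀ i ∈ I, ∃ P : Finset (ℤ × ℕ × ℕ),
      (∀ p ∈ P, 1 ≤ p.2.1 ∧ (p.2.1 : ℝ) ≤ Real.sqrt (X / 2 ^ i : ℕ) ∧ p.2.1 * p.2.2 ≤ X / 2 ^ i ∧
        Real.sqrt (X / 2 ^ i : ℕ) / 32 ≤ (p.2.2 : ℝ) ∧
        (p.2.2 : ℝ) ≤ (X / 2 ^ i : ℕ) / (Real.log (X / 2 ^ i : ℕ)) ^ K') ∧
      ∑ p ∈ P, ((p.2.2 : ℝ) / (X / 2 ^ i : ℕ)) ^ (κ / 2) ≤ 2 * Real.log (X / 2 ^ i : ℕ) ∧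
      (((Icc 1 (X / 2 ^ i)).filter (fun n => X / 2 ^ i < 2 * n ∧ Even n ∧ Exc A n ∧
        ∀ p ∈ P, ¬ apm p n)).card : ℝ) ≤ ((X / 2 ^ i : ℕ) : ℝ) ^ (1 / 2 + ε / 2) := by
    intro i hi
    refine hY0 (X / 2 ^ i) ?_
    have h1 := hXY.trans (hYi i hi)
    exact (Nat.pow_le_pow_iff_left (by norm_num)).1 h1
  choose! f hf1 hf2 hf3 using hex
  -- facts about the scales
  have hsc : ∀ i ∈ I, (1 : ℝ) ≤ (X / 2 ^ i : ℕ) ∧ ((X / 2 ^ i : ℕ) : ℝ) ≤ X ∧
      (X : ℝ) ≤ ((X / 2 ^ i : ℕ) : ℝ) ^ 2 ∧ L / 2 ≤ Real.log (X / 2 ^ i : ℕ) ∧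
      Real.log (X / 2 ^ i : ℕ) ≤ L := by
    intro i hi
    have h1 : (X : ℝ) ≤ ((X / 2 ^ i : ℕ) : ℝ) ^ 2 := by exact_mod_cast hYi i hi
    have h2 : (1 : ℝ) ≤ (X / 2 ^ i : ℕ) := by
      by_contra hlt
      push Not at hlt
      have h3 : (X / 2 ^ i : ℕ) = 0 := by
        have : (X / 2 ^ i : ℕ) < 1 := by exact_mod_cast hlt
        exact Nat.lt_one_iff.1 this
      rw [h3, Nat.cast_zero, zero_pow two_ne_zero] at h1
      linarith
    have h3 : ((X / 2 ^ i : ℕ) : ℝ) ≤ X := by exact_mod_cast Nat.div_le_self _ _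
    refine ⟨h2, h3, h1, ?_, ?_⟩
    · have h4 := Real.log_le_log hXpos h1
      rw [Real.log_pow, ← hLdef] at h4
      push_cast at h4
      linarith
    · rw [hLdef]
      exact Real.log_le_log (by linarith) h3
  have hTX : ∀ i ∈ I, ∀ p ∈ f i, (p.2.2 : ℝ) / X ≤ (2 / L) ^ K' ∧
      (p.2.2 : ℝ) / X ≤ (p.2.2 : ℝ) / (X / 2 ^ i : ℕ) ∧ 1 / (32 * Real.sqrt X) ≤
        (p.2.2 : ℝ) / (X / 2 ^ i : ℕ) ∧ (X : ℝ) ^ (1 / 4 : ℝ) / 32 ≤ p.2.2 := by
    intro i hi p hp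
    obtain ⟨s1, s2, s3, s4, s5⟩ := hsc i hi
    obtain ⟨-, -, -, p4, p5⟩ := hf1 i hi p hp
    obtain ⟨Y, hY⟩ : ∃ Y : ℕ, Y = X / 2 ^ i := ⟨_, rfl⟩
    rw [← hY] at s1 s2 s3 s4 s5 p4 p5 ⊢
    have hYpos : (0 : ℝ) < Y := by linarith
    have hsY : 0 < Real.sqrt Y := Real.sqrt_pos.2 hYpos
    refine ⟨?_, ?_, ?_, ?_⟩
    · rw [div_le_iff₀ hXpos]
      refine p5.trans ?_
      rw [div_eq_mul_inv, mul_comm]
      refine mul_le_mul ?_ s2 (by linarith) (by positivity)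
      rw [← inv_pow]
      refine pow_le_pow_left₀ (by positivity) ?_ K'
      rw [show (2 / L : ℝ) = (L / 2)⁻¹ by rw [inv_div]]
      exact inv_anti₀ (by linarith) s4
    · exact div_le_div_of_nonneg_left (by positivity) hYpos s2
    · have h1 : Real.sqrt Y * Real.sqrt Y = Y := Real.mul_self_sqrt hYpos.le
      have h2 : Real.sqrt Y ≤ Real.sqrt X := Real.sqrt_le_sqrt s2
      calc 1 / (32 * Real.sqrt X) ≤ 1 / (32 * Real.sqrt Y) := by
            apply div_le_div_of_nonneg_left (by norm_num) (by positivity)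
            linarith
        _ = (Real.sqrt Y / 32) / Y := by
            rw [div_div, div_eq_div_iff (by positivity) (by positivity)]
            linear_combination (-32 : ℝ) * h1
        _ ≤ (p.2.2 : ℝ) / Y := by
            exact div_le_div_of_nonneg_right p4 hYpos.le
    · refine le_trans ?_ p4
      apply div_le_div_of_nonneg_right _ (by norm_num)
      rw [Real.sqrt_eq_rpow]
      have h1 : (X : ℝ) ^ (1 / 4 : ℝ) ≤ ((Y : ℝ) ^ 2) ^ (1 / 4 : ℝ) :=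
        Real.rpow_le_rpow hXpos.le s3 (by norm_num)
      refine h1.trans (le_of_eq ?_)
      rw [← Real.rpow_natCast, ← Real.rpow_mul hYpos.le]
      norm_num
  refine ⟨I.biUnion f, ?_, ?_, ?_, ?_⟩
  · intro p hp
    rw [mem_biUnion] at hp
    obtain ⟨i, hi, hp⟩ := hp
    obtain ⟨s1, s2, s3, s4, s5⟩ := hsc i hi
    obtain ⟨p1, p2, p3, p4, p5⟩ := hf1 i hi p hp
    obtain ⟨t1, t2, t3, t4⟩ := hTX i hi p hp
    refine ⟨p1, p2.trans (Real.sqrt_le_sqrt s2), p3.trans (Nat.div_le_self _ _), ?_, ?_⟩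
    · refine le_trans ?_ t4
      rw [le_div_iff₀ (by norm_num)]
      have h1 : (X : ℝ) ^ (1 / 4 : ℝ) = (X : ℝ) ^ (1 / 5 : ℝ) * (X : ℝ) ^ (1 / 20 : ℝ) := by
        rw [← Real.rpow_add hXpos]
        norm_num
      rw [h1]
      exact mul_le_mul_of_nonneg_left e2 (by positivity)
    · rw [div_le_iff₀ hXpos] at t1
      refine t1.trans ?_
      rw [← hLdef, mul_comm, ← mul_one_div (X : ℝ)]
      refine mul_le_mul_of_nonneg_left ?_ hXpos.le
      have hh : (2 / L : ℝ) ^ K' ≤ (2 / L) ^ (K + 1) :=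
        pow_le_pow_of_le_one (by positivity) (by
          rw [div_le_one (by linarith)]
          linarith) hK'1
      refine hh.trans ?_
      rw [_root_.div_pow, div_le_div_iff₀ (by positivity) (by positivity), one_mul, pow_succ L K,
        mul_comm (L ^ K)]
      exact mul_le_mul_of_nonneg_right hLK (by positivity)
  · -- the cardinality
    have hci : ∀ i ∈ I, ((f i).card : ℝ) ≤ 2 * L * (32 * Real.sqrt X) ^ (κ / 2) := by
      intro i hi
      obtain ⟨s1, s2, s3, s4, s5⟩ := hsc i hi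
      have h1 : ∀ p ∈ f i, (1 / (32 * Real.sqrt X)) ^ (κ / 2) ≤
          ((p.2.2 : ℝ) / (X / 2 ^ i : ℕ)) ^ (κ / 2) := by
        intro p hp
        obtain ⟨t1, t2, t3, t4⟩ := hTX i hi p hp
        exact Real.rpow_le_rpow (by positivity) t3 (by positivity)
      have h2 := card_nsmul_le_sum (f i) _ _ h1
      rw [nsmul_eq_mul] at h2
      have h3 := h2.trans (hf2 i hi)
      have hsX : 0 < Real.sqrt X := Real.sqrt_pos.2 hXpos
      have h4 : 0 < (32 * Real.sqrt X) ^ (κ / 2) := by positivity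
      rw [one_div, Real.inv_rpow (by positivity), ← div_eq_mul_inv, div_le_iff₀ h4] at h3
      refine h3.trans ?_
      exact mul_le_mul_of_nonneg_right (by linarith) h4.le
    have h1 : ((I.biUnion f).card : ℝ) ≤ ∑ i ∈ I, ((f i).card : ℝ) := by
      exact_mod_cast card_biUnion_le
    have h2 := sum_le_card_nsmul I _ _ hci
    rw [nsmul_eq_mul] at h2
    have hsX : 0 < Real.sqrt X := Real.sqrt_pos.2 hXpos
    have h3 : (32 * Real.sqrt X) ^ (κ / 2) = 32 ^ (κ / 2) * (X : ℝ) ^ (κ / 4) := by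
      rw [Real.mul_rpow (by norm_num) hsX.le, Real.sqrt_eq_rpow, ← Real.rpow_mul hXpos.le]
      congr 2
      ring
    rw [h3] at h2
    have h4 : (X : ℝ) ^ κ = (X : ℝ) ^ (3 * κ / 4) * (X : ℝ) ^ (κ / 4) := by
      rw [← Real.rpow_add hXpos]
      congr 1
      ring
    rw [h4]
    refine (h1.trans h2).trans ?_
    have h5 : (0 : ℝ) < 32 ^ (κ / 2) := by positivity
    have h6 : (0 : ℝ) < (X : ℝ) ^ (κ / 4) := by positivity
    calc (I.card : ℝ) * (2 * L * (32 ^ (κ / 2) * (X : ℝ) ^ (κ / 4)))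
        ≤ 3 * L * (2 * L * (32 ^ (κ / 2) * (X : ℝ) ^ (κ / 4))) :=
          mul_le_mul_of_nonneg_right hIcard (by positivity)
      _ = 6 * 32 ^ (κ / 2) * L ^ 2 * (X : ℝ) ^ (κ / 4) := by ring
      _ ≤ _ := mul_le_mul_of_nonneg_right e3 h6.le
  · -- the weights
    have hwi : ∀ i ∈ I, ∑ p ∈ f i, ((p.2.2 : ℝ) / X) ^ κ ≤ 2 * L * (2 / L) ^ 4 := by
      intro i hi
      obtain ⟨s1, s2, s3, s4, s5⟩ := hsc i hi
      have h1 : ∀ p ∈ f i, ((p.2.2 : ℝ) / X) ^ κ ≤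
          ((p.2.2 : ℝ) / (X / 2 ^ i : ℕ)) ^ (κ / 2) * (2 / L) ^ 4 := by
        intro p hp
        obtain ⟨t1, t2, t3, t4⟩ := hTX i hi p hp
        have hq : (0 : ℝ) ≤ (p.2.2 : ℝ) / X := by positivity
        have h2 : ((p.2.2 : ℝ) / X) ^ κ = ((p.2.2 : ℝ) / X) ^ (κ / 2) * ((p.2.2 : ℝ) / X) ^ (κ / 2) := by
          rw [← Real.rpow_add' hq (by linarith)]
          congr 1
          ring
        rw [h2]
        refine mul_le_mul (Real.rpow_le_rpow hq t2 (by positivity)) ?_ (by positivity)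
          (by positivity)
        refine (Real.rpow_le_rpow hq t1 (by positivity)).trans ?_
        rw [← Real.rpow_natCast, ← Real.rpow_mul (by positivity), ← Real.rpow_natCast]
        refine Real.rpow_le_rpow_of_exponent_ge (by positivity) ?_ ?_
        · rw [div_le_one (by linarith)]
          linarith
        · push_cast
          exact hK'2
      refine (sum_le_sum h1).trans ?_
      rw [← sum_mul]
      refine mul_le_mul_of_nonneg_right ((hf2 i hi).trans (by linarith)) (by positivity)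
    refine (gf_sum_biUnion I f (fun p => ((p.2.2 : ℝ) / X) ^ κ) (fun p => by positivity)).trans ?_
    have h2 := sum_le_card_nsmul I _ _ hwi
    rw [nsmul_eq_mul] at h2
    refine h2.trans ?_
    calc (I.card : ℝ) * (2 * L * (2 / L) ^ 4) ≤ 3 * L * (2 * L * (2 / L) ^ 4) :=
          mul_le_mul_of_nonneg_right hIcard (by positivity)
      _ = 96 / L ^ 2 := by
          field_simp
          ring
      _ ≤ 1 := by
          rw [div_le_one (by positivity)]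
          nlinarith
  · -- the exceptions
    have hsub : (Icc 1 X).filter (fun n => Even n ∧ (∀ p ∈ I.biUnion f, ¬ apm p n) ∧ Exc A n) ⊆
        Icc 1 (Nat.sqrt X) ∪ I.biUnion (fun i => (Icc 1 (X / 2 ^ i)).filter
          (fun n => X / 2 ^ i < 2 * n ∧ Even n ∧ Exc A n ∧ ∀ p ∈ f i, ¬ apm p n)) := by
      intro n hn
      rw [mem_filter, mem_Icc] at hn
      obtain ⟨⟨hn1, hnX⟩, hev, hap, hexc⟩ := hn
      rw [mem_union]
      by_cases hsq : n ≤ Nat.sqrt X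
      · exact Or.inl (mem_Icc.2 ⟨hn1, hsq⟩)
      · right
        obtain ⟨i, hi1, hi2, hi3⟩ := gf_scale X n hn1 hnX
        have hiI : i ∈ I := by
          rw [hI, mem_filter, mem_range]
          refine ⟨by omega, ?_⟩
          have h1 : X < n ^ 2 := by
            have h2 := Nat.lt_succ_sqrt X
            have h3 : Nat.sqrt X + 1 ≤ n := by omega
            have h4 := Nat.mul_le_mul h3 h3
            rw [pow_two]
            exact lt_of_lt_of_le h2 h4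
          exact h1.le.trans (Nat.pow_le_pow_left hi2 2)
        rw [mem_biUnion]
        refine ⟨i, hiI, ?_⟩
        rw [mem_filter, mem_Icc]
        exact ⟨⟨hn1, hi2⟩, hi3, hev, hexc, fun p hp => hap p (mem_biUnion.2 ⟨i, hiI, hp⟩)⟩
    have h1 : (((Icc 1 X).filter (fun n => Even n ∧ (∀ p ∈ I.biUnion f, ¬ apm p n) ∧
        Exc A n)).card : ℝ) ≤ Nat.sqrt X + ∑ i ∈ I, (((Icc 1 (X / 2 ^ i)).filter
          (fun n => X / 2 ^ i < 2 * n ∧ Even n ∧ Exc A n ∧ ∀ p ∈ f i, ¬ apm p n)).card : ℝ) := by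
      have h2 := (card_le_card hsub).trans ((card_union_le _ _).trans
        (Nat.add_le_add_left card_biUnion_le _))
      rw [Nat.card_Icc, Nat.add_sub_cancel] at h2
      exact_mod_cast h2
    have h2 : ∀ i ∈ I, (((Icc 1 (X / 2 ^ i)).filter
          (fun n => X / 2 ^ i < 2 * n ∧ Even n ∧ Exc A n ∧ ∀ p ∈ f i, ¬ apm p n)).card : ℝ) ≤
        (X : ℝ) ^ (1 / 2 + ε / 2) := by
      intro i hi
      obtain ⟨s1, s2, s3, s4, s5⟩ := hsc i hi
      exact (hf3 i hi).trans (Real.rpow_le_rpow (by linarith) s2 (by positivity))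
    have h3 := sum_le_card_nsmul I _ _ h2
    rw [nsmul_eq_mul] at h3
    have h4 : ((Nat.sqrt X : ℕ) : ℝ) ≤ (X : ℝ) ^ (1 / 2 + ε / 2) := by
      have h5 : ((Nat.sqrt X : ℕ) : ℝ) ≤ Real.sqrt X := Real.nat_sqrt_le_real_sqrt
      rw [Real.sqrt_eq_rpow] at h5
      refine h5.trans (Real.rpow_le_rpow_of_exponent_le hX1R (by linarith))
    have h5 : (X : ℝ) ^ (1 / 2 + ε) = (X : ℝ) ^ (ε / 2) * (X : ℝ) ^ (1 / 2 + ε / 2) := by
      rw [← Real.rpow_add hXpos]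
      congr 1
      ring
    have h6 : (0 : ℝ) < (X : ℝ) ^ (1 / 2 + ε / 2) := by positivity
    rw [h5]
    have h7 : (I.card : ℝ) * (X : ℝ) ^ (1 / 2 + ε / 2) ≤ 3 * L * (X : ℝ) ^ (1 / 2 + ε / 2) :=
      mul_le_mul_of_nonneg_right hIcard h6.le
    have h8 : 4 * L * (X : ℝ) ^ (1 / 2 + ε / 2) ≤ (X : ℝ) ^ (ε / 2) * (X : ℝ) ^ (1 / 2 + ε / 2) :=
      mul_le_mul_of_nonneg_right e4 h6.le
    nlinarith

end Pool.MP_dd84fd_nt.GX
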